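import Pool.Agent.Lib_MP_22bcea_gt.BUb

/-! The sphere chains and the topological part. -/

set_option autoImplicit false

namespace Pool.Agent.Lib_MP_22bcea_gt.BU

open Finsupp

section sph
variable {E : Type*} [AddCommGroup E]

/-- the cross-polytope spheres -/
noncomputable def sph (e : ℕ → E) : ℕ → Ch E
  | 0 => single [] 1
  | k + 1 => cone (e k) (sph e k) + cone (- e k) (sph e k)

/-- hemispheres -/
noncomputable def hem (e : ℕ → E) (k : ℕ) : Ch E := cone (e k) (sph e k)

theorem bd_sph (e : ℕ → E) (k : ℕ) : bd (sph e k) = 0 := by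
  induction k with
  | zero => simp [sph, bdl]
  | succ k ih =>
    rw [sph, map_add, bd_cone, bd_cone, ih, map_zero, map_zero, add_zero]
    exact two_eq_zero _ _

theorem bd_hem (e : ℕ → E) (k : ℕ) : bd (hem e k) = sph e k := by
  rw [hem, bd_cone, bd_sph, map_zero, add_zero]

theorem mp_neg_sph (e : ℕ → E) (k : ℕ) : mp Neg.neg (sph e k) = sph e k := by
  induction k with
  | zero => simp [sph]
  | succ k ih =>
    rw [sph, map_add, mp_cone, mp_cone, ih, neg_neg, add_comm]

theorem sph_succ (e : ℕ → E) (k : ℕ) : sph e (k + 1) = hem e k + mp Neg.neg (hem e k) := by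
  rw [hem, mp_cone, mp_neg_sph]
  rfl

theorem sph_mem {e : ℕ → E} (P : ℕ → List E → Prop) (h0 : P 0 [])
    (h1 : ∀ k l, P k l → P (k + 1) (e k :: l)) (h2 : ∀ k l, P k l → P (k + 1) (- e k :: l))
    (k : ℕ) : sph e k ∈ Sup (P k) := by
  induction k with
  | zero => exact single_mem_Sup h0 1
  | succ k ih =>
    exact Submodule.add_mem _ (cone_mem (h1 k) ih) (cone_mem (h2 k) ih)

theorem hem_len (e : ℕ → E) (k : ℕ) : hem e k ∈ Len E (k + 1) := by
  have h : sph e k ∈ Sup (fun l : List E => l.length = k) :=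
    sph_mem (fun k l => l.length = k) rfl (fun k l h => by simp [h]) (fun k l h => by simp [h]) k
  exact cone_mem (fun l hl => by simp [hl]) h

end sph

section faces
variable {N : ℕ}

/-- coordinate vectors, indexed by naturals -/
def ev (N : ℕ) (k : ℕ) : Fin N → ℝ := fun i => if i.val = k then 1 else 0

/-- faces of the cross-polytope -/
def face (s : Fin N → ℝ) : Set (Fin N → ℝ) := {x | (∀ i, 0 ≤ s i * x i) ∧ ∑ i, s i * x i = 1}

theorem convex_face (s : Fin N → ℝ) : Convex ℝ (face s) := by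
  intro x hx y hy a b ha hb hab
  refine ⟨fun i => ?_, ?_⟩
  · have h1 := hx.1 i
    have h2 := hy.1 i
    have : s i * (a • x + b • y) i = a * (s i * x i) + b * (s i * y i) := by
      simp only [Pi.add_apply, Pi.smul_apply, smul_eq_mul]; ring
    rw [this]
    positivity
  · have : ∀ i, s i * (a • x + b • y) i = a * (s i * x i) + b * (s i * y i) := by
      intro i
      simp only [Pi.add_apply, Pi.smul_apply, smul_eq_mul]; ring
    simp only [this, Finset.sum_add_distrib, ← Finset.mul_sum, hx.2, hy.2, mul_one, hab]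

/-- property of the lists in `sph` -/
def PF (k : ℕ) (l : List (Fin N → ℝ)) : Prop :=
  ∃ s : Fin N → ℝ, (∀ i, s i = 1 ∨ s i = -1) ∧ ∀ p ∈ l, p ∈ face s ∧ ∀ i : Fin N, k ≤ i.val → p i = 0

theorem PF_cons {k : ℕ} (hk : k < N) (t : ℝ) (ht : t = 1 ∨ t = -1) {l : List (Fin N → ℝ)}
    (h : PF k l) : PF (k + 1) ((t • ev N k) :: l) := by
  classical
  obtain ⟨s, hs, hl⟩ := h
  refine ⟨fun i => if i.val = k then t else s i, ?_, ?_⟩
  · intro i
    by_cases hi : i.val = k
    · simp only [hi, if_true]; exact ht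
    · simp only [hi, if_false]; exact hs i
  · have htt : t * t = 1 := by rcases ht with rfl | rfl <;> norm_num
    intro p hp
    rcases List.mem_cons.1 hp with rfl | hp
    · refine ⟨⟨?_, ?_⟩, ?_⟩
      · intro i
        by_cases hi : i.val = k
        · simp only [hi, if_true, Pi.smul_apply, ev, smul_eq_mul, mul_one, htt]
          exact zero_le_one
        · simp [hi, ev]
      · rw [Finset.sum_eq_single ⟨k, hk⟩]
        · simp only [if_true, Pi.smul_apply, ev, smul_eq_mul, mul_one, htt]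
        · intro i _ hi
          have : i.val ≠ k := fun e => hi (Fin.ext e)
          simp [this, ev]
        · intro h; exact absurd (Finset.mem_univ _) h
      · intro i hi
        have : i.val ≠ k := by omega
        simp [this, ev]
    · obtain ⟨hf, hz⟩ := hl p hp
      have hsame : ∀ i : Fin N, (if i.val = k then t else s i) * p i = s i * p i := by
        intro i
        by_cases hi : i.val = k
        · rw [hz i (by omega)]; simp
        · simp [hi]
      refine ⟨⟨?_, ?_⟩, fun i hi => hz i (by omega)⟩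
      · intro i; rw [hsame]; exact hf.1 i
      · rw [Finset.sum_congr rfl (fun i _ => hsame i)]; exact hf.2

theorem sph_PF (k : ℕ) (hk : k ≤ N) : sph (ev N) k ∈ Sup (PF (N := N) k) := by
  induction k with
  | zero =>
    exact single_mem_Sup ⟨fun _ => 1, fun _ => Or.inl rfl, by simp⟩ 1
  | succ k ih =>
    refine Submodule.add_mem _ (cone_mem (fun l hl => ?_) (ih (by omega)))
      (cone_mem (fun l hl => ?_) (ih (by omega)))
    · have := PF_cons (by omega) 1 (Or.inl rfl) hl
      rwa [one_smul] at this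
    · have := PF_cons (by omega) (-1) (Or.inr rfl) hl
      rwa [neg_one_smul] at this

theorem hem_PF (k : ℕ) (hk : k < N) : hem (ev N) k ∈ Sup (PF (N := N) (k + 1)) := by
  refine cone_mem (fun l hl => ?_) (sph_PF k hk.le)
  have := PF_cons hk 1 (Or.inl rfl) hl
  rwa [one_smul] at this

/-- the `l1` unit sphere -/
def KK (N : ℕ) : Set (Fin N → ℝ) := {x | ∑ i, |x i| = 1}

theorem face_sub {s : Fin N → ℝ} (hs : ∀ i, s i = 1 ∨ s i = -1) {x : Fin N → ℝ}
    (hx : x ∈ face s) : x ∈ KK N := by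
  show ∑ i, |x i| = 1
  rw [← hx.2]
  refine Finset.sum_congr rfl (fun i _ => ?_)
  have h1 := hx.1 i
  rcases hs i with h | h
  · rw [h, one_mul] at h1 ⊢
    exact abs_of_nonneg h1
  · rw [h] at h1 ⊢
    rw [abs_of_nonpos (by linarith)]; ring

theorem KK_neg {x : Fin N → ℝ} (hx : x ∈ KK N) : -x ∈ KK N := by
  show ∑ i, |(-x) i| = 1
  simpa [KK] using hx

theorem KK_ne {x : Fin N → ℝ} (hx : x ∈ KK N) : x ≠ 0 := by
  rintro rfl
  have : ∑ i : Fin N, |(0 : Fin N → ℝ) i| = 1 := hx
  simp at this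

theorem KK_abs_le {x : Fin N → ℝ} (hx : x ∈ KK N) (i : Fin N) : |x i| ≤ 1 := by
  have h1 : ∑ i, |x i| = 1 := hx
  rw [← h1]
  exact Finset.single_le_sum (fun j _ => abs_nonneg (x j)) (Finset.mem_univ i)

theorem KK_compact : IsCompact (KK N) := by
  refine Metric.isCompact_of_isClosed_isBounded ?_ ?_
  · exact isClosed_eq (by fun_prop) continuous_const
  · rw [Metric.isBounded_iff_subset_closedBall 0]
    refine ⟨1, fun x hx => ?_⟩
    rw [mem_closedBall_zero_iff, pi_norm_le_iff_of_nonneg zero_le_one]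
    intro i
    exact KK_abs_le hx i

theorem KK_dist {x y : Fin N → ℝ} (hx : x ∈ KK N) (hy : y ∈ KK N) : dist x y ≤ 2 := by
  rw [dist_pi_le_iff (by norm_num)]
  intro i
  rw [Real.dist_eq]
  have h1 := abs_le.1 (KK_abs_le hx i)
  have h2 := abs_le.1 (KK_abs_le hy i)
  rw [abs_le]
  constructor <;> linarith

end faces

/-- the key nonexistence theorem -/
theorem no_odd_map {n : ℕ} (hn : 1 ≤ n) (G : (Fin (n + 1) → ℝ) → Fin n → ℝ)
    (hG : ContinuousOn G (KK (n + 1))) (hodd : ∀ x ∈ KK (n + 1), G (-x) = - G x)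
    (hne : ∀ x ∈ KK (n + 1), G x ≠ 0) : False := by
  classical
  set K := KK (n + 1) with hK
  have hKc : IsCompact K := KK_compact
  have hnonempty : K.Nonempty := by
    refine ⟨ev (n + 1) 0, face_sub (s := fun _ => 1) (fun _ => Or.inl rfl) ⟨?_, ?_⟩⟩
    · intro i; simp only [ev]; split_ifs <;> norm_num
    · rw [Finset.sum_eq_single ⟨0, by omega⟩]
      · simp [ev]
      · intro i _ hi
        have : i.val ≠ 0 := fun e => hi (Fin.ext e)
        simp [this, ev]
      · intro h; exact absurd (Finset.mem_univ _) h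
  -- minimum of the norm
  obtain ⟨μ, hμ, hμK⟩ : ∃ μ : ℝ, 0 < μ ∧ ∀ x ∈ K, μ ≤ ‖G x‖ := by
    obtain ⟨x0, hx0, hmin⟩ := hKc.exists_isMinOn hnonempty hG.norm
    exact ⟨‖G x0‖, norm_pos_iff.2 (hne x0 hx0), fun x hx => hmin hx⟩
  -- uniform continuity
  have huc := hKc.uniformContinuousOn_of_continuous hG
  rw [Metric.uniformContinuousOn_iff] at huc
  obtain ⟨ε, hε, huc⟩ := huc μ hμ
  -- the label
  have : Nonempty (Fin n) := ⟨⟨0, by omega⟩⟩
  have hmaxi : ∀ v : Fin n → ℝ, ∃ i, ∀ j, v j ≤ v i := fun v => Finite.exists_max v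
  let am : (Fin n → ℝ) → Fin n := fun v => Classical.choose (hmaxi v)
  have ham : ∀ (v : Fin n → ℝ) (j : Fin n), v j ≤ v (am v) :=
    fun v => Classical.choose_spec (hmaxi v)
  let lab : (Fin (n + 1) → ℝ) → Lab n := fun p =>
    (am (fun i => |G p i|), decide (0 < G p (am (fun i => |G p i|))))
  have hnorm : ∀ p ∈ K, μ ≤ |G p (am (fun i => |G p i|))| := by
    intro p hp
    refine (hμK p hp).trans ?_
    rw [pi_norm_le_iff_of_nonneg (abs_nonneg _)]
    intro j
    exact ham (fun i => |G p i|) j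
  have hlabneg : ∀ p ∈ K, lab (-p) = opp (lab p) := by
    intro p hp
    have h1 : (fun i => |G (-p) i|) = (fun i => |G p i|) := by
      funext i; rw [hodd p hp, Pi.neg_apply, abs_neg]
    have h2 := hnorm p hp
    show ((am (fun i => |G (-p) i|), decide (0 < G (-p) (am (fun i => |G (-p) i|)))) : Lab n)
      = ((am (fun i => |G p i|)), !decide (0 < G p (am (fun i => |G p i|))))
    rw [h1, hodd p hp, Pi.neg_apply]
    congr 1
    have h3 : G p (am (fun i => |G p i|)) ≠ 0 := by
      intro h0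
      rw [h0, abs_zero] at h2
      linarith
    rcases lt_or_gt_of_ne h3 with h4 | h4
    · simp [h4, h4.le]
    · simp [h4, h4.le]
  have hlabopp : ∀ p ∈ K, ∀ q ∈ K, dist p q < ε → opp (lab p) ≠ lab q := by
    intro p hp q hq hd heq
    have h1 := huc p hp q hq hd
    have h2 := hnorm p hp
    have h3 := hnorm q hq
    rw [Prod.ext_iff] at heq
    obtain ⟨h4, h5⟩ := heq
    have h4' : am (fun i => |G p i|) = am (fun i => |G q i|) := h4
    have h5' : (!decide (0 < G p (am (fun i => |G p i|)))) = decide (0 < G q (am (fun i => |G q i|))) :=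
      h5
    rw [← h4'] at h3 h5'
    have h6 : dist (G p (am (fun i => |G p i|))) (G q (am (fun i => |G p i|))) < μ :=
      lt_of_le_of_lt (dist_le_pi_dist (G p) (G q) _) h1
    rw [Real.dist_eq] at h6
    set a := G p (am (fun i => |G p i|))
    set b := G q (am (fun i => |G p i|))
    have h7 := abs_lt.1 h6
    by_cases ha : 0 < a
    · have hb : ¬ 0 < b := by
        intro hb
        simp [ha, hb] at h5'
      rw [abs_of_pos ha] at h2
      rw [abs_of_nonpos (not_lt.1 hb)] at h3
      linarith [h7.2]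
    · have hb : 0 < b := by
        by_contra hb
        simp [ha, hb] at h5'
      rw [abs_of_nonpos (not_lt.1 ha)] at h2
      rw [abs_of_pos hb] at h3
      linarith [h7.1]
  -- number of subdivisions
  obtain ⟨r, hr⟩ : ∃ r : ℕ, ((n : ℝ) / (n + 1)) ^ r * 2 < ε := by
    have h1 : (n : ℝ) / (n + 1) < 1 := by
      rw [div_lt_one (by positivity)]; linarith
    obtain ⟨r, hr⟩ := exists_pow_lt_of_lt_one (show (0 : ℝ) < ε / 2 by positivity) h1
    exact ⟨r, by linarith⟩
  -- the sign vectors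
  let ι := {s : Fin (n + 1) → ℝ // ∀ i, s i = 1 ∨ s i = -1}
  let A : ι → Set (Fin (n + 1) → ℝ) := fun s => face s.1
  have hmesh : ∀ k ≤ n, sdI (k + 1) r (hem (ev (n + 1)) k) ∈
      Sup (fun l : List (Fin (n + 1) → ℝ) => ∃ i, Msh (A i) (((n : ℝ) / (n + 1)) ^ r * 2) l) := by
    intro k hk
    refine sdI_mesh (by norm_num) (k + 1) (by omega) r A (fun i => convex_face i.1)
      (hem_len _ k) ?_
    refine Sup_mono ?_ (hem_PF (N := n + 1) k (by omega))
    rintro l ⟨s, hs, hl⟩
    refine ⟨⟨s, hs⟩, fun p hp => (hl p hp).1, fun p hp q hq => ?_⟩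
    exact KK_dist (face_sub hs (hl p hp).1) (face_sub hs (hl q hq).1)
  have hall : ∀ k ≤ n, sdI (k + 1) r (hem (ev (n + 1)) k) ∈
      Sup (fun l : List (Fin (n + 1) → ℝ) => l.length = k + 1 ∧ (∀ p ∈ l, p ∈ K) ∧
        ∀ p ∈ l, ∀ q ∈ l, dist p q < ε) := by
    intro k hk
    have h1 := hmesh k hk
    have h2 := sdI_len (k + 1) r (hem_len (ev (n + 1)) k)
    rw [mem_Sup] at h1 h2 ⊢
    intro l hl
    obtain ⟨i, hi1, hi2⟩ := h1 l hl
    exact ⟨h2 l hl, fun p hp => face_sub i.2 (hi1 p hp),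
      fun p hp q hq => lt_of_le_of_lt (hi2 p hp q hq) hr⟩
  -- the sequence of chains
  let c : ℕ → T n := fun k => eps (mp lab (sdI (k + 1) r (hem (ev (n + 1)) k)))
  refine no_sequence c ?_ ?_ ?_
  · intro k hk
    apply eps_mem
    refine mp_mem (f := lab) (fun l hl => ?_) (hall k hk)
    obtain ⟨h1, h2, h3⟩ := hl
    refine ⟨by rw [List.length_map, h1], ?_⟩
    intro a ha ha'
    obtain ⟨p, hp, rfl⟩ := List.mem_map.1 ha
    obtain ⟨q, hq, hqe⟩ := List.mem_map.1 ha'
    exact hlabopp p (h2 p hp) q (h2 q hq) (h3 p hp q hq) hqe.symm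
  · show bdT (eps (mp lab (sdI 1 r (hem (ev (n + 1)) 0)))) = single ∅ 1
    rw [← eps_bd, ← mp_bd, bd_sdI 0 r (hem_len _ 0), bd_hem]
    have h1 : ∀ r : ℕ, sdI 0 r (sph (ev (n + 1)) 0) = single [] 1 := by
      intro r
      induction r with
      | zero => rfl
      | succ r ih =>
        show sdN 0 (sdI 0 r (sph (ev (n + 1)) 0)) = single [] 1
        rw [ih]; rfl
    rw [h1, mp_single, List.map_nil, eps_nil]
  · intro k hk
    show bdT (eps (mp lab (sdI (k + 2) r (hem (ev (n + 1)) (k + 1)))))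
      = eps (mp lab (sdI (k + 1) r (hem (ev (n + 1)) k)))
        + nuT (eps (mp lab (sdI (k + 1) r (hem (ev (n + 1)) k))))
    rw [← eps_bd, ← mp_bd, bd_sdI (k + 1) r (hem_len _ (k + 1)), bd_hem, sph_succ, map_add,
      map_add, map_add, ← mp_neg_sdI, ← eps_opp]
    congr 2
    -- mp lab ∘ neg = opp ∘ mp lab on chains in K
    refine lin_ext_on (f := (mp lab).comp (mp Neg.neg)) (g := (mp opp).comp (mp lab))
      (fun l hl => ?_) (hall k (by omega))
    simp only [LinearMap.comp_apply, mp_single, List.map_map]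
    congr 1
    apply List.map_congr_left
    intro p hp
    exact hlabneg p (hl.2.1 p hp)

end BU

open BU in
/-- Borsuk-Ulam theorem. -/
theorem borsuk_ulam {n : ℕ} {E : Type*} [NormedAddCommGroup E] [InnerProductSpace ℝ E]
    [FiniteDimensional ℝ E] (hn : n < Module.finrank ℝ E) (F : E → Fin n → ℝ)
    (hF : ContinuousOn F (Metric.sphere 0 1))
    (hodd : ∀ x ∈ Metric.sphere (0 : E) 1, F (-x) = - F x) :
    ∃ x ∈ Metric.sphere (0 : E) 1, F x = 0 := by
  rcases Nat.eq_zero_or_pos n with h0 | hpos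
  · subst h0
    have : Nontrivial E := Module.nontrivial_of_finrank_pos hn
    obtain ⟨x, hx⟩ := exists_norm_eq E (zero_le_one' ℝ)
    exact ⟨x, by simpa using hx, Subsingleton.elim _ _⟩
  by_contra hcon
  push Not at hcon
  -- linear injection
  obtain ⟨v, hv⟩ : ∃ v : Fin (n + 1) → E, LinearIndependent ℝ v := by
    let b := Module.finBasis ℝ E
    refine ⟨fun i => b (Fin.castLE hn i), ?_⟩
    exact b.linearIndependent.comp _ (Fin.castLE_injective hn)
  let L : (Fin (n + 1) → ℝ) →ₗ[ℝ] E := Fintype.linearCombination ℝ v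
  have hL : Function.Injective L := hv.fintypeLinearCombination_injective
  have hLc : Continuous L := L.continuous_of_finiteDimensional
  have hL0 : ∀ x ∈ KK (n + 1), L x ≠ 0 := by
    intro x hx h
    exact KK_ne hx (hL (by rw [h, map_zero]))
  let u : (Fin (n + 1) → ℝ) → E := fun x => ‖L x‖⁻¹ • L x
  have hu : ∀ x ∈ KK (n + 1), u x ∈ Metric.sphere (0 : E) 1 := by
    intro x hx
    rw [mem_sphere_zero_iff_norm, norm_smul, norm_inv, norm_norm,
      inv_mul_cancel₀ (norm_ne_zero_iff.2 (hL0 x hx))]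
  have huc : ContinuousOn u (KK (n + 1)) := by
    refine ContinuousOn.smul ?_ hLc.continuousOn
    exact (hLc.norm.continuousOn).inv₀ (fun x hx => norm_ne_zero_iff.2 (hL0 x hx))
  refine no_odd_map hpos (fun x => F (u x)) (hF.comp huc hu) ?_ ?_
  · intro x hx
    have : u (-x) = - u x := by
      show ‖L (-x)‖⁻¹ • L (-x) = -(‖L x‖⁻¹ • L x)
      rw [map_neg, norm_neg, smul_neg]
    show F (u (-x)) = - F (u x)
    rw [this]
    exact hodd _ (hu x hx)
  · intro x hx
    exact hcon _ (hu x hx)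

end Pool.Agent.Lib_MP_22bcea_gt
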