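import Mathlib

/-! Mod 2 chains on lists: cones, boundary, maps, barycentric subdivision. -/

set_option autoImplicit false

namespace Pool.Agent.Lib_MP_22bcea_gt.BU

open Finsupp

/-- chains: formal `ZMod 2` combinations of lists -/
abbrev Ch (X : Type*) := List X →₀ ZMod 2

section chains
variable {X Y : Type*}

theorem two_eq_zero (M : Type*) [AddCommGroup M] [Module (ZMod 2) M] (x : M) : x + x = 0 := by
  have h : (2 : ZMod 2) • x = 0 := by
    rw [show (2 : ZMod 2) = 0 from rfl, zero_smul]
  rwa [two_smul] at h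

noncomputable def cone (a : X) : Ch X →ₗ[ZMod 2] Ch X := Finsupp.lmapDomain _ _ (List.cons a)

@[simp] theorem cone_single (a : X) (l : List X) (r : ZMod 2) :
    cone a (single l r) = single (a :: l) r := by
  simp [cone, Finsupp.lmapDomain_apply, Finsupp.mapDomain_single]

noncomputable def bdl : List X → Ch X
  | [] => 0
  | a :: l => single l 1 + cone a (bdl l)

noncomputable def bd : Ch X →ₗ[ZMod 2] Ch X := Finsupp.linearCombination (ZMod 2) bdl

@[simp] theorem bd_single (l : List X) : bd (single l 1) = bdl l := by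
  simp [bd]

/-- extensionality for linear maps on chains -/
theorem lin_ext {M : Type*} [AddCommGroup M] [Module (ZMod 2) M] {f g : Ch X →ₗ[ZMod 2] M}
    (h : ∀ l, f (single l 1) = g (single l 1)) (c : Ch X) : f c = g c := by
  have : f = g := Finsupp.lhom_ext' (fun l => LinearMap.ext_ring (h l))
  rw [this]

theorem bd_cone (a : X) (c : Ch X) : bd (cone a c) = c + cone a (bd c) := by
  refine lin_ext (f := bd.comp (cone a)) (g := LinearMap.id + (cone a).comp bd) ?_ c
  intro l
  simp only [LinearMap.comp_apply, LinearMap.add_apply, LinearMap.id_apply, cone_single,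
    bd_single]
  rfl

theorem bd_bdl (l : List X) : bd (bdl l) = 0 := by
  induction l with
  | nil => simp [bdl]
  | cons a l ih =>
    rw [bdl, map_add, bd_single, bd_cone, ih, map_zero, add_zero]
    exact two_eq_zero _ _

theorem bd_bd (c : Ch X) : bd (bd c) = 0 := by
  refine lin_ext (f := bd.comp bd) (g := 0) ?_ c
  intro l
  simp only [LinearMap.comp_apply, bd_single, bd_bdl, LinearMap.zero_apply]

/-- push forward -/
noncomputable def mp (f : X → Y) : Ch X →ₗ[ZMod 2] Ch Y := Finsupp.lmapDomain _ _ (List.map f)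

@[simp] theorem mp_single (f : X → Y) (l : List X) (r : ZMod 2) :
    mp f (single l r) = single (l.map f) r := by
  simp [mp, Finsupp.lmapDomain_apply, Finsupp.mapDomain_single]

theorem mp_cone (f : X → Y) (a : X) (c : Ch X) : mp f (cone a c) = cone (f a) (mp f c) := by
  refine lin_ext (f := (mp f).comp (cone a)) (g := (cone (f a)).comp (mp f)) ?_ c
  intro l
  simp

theorem mp_bdl (f : X → Y) (l : List X) : mp f (bdl l) = bdl (l.map f) := by
  induction l with
  | nil => simp [bdl]
  | cons a l ih =>
    rw [bdl, map_add, mp_cone, ih, mp_single, List.map_cons, bdl]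

theorem mp_bd (f : X → Y) (c : Ch X) : mp f (bd c) = bd (mp f c) := by
  refine lin_ext (f := (mp f).comp bd) (g := bd.comp (mp f)) ?_ c
  intro l
  simp only [LinearMap.comp_apply, bd_single, mp_single, mp_bdl]

theorem mp_mp {Z : Type*} (f : X → Y) (g : Y → Z) (c : Ch X) : mp g (mp f c) = mp (g ∘ f) c := by
  refine lin_ext (f := (mp g).comp (mp f)) (g := mp (g ∘ f)) ?_ c
  intro l
  simp

/-- chains supported on lists with a property -/
def Sup (P : List X → Prop) : Submodule (ZMod 2) (Ch X) :=
  Finsupp.supported (ZMod 2) (ZMod 2) {l | P l}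

theorem mem_Sup {P : List X → Prop} {c : Ch X} : c ∈ Sup P ↔ ∀ l ∈ c.support, P l := by
  unfold Sup
  rw [Finsupp.mem_supported]
  rfl

theorem single_mem_Sup {P : List X → Prop} {l : List X} (h : P l) (r : ZMod 2) :
    single l r ∈ Sup P := Finsupp.single_mem_supported _ _ h

theorem Sup_mono {P Q : List X → Prop} (h : ∀ l, P l → Q l) {c : Ch X} (hc : c ∈ Sup P) :
    c ∈ Sup Q := Finsupp.supported_mono (fun l hl => h l hl) hc

/-- linear maps and supports -/
theorem map_mem_of {M : Type*} [AddCommGroup M] [Module (ZMod 2) M] {P : List X → Prop}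
    {W : Submodule (ZMod 2) M} (f : Ch X →ₗ[ZMod 2] M) (h : ∀ l, P l → f (single l 1) ∈ W)
    {c : Ch X} (hc : c ∈ Sup P) : f c ∈ W := by
  have h1 : Sup P = Submodule.span (ZMod 2) ((fun l => single l (1 : ZMod 2)) '' {l | P l}) :=
    Finsupp.supported_eq_span_single _ _
  rw [h1] at hc
  induction hc using Submodule.span_induction with
  | mem x hx =>
    obtain ⟨l, hl, rfl⟩ := hx
    exact h l hl
  | zero => rw [map_zero]; exact W.zero_mem
  | add x y _ _ hx hy => rw [map_add]; exact W.add_mem hx hy
  | smul r x _ hx => rw [map_smul]; exact W.smul_mem r hx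

/-- two linear maps agreeing on the lists of a property agree on supported chains -/
theorem lin_ext_on {M : Type*} [AddCommGroup M] [Module (ZMod 2) M] {P : List X → Prop}
    {f g : Ch X →ₗ[ZMod 2] M} (h : ∀ l, P l → f (single l 1) = g (single l 1)) {c : Ch X}
    (hc : c ∈ Sup P) : f c = g c := by
  have := map_mem_of (f - g) (W := ⊥) (P := P) (fun l hl => by
    rw [LinearMap.sub_apply, h l hl, sub_self]; exact Submodule.zero_mem _) hc
  rw [Submodule.mem_bot, LinearMap.sub_apply, sub_eq_zero] at this
  exact this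

theorem cone_mem {P Q : List X → Prop} {a : X} (h : ∀ l, P l → Q (a :: l)) {c : Ch X}
    (hc : c ∈ Sup P) : cone a c ∈ Sup Q :=
  map_mem_of (cone a) (fun l hl => by rw [cone_single]; exact single_mem_Sup (h l hl) 1) hc

theorem mp_mem {P : List X → Prop} {Q : List Y → Prop} {f : X → Y}
    (h : ∀ l, P l → Q (l.map f)) {c : Ch X} (hc : c ∈ Sup P) : mp f c ∈ Sup Q :=
  map_mem_of (mp f) (fun l hl => by rw [mp_single]; exact single_mem_Sup (h l hl) 1) hc

/-- faces of a list: sublists with one element less -/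
theorem bdl_mem (l : List X) : bdl l ∈ Sup (fun l' : List X => l'.length + 1 = l.length ∧
    ∀ x ∈ l', x ∈ l) := by
  induction l with
  | nil => exact Submodule.zero_mem _
  | cons a l ih =>
    refine Submodule.add_mem _ (single_mem_Sup ⟨by simp, fun x hx => List.mem_cons_of_mem _ hx⟩ 1) ?_
    refine cone_mem ?_ ih
    rintro l' ⟨h1, h2⟩
    refine ⟨by simp [h1], ?_⟩
    intro x hx
    rcases List.mem_cons.1 hx with rfl | hx
    · exact List.mem_cons_self
    · exact List.mem_cons_of_mem _ (h2 x hx)

/-- chains of lists of length `k` -/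
abbrev Len (X : Type*) (k : ℕ) : Submodule (ZMod 2) (Ch X) := Sup (fun l : List X => l.length = k)

theorem bd_len {k : ℕ} {c : Ch X} (hc : c ∈ Len X (k + 1)) : bd c ∈ Len X k := by
  refine map_mem_of bd (fun l hl => ?_) hc
  rw [bd_single]
  exact Sup_mono (fun l' h => by have := h.1; omega) (bdl_mem l)

end chains

section sub
variable {E : Type*} [NormedAddCommGroup E] [NormedSpace ℝ E]

/-- barycentre -/
noncomputable def bary (l : List E) : E := (l.length : ℝ)⁻¹ • l.sum

theorem bary_neg (l : List E) : bary (l.map Neg.neg) = - bary l := by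
  unfold bary
  rw [List.length_map, ← smul_neg]
  congr 1
  induction l with
  | nil => simp
  | cons a l ih => simp [ih]; abel

noncomputable def sdN : ℕ → (Ch E →ₗ[ZMod 2] Ch E)
  | 0 => LinearMap.id
  | k + 1 => Finsupp.linearCombination (ZMod 2) (fun l => cone (bary l) (sdN k (bdl l)))

theorem sdN_single (k : ℕ) (l : List E) :
    sdN (k + 1) (single l 1) = cone (bary l) (sdN k (bdl l)) := by
  simp [sdN]

theorem sdN_len (k : ℕ) {c : Ch E} (hc : c ∈ Len E k) : sdN k c ∈ Len E k := by
  induction k generalizing c with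
  | zero => exact hc
  | succ k ih =>
    refine map_mem_of (sdN (k + 1)) (fun l hl => ?_) hc
    rw [sdN_single]
    refine cone_mem (P := fun l => l.length = k) (fun l' hl' => by simp [hl']) (ih ?_)
    exact Sup_mono (fun l' h => by have := h.1; omega) (bdl_mem l)

theorem bd_sdN (k : ℕ) {c : Ch E} (hc : c ∈ Len E (k + 1)) :
    bd (sdN (k + 1) c) = sdN k (bd c) := by
  induction k generalizing c with
  | zero =>
    rw [← LinearMap.comp_apply, ← LinearMap.comp_apply]
    refine lin_ext_on (fun l hl => ?_) hc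
    simp only [LinearMap.comp_apply, sdN_single, bd_single]
    match l, hl with
    | [a], _ =>
      simp [bdl, sdN]
  | succ k ih =>
    rw [← LinearMap.comp_apply, ← LinearMap.comp_apply]
    refine lin_ext_on (fun l hl => ?_) hc
    simp only [LinearMap.comp_apply, sdN_single, bd_single]
    rw [bd_cone, ih, bd_bdl, map_zero, map_zero, add_zero]
    exact Sup_mono (fun l' h => by have := h.1; omega) (bdl_mem l)

theorem mp_neg_sdN (k : ℕ) (c : Ch E) : mp Neg.neg (sdN k c) = sdN k (mp Neg.neg c) := by
  induction k generalizing c with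
  | zero => rfl
  | succ k ih =>
    rw [← LinearMap.comp_apply, ← LinearMap.comp_apply]
    refine lin_ext ?_ c
    intro l
    simp only [LinearMap.comp_apply, sdN_single, mp_single, mp_cone, ih, mp_bdl, bary_neg]

/-- mesh and convexity property -/
def Msh (A : Set E) (D : ℝ) (l : List E) : Prop := (∀ p ∈ l, p ∈ A) ∧ ∀ p ∈ l, ∀ q ∈ l, dist p q ≤ D

theorem bary_mem {A : Set E} (hA : Convex ℝ A) {l : List E} (hl : l ≠ [])
    (h : ∀ p ∈ l, p ∈ A) : bary l ∈ A := by
  have key : ∀ l : List E, l ≠ [] → (∀ p ∈ l, p ∈ A) → ∃ x ∈ A, l.sum = (l.length : ℝ) • x := by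
    intro l
    induction l with
    | nil => intro h; exact absurd rfl h
    | cons a l ih =>
      intro _ h
      have ha := h a List.mem_cons_self
      by_cases hl : l = []
      · subst hl
        exact ⟨a, ha, by simp⟩
      · obtain ⟨x, hx, hsum⟩ := ih hl (fun p hp => h p (List.mem_cons_of_mem _ hp))
        have hpos : (0 : ℝ) < l.length := by
          have := List.length_pos_iff.2 hl
          exact_mod_cast this
        refine ⟨(1 / (1 + (l.length : ℝ))) • a + ((l.length : ℝ) / (1 + l.length)) • x,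
          hA ha hx (by positivity) (by positivity) (by field_simp), ?_⟩
        rw [List.sum_cons, hsum, List.length_cons, Nat.cast_add, Nat.cast_one, smul_add,
          smul_smul, smul_smul]
        have e1 : ((l.length : ℝ) + 1) * (1 / (1 + (l.length : ℝ))) = 1 := by field_simp; ring
        have e2 : ((l.length : ℝ) + 1) * ((l.length : ℝ) / (1 + l.length)) = l.length := by
          field_simp; ring
        rw [e1, e2, one_smul]
  obtain ⟨x, hx, hsum⟩ := key l hl h
  unfold bary
  have hpos : (0 : ℝ) < l.length := by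
    have := List.length_pos_iff.2 hl
    exact_mod_cast this
  rw [hsum, smul_smul, inv_mul_cancel₀ hpos.ne', one_smul]
  exact hx

theorem dist_bary_le {l : List E} {q : E} (hq : q ∈ l) {D : ℝ} (hD : 0 ≤ D)
    (h : ∀ p ∈ l, dist p q ≤ D) {n : ℕ} (hn : l.length ≤ n + 1) :
    dist (bary l) q ≤ (n : ℝ) / (n + 1) * D := by
  -- ‖Σ (p - q)‖ ≤ (length - 1) D
  have hne : l ≠ [] := List.ne_nil_of_mem hq
  have hpos : (0 : ℝ) < l.length := by
    have := List.length_pos_iff.2 hne
    exact_mod_cast this
  have key : ∀ l : List E, (∀ p ∈ l, dist p q ≤ D) →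
      ‖l.sum - (l.length : ℝ) • q‖ ≤ (l.length : ℝ) * D := by
    intro l
    induction l with
    | nil => intro _; simp
    | cons a l ih =>
      intro h
      have h1 := ih (fun p hp => h p (List.mem_cons_of_mem _ hp))
      have h2 := h a List.mem_cons_self
      rw [dist_eq_norm] at h2
      have : (a :: l).sum - ((a :: l).length : ℝ) • q = (a - q) + (l.sum - (l.length : ℝ) • q) := by
        rw [List.sum_cons, List.length_cons]
        push_cast
        module
      rw [this]
      refine (norm_add_le _ _).trans ?_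
      rw [List.length_cons]
      push_cast
      linarith
  have key2 : ‖l.sum - (l.length : ℝ) • q‖ ≤ ((l.length : ℝ) - 1) * D := by
    obtain ⟨l1, l2, rfl⟩ := List.append_of_mem hq
    have h1 := key (l1 ++ l2) (fun p hp => h p (by
      rw [List.mem_append] at hp ⊢
      rcases hp with hp | hp
      · exact Or.inl hp
      · exact Or.inr (List.mem_cons_of_mem _ hp)))
    have : (l1 ++ q :: l2).sum - ((l1 ++ q :: l2).length : ℝ) • q
        = (l1 ++ l2).sum - ((l1 ++ l2).length : ℝ) • q := by
      simp only [List.sum_append, List.sum_cons, List.length_append, List.length_cons]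
      push_cast
      module
    rw [this]
    refine h1.trans (le_of_eq ?_)
    simp only [List.length_append, List.length_cons]
    push_cast
    ring
  have e : bary l - q = (l.length : ℝ)⁻¹ • (l.sum - (l.length : ℝ) • q) := by
    unfold bary
    rw [smul_sub, smul_smul, inv_mul_cancel₀ hpos.ne', one_smul]
  rw [dist_eq_norm, e, norm_smul, Real.norm_eq_abs, abs_of_pos (inv_pos.2 hpos)]
  have h3 : (l.length : ℝ)⁻¹ * ‖l.sum - (l.length : ℝ) • q‖
      ≤ (l.length : ℝ)⁻¹ * (((l.length : ℝ) - 1) * D) :=
    mul_le_mul_of_nonneg_left key2 (inv_pos.2 hpos).le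
  refine h3.trans ?_
  rw [← mul_assoc]
  refine mul_le_mul_of_nonneg_right ?_ hD
  have hn' : (l.length : ℝ) ≤ n + 1 := by exact_mod_cast hn
  rw [inv_mul_eq_div, div_le_div_iff₀ hpos (by positivity)]
  nlinarith

/-- main mesh lemma -/
theorem sdN_mesh {n : ℕ} {D : ℝ} (hD : 0 ≤ D) (k : ℕ) (hk : k ≤ n + 1) {l : List E}
    (hlen : l.length = k) {A : Set E} (hA : Convex ℝ A) (hl : Msh A D l) :
    sdN k (single l 1) ∈ Sup (Msh A ((n : ℝ) / (n + 1) * D)) := by
  -- strengthen: points lie in every convex set containing `l`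
  have key : ∀ k : ℕ, k ≤ n + 1 → ∀ l : List E, l.length = k →
      (∀ p ∈ l, ∀ q ∈ l, dist p q ≤ D) →
      sdN k (single l 1) ∈ Sup (fun l' : List E => (∀ p ∈ l', p ∈ convexHull ℝ {x | x ∈ l}) ∧
        ∀ p ∈ l', ∀ q ∈ l', dist p q ≤ (n : ℝ) / (n + 1) * D) := by
    intro k
    induction k with
    | zero =>
      intro _ l hl _
      have : l = [] := List.length_eq_zero_iff.1 hl
      subst this
      exact single_mem_Sup ⟨by simp, by simp⟩ 1
    | succ k ih =>
      intro hk l hl hd
      rw [sdN_single]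
      have hne : l ≠ [] := by intro h; rw [h] at hl; simp at hl
      have hb : bary l ∈ convexHull ℝ {x | x ∈ l} :=
        bary_mem (convex_convexHull ℝ _) hne (fun p hp => subset_convexHull ℝ _ hp)
      have hbd : ∀ x ∈ convexHull ℝ {x | x ∈ l}, dist (bary l) x ≤ (n : ℝ) / (n + 1) * D := by
        intro x hx
        have hconv : Convex ℝ (Metric.closedBall (bary l) ((n : ℝ) / (n + 1) * D)) :=
          convex_closedBall _ _
        have hsub : {x | x ∈ l} ⊆ Metric.closedBall (bary l) ((n : ℝ) / (n + 1) * D) := by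
          intro q hq
          rw [Metric.mem_closedBall, dist_comm]
          exact dist_bary_le hq hD (fun p hp => hd p hp q hq) (by omega)
        have := convexHull_min hsub hconv hx
        rw [Metric.mem_closedBall, dist_comm] at this
        exact this
      -- the chain below the cone
      have hsub : sdN k (bdl l) ∈ Sup (fun l' : List E =>
          (∀ p ∈ l', p ∈ convexHull ℝ {x | x ∈ l}) ∧
          ∀ p ∈ l', ∀ q ∈ l', dist p q ≤ (n : ℝ) / (n + 1) * D) := by
        refine map_mem_of (sdN k) (fun l' hl' => ?_) (bdl_mem l)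
        refine Sup_mono ?_ (ih (by omega) l' (by have := hl'.1; omega)
          (fun p hp q hq => hd p (hl'.2 p hp) q (hl'.2 q hq)))
        rintro l'' ⟨h1, h2⟩
        exact ⟨fun p hp => convexHull_mono (fun x hx => hl'.2 x hx) (h1 p hp), h2⟩
      refine cone_mem ?_ hsub
      rintro l' ⟨h1, h2⟩
      refine ⟨?_, ?_⟩
      · intro p hp
        rcases List.mem_cons.1 hp with rfl | hp
        · exact hb
        · exact h1 p hp
      · intro p hp q hq
        have hnn : 0 ≤ (n : ℝ) / (n + 1) * D := by positivity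
        rcases List.mem_cons.1 hp with rfl | hp <;> rcases List.mem_cons.1 hq with rfl | hq
        · rw [dist_self]; exact hnn
        · exact hbd q (h1 q hq)
        · rw [dist_comm]; exact hbd p (h1 p hp)
        · exact h2 p hp q hq
  refine Sup_mono ?_ (key k hk l hlen hl.2)
  rintro l' ⟨h1, h2⟩
  refine ⟨fun p hp => ?_, h2⟩
  exact convexHull_min (fun x hx => hl.1 x hx) hA (h1 p hp)

/-- iterated subdivision -/
noncomputable def sdI (k : ℕ) : ℕ → (Ch E →ₗ[ZMod 2] Ch E)
  | 0 => LinearMap.id
  | r + 1 => (sdN k).comp (sdI k r)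

theorem sdI_len (k r : ℕ) {c : Ch E} (hc : c ∈ Len E k) : sdI k r c ∈ Len E k := by
  induction r with
  | zero => exact hc
  | succ r ih => exact sdN_len k ih

theorem bd_sdI (k r : ℕ) {c : Ch E} (hc : c ∈ Len E (k + 1)) :
    bd (sdI (k + 1) r c) = sdI k r (bd c) := by
  induction r with
  | zero => rfl
  | succ r ih =>
    show bd (sdN (k + 1) (sdI (k + 1) r c)) = sdN k (sdI k r (bd c))
    rw [bd_sdN k (sdI_len (k + 1) r hc), ih]

theorem mp_neg_sdI (k r : ℕ) (c : Ch E) : mp Neg.neg (sdI k r c) = sdI k r (mp Neg.neg c) := by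
  induction r with
  | zero => rfl
  | succ r ih =>
    show mp Neg.neg (sdN k (sdI k r c)) = sdN k (sdI k r (mp Neg.neg c))
    rw [mp_neg_sdN, ih]

theorem sdI_mesh {n : ℕ} {D : ℝ} (hD : 0 ≤ D) (k : ℕ) (hk : k ≤ n + 1) (r : ℕ) {ι : Type*}
    (A : ι → Set E) (hA : ∀ i, Convex ℝ (A i)) {c : Ch E} (hc : c ∈ Len E k)
    (hc2 : c ∈ Sup (fun l : List E => ∃ i, Msh (A i) D l)) :
    sdI k r c ∈ Sup (fun l : List E => ∃ i, Msh (A i) (((n : ℝ) / (n + 1)) ^ r * D) l) := by
  induction r with
  | zero => simpa [sdI] using hc2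
  | succ r ih =>
    show sdN k (sdI k r c) ∈ _
    have h1 := sdI_len k r hc
    have h2 : sdI k r c ∈ Sup (fun l : List E => l.length = k ∧
        ∃ i, Msh (A i) (((n : ℝ) / (n + 1)) ^ r * D) l) := by
      rw [mem_Sup] at h1 ih ⊢
      exact fun l hl => ⟨h1 l hl, ih l hl⟩
    refine map_mem_of (sdN k) (fun l hl => ?_) h2
    obtain ⟨hlen, i, hi⟩ := hl
    have h3 := sdN_mesh (n := n) (D := ((n : ℝ) / (n + 1)) ^ r * D) (by positivity) k hk hlen
      (hA i) hi
    refine Sup_mono (fun l' hl' => ⟨i, ?_⟩) h3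
    rw [pow_succ]
    have e : ((n : ℝ) / (n + 1)) ^ r * ((n : ℝ) / (n + 1)) * D
        = (n : ℝ) / (n + 1) * (((n : ℝ) / (n + 1)) ^ r * D) := by ring
    rw [e]; exact hl'

end sub

end Pool.Agent.Lib_MP_22bcea_gt.BU
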