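import Pool.Agent.Lib_MP_22bcea_gt.BUa

/-! The target complex: subsets of labels without opposite pairs. -/

set_option autoImplicit false

namespace Pool.Agent.Lib_MP_22bcea_gt.BU

open Finsupp

/-- labels -/
abbrev Lab (n : ℕ) := Fin n × Bool

/-- opposite label -/
def opp {n : ℕ} (a : Lab n) : Lab n := (a.1, !a.2)

theorem opp_opp {n : ℕ} (a : Lab n) : opp (opp a) = a := by
  cases a; simp [opp]

theorem opp_inj {n : ℕ} : Function.Injective (opp (n := n)) :=
  Function.Involutive.injective opp_opp

/-- chains on finsets of labels -/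
abbrev T (n : ℕ) := Finset (Lab n) →₀ ZMod 2

variable {n : ℕ}

theorem T_ext {M : Type*} [AddCommGroup M] [Module (ZMod 2) M] {f g : T n →ₗ[ZMod 2] M}
    (h : ∀ s, f (single s 1) = g (single s 1)) (c : T n) : f c = g c := by
  have : f = g := Finsupp.lhom_ext' (fun l => LinearMap.ext_ring (h l))
  rw [this]

noncomputable def star (a : Lab n) : T n →ₗ[ZMod 2] T n :=
  Finsupp.linearCombination (ZMod 2) (fun s => if a ∈ s then 0 else single (insert a s) 1)

theorem star_single (a : Lab n) (s : Finset (Lab n)) :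
    star a (single s 1) = if a ∈ s then 0 else single (insert a s) 1 := by
  simp [star]

noncomputable def bdT : T n →ₗ[ZMod 2] T n :=
  Finsupp.linearCombination (ZMod 2) (fun s => ∑ a ∈ s, single (s.erase a) 1)

theorem bdT_single (s : Finset (Lab n)) :
    bdT (single s 1) = ∑ a ∈ s, single (s.erase a) 1 := by
  simp [bdT]

theorem bdT_star (a : Lab n) (z : T n) : bdT (star a z) = z + star a (bdT z) := by
  refine T_ext (f := bdT.comp (star a)) (g := LinearMap.id + (star a).comp bdT) ?_ z
  intro s
  simp only [LinearMap.comp_apply, LinearMap.add_apply, LinearMap.id_apply, star_single,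
    bdT_single, map_sum]
  by_cases h : a ∈ s
  · rw [if_pos h, map_zero, Finset.sum_eq_single a]
    · rw [if_neg (Finset.notMem_erase a s), Finset.insert_erase h]
      exact (two_eq_zero _ _).symm
    · intro b _ hba
      rw [if_pos (Finset.mem_erase.2 ⟨hba.symm, h⟩)]
    · intro h'; exact absurd h h'
  · rw [if_neg h, bdT_single, Finset.sum_insert h, Finset.erase_insert h]
    congr 1
    refine Finset.sum_congr rfl ?_
    intro b hb
    have hba : b ≠ a := fun e => h (e ▸ hb)
    rw [if_neg (fun h' => h (Finset.mem_of_mem_erase h')), Finset.erase_insert_of_ne hba.symm]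

theorem bdT_bdT (z : T n) : bdT (bdT z) = 0 := by
  refine T_ext (f := bdT.comp bdT) (g := 0) ?_ z
  intro s
  simp only [LinearMap.comp_apply, LinearMap.zero_apply]
  induction s using Finset.induction_on with
  | empty => rw [bdT_single]; simp
  | insert a s ha ih =>
    have h1 : (single (insert a s) 1 : T n) = star a (single s 1) := by
      rw [star_single, if_neg ha]
    rw [h1, bdT_star, map_add, bdT_star, ih, map_zero, add_zero]
    exact two_eq_zero _ _

/-- the involution -/
noncomputable def nuT : T n →ₗ[ZMod 2] T n :=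
  Finsupp.lmapDomain _ _ (fun s : Finset (Lab n) => s.image opp)

theorem nuT_single (s : Finset (Lab n)) (r : ZMod 2) :
    nuT (single s r) = single (s.image opp) r := by
  simp [nuT, Finsupp.lmapDomain_apply, Finsupp.mapDomain_single]

theorem image_opp_opp (s : Finset (Lab n)) : (s.image opp).image opp = s := by
  rw [Finset.image_image]
  have : (opp ∘ opp : Lab n → Lab n) = id := funext opp_opp
  rw [this, Finset.image_id]

theorem nuT_star (a : Lab n) (z : T n) : nuT (star a z) = star (opp a) (nuT z) := by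
  refine T_ext (f := nuT.comp (star a)) (g := (star (opp a)).comp nuT) ?_ z
  intro s
  simp only [LinearMap.comp_apply, star_single, nuT_single]
  by_cases h : a ∈ s
  · rw [if_pos h, if_pos (Finset.mem_image_of_mem _ h), map_zero]
  · rw [if_neg h, if_neg, nuT_single, Finset.image_insert]
    intro h'
    obtain ⟨b, hb, e⟩ := Finset.mem_image.1 h'
    rw [opp_inj e] at hb
    exact h hb

theorem nuT_bdT (z : T n) : nuT (bdT z) = bdT (nuT z) := by
  refine T_ext (f := nuT.comp bdT) (g := bdT.comp nuT) ?_ z
  intro s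
  simp only [LinearMap.comp_apply]
  induction s using Finset.induction_on with
  | empty => rw [bdT_single, nuT_single]; simp [bdT_single]
  | insert a s ha ih =>
    have h1 : (single (insert a s) 1 : T n) = star a (single s 1) := by
      rw [star_single, if_neg ha]
    rw [h1, bdT_star, map_add, nuT_star, ih, nuT_star, bdT_star]

/-- from lists of labels to finsets -/
noncomputable def eps : Ch (Lab n) →ₗ[ZMod 2] T n :=
  Finsupp.linearCombination (ZMod 2) (fun l => l.foldr (fun a z => star a z) (single ∅ 1))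

theorem eps_nil : eps (single ([] : List (Lab n)) 1) = single ∅ 1 := by
  simp [eps]

theorem eps_cons (a : Lab n) (l : List (Lab n)) :
    eps (single (a :: l) 1) = star a (eps (single l 1)) := by
  simp [eps]

theorem eps_cone (a : Lab n) (c : Ch (Lab n)) : eps (cone a c) = star a (eps c) := by
  refine lin_ext (f := eps.comp (cone a)) (g := (star a).comp eps) ?_ c
  intro l
  simp only [LinearMap.comp_apply, cone_single, eps_cons]

theorem eps_bd (c : Ch (Lab n)) : eps (bd c) = bdT (eps c) := by
  refine lin_ext (f := eps.comp bd) (g := bdT.comp eps) ?_ c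
  intro l
  simp only [LinearMap.comp_apply, bd_single]
  induction l with
  | nil => rw [bdl, map_zero, eps_nil, bdT_single]; simp
  | cons a l ih => rw [bdl, map_add, eps_cone, ih, eps_cons, bdT_star]

theorem eps_opp (c : Ch (Lab n)) : eps (mp opp c) = nuT (eps c) := by
  refine lin_ext (f := eps.comp (mp opp)) (g := nuT.comp eps) ?_ c
  intro l
  simp only [LinearMap.comp_apply, mp_single]
  induction l with
  | nil => rw [List.map_nil, eps_nil, nuT_single]; simp
  | cons a l ih => rw [List.map_cons, eps_cons, eps_cons, ih, nuT_star]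

/-- no opposite pair -/
def NoOpp (s : Finset (Lab n)) : Prop := ∀ a ∈ s, opp a ∉ s

/-- the subcomplex -/
noncomputable def XX (n k : ℕ) : Submodule (ZMod 2) (T n) :=
  Finsupp.supported (ZMod 2) (ZMod 2) {s | s.card = k ∧ NoOpp s}

theorem mem_XX {k : ℕ} {z : T n} : z ∈ XX n k ↔ ∀ s ∈ z.support, s.card = k ∧ NoOpp s := by
  unfold XX
  rw [Finsupp.mem_supported]
  rfl

theorem T_map_mem {M : Type*} [AddCommGroup M] [Module (ZMod 2) M] {P : Set (Finset (Lab n))}
    {W : Submodule (ZMod 2) M} (f : T n →ₗ[ZMod 2] M) (h : ∀ l ∈ P, f (single l 1) ∈ W)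
    {c : T n} (hc : c ∈ Finsupp.supported (ZMod 2) (ZMod 2) P) : f c ∈ W := by
  rw [Finsupp.supported_eq_span_single] at hc
  induction hc using Submodule.span_induction with
  | mem x hx =>
    obtain ⟨l, hl, rfl⟩ := hx
    exact h l hl
  | zero => rw [map_zero]; exact W.zero_mem
  | add x y _ _ hx hy => rw [map_add]; exact W.add_mem hx hy
  | smul r x _ hx => rw [map_smul]; exact W.smul_mem r hx

theorem bdT_mem {k : ℕ} {z : T n} (hz : z ∈ XX n (k + 1)) : bdT z ∈ XX n k := by
  refine T_map_mem bdT (fun s hs => ?_) hz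
  rw [bdT_single]
  refine Submodule.sum_mem _ (fun a ha => ?_)
  refine Finsupp.single_mem_supported _ _ ⟨?_, ?_⟩
  · rw [Finset.card_erase_of_mem ha, hs.1]; rfl
  · intro b hb hb'
    exact hs.2 b (Finset.mem_of_mem_erase hb) (Finset.mem_of_mem_erase hb')

theorem NoOpp.image {s : Finset (Lab n)} (h : NoOpp s) : NoOpp (s.image opp) := by
  intro a ha ha'
  obtain ⟨b, hb, rfl⟩ := Finset.mem_image.1 ha
  rw [opp_opp] at ha'
  obtain ⟨d, hd, hdb⟩ := Finset.mem_image.1 ha'
  apply h d hd
  rw [hdb]; exact hb

theorem nuT_mem {k : ℕ} {z : T n} (hz : z ∈ XX n k) : nuT z ∈ XX n k := by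
  refine T_map_mem nuT (fun s hs => ?_) hz
  rw [nuT_single]
  exact Finsupp.single_mem_supported _ _ ⟨by rw [Finset.card_image_of_injective _ opp_inj, hs.1],
    hs.2.image⟩

theorem nuT_apply (z : T n) (s : Finset (Lab n)) : nuT z (s.image opp) = z s := by
  have hinj : Function.Injective (fun s : Finset (Lab n) => s.image opp) :=
    Finset.image_injective opp_inj
  exact Finsupp.mapDomain_apply hinj z s

theorem nuT_apply' (z : T n) (s : Finset (Lab n)) : nuT z s = z (s.image opp) := by
  have := nuT_apply z (s.image opp)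
  rwa [image_opp_opp] at this

/-- the predicate selecting one of `s`, `-s` -/
def Pos (s : Finset (Lab n)) : Prop := ∃ i : Fin n, (i, true) ∈ s ∧ ∀ j < i, (j, true) ∉ s ∧ (j, false) ∉ s

theorem pos_opp {s : Finset (Lab n)} (hne : s.Nonempty) (hno : NoOpp s) :
    Pos (s.image opp) ↔ ¬ Pos s := by
  have hmem : ∀ i b, (i, b) ∈ s.image opp ↔ (i, !b) ∈ s := by
    intro i b
    rw [Finset.mem_image]
    constructor
    · rintro ⟨a, ha, e⟩
      have : a = opp (i, b) := by rw [← e, opp_opp]
      rw [this] at ha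
      exact ha
    · intro h
      exact ⟨(i, !b), h, by simp [opp]⟩
  -- minimal index
  have hex : ∃ i : Fin n, ∃ b, (i, b) ∈ s := by
    obtain ⟨a, ha⟩ := hne
    exact ⟨a.1, a.2, ha⟩
  obtain ⟨i, ⟨b, hb⟩, hmin⟩ : ∃ i : Fin n, (∃ b, (i, b) ∈ s) ∧
      ∀ j < i, ¬ ∃ b, (j, b) ∈ s := by
    classical
    have hwf : WellFounded (fun a b : Fin n => a < b) := wellFounded_lt
    exact ⟨hwf.min {i | ∃ b, (i, b) ∈ s} hex, hwf.min_mem _ hex,
      fun j hj h => hwf.not_lt_min {i | ∃ b, (i, b) ∈ s} h hj⟩
  have huniq : ∀ {t : Finset (Lab n)} {i' : Fin n}, (∀ j, (∃ b, (j, b) ∈ t) ↔ ∃ b, (j, b) ∈ s) →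
      (i', true) ∈ t → (∀ j < i', (j, true) ∉ t ∧ (j, false) ∉ t) → i' = i := by
    intro t i' ht h1 h2
    rcases lt_trichotomy i' i with h | h | h
    · exact absurd ((ht i').1 ⟨true, h1⟩) (hmin i' h)
    · exact h
    · exfalso
      obtain ⟨b', hb'⟩ := (ht i).2 ⟨b, hb⟩
      have := h2 i h
      cases b'
      · exact this.2 hb'
      · exact this.1 hb'
  constructor
  · rintro ⟨i1, h1, h2⟩ ⟨i2, h3, h4⟩
    have e1 := huniq (t := s.image opp) (i' := i1) (by
      intro j
      constructor
      · rintro ⟨b, hb⟩; exact ⟨!b, (hmem j b).1 hb⟩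
      · rintro ⟨b, hb⟩; exact ⟨!b, (hmem j (!b)).2 (by simpa using hb)⟩) h1 h2
    have e2 := huniq (t := s) (i' := i2) (fun _ => Iff.rfl) h3 h4
    subst e1
    subst e2
    have h5 := (hmem _ _).1 h1
    exact hno _ h3 h5
  · intro hnp
    have hbf : b = false := by
      cases b
      · rfl
      · exfalso
        exact hnp ⟨i, hb, fun j hj => ⟨fun h => hmin j hj ⟨_, h⟩, fun h => hmin j hj ⟨_, h⟩⟩⟩
    subst hbf
    refine ⟨i, (hmem _ _).2 hb, fun j hj => ⟨fun h => ?_, fun h => ?_⟩⟩
    · exact hmin j hj ⟨_, (hmem _ _).1 h⟩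
    · exact hmin j hj ⟨_, (hmem _ _).1 h⟩

/-- invariant chains split -/
theorem split_inv {k : ℕ} {z : T n} (hz : z ∈ XX n (k + 1)) (hinv : nuT z = z) :
    ∃ e ∈ XX n (k + 1), z = e + nuT e := by
  classical
  refine ⟨z.filter Pos, ?_, ?_⟩
  · rw [mem_XX] at hz ⊢
    intro s hs
    rw [Finsupp.support_filter, Finset.mem_filter] at hs
    exact hz s hs.1
  · ext s
    rw [Finsupp.add_apply, nuT_apply', Finsupp.filter_apply, Finsupp.filter_apply]
    have h1 : z (s.image opp) = z s := by rw [← nuT_apply', hinv]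
    rw [h1]
    by_cases h0 : z s = 0
    · simp [h0]
    · have h2 := (mem_XX.1 hz) s (Finsupp.mem_support_iff.2 h0)
      have h3 : s.Nonempty := by rw [← Finset.card_pos, h2.1]; omega
      have h4 := pos_opp h3 h2.2
      by_cases hp : Pos s
      · rw [if_pos hp, if_neg (fun h => (h4.1 h) hp), add_zero]
      · rw [if_neg hp, if_pos (h4.2 hp), zero_add]

/-- there are no large simplices -/
theorem card_le_of_noOpp {s : Finset (Lab n)} (h : NoOpp s) : s.card ≤ n := by
  classical
  have hinj : Set.InjOn (Prod.fst : Lab n → Fin n) s := by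
    intro a ha b hb hab
    by_contra hne
    apply h a ha
    have : opp a = b := by
      apply Prod.ext
      · exact hab
      · show (!a.2) = b.2
        have h2 : a.2 ≠ b.2 := fun e => hne (Prod.ext hab e)
        cases h3 : a.2 <;> cases h4 : b.2 <;> simp_all
    rw [this]; exact hb
  have h1 := Finset.card_image_of_injOn hinj
  rw [← h1]
  exact (Finset.card_le_univ _).trans (by rw [Fintype.card_fin])

theorem XX_eq_zero {k : ℕ} (hk : n < k) {z : T n} (hz : z ∈ XX n k) : z = 0 := by
  ext s
  rw [Finsupp.zero_apply]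
  by_contra h
  have h1 := (mem_XX.1 hz) s (Finsupp.mem_support_iff.2 h)
  have h2 := card_le_of_noOpp h1.2
  omega

/-- the algebraic contradiction -/
theorem no_sequence (c : ℕ → T n) (hc : ∀ k ≤ n, c k ∈ XX n (k + 1))
    (h0 : bdT (c 0) = single ∅ 1)
    (hs : ∀ k < n, bdT (c (k + 1)) = c k + nuT (c k)) : False := by
  -- P(k): exists d, e with c k + ∂ d = e + ν e
  have key : ∀ j ≤ n, ∃ d ∈ XX n (n - j + 2), ∃ e ∈ XX n (n - j + 1),
      c (n - j) + bdT d = e + nuT e := by
    intro j
    induction j with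
    | zero =>
      intro _
      refine ⟨0, Submodule.zero_mem _, 0, Submodule.zero_mem _, ?_⟩
      have := XX_eq_zero (k := n + 1) (by omega) (hc n (le_refl _))
      simp [this]
    | succ j ih =>
      intro hj
      obtain ⟨d, hd, e, he, hde⟩ := ih (by omega)
      have hk : n - j = (n - (j + 1)) + 1 := by omega
      have h1 := congrArg bdT hde
      rw [map_add, bdT_bdT, add_zero, hk, hs _ (by omega), map_add, ← nuT_bdT] at h1
      -- c (n-(j+1)) + ∂ e is invariant
      have hmem : c (n - (j + 1)) + bdT e ∈ XX n (n - (j + 1) + 1) := by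
        refine Submodule.add_mem _ (hc _ (by omega)) (bdT_mem ?_)
        rw [hk] at he; exact he
      have hinv : nuT (c (n - (j + 1)) + bdT e) = c (n - (j + 1)) + bdT e := by
        rw [map_add]
        have h2 : c (n - (j + 1)) + nuT (c (n - (j + 1))) + (bdT e + nuT (bdT e)) = 0 := by
          rw [h1]; exact two_eq_zero _ _
        have h3 : (nuT (c (n - (j + 1))) + nuT (bdT e)) + (c (n - (j + 1)) + bdT e) = 0 := by
          rw [← h2]; abel
        have h4 := two_eq_zero (T n) (c (n - (j + 1)) + bdT e)
        exact add_right_cancel (h3.trans h4.symm)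
      obtain ⟨e', he', h5⟩ := split_inv hmem hinv
      refine ⟨e, ?_, e', he', h5⟩
      rw [hk] at he
      exact he
  obtain ⟨d, hd, e, he, hde⟩ := key n (le_refl _)
  have h1 := congrArg bdT hde
  rw [Nat.sub_self, map_add, bdT_bdT, add_zero, h0, map_add, ← nuT_bdT] at h1
  have he0 : bdT e ∈ XX n 0 := bdT_mem (by rw [Nat.sub_self] at he; exact he)
  have h2 : nuT (bdT e) = bdT e := by
    ext s
    rw [nuT_apply']
    by_cases hse : s = ∅
    · subst hse; simp
    · have h3 : bdT e s = 0 := by
        by_contra h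
        have := (mem_XX.1 he0) s (Finsupp.mem_support_iff.2 h)
        exact hse (Finset.card_eq_zero.1 this.1)
      have h4 : bdT e (s.image opp) = 0 := by
        by_contra h
        have := (mem_XX.1 he0) (s.image opp) (Finsupp.mem_support_iff.2 h)
        have h5 := Finset.card_eq_zero.1 this.1
        rw [Finset.image_eq_empty] at h5
        exact hse h5
      rw [h3, h4]
  rw [h2, two_eq_zero] at h1
  have h6 := DFunLike.congr_fun h1 (∅ : Finset (Lab n))
  rw [Finsupp.single_eq_same, Finsupp.zero_apply] at h6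
  exact one_ne_zero h6

/-- `eps` of lists without opposite labels -/
theorem eps_mem {k : ℕ} {c : Ch (Lab n)}
    (hc : c ∈ Sup (fun l : List (Lab n) => l.length = k ∧ ∀ a ∈ l, opp a ∉ l)) :
    eps c ∈ XX n k := by
  refine map_mem_of eps (fun l hl => ?_) hc
  have key : ∀ l : List (Lab n), eps (single l 1) ∈ Finsupp.supported (ZMod 2) (ZMod 2)
      {s : Finset (Lab n) | s.card = l.length ∧ ∀ a ∈ s, a ∈ l} := by
    intro l
    induction l with
    | nil =>
      rw [eps_nil]
      exact Finsupp.single_mem_supported _ _ ⟨rfl, by simp⟩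
    | cons a l ih =>
      rw [eps_cons]
      refine T_map_mem (star a) (fun s hs => ?_) ih
      rw [star_single]
      split_ifs with h
      · exact Submodule.zero_mem _
      · refine Finsupp.single_mem_supported _ _ ⟨?_, ?_⟩
        · rw [Finset.card_insert_of_notMem h, hs.1, List.length_cons]
        · intro b hb
          rcases Finset.mem_insert.1 hb with rfl | hb
          · exact List.mem_cons_self
          · exact List.mem_cons_of_mem _ (hs.2 b hb)
  have h1 := key l
  refine Finsupp.supported_mono ?_ h1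
  rintro s ⟨h2, h3⟩
  exact ⟨h2.trans hl.1, fun a ha ha' => hl.2 a (h3 a ha) (h3 _ ha')⟩

end Pool.Agent.Lib_MP_22bcea_gt.BU
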