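import Mathlib

/-!
# Faces of compact sets and the star-shaped boundary
-/

open Topology Set Filter
open scoped RealInnerProductSpace

namespace Pool.Agent.Lib_MP_22bcea_gt

section

variable {X : Type*} [TopologicalSpace X] {D : Type*} [NormedAddCommGroup D]
  [InnerProductSpace ℝ D]

/-- The top section of `A` in direction `v`. -/
def Face (g : X → D) (A : Set X) (v : D) : Set X := {x | x ∈ A ∧ ∀ y ∈ A, ⟪v, g y⟫ ≤ ⟪v, g x⟫}

lemma face_subset (g : X → D) (A : Set X) (v : D) : Face g A v ⊆ A := fun _ hx => hx.1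

lemma isClosed_faceGraph {g : X → D} (hg : Continuous g) (A : Set X) :
    IsClosed {z : D × X | ∀ y ∈ A, ⟪z.1, g y⟫ ≤ ⟪z.1, g z.2⟫} := by
  have : {z : D × X | ∀ y ∈ A, ⟪z.1, g y⟫ ≤ ⟪z.1, g z.2⟫} =
      ⋂ y ∈ A, {z : D × X | ⟪z.1, g y⟫ ≤ ⟪z.1, g z.2⟫} := by
    ext z
    simp only [mem_iInter]
    rfl
  rw [this]
  refine isClosed_biInter fun y _ => isClosed_le ?_ ?_
  · exact continuous_fst.inner continuous_const
  · exact continuous_fst.inner (hg.comp continuous_snd)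

lemma isCompact_face {g : X → D} (hg : Continuous g) {A : Set X} (hA : IsCompact A) (v : D) :
    IsCompact (Face g A v) := by
  have : Face g A v = A ∩ (fun x => (v, x)) ⁻¹' {z : D × X | ∀ y ∈ A, ⟪z.1, g y⟫ ≤ ⟪z.1, g z.2⟫} :=
    rfl
  rw [this]
  exact hA.inter_right ((isClosed_faceGraph hg A).preimage (by fun_prop))

lemma nonempty_face {g : X → D} (hg : Continuous g) {A : Set X} (hA : IsCompact A)
    (hne : A.Nonempty) (v : D) : (Face g A v).Nonempty := by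
  obtain ⟨x, hx, hmax⟩ := hA.exists_isMaxOn hne (f := fun x => ⟪v, g x⟫)
    (continuous_const.inner hg).continuousOn
  exact ⟨x, hx, fun y hy => hmax hy⟩

/-- A point in the closed convex hull lying on a supporting hyperplane belongs to the
corresponding face (if it is convex). -/
lemma mem_image_face [CompleteSpace D] {g : X → D} (hg : Continuous g) {A : Set X}
    (hA : IsCompact A) {q v0 : D}
    (hq : ∀ v : D, ∃ x ∈ A, ⟪v, q⟫ ≤ ⟪v, g x⟫) (h0 : ∀ x ∈ A, ⟪v0, g x⟫ ≤ ⟪v0, q⟫)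
    (hconv : Convex ℝ (g '' Face g A v0)) : q ∈ g '' Face g A v0 := by
  by_contra hcon
  have hclosed : IsClosed (g '' Face g A v0) := ((isCompact_face hg hA v0).image hg).isClosed
  obtain ⟨F, u, hF, hFq⟩ := geometric_hahn_banach_closed_point hconv hclosed hcon
  set w : D := (InnerProductSpace.toDual ℝ D).symm F with hw
  have hFw : ∀ z, F z = ⟪w, z⟫ := fun z => by
    rw [hw, InnerProductSpace.toDual_symm_apply]
  simp only [hFw] at hF hFq
  -- points of `A` with large `w` value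
  obtain ⟨x1, hx1, hx1q⟩ := hq v0
  have hm : ⟪v0, g x1⟫ = ⟪v0, q⟫ := le_antisymm (h0 x1 hx1) hx1q
  have hx1F : x1 ∈ Face g A v0 := ⟨hx1, fun y hy => by rw [hm]; exact h0 y hy⟩
  let A' : Set X := A ∩ {x | u ≤ ⟪w, g x⟫}
  have hA' : IsCompact A' := hA.inter_right
    (isClosed_le continuous_const (continuous_const.inner hg))
  obtain ⟨η, hη, hηA⟩ : ∃ η > 0, ∀ x ∈ A', ⟪v0, g x⟫ ≤ ⟪v0, q⟫ - η := by
    rcases A'.eq_empty_or_nonempty with h | h
    · exact ⟨1, one_pos, by rw [h]; simp⟩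
    · obtain ⟨x, hx, hmax⟩ := hA'.exists_isMaxOn h (f := fun x => ⟪v0, g x⟫)
        (continuous_const.inner hg).continuousOn
      have hlt : ⟪v0, g x⟫ < ⟪v0, q⟫ := by
        refine lt_of_le_of_ne (h0 x hx.1) fun heq => ?_
        have hxF : x ∈ Face g A v0 := ⟨hx.1, fun y hy => by rw [heq]; exact h0 y hy⟩
        exact absurd (hF _ ⟨x, hxF, rfl⟩) (not_lt.2 hx.2)
      refine ⟨⟪v0, q⟫ - ⟪v0, g x⟫, by linarith, fun y hy => ?_⟩
      have := hmax hy
      simp only at this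
      linarith [show ⟪v0, g y⟫ ≤ ⟪v0, g x⟫ from this]
  obtain ⟨B, hB⟩ := (hA.image_of_continuousOn
    (f := fun x => ⟪w, g x⟫) (continuous_const.inner hg).continuousOn).isBounded.exists_norm_le
  have hB' : ∀ x ∈ A, ⟪w, g x⟫ ≤ |B| := fun x hx =>
    (le_abs_self _).trans ((hB _ ⟨x, hx, rfl⟩).trans (le_abs_self B))
  obtain ⟨ε, hε, hεη⟩ : ∃ ε > 0, ε * (|B| + |⟪w, q⟫| + 1) ≤ η := by
    refine ⟨η / (|B| + |⟪w, q⟫| + 1), by positivity, ?_⟩
    rw [div_mul_cancel₀]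
    positivity
  obtain ⟨x, hx, hxq⟩ := hq (v0 + ε • w)
  rw [inner_add_left, inner_add_left, inner_smul_left, inner_smul_left] at hxq
  simp only [conj_trivial] at hxq
  by_cases hxA : u ≤ ⟪w, g x⟫
  · have h1 := hηA x ⟨hx, hxA⟩
    have h2 := hB' x hx
    have h3 := neg_abs_le ⟪w, q⟫
    nlinarith
  · push Not at hxA
    have h1 := h0 x hx
    nlinarith

/-- The boundary map: if `0` is strictly inside the closed convex hull of `g '' A` and all faces
are convex and injectively parametrised, then there is a continuous map from the sphere to `A`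
which is a section of the radial projection. -/
theorem exists_section [FiniteDimensional ℝ D] [T2Space X] [hne : Nonempty X] {g : X → D}
    (hg : Continuous g)
    {A : Set X} (hA : IsCompact A) (hpos : ∀ v : D, v ≠ 0 → ∃ x ∈ A, 0 < ⟪v, g x⟫)
    (hconv : ∀ v : D, v ≠ 0 → Convex ℝ (g '' Face g A v))
    (hinj : ∀ v : D, v ≠ 0 → InjOn g (Face g A v)) :
    ∃ s : D → X, ContinuousOn s (Metric.sphere 0 1) ∧ ∀ e ∈ Metric.sphere (0 : D) 1,
      s e ∈ A ∧ ∃ t : ℝ, 0 < t ∧ g (s e) = t • e := by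
  classical
  let Γ : Set (D × X) := {z | z.1 ∈ Metric.sphere (0 : D) 1 ∧ z.2 ∈ Face g A z.1}
  have hΓ : IsCompact Γ := by
    have : Γ = (Metric.sphere (0 : D) 1 ×ˢ A) ∩
        {z : D × X | ∀ y ∈ A, ⟪z.1, g y⟫ ≤ ⟪z.1, g z.2⟫} := by
      ext z
      constructor
      · rintro ⟨h1, h2, h3⟩; exact ⟨⟨h1, h2⟩, h3⟩
      · rintro ⟨⟨h1, h2⟩, h3⟩; exact ⟨h1, h2, h3⟩
    rw [this]
    exact ((isCompact_sphere 0 1).prod hA).inter_right (isClosed_faceGraph hg A)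
  have hΓpos : ∀ z ∈ Γ, 0 < ⟪z.1, g z.2⟫ := by
    rintro ⟨v, x⟩ ⟨h1, h2, h3⟩
    have hv : v ≠ 0 := by
      rintro rfl
      simp at h1
    obtain ⟨y, hy, hy0⟩ := hpos v hv
    exact hy0.trans_le (h3 y hy)
  let Bd : Set X := Prod.snd '' Γ
  have hBd : IsCompact Bd := hΓ.image continuous_snd
  have hBdA : Bd ⊆ A := by
    rintro _ ⟨z, hz, rfl⟩
    exact hz.2.1
  have hBd0 : ∀ x ∈ Bd, g x ≠ 0 := by
    rintro _ ⟨z, hz, rfl⟩ h0
    have := hΓpos z hz
    rw [h0, inner_zero_right] at this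
    exact lt_irrefl _ this
  have hnorm : ∀ x ∈ Bd, ‖g x‖⁻¹ • g x ∈ Metric.sphere (0 : D) 1 := by
    intro x hx
    rw [mem_sphere_zero_iff_norm, norm_smul, norm_inv, norm_norm]
    exact inv_mul_cancel₀ (norm_ne_zero_iff.2 (hBd0 x hx))
  let r : Bd → Metric.sphere (0 : D) 1 := fun x => ⟨‖g x‖⁻¹ • g x, hnorm x x.2⟩
  have hr : Continuous r := by
    refine Continuous.subtype_mk ?_ _
    refine Continuous.smul ?_ (hg.comp continuous_subtype_val)
    exact (hg.comp continuous_subtype_val).norm.inv₀ fun x => norm_ne_zero_iff.2 (hBd0 x x.2)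
  have hrinj : Function.Injective r := by
    rintro ⟨x, hx⟩ ⟨x', hx'⟩ hxx
    have hxx1 : ‖g x‖⁻¹ • g x = ‖g x'‖⁻¹ • g x' := congrArg Subtype.val hxx
    have key : ∀ x ∈ Bd, ∀ x' ∈ Bd, ‖g x‖⁻¹ • g x = ‖g x'‖⁻¹ • g x' → ‖g x'‖ ≤ ‖g x‖ := by
      rintro x hx x' hx' hxx
      obtain ⟨⟨v, y⟩, hz, hzx⟩ := hx
      simp only at hzx
      subst hzx
      have h1 := hΓpos _ hz
      have h2 := hz.2.2 x' (hBdA hx')
      simp only at h1 h2
      have hny : 0 < ‖g y‖ := norm_pos_iff.2 (hBd0 y ⟨_, hz, rfl⟩)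
      have hnx : 0 < ‖g x'‖ := norm_pos_iff.2 (hBd0 x' hx')
      have h3 : g x' = (‖g x'‖ * ‖g y‖⁻¹) • g y := by
        rw [mul_smul, hxx, smul_smul, mul_inv_cancel₀ hnx.ne', one_smul]
      rw [h3, inner_smul_right] at h2
      have h4 : ‖g x'‖ * ‖g y‖⁻¹ ≤ 1 := by
        by_contra hlt
        push Not at hlt
        nlinarith
      rw [← div_eq_mul_inv, div_le_one hny] at h4
      exact h4
    have hn : ‖g x‖ = ‖g x'‖ := le_antisymm (key x' hx' x hx hxx1.symm) (key x hx x' hx' hxx1)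
    have hgg : g x = g x' := by
      have hnx : 0 < ‖g x'‖ := norm_pos_iff.2 (hBd0 x' hx')
      rw [hn] at hxx1
      have := congrArg (fun z => ‖g x'‖ • z) hxx1
      simpa [smul_smul, mul_inv_cancel₀ hnx.ne'] using this
    obtain ⟨⟨v, y⟩, hz, hzx⟩ := hx
    simp only at hzx
    subst hzx
    have hv : v ≠ 0 := by
      rintro rfl
      have := hz.1
      simp at this
    have hx'F : x' ∈ Face g A v := ⟨hBdA hx', fun y' hy' => by rw [← hgg]; exact hz.2.2 y' hy'⟩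
    exact Subtype.ext (hinj v hv hz.2 hx'F hgg)
  have hrsurj : Function.Surjective r := by
    rintro ⟨e, he⟩
    have he1 : ‖e‖ = 1 := mem_sphere_zero_iff_norm.1 he
    have he0 : e ≠ 0 := by
      rintro rfl
      simp at he1
    have hAne : A.Nonempty := by
      obtain ⟨x, hx, -⟩ := hpos e he0
      exact ⟨x, hx⟩
    obtain ⟨xe, hxe⟩ := nonempty_face hg hA hAne e
    have hΓne : Γ.Nonempty := ⟨(e, xe), he, hxe⟩
    have hcont : ContinuousOn (fun z : D × X => ⟪z.1, e⟫ / ⟪z.1, g z.2⟫) Γ := by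
      refine ContinuousOn.div ?_ ?_ fun z hz => (hΓpos z hz).ne'
      · exact (continuous_fst.inner continuous_const).continuousOn
      · exact (continuous_fst.inner (hg.comp continuous_snd)).continuousOn
    obtain ⟨⟨v0, x0⟩, hz0, hmax⟩ := hΓ.exists_isMaxOn hΓne hcont
    set μ : ℝ := ⟪v0, e⟫ / ⟪v0, g x0⟫ with hμ
    have hμpos : 0 < μ := by
      have h1 : ⟪e, e⟫ / ⟪e, g xe⟫ ≤ μ := hmax (show (e, xe) ∈ Γ from ⟨he, hxe⟩)
      have h2 : 0 < ⟪e, e⟫ / ⟪e, g xe⟫ := by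
        refine div_pos ?_ (hΓpos (e, xe) ⟨he, hxe⟩)
        rw [real_inner_self_eq_norm_sq, he1]; norm_num
      linarith
    have hgen : ∀ v : D, ∃ x ∈ A, ⟪v, μ⁻¹ • e⟫ ≤ ⟪v, g x⟫ := by
      intro v
      by_cases hv : v = 0
      · obtain ⟨x, hx⟩ := hAne
        exact ⟨x, hx, by rw [hv]; simp⟩
      have hvn : 0 < ‖v‖ := norm_pos_iff.2 hv
      let v' : D := ‖v‖⁻¹ • v
      have hv' : v' ∈ Metric.sphere (0 : D) 1 := by
        rw [mem_sphere_zero_iff_norm, norm_smul, norm_inv, norm_norm]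
        exact inv_mul_cancel₀ hvn.ne'
      obtain ⟨x, hx⟩ := nonempty_face hg hA hAne v'
      have h1 : ⟪v', e⟫ / ⟪v', g x⟫ ≤ μ := hmax (show (v', x) ∈ Γ from ⟨hv', hx⟩)
      have h2 := hΓpos (v', x) ⟨hv', hx⟩
      simp only at h2
      rw [div_le_iff₀ h2] at h1
      refine ⟨x, hx.1, ?_⟩
      have h3 : ⟪v', e⟫ = ‖v‖⁻¹ * ⟪v, e⟫ := by
        simp only [v', inner_smul_left, conj_trivial]
      have h4 : ⟪v', g x⟫ = ‖v‖⁻¹ * ⟪v, g x⟫ := by
        simp only [v', inner_smul_left, conj_trivial]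
      rw [h3, h4] at h1
      rw [inner_smul_right]
      have h5 : ⟪v, e⟫ ≤ μ * ⟪v, g x⟫ := by
        have := mul_le_mul_of_nonneg_left h1 hvn.le
        have e1 : ‖v‖ * (‖v‖⁻¹ * ⟪v, e⟫) = ⟪v, e⟫ := by
          rw [← mul_assoc, mul_inv_cancel₀ hvn.ne', one_mul]
        have e2 : ‖v‖ * (μ * (‖v‖⁻¹ * ⟪v, g x⟫)) = μ * ⟪v, g x⟫ := by
          calc ‖v‖ * (μ * (‖v‖⁻¹ * ⟪v, g x⟫)) = (‖v‖ * ‖v‖⁻¹) * (μ * ⟪v, g x⟫) := by ring
            _ = _ := by rw [mul_inv_cancel₀ hvn.ne', one_mul]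
        rwa [e1, e2] at this
      calc μ⁻¹ * ⟪v, e⟫ ≤ μ⁻¹ * (μ * ⟪v, g x⟫) :=
            mul_le_mul_of_nonneg_left h5 (inv_nonneg.2 hμpos.le)
        _ = ⟪v, g x⟫ := by rw [← mul_assoc, inv_mul_cancel₀ hμpos.ne', one_mul]
    have hv0 : v0 ≠ 0 := by
      rintro rfl
      have := hz0.1
      simp at this
    have hz0pos := hΓpos _ hz0
    simp only at hz0pos
    have h0 : ∀ x ∈ A, ⟪v0, g x⟫ ≤ ⟪v0, μ⁻¹ • e⟫ := by
      intro x hx
      have h1 : ⟪v0, μ⁻¹ • e⟫ = ⟪v0, g x0⟫ := by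
        rw [inner_smul_right]
        have h2 : ⟪v0, e⟫ = μ * ⟪v0, g x0⟫ := by
          rw [hμ, div_mul_cancel₀ _ hz0pos.ne']
        rw [h2, ← mul_assoc, inv_mul_cancel₀ hμpos.ne', one_mul]
      rw [h1]
      exact hz0.2.2 x hx
    obtain ⟨x, hxF, hxq⟩ := mem_image_face hg hA hgen h0 (hconv v0 hv0)
    refine ⟨⟨x, ⟨(v0, x), ⟨hz0.1, hxF⟩, rfl⟩⟩, ?_⟩
    apply Subtype.ext
    simp only [r]
    rw [hxq, norm_smul, he1, mul_one, norm_inv, Real.norm_eq_abs, abs_of_pos hμpos, inv_inv,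
      smul_smul, mul_inv_cancel₀ hμpos.ne', one_smul]
  haveI : CompactSpace Bd := isCompact_iff_compactSpace.1 hBd
  let R : Bd ≃ Metric.sphere (0 : D) 1 := Equiv.ofBijective r ⟨hrinj, hrsurj⟩
  have hRc : Continuous R := hr
  have hRs : Continuous R.symm := hRc.continuous_symm_of_equiv_compact_to_t2
  obtain ⟨x00⟩ := hne
  refine ⟨fun e => if he : e ∈ Metric.sphere (0 : D) 1 then ((R.symm ⟨e, he⟩ : Bd) : X) else x00,
    ?_, ?_⟩
  · rw [continuousOn_iff_continuous_domRestrict]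
    have : (Metric.sphere (0 : D) 1).domRestrict (fun e => if he : e ∈ Metric.sphere (0 : D) 1 then
        ((R.symm ⟨e, he⟩ : Bd) : X) else x00) = fun e => ((R.symm e : Bd) : X) := by
      funext e
      simp [Set.domRestrict]
    rw [this]
    exact continuous_subtype_val.comp hRs
  · intro e he
    have h1 : (if he : e ∈ Metric.sphere (0 : D) 1 then ((R.symm ⟨e, he⟩ : Bd) : X) else x00) =
        ((R.symm ⟨e, he⟩ : Bd) : X) := dif_pos he
    simp only [h1]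
    refine ⟨hBdA (R.symm ⟨e, he⟩).2, ‖g ((R.symm ⟨e, he⟩ : Bd) : X)‖,
      norm_pos_iff.2 (hBd0 _ (R.symm ⟨e, he⟩).2), ?_⟩
    have h2 : R (R.symm ⟨e, he⟩) = ⟨e, he⟩ := R.apply_symm_apply _
    have h3 : ‖g ((R.symm ⟨e, he⟩ : Bd) : X)‖⁻¹ • g ((R.symm ⟨e, he⟩ : Bd) : X) = e :=
      congrArg Subtype.val h2
    have hn : ‖g ((R.symm ⟨e, he⟩ : Bd) : X)‖ ≠ 0 :=
      norm_ne_zero_iff.2 (hBd0 _ (R.symm ⟨e, he⟩).2)
    calc g ((R.symm ⟨e, he⟩ : Bd) : X) = ‖g ((R.symm ⟨e, he⟩ : Bd) : X)‖ •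
          (‖g ((R.symm ⟨e, he⟩ : Bd) : X)‖⁻¹ • g ((R.symm ⟨e, he⟩ : Bd) : X)) := by
          rw [smul_smul, mul_inv_cancel₀ hn, one_smul]
      _ = _ := by rw [h3]

end

end Pool.Agent.Lib_MP_22bcea_gt
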