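import Pool.Agent.Lib_MP_22bcea_gt.Gauss

/-!
# Assembly
-/

open Topology Set Filter
open scoped RealInnerProductSpace

namespace Pool.Agent.Lib_MP_22bcea_gt

/-- Free involutions of open subsets of the torus have odd functions on compact subsets. -/
def InvProp : Prop := ∀ (O K : Set T2) (σ : T2 → T2), IsOpen O → ContinuousOn σ O →
  MapsTo σ O O → (∀ x ∈ O, σ (σ x) = x) → (∀ x ∈ O, σ x ≠ x) → IsCompact K → K ⊆ O →
  ∃ c : T2 → ℂ, ContinuousOn c (K ∪ σ '' K) ∧ (∀ x ∈ K ∪ σ '' K, c x ≠ 0) ∧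
      ∀ x ∈ K ∪ σ '' K, c (σ x) = - c x

variable {V : Type*} [NormedAddCommGroup V] [InnerProductSpace ℝ V]

namespace Setup

variable {f : T2 → V}

/-- Points with regular antipodal pairs. -/
def reg (f : T2 → V) : Set T2 := {x | f x ≠ 0 ∧ (∀ y, f y = f x → y = x) ∧
  ∀ y z, f y = - f x → f z = - f x → y = z}

lemma isOpen_reg (h : Setup f) : IsOpen (reg f) := by
  have hd := isClosed_double h.cont h.loc
  -- three closed sets
  have c1 : IsClosed {x | f x = 0} := isClosed_eq h.cont continuous_const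
  have c2 : IsClosed {x | ∃ y, f y = f x ∧ y ≠ x} := by
    have h1 := isClosedMap_fst_of_compactSpace (X := T2) (Y := T2) _ hd
    have h2 : Prod.fst '' {p : T2 × T2 | p.1 ≠ p.2 ∧ f p.1 = f p.2} =
        {x | ∃ y, f y = f x ∧ y ≠ x} := by
      ext x
      constructor
      · rintro ⟨⟨a, b⟩, ⟨h3, h4⟩, rfl⟩
        exact ⟨b, h4.symm, fun h5 => h3 h5.symm⟩
      · rintro ⟨y, h3, h4⟩
        exact ⟨(x, y), ⟨fun h5 => h4 h5.symm, h3.symm⟩, rfl⟩
    rwa [h2] at h1
  have c3 : IsClosed {x | ∃ y z, f y = - f x ∧ f z = - f x ∧ y ≠ z} := by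
    have hcl : IsClosed {p : T2 × (T2 × T2) | (p.2.1 ≠ p.2.2 ∧ f p.2.1 = f p.2.2) ∧
        f p.2.1 = - f p.1} :=
      (hd.preimage continuous_snd).inter (isClosed_eq
        (h.cont.comp (continuous_fst.comp continuous_snd)) (h.cont.comp continuous_fst).neg)
    have h1 := isClosedMap_fst_of_compactSpace (X := T2) (Y := T2 × T2) _ hcl
    have h2 : Prod.fst '' {p : T2 × (T2 × T2) | (p.2.1 ≠ p.2.2 ∧ f p.2.1 = f p.2.2) ∧
        f p.2.1 = - f p.1} = {x | ∃ y z, f y = - f x ∧ f z = - f x ∧ y ≠ z} := by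
      ext x
      constructor
      · rintro ⟨⟨a, b, c⟩, ⟨⟨h3, h4⟩, h5⟩, rfl⟩
        exact ⟨b, c, h5, h4 ▸ h5, h3⟩
      · rintro ⟨y, z, h3, h4, h5⟩
        exact ⟨(x, y, z), ⟨⟨h5, h3.trans h4.symm⟩, h3⟩, rfl⟩
    rwa [h2] at h1
  have : reg f = {x | f x = 0}ᶜ ∩ {x | ∃ y, f y = f x ∧ y ≠ x}ᶜ ∩
      {x | ∃ y z, f y = - f x ∧ f z = - f x ∧ y ≠ z}ᶜ := by
    ext x
    constructor
    · rintro ⟨h1, h2, h3⟩
      refine ⟨⟨h1, ?_⟩, ?_⟩
      · rintro ⟨y, h4, h5⟩
        exact h5 (h2 y h4)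
      · rintro ⟨y, z, h4, h5, h6⟩
        exact h6 (h3 y z h4 h5)
    · rintro ⟨⟨h1, h2⟩, h3⟩
      refine ⟨h1, fun y hy => ?_, fun y z hy hz => ?_⟩
      · by_contra hyx
        exact h2 ⟨y, hy, hyx⟩
      · by_contra hyz
        exact h3 ⟨y, z, hy, hz, hyz⟩
  rw [this]
  exact (c1.isOpen_compl.inter c2.isOpen_compl).inter c3.isOpen_compl

/-- A choice of antipodal points. -/
noncomputable def anti (h : Setup f) (x : T2) : T2 := (h.sym x).choose

lemma f_anti (h : Setup f) (x : T2) : f (h.anti x) = - f x := (h.sym x).choose_spec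

lemma anti_unique (h : Setup f) {x y : T2} (hx : x ∈ reg f) (hy : f y = - f x) : h.anti x = y :=
  hx.2.2 _ _ (h.f_anti x) hy

lemma anti_mem (h : Setup f) {x : T2} (hx : x ∈ reg f) : h.anti x ∈ reg f := by
  refine ⟨?_, ?_, ?_⟩
  · rw [h.f_anti]; exact neg_ne_zero.2 hx.1
  · intro y hy
    rw [h.f_anti] at hy
    exact (h.anti_unique hx hy).symm
  · intro y z hy hz
    rw [h.f_anti, neg_neg] at hy hz
    rw [hx.2.1 y hy, hx.2.1 z hz]

lemma anti_anti (h : Setup f) {x : T2} (hx : x ∈ reg f) : h.anti (h.anti x) = x :=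
  h.anti_unique (h.anti_mem hx) (by rw [h.f_anti, neg_neg])

lemma anti_ne (h : Setup f) {x : T2} (hx : x ∈ reg f) : h.anti x ≠ x := by
  intro he
  have h1 := h.f_anti x
  rw [he, eq_neg_iff_add_eq_zero, ← two_smul ℝ, smul_eq_zero] at h1
  rcases h1 with h1 | h1
  · norm_num at h1
  · exact hx.1 h1

lemma continuousOn_anti (h : Setup f) : ContinuousOn h.anti (reg f) := by
  intro x0 hx0
  refine ContinuousAt.continuousWithinAt ?_
  rw [ContinuousAt, tendsto_def]
  intro U hU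
  obtain ⟨U', hU'U, hU', hmem⟩ := mem_nhds_iff.1 hU
  have hcl : IsClosed {p : T2 × T2 | f p.2 = - f p.1 ∧ p.2 ∈ U'ᶜ} :=
    (isClosed_eq (h.cont.comp continuous_snd) (h.cont.comp continuous_fst).neg).inter
      (hU'.isClosed_compl.preimage continuous_snd)
  have h1 := isClosedMap_fst_of_compactSpace (X := T2) (Y := T2) _ hcl
  have h2 : x0 ∉ Prod.fst '' {p : T2 × T2 | f p.2 = - f p.1 ∧ p.2 ∈ U'ᶜ} := by
    rintro ⟨⟨a, b⟩, ⟨h3, h4⟩, rfl⟩
    apply h4
    simp only at h3 hx0 hmem ⊢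
    rw [← h.anti_unique hx0 h3]
    exact hmem
  filter_upwards [h1.isOpen_compl.mem_nhds h2] with x hx
  apply hU'U
  by_contra hcon
  exact hx ⟨(x, h.anti x), ⟨h.f_anti x, hcon⟩, rfl⟩

variable [FiniteDimensional ℝ V]

lemma top_subset_reg (h : Setup f) {u : V} (hu : u ≠ 0) (hI : Iness (top f u)) :
    top f u ⊆ reg f := by
  intro x hx
  have h1 := h.injOn hI
  have h2 := h.injOn (h.iness_neg hI)
  refine ⟨?_, ?_, ?_⟩
  · intro h0
    have := h.pos hu hx
    rw [h0, inner_zero_right] at this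
    exact lt_irrefl _ this
  · intro y hy
    refine h1 ?_ hx hy
    rw [mem_top] at hx ⊢
    intro z
    rw [hy]; exact hx z
  · intro y z hy hz
    exact h2 (h.neg_mem hx hy) (h.neg_mem hx hz) (hy.trans hz.symm)

lemma anti_top (h : Setup f) {u : V} {x : T2} (hx : x ∈ top f u) : h.anti x ∈ top f (-u) :=
  h.neg_mem hx (h.f_anti x)

/-- The odd map on a compact part of the inessential part of the sphere. -/
theorem exists_G0 (hinv : InvProp) (h : Setup f) {C : Set V} (hC : IsCompact C)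
    (hneg : ∀ u ∈ C, -u ∈ C) (hC0 : ∀ u ∈ C, u ≠ 0) (hCI : ∀ u ∈ C, Iness (top f u)) :
    ∃ G : V → ℂ, Continuous G ∧ (∀ u, G (-u) = - G u) ∧ ∀ u ∈ C, G u ≠ 0 := by
  let Γ : Set (V × T2) := {z | z.1 ∈ C ∧ z.2 ∈ top f z.1}
  have hΓ : IsCompact Γ := by
    have e : Γ = (C ×ˢ (univ : Set T2)) ∩
          {z : V × T2 | ∀ y ∈ (univ : Set T2), ⟪z.1, f y⟫ ≤ ⟪z.1, f z.2⟫} := by
      ext z
      constructor
      · rintro ⟨h1, h2⟩
        exact ⟨⟨h1, mem_univ _⟩, h2.2⟩
      · rintro ⟨⟨h1, -⟩, h2⟩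
        exact ⟨h1, ⟨mem_univ _, h2⟩⟩
    rw [e]
    exact (hC.prod isCompact_univ).inter_right (isClosed_faceGraph h.cont univ)
  let K : Set T2 := Prod.snd '' Γ
  have hK : IsCompact K := hΓ.image continuous_snd
  have hKreg : K ⊆ reg f := by
    rintro _ ⟨⟨u, x⟩, ⟨hu, hx⟩, rfl⟩
    exact h.top_subset_reg (hC0 u hu) (hCI u hu) hx
  have hanti : ∀ x ∈ K, h.anti x ∈ K := by
    rintro _ ⟨⟨u, x⟩, ⟨hu, hx⟩, rfl⟩
    exact ⟨(-u, h.anti x), ⟨hneg u hu, h.anti_top hx⟩, rfl⟩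
  obtain ⟨c, hc, hc0, hcodd⟩ := hinv (reg f) K h.anti h.isOpen_reg h.continuousOn_anti
    (fun x hx => h.anti_mem hx) (fun x hx => h.anti_anti hx) (fun x hx => h.anti_ne hx) hK hKreg
  have hKun : K ⊆ K ∪ h.anti '' K := subset_union_left
  have : CompactSpace C := isCompact_iff_compactSpace.1 hC
  have : CompactSpace Γ := isCompact_iff_compactSpace.1 hΓ
  let p : Γ → C := fun z => ⟨z.1.1, z.2.1⟩
  have hp : Continuous p := (continuous_fst.comp continuous_subtype_val).subtype_mk _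
  let ν : C → C := fun u => ⟨-u.1, hneg u.1 u.2⟩
  have hν : Continuous ν := (continuous_neg.comp continuous_subtype_val).subtype_mk _
  have hΓK : ∀ z : Γ, z.1.2 ∈ K := fun z => ⟨z.1, z.2, rfl⟩
  let τ : Γ → Γ := fun z => ⟨(-z.1.1, h.anti z.1.2), hneg _ z.2.1, h.anti_top z.2.2⟩
  have hτ : Continuous τ := by
    refine Continuous.subtype_mk (Continuous.prodMk (by fun_prop) ?_) _
    exact h.continuousOn_anti.comp_continuous (by fun_prop) fun z => hKreg (hΓK z)
  obtain ⟨G, hG, hG0, hGodd⟩ := exists_odd_of_fiberwise_log p hp (by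
      rintro ⟨u, hu⟩
      obtain ⟨x, hx⟩ := h.nonempty u
      exact ⟨⟨(u, x), hu, hx⟩, rfl⟩) (by
      rintro ⟨u, hu⟩
      rw [← Topology.IsInducing.subtypeVal.isPreconnected_image]
      have : (Subtype.val '' (p ⁻¹' {⟨u, hu⟩}) : Set (V × T2)) = {u} ×ˢ top f u := by
        ext z
        constructor
        · rintro ⟨⟨z, hz⟩, hz', rfl⟩
          have h1 : z.1 = u := congrArg Subtype.val hz'
          refine ⟨h1, ?_⟩
          rw [← h1]; exact hz.2
        · rintro ⟨h1, h2⟩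
          have h1 : z.1 = u := h1
          refine ⟨⟨z, ?_, ?_⟩, ?_, rfl⟩
          · rw [h1]; exact hu
          · rw [h1]; exact h2
          · exact Subtype.ext h1
      rw [this]
      exact isPreconnected_singleton.prod (h.tp u).preconnected)
    ν hν τ hτ (by
      rintro ⟨⟨u, x⟩, hz⟩
      apply Subtype.ext
      simp only [τ, neg_neg]
      rw [h.anti_anti (hKreg (hΓK ⟨(u, x), hz⟩))]) (fun z => rfl) (fun z => c z.1.2)
    (hc.comp_continuous (by fun_prop) fun z => hKun (hΓK z))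
    (fun z => hc0 _ (hKun (hΓK z))) (fun z => hcodd _ (hKun (hΓK z))) (by
      rintro ⟨u, hu⟩
      have hsub : top f u ⊆ K := fun x hx => ⟨(u, x), ⟨hu, hx⟩, rfl⟩
      obtain ⟨w, h1, h2⟩ := hasLog_of_injOn_convex h.cont (h.tp u).cpt (h.injOn (hCI u hu))
        (h.convex (hCI u hu)) (hc.mono (hsub.trans hKun)) fun x hx => hc0 x (hKun (hsub hx))
      have hfib : ∀ z : Γ, z ∈ p ⁻¹' {⟨u, hu⟩} → z.1.2 ∈ top f u := by
        rintro ⟨z, hz⟩ hz'
        have h1 : z.1 = u := congrArg Subtype.val hz'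
        rw [← h1]; exact hz.2
      exact ⟨fun z => w z.1.2, h1.comp (by fun_prop) hfib, fun z hz => h2 _ (hfib z hz)⟩)
  obtain ⟨G', hG', hG'odd, hG'G⟩ := extend_odd hC.isClosed hneg G hG hGodd
  refine ⟨G', hG', hG'odd, fun u hu => ?_⟩
  rw [hG'G ⟨u, hu⟩]
  exact hG0 _

/-- A centrally symmetric tight torus spans at most four dimensions. -/
theorem finrank_le_four (hinv : InvProp) (h : Setup f) : Module.finrank ℝ V ≤ 4 := by
  by_contra hcon
  push Not at hcon
  obtain ⟨G, hG, hGodd, hG1⟩ := h.exists_G1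
  have hC : IsCompact (Metric.sphere (0 : V) 1 ∩ {u | G u = 0}) :=
    (isCompact_sphere 0 1).inter_right (isClosed_eq hG continuous_const)
  obtain ⟨G', hG', hG'odd, hG'1⟩ := h.exists_G0 hinv hC (by
    rintro u ⟨h1, h2⟩
    have h2 : G u = 0 := h2
    refine ⟨by simpa using h1, ?_⟩
    change G (-u) = 0
    rw [hGodd, h2, neg_zero]) (by
    rintro u ⟨h1, -⟩ rfl
    simp at h1) (by
    rintro u ⟨h1, h2⟩
    by_contra h3
    exact hG1 u h1 h3 h2)
  obtain ⟨u, hu, hu0⟩ := borsuk_ulam hcon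
    (fun u => ![(G u).re, (G u).im, (G' u).re, (G' u).im]) (by
      refine continuousOn_pi.2 fun i => ?_
      fin_cases i
      · exact (Complex.continuous_re.comp hG).continuousOn
      · exact (Complex.continuous_im.comp hG).continuousOn
      · exact (Complex.continuous_re.comp hG').continuousOn
      · exact (Complex.continuous_im.comp hG').continuousOn) (by
      intro u _
      funext i
      fin_cases i
      · simp [hGodd]
      · simp [hGodd]
      · simp [hG'odd]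
      · simp [hG'odd])
  have e1 : G u = 0 := Complex.ext (congrFun hu0 0) (congrFun hu0 1)
  have e2 : G' u = 0 := Complex.ext (congrFun hu0 2) (congrFun hu0 3)
  exact hG'1 u ⟨hu, e1⟩ e2

end Setup

end Pool.Agent.Lib_MP_22bcea_gt
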