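import Pool.Agent.Lib_MP_22bcea_gt.Top

/-!
# Odd maps on the two parts of the sphere
-/

open Topology Set Filter
open scoped RealInnerProductSpace

namespace Pool.Agent.Lib_MP_22bcea_gt

variable {V : Type*} [NormedAddCommGroup V] [InnerProductSpace ℝ V]

/-- The odd function on pairs, defined by a choice of a normalised lift. -/
noncomputable def cfun (A B : Set T2) (x y : T2) : ℂ :=
  open Classical in
  if h : ∃ p : (ℤ × ℤ) × (T2 → ℝ) × (T2 → ℝ), NormLift A B p.1 p.2.1 p.2.2 then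
    pairFun h.choose.2.1 h.choose.2.2 x y else 1

lemma cfun_eq {A B : Set T2} (hG : GoodPair A B) {l : ℤ × ℤ} {ωA ωB : T2 → ℝ}
    (h : NormLift A B l ωA ωB) {x y : T2} (hx : x ∈ A) (hy : y ∈ B) :
    cfun A B x y = pairFun ωA ωB x y := by
  have hex : ∃ p : (ℤ × ℤ) × (T2 → ℝ) × (T2 → ℝ), NormLift A B p.1 p.2.1 p.2.2 :=
    ⟨(l, ωA, ωB), h⟩
  unfold cfun
  rw [dif_pos hex]
  obtain ⟨UA, UB, -, -, hA, hB, -, -, hloc⟩ := pair_local hG h
  exact hloc A B _ _ _ hA hB hex.choose_spec x hx y hy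

lemma cfun_ne_zero {A B : Set T2} (hG : GoodPair A B) {x y : T2} (hx : x ∈ A) (hy : y ∈ B) :
    cfun A B x y ≠ 0 := by
  obtain ⟨l, ωA, ωB, h⟩ := hG.exists_normLift
  rw [cfun_eq hG h hx hy]
  exact pairFun_ne_zero _ _ _ _

lemma cfun_swap {A B : Set T2} (hG : GoodPair A B) {x y : T2} (hx : x ∈ A) (hy : y ∈ B) :
    cfun B A y x = - cfun A B x y := by
  obtain ⟨l, ωA, ωB, h⟩ := hG.exists_normLift
  rw [cfun_eq hG h hx hy, cfun_eq hG.symm h.symm hy hx, pairFun_swap]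

namespace Setup

variable {f : T2 → V}

variable [FiniteDimensional ℝ V]

/-- The essential part of the sphere carries an odd map to the punctured plane. -/
theorem exists_G1 (h : Setup f) : ∃ G : V → ℂ, Continuous G ∧ (∀ u, G (-u) = - G u) ∧
    ∀ u ∈ Metric.sphere (0 : V) 1, ¬ Iness (top f u) → G u ≠ 0 := by
  let K1 : Set V := Metric.sphere 0 1 ∩ {u | ¬ Iness (top f u)}
  have hK1 : IsCompact K1 := (isCompact_sphere 0 1).inter_right h.isClosed_ess
  have hK1' : IsClosed K1 := hK1.isClosed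
  have hneg : ∀ u ∈ K1, -u ∈ K1 := by
    rintro u ⟨h1, h2⟩
    refine ⟨by simpa using h1, fun h3 => h2 ?_⟩
    simpa using h.iness_neg h3
  have hne0 : ∀ u ∈ K1, u ≠ 0 := by
    rintro u ⟨h1, -⟩ rfl
    simp at h1
  have hGP : ∀ u ∈ K1, GoodPair (top f u) (top f (-u)) := fun u hu =>
    h.goodPair (hne0 u hu) hu.2
  let Γ : Set (V × T2 × T2) := {z | z.1 ∈ K1 ∧ z.2.1 ∈ top f z.1 ∧ z.2.2 ∈ top f (-z.1)}
  have hΓ : IsCompact Γ := by
    have e : Γ = (K1 ×ˢ (univ : Set (T2 × T2))) ∩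
        ((fun z : V × T2 × T2 => (z.1, z.2.1)) ⁻¹'
          {z : V × T2 | ∀ y ∈ (univ : Set T2), ⟪z.1, f y⟫ ≤ ⟪z.1, f z.2⟫} ∩
        (fun z : V × T2 × T2 => (-z.1, z.2.2)) ⁻¹'
          {z : V × T2 | ∀ y ∈ (univ : Set T2), ⟪z.1, f y⟫ ≤ ⟪z.1, f z.2⟫}) := by
      ext z
      constructor
      · rintro ⟨h1, h2, h3⟩
        exact ⟨⟨h1, mem_univ _⟩, h2.2, h3.2⟩
      · rintro ⟨⟨h1, -⟩, h2, h3⟩
        exact ⟨h1, ⟨mem_univ _, h2⟩, ⟨mem_univ _, h3⟩⟩
    rw [e]
    refine (hK1.prod isCompact_univ).inter_right (IsClosed.inter ?_ ?_)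
    · exact (isClosed_faceGraph h.cont univ).preimage (by fun_prop)
    · exact (isClosed_faceGraph h.cont univ).preimage (by fun_prop)
  have : CompactSpace K1 := isCompact_iff_compactSpace.1 hK1
  have : CompactSpace Γ := isCompact_iff_compactSpace.1 hΓ
  let p : Γ → K1 := fun z => ⟨z.1.1, z.2.1⟩
  have hp : Continuous p := (continuous_fst.comp continuous_subtype_val).subtype_mk _
  let ν : K1 → K1 := fun u => ⟨-u.1, hneg u.1 u.2⟩
  have hν : Continuous ν := (continuous_neg.comp continuous_subtype_val).subtype_mk _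
  let τ : Γ → Γ := fun z => ⟨(-z.1.1, z.1.2.2, z.1.2.1), hneg _ z.2.1, z.2.2.2, by
    rw [neg_neg]; exact z.2.2.1⟩
  have hτ : Continuous τ := by
    refine Continuous.subtype_mk ?_ _
    fun_prop
  let c : Γ → ℂ := fun z => cfun (top f z.1.1) (top f (-z.1.1)) z.1.2.1 z.1.2.2
  have hc : Continuous c := by
    rw [continuous_iff_continuousAt]
    rintro ⟨⟨u0, x0, y0⟩, hu0, hx0, hy0⟩
    simp only at hu0 hx0 hy0
    obtain ⟨l, ωA, ωB, hN⟩ := (hGP u0 hu0).exists_normLift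
    obtain ⟨UA, UB, oA, oB, hA, hB, -, -, hloc⟩ := pair_local (hGP u0 hu0) hN
    have hcv : Continuous fun z : Γ => z.1.1 := continuous_fst.comp continuous_subtype_val
    have e1 : ∀ᶠ z : Γ in 𝓝 ⟨⟨u0, x0, y0⟩, hu0, hx0, hy0⟩, top f z.1.1 ⊆ UA :=
      hcv.continuousAt.eventually (h.usc oA hA)
    have e2 : ∀ᶠ z : Γ in 𝓝 ⟨⟨u0, x0, y0⟩, hu0, hx0, hy0⟩, top f (-z.1.1) ⊆ UB :=
      hcv.neg.continuousAt.eventually (h.usc oB hB)
    have e3 : (fun z : Γ => pairFun ωA ωB z.1.2.1 z.1.2.2) =ᶠ[𝓝 ⟨⟨u0, x0, y0⟩, hu0, hx0, hy0⟩] c := by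
      filter_upwards [e1, e2] with z h1 h2
      obtain ⟨l', ωA', ωB', hN'⟩ := (hGP _ z.2.1).exists_normLift
      simp only [c]
      rw [cfun_eq (hGP _ z.2.1) hN' z.2.2.1 z.2.2.2]
      exact (hloc _ _ _ _ _ h1 h2 hN' _ z.2.2.1 _ z.2.2.2).symm
    refine ContinuousAt.congr ?_ e3
    have hxB : x0 ∈ (top f (-u0))ᶜ := fun hx' => Set.disjoint_left.1 (hGP u0 hu0).dj hx0 hx'
    have hyA : y0 ∈ (top f u0)ᶜ := fun hy' => Set.disjoint_left.1 (hGP u0 hu0).dj hy' hy0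
    have cA : ContinuousAt ωA y0 := hN.cA.continuousAt
      ((hGP u0 hu0).cA.isClosed.isOpen_compl.mem_nhds hyA)
    have cB : ContinuousAt ωB x0 := hN.cB.continuousAt
      ((hGP u0 hu0).cB.isClosed.isOpen_compl.mem_nhds hxB)
    unfold pairFun
    have cx : Continuous fun z : Γ => z.1.2.1 := by fun_prop
    have cy : Continuous fun z : Γ => z.1.2.2 := by fun_prop
    have dA : ContinuousAt (fun z : Γ => ωA z.1.2.2) ⟨⟨u0, x0, y0⟩, hu0, hx0, hy0⟩ :=
      ContinuousAt.comp (f := fun z : Γ => z.1.2.2) (g := ωA) cA cy.continuousAt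
    have dB : ContinuousAt (fun z : Γ => ωB z.1.2.1) ⟨⟨u0, x0, y0⟩, hu0, hx0, hy0⟩ :=
      ContinuousAt.comp (f := fun z : Γ => z.1.2.1) (g := ωB) cB cx.continuousAt
    have d1 : ContinuousAt (fun z : Γ => ((ωB z.1.2.1 + ωA z.1.2.2 : ℝ) : ℂ))
        ⟨⟨u0, x0, y0⟩, hu0, hx0, hy0⟩ :=
      Complex.continuous_ofReal.continuousAt.comp (dB.add dA)
    exact Complex.continuous_exp.continuousAt.comp (d1.mul continuousAt_const)
  obtain ⟨G, hG, hG0, hGodd⟩ := exists_odd_of_fiberwise_log p hp (by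
      rintro ⟨u, hu⟩
      obtain ⟨x, hx⟩ := h.nonempty u
      obtain ⟨y, hy⟩ := h.nonempty (-u)
      exact ⟨⟨(u, x, y), hu, hx, hy⟩, rfl⟩) (by
      rintro ⟨u, hu⟩
      rw [← Topology.IsInducing.subtypeVal.isPreconnected_image]
      have : (Subtype.val '' (p ⁻¹' {⟨u, hu⟩}) : Set (V × T2 × T2)) =
          {u} ×ˢ (top f u ×ˢ top f (-u)) := by
        ext z
        constructor
        · rintro ⟨⟨z, hz⟩, hz', rfl⟩
          have h1 : z.1 = u := congrArg Subtype.val hz'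
          refine ⟨h1, ?_, ?_⟩
          · rw [← h1]; exact hz.2.1
          · rw [← h1]; exact hz.2.2
        · rintro ⟨h1, h2, h3⟩
          have h1 : z.1 = u := h1
          refine ⟨⟨z, ?_, ?_, ?_⟩, ?_, rfl⟩
          · rw [h1]; exact hu
          · rw [h1]; exact h2
          · rw [h1]; exact h3
          · exact Subtype.ext h1
      rw [this]
      exact isPreconnected_singleton.prod ((h.tp u).preconnected.prod (h.tp (-u)).preconnected))
    ν hν τ hτ (by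
      rintro ⟨⟨u, x, y⟩, hz⟩
      apply Subtype.ext
      simp [τ]) (fun z => rfl) c hc (by
      rintro ⟨⟨u, x, y⟩, hu, hx, hy⟩
      exact cfun_ne_zero (hGP u hu) hx hy) (by
      rintro ⟨⟨u, x, y⟩, hu, hx, hy⟩
      simp only [c, τ, neg_neg]
      exact cfun_swap (hGP u hu) hx hy) (by
      rintro ⟨u, hu⟩
      obtain ⟨l, ωA, ωB, hN⟩ := (hGP u hu).exists_normLift
      refine ⟨fun z => ((ωB z.1.2.1 + ωA z.1.2.2 : ℝ) : ℂ) * (Real.pi * Complex.I), ?_, ?_⟩
      · have hfib : ∀ z : Γ, z ∈ p ⁻¹' {⟨u, hu⟩} → z.1.2.1 ∈ top f u ∧ z.1.2.2 ∈ top f (-u) := by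
          rintro ⟨z, hz⟩ hz'
          have h1 : z.1 = u := congrArg Subtype.val hz'
          refine ⟨?_, ?_⟩
          · rw [← h1]; exact hz.2.1
          · rw [← h1]; exact hz.2.2
        refine ContinuousOn.mul ?_ continuousOn_const
        refine Complex.continuous_ofReal.comp_continuousOn (ContinuousOn.add ?_ ?_)
        · refine hN.cB.comp (by fun_prop) fun z hz hzB => ?_
          exact Set.disjoint_left.1 (hGP u hu).dj (hfib z hz).1 hzB
        · refine hN.cA.comp (by fun_prop) fun z hz hzA => ?_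
          exact Set.disjoint_left.1 (hGP u hu).dj hzA (hfib z hz).2
      · rintro ⟨⟨v, x, y⟩, hv, hx, hy⟩ hz
        have h1 : v = u := congrArg Subtype.val hz
        subst h1
        simp only [c]
        rw [cfun_eq (hGP v hv) hN hx hy]
        rfl)
  obtain ⟨G', hG', hG'odd, hG'G⟩ := extend_odd hK1' hneg G hG hGodd
  refine ⟨G', hG', hG'odd, fun u hu hI => ?_⟩
  rw [hG'G ⟨u, hu, hI⟩]
  exact hG0 _

end Setup

end Pool.Agent.Lib_MP_22bcea_gt
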