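import Pool.Agent.Lib_MP_22bcea_gt.Torus2

/-!
# Lifting maps to `ℝ³ ∖ 0` through the Hopf map
-/

open Topology Set Filter

namespace Pool.Agent.Lib_MP_22bcea_gt

/-- The length of a vector of `ℂ × ℝ`. -/
noncomputable def len (D : ℂ × ℝ) : ℝ := Real.sqrt (Complex.normSq D.1 + D.2 ^ 2)

lemma len_sq (D : ℂ × ℝ) : len D ^ 2 = Complex.normSq D.1 + D.2 ^ 2 :=
  Real.sq_sqrt (add_nonneg (Complex.normSq_nonneg _) (sq_nonneg _))

lemma len_sq' (D : ℂ × ℝ) :
    (len D : ℂ) ^ 2 = D.1 * (starRingEnd ℂ) D.1 + (D.2 : ℂ) ^ 2 := by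
  rw [Complex.mul_conj]
  exact_mod_cast len_sq D

lemma len_nonneg (D : ℂ × ℝ) : 0 ≤ len D := Real.sqrt_nonneg _

lemma len_pos {D : ℂ × ℝ} (h : D ≠ 0) : 0 < len D := by
  apply Real.sqrt_pos.2
  by_contra hc
  have h1 := Complex.normSq_nonneg D.1
  have h2 := sq_nonneg D.2
  have h3 : Complex.normSq D.1 = 0 := by linarith
  have h4 : D.2 ^ 2 = 0 := by linarith
  exact h (Prod.ext (Complex.normSq_eq_zero.1 h3) (by simpa using h4))

lemma continuous_len : Continuous len := by
  unfold len
  exact Real.continuous_sqrt.comp ((Complex.continuous_normSq.comp continuous_fst).add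
    (continuous_snd.pow 2))

lemma len_neg (D : ℂ × ℝ) : len (-D) = len D := by
  simp [len]

/-- `(g, h)` is an eigenvector for the eigenvalue `len D` of the Pauli matrix of `D`. -/
def Eig (D : ℂ × ℝ) (g h : ℂ) : Prop :=
  (D.2 : ℂ) * g + (starRingEnd ℂ) D.1 * h = len D * g ∧ D.1 * g - D.2 * h = len D * h

/-- The field of directions `D` lifts through the Hopf map. -/
def HLift {X : Type*} [TopologicalSpace X] (D : X → ℂ × ℝ) : Prop :=
  ∃ g h : X → ℂ, Continuous g ∧ Continuous h ∧ (∀ x, ¬ (g x = 0 ∧ h x = 0)) ∧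
    ∀ x, Eig (D x) (g x) (h x)

lemma HLift.step {X : Type*} [TopologicalSpace X] {D D' : X → ℂ × ℝ} (h : HLift D)
    (hD' : Continuous D') (hn : ∀ x, len (D' x) • D x + len (D x) • D' x ≠ 0) : HLift D' := by
  obtain ⟨g, k, hg, hk, h0, hE⟩ := h
  have hl : Continuous fun x => (len (D' x) : ℂ) :=
    Complex.continuous_ofReal.comp (continuous_len.comp hD')
  have h1 : Continuous fun x => (D' x).1 := continuous_fst.comp hD'
  have h2 : Continuous fun x => (((D' x).2 : ℝ) : ℂ) :=
    Complex.continuous_ofReal.comp (continuous_snd.comp hD')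
  have h3 : Continuous fun x => (starRingEnd ℂ) (D' x).1 := Complex.continuous_conj.comp h1
  refine ⟨fun x => len (D' x) * g x + (D' x).2 * g x + (starRingEnd ℂ) (D' x).1 * k x,
    fun x => len (D' x) * k x + (D' x).1 * g x - (D' x).2 * k x,
    ((hl.mul hg).add (h2.mul hg)).add (h3.mul hk),
    ((hl.mul hk).add (h1.mul hg)).sub (h2.mul hk), ?_, ?_⟩
  · rintro x ⟨e3, e4⟩
    obtain ⟨e1, e2⟩ := hE x
    set a : ℂ := len (D' x) * (D x).1 + len (D x) * (D' x).1 with ha
    set b : ℝ := len (D' x) * (D x).2 + len (D x) * (D' x).2 with hb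
    have hac : (starRingEnd ℂ) a = len (D' x) * (starRingEnd ℂ) (D x).1 +
        len (D x) * (starRingEnd ℂ) (D' x).1 := by
      simp [ha]
    have hbc : (b : ℂ) = len (D' x) * (D x).2 + len (D x) * (D' x).2 := by
      simp [hb]
    have f1 : (b : ℂ) * g x + (starRingEnd ℂ) a * k x = 0 := by
      rw [hac, hbc]
      linear_combination (len (D' x) : ℂ) * e1 + (len (D x) : ℂ) * e3
    have f2 : a * g x - (b : ℂ) * k x = 0 := by
      rw [ha, hbc]
      linear_combination (len (D' x) : ℂ) * e2 + (len (D x) : ℂ) * e4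
    have f3 : ((b : ℂ) ^ 2 + a * (starRingEnd ℂ) a) * g x = 0 := by
      linear_combination (b : ℂ) * f1 + (starRingEnd ℂ) a * f2
    have f4 : ((b : ℂ) ^ 2 + a * (starRingEnd ℂ) a) * k x = 0 := by
      linear_combination a * f1 - (b : ℂ) * f2
    have f5 : (b : ℂ) ^ 2 + a * (starRingEnd ℂ) a = ((b ^ 2 + Complex.normSq a : ℝ) : ℂ) := by
      rw [Complex.mul_conj]; push_cast; ring
    rw [f5] at f3 f4
    have f6 : b ^ 2 + Complex.normSq a = 0 := by
      by_contra hne
      have hne' : ((b ^ 2 + Complex.normSq a : ℝ) : ℂ) ≠ 0 := by exact_mod_cast hne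
      exact h0 x ⟨(mul_eq_zero.1 f3).resolve_left hne', (mul_eq_zero.1 f4).resolve_left hne'⟩
    have hb2 := sq_nonneg b
    have ha2 := Complex.normSq_nonneg a
    have hb0 : b = 0 := by
      have : b ^ 2 = 0 := by linarith
      simpa using this
    have ha0 : a = 0 := Complex.normSq_eq_zero.1 (by linarith)
    apply hn x
    refine Prod.ext ?_ ?_
    · simpa [ha] using ha0
    · simpa [hb] using hb0
  · intro x
    have hs := len_sq' (D' x)
    constructor
    · simp only
      linear_combination -(g x) * hs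
    · simp only
      linear_combination -(k x) * hs

lemma hLift_const {X : Type*} [TopologicalSpace X] (D : ℂ × ℝ) (hD : D ≠ 0) :
    HLift fun _ : X => D := by
  have hs := len_sq' D
  have hl := len_pos hD
  by_cases h : len D + D.2 = 0
  · have h1 : D.1 = 0 := by
      have h2 := len_sq D
      have h3 : D.2 = - len D := by linarith
      rw [h3] at h2
      have h4 : Complex.normSq D.1 = 0 := by nlinarith
      exact Complex.normSq_eq_zero.1 h4
    refine ⟨fun _ => 0, fun _ => 1, continuous_const, continuous_const, by simp, fun _ => ?_⟩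
    constructor
    · simp [h1]
    · have h3 : D.2 = - len D := by linarith
      simp [h3]
  · refine ⟨fun _ => (len D + D.2 : ℝ), fun _ => D.1, continuous_const, continuous_const, ?_,
      fun _ => ?_⟩
    · rintro _ ⟨h1, -⟩
      change ((len D + D.2 : ℝ) : ℂ) = 0 at h1
      exact h (by exact_mod_cast h1)
    · constructor
      · push_cast
        linear_combination -hs
      · push_cast
        ring

/-- A field of directions which misses a ray lifts. -/
lemma hLift_of_miss {X : Type*} [TopologicalSpace X] {D : X → ℂ × ℝ} (hD : Continuous D)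
    (V : ℂ × ℝ) (hV : V ≠ 0) (h : ∀ x, ∀ r : ℝ, D x ≠ r • V) : HLift D := by
  refine (hLift_const V hV).step hD fun x hx => ?_
  have hl : len V ≠ 0 := (len_pos hV).ne'
  refine h x (-(len (D x) / len V)) ?_
  have h1 : len V • D x = -(len (D x) • V) := by
    rw [eq_neg_iff_add_eq_zero, add_comm]; exact hx
  calc D x = (len V)⁻¹ • (len V • D x) := by rw [smul_smul, inv_mul_cancel₀ hl, one_smul]
    _ = (len V)⁻¹ • (-(len (D x) • V)) := by rw [h1]
    _ = -(len (D x) / len V) • V := by
      rw [smul_neg, smul_smul, neg_smul, div_eq_inv_mul]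

lemma HLift.step_of_close {X : Type*} [TopologicalSpace X] {D D' : X → ℂ × ℝ} (h : HLift D)
    (hD' : Continuous D') (h0 : ∀ x, D x ≠ 0) (hn : ∀ x, ‖D' x - D x‖ < ‖D x‖) : HLift D' := by
  refine h.step hD' fun x hx => ?_
  have hl := len_pos (h0 x)
  have h1 : D' x = -((len (D' x) / len (D x)) • D x) := by
    have h2 : len (D x) • D' x = -(len (D' x) • D x) := by
      rw [eq_neg_iff_add_eq_zero, add_comm]; exact hx
    calc D' x = (len (D x))⁻¹ • (len (D x) • D' x) := by
          rw [smul_smul, inv_mul_cancel₀ hl.ne', one_smul]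
      _ = (len (D x))⁻¹ • (-(len (D' x) • D x)) := by rw [h2]
      _ = -((len (D' x) / len (D x)) • D x) := by
        rw [smul_neg, smul_smul, div_eq_inv_mul]
  have h4 : D' x - D x = -((1 + len (D' x) / len (D x)) • D x) := by
    conv_lhs => rw [h1]
    rw [add_smul, one_smul]; abel
  have h5 := hn x
  rw [h4, norm_neg, norm_smul, Real.norm_eq_abs] at h5
  have h6 : 0 ≤ len (D' x) / len (D x) := div_nonneg (len_nonneg _) hl.le
  rw [abs_of_nonneg (by linarith)] at h5
  have h7 : 0 < ‖D x‖ := norm_pos_iff.2 (h0 x)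
  nlinarith

/-- Homotopy invariance. -/
lemma HLift.of_homotopy {X : Type*} [TopologicalSpace X] [CompactSpace X]
    (D : unitInterval × X → ℂ × ℝ) (hD : Continuous D) (h0 : ∀ z, D z ≠ 0)
    (h : HLift fun x => D (1, x)) : HLift fun x => D (0, x) := by
  have key : IsLocallyConstant fun t : unitInterval => HLift fun x => D (t, x) := by
    rw [IsLocallyConstant.iff_eventually_eq]
    intro t
    have h1 : ∀ᶠ s in 𝓝 t, ∀ x ∈ (univ : Set X),
        ‖D (s, x) - D (t, x)‖ < ‖D (s, x)‖ ∧ ‖D (s, x) - D (t, x)‖ < ‖D (t, x)‖ := by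
      refine isCompact_univ.eventually_forall_of_forall_eventually
        (P := fun s x => ‖D (s, x) - D (t, x)‖ < ‖D (s, x)‖ ∧
          ‖D (s, x) - D (t, x)‖ < ‖D (t, x)‖) fun x _ => ?_
      have hc1 : Continuous fun z : unitInterval × X => ‖D z - D (t, z.2)‖ := by fun_prop
      have hc2 : Continuous fun z : unitInterval × X => ‖D z‖ := by fun_prop
      have hc3 : Continuous fun z : unitInterval × X => ‖D (t, z.2)‖ := by fun_prop
      have hp : 0 < ‖D (t, x)‖ := norm_pos_iff.2 (h0 _)
      refine (hc1.continuousAt.eventually_lt hc2.continuousAt ?_).and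
        (hc1.continuousAt.eventually_lt hc3.continuousAt ?_)
      · simpa using h0 (t, x)
      · simpa using h0 (t, x)
    filter_upwards [h1] with s hs
    have hcs : Continuous fun x => D (s, x) := by fun_prop
    have hct : Continuous fun x => D (t, x) := by fun_prop
    refine propext ⟨fun h => h.step_of_close hct (fun x => h0 _) fun x => ?_,
      fun h => h.step_of_close hcs (fun x => h0 _) fun x => (hs x (mem_univ _)).2⟩
    rw [norm_sub_rev]
    exact (hs x (mem_univ _)).1
  have := key.apply_eq_of_isPreconnected isPreconnected_univ (mem_univ (1 : unitInterval))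
    (mem_univ (0 : unitInterval))
  exact (this ▸ h : _)

/-- An odd field of directions which lifts gives an odd map to `ℂ ∖ 0`. -/
lemma HLift.exists_odd {X : Type*} [TopologicalSpace X] {D : X → ℂ × ℝ} (h : HLift D)
    (h0 : ∀ x, D x ≠ 0) (σ : X → X) (hσ : Continuous σ) (hσσ : ∀ x, σ (σ x) = x)
    (hD : ∀ x, D (σ x) = - D x) :
    ∃ c : X → ℂ, Continuous c ∧ (∀ x, c x ≠ 0) ∧ ∀ x, c (σ x) = - c x := by
  obtain ⟨g, k, hg, hk, hn, hE⟩ := h
  refine ⟨fun x => g x * k (σ x) - g (σ x) * k x,
    (hg.mul (hk.comp hσ)).sub ((hg.comp hσ).mul hk), ?_, ?_⟩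
  · intro x hx
    change g x * k (σ x) - g (σ x) * k x = 0 at hx
    obtain ⟨e1, e2⟩ := hE x
    obtain ⟨e3, e4⟩ := hE (σ x)
    rw [hD, len_neg] at e3 e4
    simp only [Prod.fst_neg, Prod.snd_neg, map_neg, Complex.ofReal_neg] at e3 e4
    have hl : (len (D x) : ℂ) ≠ 0 := by exact_mod_cast (len_pos (h0 x)).ne'
    by_cases hgx : g x = 0
    · have hkx : k x ≠ 0 := fun hk0 => hn x ⟨hgx, hk0⟩
      have hg' : g (σ x) = 0 := by
        rw [hgx, zero_mul, zero_sub, neg_eq_zero] at hx
        exact (mul_eq_zero.1 hx).resolve_right hkx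
      have hk' : k (σ x) ≠ 0 := fun hk0 => hn (σ x) ⟨hg', hk0⟩
      rw [hgx] at e2
      rw [hg'] at e4
      have e5 : -((D x).2 : ℂ) = len (D x) := by
        apply mul_right_cancel₀ hkx
        linear_combination e2
      have e6 : ((D x).2 : ℂ) = len (D x) := by
        apply mul_right_cancel₀ hk'
        linear_combination e4
      apply hl
      linear_combination (-(1:ℂ)/2) * e5 - (1/2 : ℂ) * e6
    · have e5 : g (σ x) = 0 := by
        have : (2 * (len (D x) : ℂ) * g x) * g (σ x) = 0 := by
          linear_combination (-(g (σ x))) * e1 - (g x) * e3 - ((starRingEnd ℂ) (D x).1) * hx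
        rcases mul_eq_zero.1 this with h1 | h1
        · exfalso
          rcases mul_eq_zero.1 h1 with h2 | h2
          · rcases mul_eq_zero.1 h2 with h3 | h3
            · norm_num at h3
            · exact hl h3
          · exact hgx h2
        · exact h1
      have e6 : k (σ x) = 0 := by
        rw [e5, zero_mul, sub_zero] at hx
        exact (mul_eq_zero.1 hx).resolve_left hgx
      exact hn _ ⟨e5, e6⟩
  · intro x
    simp only [hσσ]
    ring

end Pool.Agent.Lib_MP_22bcea_gt
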