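import Pool.Agent.Lib_MP_22bcea_gt.Torus2

/-!
# Free involutions of the torus have odd maps to the punctured plane
-/

open Topology Set Filter

namespace Pool.Agent.Lib_MP_22bcea_gt

lemma lat_injective : Function.Injective lat := by
  intro m n h
  have h1 := congrArg Complex.re h
  have h2 := congrArg Complex.im h
  simp only [lat_re, lat_im] at h1 h2
  exact Prod.ext (by exact_mod_cast h1) (by exact_mod_cast h2)

/-- Lifting of self-maps of the torus to the plane. -/
lemma exists_lift_self (σ : T2 → T2) (hσ : Continuous σ) :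
    ∃ s : ℂ → ℂ, Continuous s ∧ ∀ z, proj (s z) = σ (proj z) := by
  obtain ⟨a0, ha0⟩ := QuotientAddGroup.mk_surjective (σ (proj 0)).1
  obtain ⟨b0, hb0⟩ := QuotientAddGroup.mk_surjective (σ (proj 0)).2
  obtain ⟨A, ⟨-, hA⟩, -⟩ := (AddCircle.isCoveringMap_coe (1 : ℝ)).existsUnique_continuousMap_lifts
    (⟨fun z => (σ (proj z)).1, (continuous_fst.comp (hσ.comp continuous_proj))⟩ :
      C(ℂ, AddCircle (1 : ℝ))) 0 a0 ha0
  obtain ⟨B, ⟨-, hB⟩, -⟩ := (AddCircle.isCoveringMap_coe (1 : ℝ)).existsUnique_continuousMap_lifts
    (⟨fun z => (σ (proj z)).2, (continuous_snd.comp (hσ.comp continuous_proj))⟩ :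
      C(ℂ, AddCircle (1 : ℝ))) 0 b0 hb0
  have hA' : ∀ z, (A z : AddCircle (1 : ℝ)) = (σ (proj z)).1 := fun z => congr_fun hA z
  have hB' : ∀ z, (B z : AddCircle (1 : ℝ)) = (σ (proj z)).2 := fun z => congr_fun hB z
  refine ⟨fun z => (A z : ℂ) + (B z : ℂ) * Complex.I, by fun_prop, fun z => ?_⟩
  refine Prod.ext ?_ ?_
  · rw [← hA']
    change ((((A z : ℂ) + (B z : ℂ) * Complex.I).re : ℝ) : AddCircle (1 : ℝ)) = A z
    congr 1
    simp
  · rw [← hB']
    change ((((A z : ℂ) + (B z : ℂ) * Complex.I).im : ℝ) : AddCircle (1 : ℝ)) = B z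
    congr 1
    simp

/-- Continuous lattice-valued functions on the plane are constant. -/
lemma const_of_lat {h : ℂ → ℂ} (hc : Continuous h) (hi : ∀ z, ∃ m, h z = lat m) :
    ∃ m, ∀ z, h z = lat m := by
  obtain ⟨n1, h1⟩ := const_of_int (S := (univ : Set ℂ)) isPreconnected_univ
    (h := fun z => (h z).re) (by fun_prop) (fun z _ => by
      obtain ⟨m, hm⟩ := hi z
      exact ⟨m.1, by rw [hm]; simp⟩)
  obtain ⟨n2, h2⟩ := const_of_int (S := (univ : Set ℂ)) isPreconnected_univ
    (h := fun z => (h z).im) (by fun_prop) (fun z _ => by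
      obtain ⟨m, hm⟩ := hi z
      exact ⟨m.2, by rw [hm]; simp⟩)
  exact ⟨(n1, n2), fun z => Complex.ext (h1 z (mem_univ _)) (h2 z (mem_univ _))⟩

/-- The arithmetic of integral involutions of rank two. -/
lemma involution_dichotomy {a b c d x y : ℤ} (h1 : a * a + b * c = 1) (h2 : b * (a + d) = 0)
    (h3 : c * (a + d) = 0) (h4 : d * d + b * c = 1) (hx : a * x + b * y = x)
    (hy : c * x + d * y = y) :
    (∃ p q : ℤ, p * a + q * c = p ∧ p * b + q * d = q ∧ Odd (p * x + q * y)) ∨
      ∃ w1 w2 : ℤ, x = w1 + (a * w1 + b * w2) ∧ y = w2 + (c * w1 + d * w2) := by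
  by_cases had : a + d = 0
  · have hd : d = -a := by linarith
    subst hd
    by_cases hev : Even (1 + a) ∧ Even b ∧ Even c
    · obtain ⟨⟨r, hr⟩, ⟨s, hs⟩, ⟨t, ht⟩⟩ := hev
      have ha : a = r + r - 1 := by linarith
      subst hs ht
      subst ha
      by_cases hxo : Odd x
      · left
        refine ⟨r, s, ?_, ?_, ?_⟩
        · have : 2 * (r * (r + r - 1) + s * (t + t) - r) = 0 := by linear_combination h1
          omega
        · ring
        · have : r * x + s * y = x := by
            have : 2 * (r * x + s * y - x) = 0 := by linear_combination hx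
            omega
          rw [this]; exact hxo
      · by_cases hyo : Odd y
        · left
          refine ⟨t, 1 - r, ?_, ?_, ?_⟩
          · ring
          · have : 2 * (t * (s + s) + (1 - r) * -(r + r - 1) - (1 - r)) = 0 := by
              linear_combination h1
            omega
          · have : t * x + (1 - r) * y = y := by
              have : 2 * (t * x + (1 - r) * y - y) = 0 := by linear_combination hy
              omega
            rw [this]; exact hyo
        · right
          rw [Int.not_odd_iff_even] at hxo hyo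
          obtain ⟨x', rfl⟩ := hxo
          obtain ⟨y', rfl⟩ := hyo
          refine ⟨x', y', ?_, ?_⟩
          · have : 2 * (x' + ((r + r - 1) * x' + (s + s) * y') - (x' + x')) = 0 := by
              linear_combination hx
            omega
          · have : 2 * (y' + ((t + t) * x' + -(r + r - 1) * y') - (y' + y')) = 0 := by
              linear_combination hy
            omega
    · right
      -- the first column of `1 + B`
      by_cases hcol : 1 + a = 0 ∧ c = 0
      · obtain ⟨ha, rfl⟩ := hcol
        have ha' : a = -1 := by linarith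
        subst ha'
        have hb : Odd b := by
          rw [← Int.not_even_iff_odd]
          intro hb
          exact hev ⟨by simp, hb, by simp⟩
        obtain ⟨b', rfl⟩ := hb
        have hy2 : Even y := by
          have : 2 * (x - b' * y) = y := by linarith
          exact ⟨x - b' * y, by linarith⟩
        obtain ⟨y', rfl⟩ := hy2
        refine ⟨0, y', ?_, ?_⟩
        · linarith
        · ring
      · have hne : 1 + a ≠ 0 ∨ c ≠ 0 := by
          by_contra hcon
          push Not at hcon
          exact hcol hcon
        have hg : 0 < Int.gcd (1 + a) c := Int.gcd_pos_iff.2 hne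
        obtain ⟨X, hX⟩ := Int.gcd_dvd_left (a := 1 + a) (b := c)
        obtain ⟨Y, hY⟩ := Int.gcd_dvd_right (a := 1 + a) (b := c)
        have hbez := Int.gcd_eq_gcd_ab (1 + a) c
        generalize hgg : (Int.gcd (1 + a) c : ℤ) = g at *
        have hg0 : g ≠ 0 := by
          rw [← hgg]; exact_mod_cast hg.ne'
        generalize Int.gcdA (1 + a) c = r at *
        generalize Int.gcdB (1 + a) c = s at *
        have hb1 : r * X + s * Y = 1 := by
          have : g * (r * X + s * Y - 1) = 0 := by
            linear_combination (-r) * hX - s * hY - hbez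
          have := (mul_eq_zero.1 this).resolve_left hg0
          linarith
        have ha : a = g * X - 1 := by linarith
        subst ha
        subst hY
        -- second column
        have e1 : X * (1 - (g * X - 1)) = b * Y := by
          have : g * (X * (1 - (g * X - 1)) - b * Y) = 0 := by linear_combination (-1) * h1
          have := (mul_eq_zero.1 this).resolve_left hg0
          linarith
        have e2 : Y * x = X * y := by
          have : g * (Y * x - X * y) = 0 := by linear_combination hy
          have := (mul_eq_zero.1 this).resolve_left hg0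
          linarith
        obtain ⟨g', hg'⟩ : ∃ g', g' = r * b + s * (1 - (g * X - 1)) := ⟨_, rfl⟩
        obtain ⟨t, ht⟩ : ∃ t, t = r * x + s * y := ⟨_, rfl⟩
        have f1 : g' * X = b := by
          rw [hg']; linear_combination b * hb1 + s * e1
        have f2 : g' * Y = 1 - (g * X - 1) := by
          rw [hg']; linear_combination (1 - (g * X - 1)) * hb1 - r * e1
        have f3 : t * X = x := by
          rw [ht]; linear_combination x * hb1 - s * e2
        have f4 : t * Y = y := by
          rw [ht]; linear_combination y * hb1 + r * e2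
        rcases Int.even_or_odd g with hge | hgo
        · rcases Int.even_or_odd g' with hg'e | hg'o
          · exfalso
            apply hev
            refine ⟨?_, ?_, ?_⟩
            · have : 1 + (g * X - 1) = g * X := by ring
              rw [this]; exact hge.mul_right X
            · rw [← f1]; exact hg'e.mul_right X
            · exact hge.mul_right Y
          · obtain ⟨h, hh⟩ := hg'o
            refine ⟨-(h * x), t - h * y, ?_, ?_⟩
            · linear_combination t * f1 - (t * X) * hh - (1 + 2 * h) * f3 + h * hx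
            · linear_combination t * f2 - (t * Y) * hh - (1 + 2 * h) * f4 + h * hy
        · obtain ⟨h, hh⟩ := hgo
          refine ⟨t - h * x, -(h * y), ?_, ?_⟩
          · linear_combination (-(1 + 2 * h)) * f3 - (t * X) * hh + h * hx
          · linear_combination (-(1 + 2 * h)) * f4 - (t * Y) * hh + h * hy
  · have hb : b = 0 := (mul_eq_zero.1 h2).resolve_right had
    have hc : c = 0 := (mul_eq_zero.1 h3).resolve_right had
    subst hb hc
    have ha : a = 1 ∨ a = -1 := by
      have : (a - 1) * (a + 1) = 0 := by linear_combination h1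
      rcases mul_eq_zero.1 this with h | h
      · left; linarith
      · right; linarith
    have hd : d = 1 ∨ d = -1 := by
      have : (d - 1) * (d + 1) = 0 := by linear_combination h4
      rcases mul_eq_zero.1 this with h | h
      · left; linarith
      · right; linarith
    rcases ha with rfl | rfl <;> rcases hd with rfl | rfl
    · by_cases hxo : Odd x
      · left; exact ⟨1, 0, by ring, by ring, by simpa using hxo⟩
      · by_cases hyo : Odd y
        · left; exact ⟨0, 1, by ring, by ring, by simpa using hyo⟩
        · right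
          rw [Int.not_odd_iff_even] at hxo hyo
          obtain ⟨x', rfl⟩ := hxo
          obtain ⟨y', rfl⟩ := hyo
          exact ⟨x', y', by ring, by ring⟩
    · exact absurd (by norm_num) had
    · exact absurd (by norm_num) had
    · right
      refine ⟨0, 0, ?_, ?_⟩ <;> linarith

/-- Functions on the plane that are invariant under the lattice descend to the torus. -/
lemma exists_descend {c0 : ℂ → ℂ} (hc : Continuous c0) (hp : ∀ z m, c0 (z + lat m) = c0 z) :
    ∃ c : T2 → ℂ, Continuous c ∧ ∀ z, c (proj z) = c0 z := by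
  have hdesc : ∀ z w, proj z = proj w → c0 z = c0 w := by
    intro z w h
    obtain ⟨m, rfl⟩ := proj_eq_iff.1 h
    exact (hp z m).symm
  let h : C(T2, ℂ) := isQuotientMap_proj.lift (f := (⟨proj, continuous_proj⟩ : C(ℂ, T2)))
    ⟨c0, hc⟩ (by intro z w h; exact hdesc z w h)
  refine ⟨h, h.continuous, fun z => ?_⟩
  have := isQuotientMap_proj.lift_comp (f := (⟨proj, continuous_proj⟩ : C(ℂ, T2)))
      ⟨c0, hc⟩ (by intro z w h; exact hdesc z w h)
  exact congrArg (fun g : C(ℂ, ℂ) => g z) this

/-- A free involution of the torus has an odd continuous map to the punctured plane. -/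
theorem exists_odd_of_free_involution (σ : T2 → T2) (hσ : Continuous σ)
    (hσσ : ∀ x, σ (σ x) = x) (hfix : ∀ x, σ x ≠ x) :
    ∃ c : T2 → ℂ, Continuous c ∧ (∀ x, c x ≠ 0) ∧ ∀ x, c (σ x) = - c x := by
  obtain ⟨s, hs, hsσ⟩ := exists_lift_self σ hσ
  have hB : ∀ m, ∃ n, ∀ z, s (z + lat m) = s z + lat n := by
    intro m
    obtain ⟨n, hn⟩ := const_of_lat (h := fun z => s (z + lat m) - s z) (by fun_prop) (by
      intro z
      have : proj (s z) = proj (s (z + lat m)) := by rw [hsσ, hsσ, proj_add_lat]
      obtain ⟨n, hn⟩ := proj_eq_iff.1 this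
      exact ⟨n, by rw [hn]; ring⟩)
    exact ⟨n, fun z => by rw [← hn z]; ring⟩
  choose B hB using hB
  have hadd : ∀ m m', B (m + m') = B m + B m' := by
    intro m m'
    apply lat_injective
    have h1 := hB (m + m') 0
    have h2 := hB m (0 + lat m')
    have h3 := hB m' 0
    rw [lat_add] at h1
    have e : (0 : ℂ) + (lat m + lat m') = 0 + lat m' + lat m := by ring
    rw [e, h2, h3] at h1
    rw [lat_add]
    linear_combination (-1) * h1
  let R : ℤ × ℤ →+ ℤ × ℤ := AddMonoidHom.mk' B hadd
  have hlin : ∀ m, B m = ((B (1, 0)).1 * m.1 + (B (0, 1)).1 * m.2,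
      (B (1, 0)).2 * m.1 + (B (0, 1)).2 * m.2) := by
    intro m
    have e : m = m.1 • ((1, 0) : ℤ × ℤ) + m.2 • ((0, 1) : ℤ × ℤ) := by
      ext <;> simp
    have h1 : R m = m.1 • R (1, 0) + m.2 • R (0, 1) := by
      conv_lhs => rw [e]
      rw [map_add, map_zsmul, map_zsmul]
    have h2 : R m = B m := rfl
    have h3 : R (1, 0) = B (1, 0) := rfl
    have h4 : R (0, 1) = B (0, 1) := rfl
    rw [← h2, h1, h3, h4]
    ext <;> simp <;> ring
  obtain ⟨v, hv⟩ : ∃ v, ∀ z, s (s z) = z + lat v := by
    obtain ⟨n, hn⟩ := const_of_lat (h := fun z => s (s z) - z) (by fun_prop) (by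
      intro z
      have : proj z = proj (s (s z)) := by rw [hsσ, hsσ, hσσ]
      obtain ⟨n, hn⟩ := proj_eq_iff.1 this
      exact ⟨n, by rw [hn]; ring⟩)
    exact ⟨n, fun z => by rw [← hn z]; ring⟩
  have hBB : ∀ m, B (B m) = m := by
    intro m
    apply lat_injective
    have h1 := hv (0 + lat m)
    rw [hB, hB, hv] at h1
    linear_combination h1
  have hBv : B v = v := by
    apply lat_injective
    have h1 := hv (s 0)
    rw [hv 0, hB] at h1
    linear_combination h1
  obtain ⟨a, ha⟩ : ∃ a, a = (B (1, 0)).1 := ⟨_, rfl⟩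
  obtain ⟨b, hb⟩ : ∃ b, b = (B (0, 1)).1 := ⟨_, rfl⟩
  obtain ⟨c, hc⟩ : ∃ c, c = (B (1, 0)).2 := ⟨_, rfl⟩
  obtain ⟨d, hd⟩ : ∃ d, d = (B (0, 1)).2 := ⟨_, rfl⟩
  rw [← ha, ← hb, ← hc, ← hd] at hlin
  have q1 := hBB (1, 0)
  have q2 := hBB (0, 1)
  rw [hlin, hlin] at q1 q2
  rw [hlin] at hBv
  simp only [Prod.mk.injEq, mul_one, mul_zero, add_zero, zero_add] at q1 q2
  have hv1 := congrArg Prod.fst hBv
  have hv2 := congrArg Prod.snd hBv
  simp only at hv1 hv2
  rcases involution_dichotomy (a := a) (b := b) (c := c) (d := d) (x := v.1) (y := v.2)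
    q1.1 (by linear_combination q2.1) (by linear_combination q1.2)
    (by linear_combination q2.2) hv1 hv2 with ⟨p, q, hp, hq, hodd⟩ | ⟨w1, w2, hw1, hw2⟩
  · let l : ℤ × ℤ := (p, q)
    have hlB : ∀ m, dot l (B m) = dot l m := by
      intro m
      rw [hlin]
      simp only [dot, l]
      linear_combination m.1 * hp + m.2 * hq
    have hlv : Odd (dot l v) := hodd
    obtain ⟨C, hC, hC'⟩ := exists_descend
      (c0 := fun z => Complex.exp (Real.pi * Complex.I * ((evR l z + evR l (s z) : ℝ) : ℂ))) (by
        have := continuous_evR l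
        fun_prop) (by
        intro z m
        rw [hB, evR_add, evR_add, evR_lat, evR_lat, hlB]
        have : (Real.pi : ℂ) * Complex.I *
            ((evR l z + (dot l m : ℝ) + (evR l (s z) + (dot l m : ℝ)) : ℝ) : ℂ) =
            Real.pi * Complex.I * ((evR l z + evR l (s z) : ℝ) : ℂ) +
              (dot l m : ℤ) * (2 * Real.pi * Complex.I) := by
          push_cast; ring
        rw [this, Complex.exp_add, Complex.exp_int_mul_two_pi_mul_I, mul_one])
    refine ⟨C, hC, fun x => ?_, fun x => ?_⟩
    · obtain ⟨z, rfl⟩ := surjective_proj x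
      rw [hC']; exact Complex.exp_ne_zero _
    · obtain ⟨z, rfl⟩ := surjective_proj x
      rw [← hsσ, hC', hC', hv, evR_add, evR_lat]
      obtain ⟨k, hk⟩ := hlv
      have : (Real.pi : ℂ) * Complex.I *
          ((evR l (s z) + (evR l z + (dot l v : ℝ)) : ℝ) : ℂ) =
          Real.pi * Complex.I * ((evR l z + evR l (s z) : ℝ) : ℂ) +
            ((k : ℤ) * (2 * Real.pi * Complex.I) + Real.pi * Complex.I) := by
        rw [hk]; push_cast; ring
      rw [this, Complex.exp_add, Complex.exp_add, Complex.exp_int_mul_two_pi_mul_I,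
        Complex.exp_pi_mul_I]
      ring
  · exfalso
    let w : ℤ × ℤ := (w1, w2)
    have hw : v = w + B w := by
      rw [hlin]
      exact Prod.ext hw1 hw2
    let s' : ℂ → ℂ := fun z => s z - lat w
    have hs' : Continuous s' := by simp only [s']; fun_prop
    have hss' : ∀ z, s' (s' z) = z := by
      intro z
      have h1 := hB (-w) (s z)
      rw [lat_neg, ← sub_eq_add_neg] at h1
      have h2 : B (-w) = -B w := (R.map_neg w)
      simp only [s']
      rw [h1, h2, lat_neg, hv, hw, lat_add]
      ring
    have hne : ∀ z, z - s' z ≠ 0 := by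
      intro z h0
      have h1 : s z = z + lat w := by
        simp only [s'] at h0
        linear_combination (-1) * h0
      apply hfix (proj z)
      rw [← hsσ, h1, proj_add_lat]
    obtain ⟨W, hW, hW'⟩ := hasLog_of_convex (convex_univ (𝕜 := ℝ) (E := ℂ))
      (c := fun z => z - s' z) (by fun_prop) (fun z _ => hne z)
    rw [continuousOn_univ] at hW
    have key := log_unique (isPreconnected_univ (α := ℂ))
      (w := fun z => W (s' z)) (v := fun z => W z + Real.pi * Complex.I)
      (by fun_prop) (by fun_prop) (by
        intro z _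
        rw [Complex.exp_add, Complex.exp_pi_mul_I, hW' _ (mem_univ _), hW' _ (mem_univ _)]
        change s' z - s' (s' z) = (z - s' z) * -1
        rw [hss']
        ring) 0 (mem_univ _) (s' 0) (mem_univ _)
    rw [hss'] at key
    have h1 : W (s' 0) = W 0 := by linear_combination key / 2
    have h2 : Complex.exp (W (s' 0)) = s' 0 - s' (s' 0) := hW' (s' 0) (mem_univ _)
    have h3 : Complex.exp (W 0) = 0 - s' 0 := hW' 0 (mem_univ _)
    rw [h1, h3, hss'] at h2
    apply hne 0
    linear_combination h2 / 2

end Pool.Agent.Lib_MP_22bcea_gt
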