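import Pool.Agent.Lib_MP_22bcea_gt.Hopf

/-!
# A free involution on a proper open subset of the torus
-/

open Topology Set Filter

namespace Pool.Agent.Lib_MP_22bcea_gt

namespace InvB

lemma sec_re_mem (y : T2) : -(1 / 2) ≤ (sec y).re ∧ (sec y).re < 1 / 2 := by
  have h := (AddCircle.equivIco (1 : ℝ) (-1 / 2) y.1).2
  constructor
  · have := h.1; simp only [sec]; linarith
  · have := h.2; simp only [sec]; linarith

lemma sec_im_mem (y : T2) : -(1 / 2) ≤ (sec y).im ∧ (sec y).im < 1 / 2 := by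
  have h := (AddCircle.equivIco (1 : ℝ) (-1 / 2) y.2).2
  constructor
  · have := h.1; simp only [sec]; linarith
  · have := h.2; simp only [sec]; linarith

lemma norm_fst (y : T2) : ‖y.1‖ = |(sec y).re| := by
  have h1 : y.1 = ((sec y).re : AddCircle (1 : ℝ)) := (congrArg Prod.fst (proj_sec y)).symm
  rw [h1]
  rw [(AddCircle.norm_coe_eq_abs_iff (1 : ℝ) one_ne_zero).2]
  · have := sec_re_mem y
    rw [abs_one, abs_le]; constructor <;> linarith

lemma norm_snd (y : T2) : ‖y.2‖ = |(sec y).im| := by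
  have h1 : y.2 = ((sec y).im : AddCircle (1 : ℝ)) := (congrArg Prod.snd (proj_sec y)).symm
  rw [h1]
  rw [(AddCircle.norm_coe_eq_abs_iff (1 : ℝ) one_ne_zero).2]
  · have := sec_im_mem y
    rw [abs_one, abs_le]; constructor <;> linarith

/-- Twice the distance to the origin. -/
noncomputable def mm (y : T2) : ℝ := 2 * max ‖y.1‖ ‖y.2‖

lemma continuous_mm : Continuous mm := by
  unfold mm; fun_prop

lemma mm_le_one (y : T2) : mm y ≤ 1 := by
  have h1 := sec_re_mem y
  have h2 := sec_im_mem y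
  have : max ‖y.1‖ ‖y.2‖ ≤ 1 / 2 := by
    rw [norm_fst, norm_snd]
    refine max_le ?_ ?_ <;> rw [abs_le] <;> constructor <;> linarith
  unfold mm; linarith

lemma mm_pos {y : T2} (h : y ≠ 0) : 0 < mm y := by
  have h0 : 0 ≤ max ‖y.1‖ ‖y.2‖ := (norm_nonneg _).trans (le_max_left _ _)
  rcases h0.lt_or_eq with h1 | h1
  · unfold mm; linarith
  · exfalso
    apply h
    have h2 : ‖y.1‖ ≤ 0 := h1 ▸ le_max_left _ _
    have h3 : ‖y.2‖ ≤ 0 := h1 ▸ le_max_right _ _
    exact Prod.ext (norm_le_zero_iff.1 h2) (norm_le_zero_iff.1 h3)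

lemma mm_eq_one {y : T2} (h : y ∉ secDom) : mm y = 1 := by
  refine le_antisymm (mm_le_one y) ?_
  have hn : ‖((-1 / 2 : ℝ) : AddCircle (1 : ℝ))‖ = 1 / 2 := by
    rw [(AddCircle.norm_coe_eq_abs_iff (1 : ℝ) one_ne_zero).2]
    · norm_num [abs_div]
    · norm_num [abs_div]
  have h' : y.1 = ((-1 / 2 : ℝ) : AddCircle (1 : ℝ)) ∨ y.2 = ((-1 / 2 : ℝ) : AddCircle (1 : ℝ)) := by
    by_contra hc
    push Not at hc
    exact h hc
  have : (1 / 2 : ℝ) ≤ max ‖y.1‖ ‖y.2‖ := by
    rcases h' with h' | h'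
    · rw [← hn, ← h']; exact le_max_left _ _
    · rw [← hn, ← h']; exact le_max_right _ _
  unfold mm; linarith

/-- Continuous version of the section. -/
noncomputable def ph (y : T2) : ℂ := (1 - mm y : ℝ) • sec y

lemma norm_sec_le (y : T2) : ‖sec y‖ ≤ 1 := by
  have h1 := sec_re_mem y
  have h2 := sec_im_mem y
  have := Complex.norm_le_abs_re_add_abs_im (sec y)
  have h3 : |(sec y).re| ≤ 1 / 2 := by rw [abs_le]; constructor <;> linarith
  have h4 : |(sec y).im| ≤ 1 / 2 := by rw [abs_le]; constructor <;> linarith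
  linarith

lemma continuous_ph : Continuous ph := by
  rw [continuous_iff_continuousAt]
  intro y
  by_cases h : y ∈ secDom
  · have h1 : ContinuousAt sec y := continuousOn_sec.continuousAt (isOpen_secDom.mem_nhds h)
    exact ((continuous_const.sub continuous_mm).continuousAt).smul h1
  · have h1 : ph y = 0 := by rw [ph, mm_eq_one h]; simp
    rw [ContinuousAt, h1]
    have h2 : Tendsto (fun z => 1 - mm z) (𝓝 y) (𝓝 0) := by
      have h3 : Tendsto (fun z => 1 - mm z) (𝓝 y) (𝓝 (1 - mm y)) :=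
        (continuous_const.sub continuous_mm).tendsto y
      rwa [mm_eq_one h, sub_self] at h3
    refine squeeze_zero_norm (fun z => ?_) h2
    have h3 := mm_le_one z
    rw [ph, norm_smul, Real.norm_eq_abs, abs_of_nonneg (by linarith)]
    have h4 := norm_sec_le z
    nlinarith

/-- The radial displacement. -/
noncomputable def vv (y : T2) : ℂ := (mm y)⁻¹ • ph y

lemma continuousOn_vv : ContinuousOn vv {0}ᶜ := by
  unfold vv
  exact (continuous_mm.continuousOn.inv₀ fun y hy => (mm_pos hy).ne').smul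
    continuous_ph.continuousOn

lemma add_vv {y : T2} (h : y ≠ 0) : y + proj (vv y) = proj ((mm y)⁻¹ • sec y) := by
  have h1 : sec y + vv y = (mm y)⁻¹ • sec y := by
    have hm := (mm_pos h).ne'
    rw [vv, ph, smul_smul]
    have : sec y + ((mm y)⁻¹ * (1 - mm y)) • sec y = (1 + (mm y)⁻¹ * (1 - mm y)) • sec y := by
      rw [add_smul, one_smul]
    rw [this]
    congr 1
    field_simp
    ring
  calc y + proj (vv y) = proj (sec y) + proj (vv y) := by rw [proj_sec]
    _ = proj ((mm y)⁻¹ • sec y) := by rw [← proj_add, h1]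

lemma half_eq {a : ℝ} (h : |a| = 1 / 2) : (a : AddCircle (1 : ℝ)) = ((1 / 2 : ℝ) : AddCircle (1 : ℝ)) := by
  rcases abs_eq (by norm_num : (0 : ℝ) ≤ 1 / 2) |>.1 h with h | h
  · rw [h]
  · rw [h]
    exact coe_eq_coe_iff.2 ⟨1, by norm_num⟩

lemma skeleton {y : T2} (h : y ≠ 0) :
    (∃ b : ℝ, y + proj (vv y) = proj ⟨1 / 2, b⟩) ∨ (∃ b : ℝ, y + proj (vv y) = proj ⟨b, 1 / 2⟩) := by
  have hm := mm_pos h
  rcases le_total ‖y.2‖ ‖y.1‖ with hle | hle
  · left
    refine ⟨(mm y)⁻¹ * (sec y).im, ?_⟩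
    have h1 : mm y = 2 * |(sec y).re| := by rw [mm, max_eq_left hle, norm_fst]
    rw [add_vv h]
    refine Prod.ext ?_ ?_
    · change ((((mm y)⁻¹ • sec y).re : ℝ) : AddCircle (1 : ℝ)) = ((1 / 2 : ℝ) : AddCircle (1 : ℝ))
      apply half_eq
      rw [Complex.smul_re, smul_eq_mul, abs_mul, abs_of_pos (inv_pos.2 hm)]
      have : |(sec y).re| ≠ 0 := by intro h0; rw [h0] at h1; linarith
      rw [h1]; field_simp
    · change ((((mm y)⁻¹ • sec y).im : ℝ) : AddCircle (1 : ℝ)) =
        (((mm y)⁻¹ * (sec y).im : ℝ) : AddCircle (1 : ℝ))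
      rw [Complex.smul_im, smul_eq_mul]
  · right
    refine ⟨(mm y)⁻¹ * (sec y).re, ?_⟩
    have h1 : mm y = 2 * |(sec y).im| := by rw [mm, max_eq_right hle, norm_snd]
    rw [add_vv h]
    refine Prod.ext ?_ ?_
    · change ((((mm y)⁻¹ • sec y).re : ℝ) : AddCircle (1 : ℝ)) =
        (((mm y)⁻¹ * (sec y).re : ℝ) : AddCircle (1 : ℝ))
      rw [Complex.smul_re, smul_eq_mul]
    · change ((((mm y)⁻¹ • sec y).im : ℝ) : AddCircle (1 : ℝ)) = ((1 / 2 : ℝ) : AddCircle (1 : ℝ))
      apply half_eq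
      rw [Complex.smul_im, smul_eq_mul, abs_mul, abs_of_pos (inv_pos.2 hm)]
      have : |(sec y).im| ≠ 0 := by intro h0; rw [h0] at h1; linarith
      rw [h1]; field_simp

/-- The embedding in `ℂ × ℂ`. -/
noncomputable def io (y : T2) : ℂ × ℂ := (fourier 1 y.1, fourier 1 y.2)

lemma continuous_io : Continuous io := by
  unfold io; fun_prop

lemma fourier_inj {a b : AddCircle (1 : ℝ)} (h : fourier 1 a = fourier 1 b) : a = b := by
  rw [fourier_one, fourier_one] at h
  exact AddCircle.injective_toCircle one_ne_zero (Subtype.ext h)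

lemma injective_io : Function.Injective io := by
  intro a b h
  obtain ⟨h1, h2⟩ := Prod.ext_iff.1 h
  exact Prod.ext (fourier_inj h1) (fourier_inj h2)

lemma norm_fourier_one (a : AddCircle (1 : ℝ)) : ‖fourier 1 a‖ = 1 := by
  rw [fourier_one]; exact Circle.norm_coe _

/-- The standard torus in `ℝ³`. -/
noncomputable def em (y : T2) : ℂ × ℝ :=
  (((2 + (fourier 1 y.2).re : ℝ) : ℂ) * fourier 1 y.1, (fourier 1 y.2).im)

lemma continuous_em : Continuous em := by
  unfold em
  refine Continuous.prodMk ?_ ?_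
  · refine Continuous.mul ?_ (by fun_prop)
    refine Complex.continuous_ofReal.comp ?_
    exact continuous_const.add (Complex.continuous_re.comp (by fun_prop))
  · exact Complex.continuous_im.comp (by fun_prop)

lemma injective_em : Function.Injective em := by
  intro a b h
  obtain ⟨h1, h2⟩ := Prod.ext_iff.1 h
  simp only [em] at h1 h2
  have e1 : ∀ y : AddCircle (1 : ℝ), 0 < 2 + (fourier 1 y).re := by
    intro y
    have := Complex.abs_re_le_norm (fourier 1 y)
    rw [norm_fourier_one, abs_le] at this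
    linarith [this.1]
  have h3 := congrArg norm h1
  rw [norm_mul, norm_mul, norm_fourier_one, norm_fourier_one, Complex.norm_real, Complex.norm_real,
    Real.norm_of_nonneg (e1 _).le, Real.norm_of_nonneg (e1 _).le, mul_one, mul_one] at h3
  have h4 : a.2 = b.2 := fourier_inj (Complex.ext (by linarith) h2)
  rw [h4] at h1
  have h5 : a.1 = b.1 := by
    apply fourier_inj
    have : ((2 + (fourier 1 b.2).re : ℝ) : ℂ) ≠ 0 := by exact_mod_cast (e1 _).ne'
    exact mul_left_cancel₀ this h1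
  exact Prod.ext h5 h4

/-- The parametrisation of the torus in `ℂ × ℂ`. -/
noncomputable def EE (z : ℂ) : ℂ × ℂ :=
  (Complex.exp (2 * Real.pi * Complex.I * (z.re : ℂ)), Complex.exp (2 * Real.pi * Complex.I * (z.im : ℂ)))

lemma io_proj (z : ℂ) : io (proj z) = EE z := by
  simp only [io, proj, EE, fourier_coe_apply]
  norm_num

lemma contDiff_EE : ContDiff ℝ 1 EE := by
  unfold EE
  have h1 : ContDiff ℝ 1 fun z : ℂ => (z.re : ℂ) :=
    Complex.ofRealCLM.contDiff.comp Complex.reCLM.contDiff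
  have h2 : ContDiff ℝ 1 fun z : ℂ => (z.im : ℂ) :=
    Complex.ofRealCLM.contDiff.comp Complex.imCLM.contDiff
  exact (Complex.contDiff_exp.comp (contDiff_const.mul h1)).prodMk
    (Complex.contDiff_exp.comp (contDiff_const.mul h2))

end InvB

open InvB

theorem exists_odd_of_involution_open {O K : Set T2} (hO : IsOpen O) (hne : O ≠ Set.univ) (σ : T2 → T2)
    (hσ : ContinuousOn σ O) (hσO : Set.MapsTo σ O O) (hσσ : ∀ x ∈ O, σ (σ x) = x)
    (hfix : ∀ x ∈ O, σ x ≠ x) (hK : IsCompact K) (hKO : K ⊆ O) :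
    ∃ c : T2 → ℂ, ContinuousOn c (K ∪ σ '' K) ∧ (∀ x ∈ K ∪ σ '' K, c x ≠ 0) ∧
      ∀ x ∈ K ∪ σ '' K, c (σ x) = - c x := by
  classical
  set A : Set T2 := K ∪ σ '' K with hAdef
  have hAO : A ⊆ O := union_subset hKO (by rintro _ ⟨x, hx, rfl⟩; exact hσO (hKO hx))
  have hAc : IsCompact A := hK.union (hK.image_of_continuousOn (hσ.mono hKO))
  have hAσ : ∀ x ∈ A, σ x ∈ A := by
    rintro x (hx | ⟨y, hy, rfl⟩)
    · exact Or.inr ⟨x, hx, rfl⟩
    · left; rw [hσσ y (hKO hy)]; exact hy
  obtain ⟨p, hp⟩ : ∃ p, p ∉ O := by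
    by_contra hc; push Not at hc; exact hne (eq_univ_of_forall hc)
  obtain ⟨p0, hp0⟩ := surjective_proj p
  rcases A.eq_empty_or_nonempty with hAe | hAne
  · exact ⟨fun _ => 0, by simp [hAe], by simp [hAe], by simp [hAe]⟩
  have : CompactSpace A := isCompact_iff_compactSpace.1 hAc
  have : Nonempty A := hAne.to_subtype
  let σ' : A → A := fun x => ⟨σ x, hAσ x x.2⟩
  have hσc : Continuous fun x : A => σ x := (hσ.mono hAO).domRestrict
  have hσ' : Continuous σ' := Continuous.subtype_mk hσc _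
  have hσσ' : ∀ x, σ' (σ' x) = x := fun x => Subtype.ext (hσσ x (hAO x.2))
  let D : A → ℂ × ℝ := fun x => em (σ x) - em x
  have hD : Continuous D := (continuous_em.comp hσc).sub (continuous_em.comp continuous_subtype_val)
  have hD0 : ∀ x, D x ≠ 0 := fun x h => hfix x (hAO x.2) (injective_em (sub_eq_zero.1 h))
  have hDσ : ∀ x, D (σ' x) = - D x := by
    intro x
    simp only [D, σ', hσσ x (hAO x.2)]
    abel
  obtain ⟨ε, hε, hεD⟩ : ∃ ε : ℝ, 0 < ε ∧ ∀ x, ε ≤ ‖D x‖ := by
    obtain ⟨x0, -, hx0⟩ := isCompact_univ.exists_isMinOn (univ_nonempty (α := A))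
      (hD.norm.continuousOn)
    exact ⟨‖D x0‖, norm_pos_iff.2 (hD0 x0), fun x => hx0 (mem_univ x)⟩
  have hcl : IsClosedEmbedding fun x : A => io x :=
    (continuous_io.comp continuous_subtype_val).isClosedEmbedding
      (injective_io.comp Subtype.val_injective)
  obtain ⟨W, hW⟩ := ContinuousMap.exists_extension hcl (⟨D, hD⟩ : C(A, ℂ × ℝ))
  have hW' : ∀ x : A, W (io x) = D x := fun x => congrArg (fun f : C(A, ℂ × ℝ) => f x) hW
  obtain ⟨P, hP, hPW, -⟩ := Continuous.exists_contDiff_approx (f := W) (ε := fun _ => ε / 4) 1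
    W.continuous continuous_const (fun _ => by linarith)
  have hG0 : ContDiff ℝ 1 fun z : ℂ => P (EE z) := hP.comp contDiff_EE
  have hfr : Module.finrank ℝ ℂ < Module.finrank ℝ (ℂ × ℝ) := by
    rw [Module.finrank_prod, Complex.finrank_real_complex, Module.finrank_self]; norm_num
  obtain ⟨v0, hv0, hv0'⟩ := (hG0.dense_compl_range_of_finrank_lt_finrank hfr).exists_mem_open
    Metric.isOpen_ball ⟨0, Metric.mem_ball_self (show (0 : ℝ) < ε / 4 by linarith)⟩
  let G : T2 → ℂ × ℝ := fun y => P (io y) - v0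
  have hG : Continuous G := (hP.continuous.comp continuous_io).sub continuous_const
  have hGn : ∀ y, G y ≠ 0 := by
    intro y hy
    obtain ⟨z, rfl⟩ := surjective_proj y
    apply hv0
    refine ⟨z, ?_⟩
    simp only [G, io_proj] at hy
    exact sub_eq_zero.1 hy
  have hGD : ∀ x : A, ‖G x - D x‖ < ε / 2 := by
    intro x
    have h1 := hPW (io x)
    rw [hW', dist_eq_norm] at h1
    rw [mem_ball_zero_iff] at hv0'
    have h2 : G x - D x = (P (io x) - D x) - v0 := by simp only [G]; abel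
    rw [h2]
    exact (norm_sub_le _ _).trans_lt (by linarith)
  -- a line missed by the skeleton
  let g1 : ℝ × ℝ → ℂ × ℝ := fun q => q.1 • (P (EE (p0 + ⟨1 / 2, q.2⟩)) - v0)
  let g2 : ℝ × ℝ → ℂ × ℝ := fun q => q.1 • (P (EE (p0 + ⟨q.2, 1 / 2⟩)) - v0)
  have hg1 : ContDiff ℝ 1 g1 := by
    have h1 : ContDiff ℝ 1 fun q : ℝ × ℝ => p0 + (⟨1 / 2, q.2⟩ : ℂ) := by
      have : (fun q : ℝ × ℝ => p0 + (⟨1 / 2, q.2⟩ : ℂ)) =
          fun q : ℝ × ℝ => p0 + ((1 / 2 : ℂ) + (q.2 : ℂ) * Complex.I) := by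
        funext q
        congr 1
        apply Complex.ext <;> simp
      rw [this]
      exact contDiff_const.add (contDiff_const.add
        ((Complex.ofRealCLM.contDiff.comp contDiff_snd).mul contDiff_const))
    exact contDiff_fst.smul ((hG0.comp h1).sub contDiff_const)
  have hg2 : ContDiff ℝ 1 g2 := by
    have h1 : ContDiff ℝ 1 fun q : ℝ × ℝ => p0 + (⟨q.2, 1 / 2⟩ : ℂ) := by
      have : (fun q : ℝ × ℝ => p0 + (⟨q.2, 1 / 2⟩ : ℂ)) =
          fun q : ℝ × ℝ => p0 + ((q.2 : ℂ) + (1 / 2 : ℂ) * Complex.I) := by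
        funext q
        congr 1
        apply Complex.ext <;> simp
      rw [this]
      exact contDiff_const.add ((Complex.ofRealCLM.contDiff.comp contDiff_snd).add contDiff_const)
    exact contDiff_fst.smul ((hG0.comp h1).sub contDiff_const)
  obtain ⟨V, hV⟩ : ∃ V, V ∉ range g1 ∪ range g2 := by
    have hd : dimH (range g1 ∪ range g2) < (Module.finrank ℝ (ℂ × ℝ) : ENNReal) := by
      rw [dimH_union]
      have e1 := hg1.dimH_range_le
      have e2 := hg2.dimH_range_le
      have e3 : Module.finrank ℝ (ℝ × ℝ) < Module.finrank ℝ (ℂ × ℝ) := by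
        rw [Module.finrank_prod, Module.finrank_prod, Complex.finrank_real_complex,
          Module.finrank_self]; norm_num
      have e4 : ((Module.finrank ℝ (ℝ × ℝ) : ℕ) : ENNReal) < (Module.finrank ℝ (ℂ × ℝ) : ENNReal) := by
        exact_mod_cast e3
      exact (max_le e1 e2).trans_lt e4
    obtain ⟨V, hV⟩ := (dense_compl_of_dimH_lt_finrank hd).nonempty
    exact ⟨V, hV⟩
  have hV0 : V ≠ 0 := by
    rintro rfl
    exact hV (Or.inl ⟨(0, 0), by simp [g1]⟩)
  let Q : unitInterval × A → T2 := fun z => (z.2 : T2) + proj ((z.1 : ℝ) • vv ((z.2 : T2) - p))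
  have hne0 : ∀ x : A, (x : T2) - p ≠ 0 := by
    intro x h
    exact hp (hAO (sub_eq_zero.1 h ▸ x.2))
  have hvv : Continuous fun x : A => vv ((x : T2) - p) :=
    continuousOn_vv.comp_continuous (continuous_subtype_val.sub continuous_const) hne0
  have hQ : Continuous Q := by
    refine (continuous_subtype_val.comp continuous_snd).add (continuous_proj.comp ?_)
    exact (continuous_subtype_val.comp continuous_fst).smul (hvv.comp continuous_snd)
  have hlift1 : HLift fun x : A => G (Q (1, x)) := by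
    refine hLift_of_miss (hG.comp (hQ.comp (by fun_prop))) V hV0 ?_
    intro x r hr
    have hr0 : r ≠ 0 := by
      rintro rfl
      rw [zero_smul] at hr
      exact hGn _ hr
    have hV1 : V = r⁻¹ • G (Q (1, x)) := by
      rw [hr, smul_smul, inv_mul_cancel₀ hr0, one_smul]
    have hQ1 : Q (1, x) = p + (((x : T2) - p) + proj (vv ((x : T2) - p))) := by
      simp only [Q, Set.Icc.coe_one, one_smul]
      abel
    rcases skeleton (hne0 x) with ⟨b, hb⟩ | ⟨b, hb⟩
    · apply hV
      left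
      refine ⟨(r⁻¹, b), ?_⟩
      rw [hV1, hQ1, hb, ← hp0, ← proj_add]
      simp only [g1, G, io_proj]
    · apply hV
      right
      refine ⟨(r⁻¹, b), ?_⟩
      rw [hV1, hQ1, hb, ← hp0, ← proj_add]
      simp only [g2, G, io_proj]
  have hlift0 : HLift fun x : A => G (Q (0, x)) :=
    HLift.of_homotopy (fun z => G (Q z)) (hG.comp hQ) (fun z => hGn _) hlift1
  have hQ0 : ∀ x : A, Q (0, x) = x := by
    intro x
    simp only [Q, Set.Icc.coe_zero, zero_smul]
    have : proj 0 = 0 := by simp [proj]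
    rw [this, add_zero]
  simp only [hQ0] at hlift0
  have hliftD : HLift D := by
    refine hlift0.step_of_close hD (fun x => hGn _) fun x => ?_
    rw [norm_sub_rev]
    have h1 := hGD x
    have h2 := hεD x
    have h3 : ‖D x‖ ≤ ‖G x‖ + ‖G x - D x‖ := by
      have := norm_sub_le (G x) (G x - D x)
      rwa [sub_sub_cancel] at this
    linarith
  obtain ⟨c, hc, hc0, hcσ⟩ := hliftD.exists_odd hD0 σ' hσ' hσσ' hDσ
  refine ⟨fun x => if h : x ∈ A then c ⟨x, h⟩ else 0, ?_, ?_, ?_⟩
  · rw [continuousOn_iff_continuous_domRestrict]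
    convert hc using 1
    funext x
    simp
  · intro x hx
    simp only [hx, dif_pos]
    exact hc0 _
  · intro x hx
    simp only [hx, hAσ x hx, dif_pos]
    exact hcσ ⟨x, hx⟩

end Pool.Agent.Lib_MP_22bcea_gt
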