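import Pool.Agent.Lib_MP_22bcea_gt.Torus

/-!
# Continuous logarithms
-/

open Topology Set Filter

namespace Pool.Agent.Lib_MP_22bcea_gt

/-- `c` has a continuous logarithm on `K`. -/
def HasLog {X : Type*} [TopologicalSpace X] (c : X → ℂ) (K : Set X) : Prop :=
  ∃ w : X → ℂ, ContinuousOn w K ∧ ∀ x ∈ K, Complex.exp (w x) = c x

section

variable {X Y : Type*} [TopologicalSpace X] [TopologicalSpace Y] {c d : X → ℂ} {K L : Set X}

lemma HasLog.mono (h : HasLog c K) (hs : L ⊆ K) : HasLog c L := by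
  obtain ⟨w, h1, h2⟩ := h
  exact ⟨w, h1.mono hs, fun x hx => h2 x (hs hx)⟩

lemma HasLog.congr (h : HasLog c K) (hs : ∀ x ∈ K, c x = d x) : HasLog d K := by
  obtain ⟨w, h1, h2⟩ := h
  exact ⟨w, h1, fun x hx => (h2 x hx).trans (hs x hx)⟩

lemma HasLog.ne_zero (h : HasLog c K) : ∀ x ∈ K, c x ≠ 0 := by
  obtain ⟨w, h1, h2⟩ := h
  intro x hx
  rw [← h2 x hx]; exact Complex.exp_ne_zero _

lemma HasLog.mul (h : HasLog c K) (h' : HasLog d K) : HasLog (fun x => c x * d x) K := by
  obtain ⟨w, h1, h2⟩ := h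
  obtain ⟨v, h3, h4⟩ := h'
  exact ⟨fun x => w x + v x, h1.add h3, fun x hx => by rw [Complex.exp_add, h2 x hx, h4 x hx]⟩

lemma HasLog.inv (h : HasLog c K) : HasLog (fun x => (c x)⁻¹) K := by
  obtain ⟨w, h1, h2⟩ := h
  exact ⟨fun x => -w x, h1.neg, fun x hx => by rw [Complex.exp_neg, h2 x hx]⟩

lemma HasLog.div (h : HasLog c K) (h' : HasLog d K) : HasLog (fun x => c x / d x) K := by
  simpa only [div_eq_mul_inv] using h.mul h'.inv

lemma hasLog_one : HasLog (fun _ : X => (1 : ℂ)) K :=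
  ⟨fun _ => 0, continuousOn_const, fun _ _ => by simp⟩

lemma HasLog.pow (h : HasLog c K) (n : ℕ) : HasLog (fun x => c x ^ n) K := by
  induction n with
  | zero => simpa using hasLog_one
  | succ n ih => simpa only [pow_succ] using ih.mul h

lemma HasLog.zpow (h : HasLog c K) (n : ℤ) : HasLog (fun x => c x ^ n) K := by
  cases n with
  | ofNat n => simpa using h.pow n
  | negSucc n => simpa only [zpow_negSucc] using (h.pow (n + 1)).inv

lemma HasLog.prod {ι : Type*} (s : Finset ι) (f : ι → X → ℂ) (h : ∀ i ∈ s, HasLog (f i) K) :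
    HasLog (fun x => ∏ i ∈ s, f i x) K := by
  classical
  induction s using Finset.induction_on with
  | empty => simpa using hasLog_one
  | insert a s ha ih =>
    simp only [Finset.prod_insert ha]
    exact (h a (Finset.mem_insert_self _ _)).mul
      (ih fun i hi => h i (Finset.mem_insert_of_mem hi))

lemma HasLog.exp {w : X → ℂ} (hw : ContinuousOn w K) : HasLog (fun x => Complex.exp (w x)) K :=
  ⟨w, hw, fun _ _ => rfl⟩

lemma HasLog.comp (h : HasLog c K) {f : Y → X} {L : Set Y} (hf : ContinuousOn f L)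
    (hm : MapsTo f L K) : HasLog (fun y => c (f y)) L := by
  obtain ⟨w, h1, h2⟩ := h
  exact ⟨fun y => w (f y), h1.comp hf hm, fun y hy => h2 _ (hm hy)⟩

/-- Functions close to `1` have a logarithm. -/
lemma hasLog_of_close (hc : ContinuousOn c K) (h : ∀ x ∈ K, ‖c x - 1‖ < 1) : HasLog c K := by
  have hs : ∀ x ∈ K, c x ∈ Complex.slitPlane := by
    intro x hx
    have := Complex.mem_slitPlane_of_norm_lt_one (h x hx)
    simpa using this
  exact ⟨fun x => Complex.log (c x), hc.clog hs, fun x hx =>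
    Complex.exp_log (Complex.slitPlane_ne_zero (hs x hx))⟩

/-- Homotopy invariance. -/
lemma hasLog_of_homotopy {A : Type*} [TopologicalSpace A] (H : unitInterval × A → ℂ)
    (hH : Continuous H) (h0 : ∀ p, H p ≠ 0) (w0 : A → ℂ) (hw0 : Continuous w0)
    (he : ∀ a, Complex.exp (w0 a) = H (0, a)) :
    ∃ w1 : A → ℂ, Continuous w1 ∧ ∀ a, Complex.exp (w1 a) = H (1, a) := by
  let F := Complex.isCoveringMap_exp.liftHomotopy
    (⟨fun p => ⟨H p, h0 p⟩, by fun_prop⟩ : C(unitInterval × A, {z : ℂ // z ≠ 0}))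
    ⟨w0, hw0⟩ (fun a => Subtype.ext (he a).symm)
  refine ⟨fun a => F (1, a), by fun_prop, fun a => ?_⟩
  have := congr_fun (Complex.isCoveringMap_exp.liftHomotopy_lifts
    (⟨fun p => ⟨H p, h0 p⟩, by fun_prop⟩ : C(unitInterval × A, {z : ℂ // z ≠ 0}))
    ⟨w0, hw0⟩ (fun a => Subtype.ext (he a).symm)) (1, a)
  exact congrArg Subtype.val this

/-- On convex sets nonvanishing functions have logarithms. -/
lemma hasLog_of_convex {E : Type*} [AddCommGroup E] [Module ℝ E] [TopologicalSpace E]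
    [IsTopologicalAddGroup E] [ContinuousSMul ℝ E] {K : Set E} (hK : Convex ℝ K) {c : E → ℂ}
    (hc : ContinuousOn c K) (h0 : ∀ x ∈ K, c x ≠ 0) : HasLog c K := by
  classical
  rcases K.eq_empty_or_nonempty with rfl | ⟨x0, hx0⟩
  · exact ⟨fun _ => 0, by simp, by simp⟩
  have hmem : ∀ (t : unitInterval) (x : K), x0 + (t : ℝ) • ((x : E) - x0) ∈ K := by
    intro t x
    exact hK.add_smul_sub_mem hx0 x.2 t.2
  obtain ⟨w1, h1, h2⟩ := hasLog_of_homotopy (A := K)
    (fun p => c (x0 + (p.1 : ℝ) • ((p.2 : E) - x0))) (by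
      exact hc.comp_continuous (by fun_prop) (fun p => hmem p.1 p.2))
    (fun p => h0 _ (hmem p.1 p.2)) (fun _ => Complex.log (c x0)) continuous_const
    (fun a => by simp [Complex.exp_log (h0 x0 hx0)])
  refine ⟨fun x => if h : x ∈ K then w1 ⟨x, h⟩ else 0, ?_, ?_⟩
  · rw [continuousOn_iff_continuous_domRestrict]
    have : K.domRestrict (fun x => if h : x ∈ K then w1 ⟨x, h⟩ else 0) = w1 := by
      funext x
      simp
    rw [this]; exact h1
  · intro x hx
    simp only [hx, dif_pos]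
    rw [h2 ⟨x, hx⟩]
    simp

/-- Two logarithms of the same function on a preconnected set differ by a constant. -/
lemma log_unique (hK : IsPreconnected K) {w v : X → ℂ} (hw : ContinuousOn w K)
    (hv : ContinuousOn v K) (h : ∀ x ∈ K, Complex.exp (w x) = Complex.exp (v x)) :
    ∀ x ∈ K, ∀ y ∈ K, w x - v x = w y - v y := by
  have h1 : ∀ x ∈ K, ∃ n : ℤ, w x - v x = n * (2 * Real.pi * Complex.I) := by
    intro x hx
    obtain ⟨n, hn⟩ := Complex.exp_eq_exp_iff_exists_int.1 (h x hx)
    exact ⟨n, by rw [hn]; ring⟩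
  obtain ⟨n, hn⟩ := const_of_int hK (h := fun x => (w x - v x).im / (2 * Real.pi))
    ((Complex.continuous_im.comp_continuousOn (hw.sub hv)).div_const _) (by
      intro x hx
      obtain ⟨n, hn⟩ := h1 x hx
      refine ⟨n, ?_⟩
      rw [hn]
      have : ((n : ℂ) * (2 * Real.pi * Complex.I)).im = n * (2 * Real.pi) := by
        simp [Complex.mul_im]
      rw [this]
      field_simp)
  have h3 : ∀ x ∈ K, w x - v x = n * (2 * Real.pi * Complex.I) := by
    intro x hx
    obtain ⟨k, hk⟩ := h1 x hx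
    have h4 := hn x hx
    rw [hk] at h4
    have : ((k : ℂ) * (2 * Real.pi * Complex.I)).im = k * (2 * Real.pi) := by
      simp [Complex.mul_im]
    rw [this] at h4
    have h5 : (k : ℝ) = n := by
      field_simp at h4
      exact h4
    have h6 : k = n := by exact_mod_cast h5
    rw [hk, h6]
  intro x hx y hy
  rw [h3 x hx, h3 y hy]

end

/-- The identity has no logarithm on a circle. -/
lemma not_hasLog_circle {R : ℝ} (hR : 0 < R) : ¬ HasLog (fun z : ℂ => z) (Metric.sphere 0 R) := by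
  rintro ⟨w, hw, he⟩
  have hm : ∀ t : ℝ, (R : ℂ) * Complex.exp (t * Complex.I) ∈ Metric.sphere (0 : ℂ) R := by
    intro t
    simp [Complex.norm_exp_ofReal_mul_I, abs_of_pos hR]
  have hcont : Continuous fun t : ℝ => w ((R : ℂ) * Complex.exp (t * Complex.I)) :=
    hw.comp_continuous (by fun_prop) hm
  have key := log_unique (isPreconnected_univ (α := ℝ))
    (w := fun t : ℝ => w ((R : ℂ) * Complex.exp (t * Complex.I)))
    (v := fun t : ℝ => Real.log R + t * Complex.I) hcont.continuousOn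
    (by fun_prop) (by
      intro t _
      rw [he _ (hm t), Complex.exp_add, ← Complex.ofReal_exp, Real.exp_log hR])
    0 (mem_univ _) (2 * Real.pi) (mem_univ _)
  have e1 : Complex.exp (((2 * Real.pi : ℝ) : ℂ) * Complex.I) = 1 := by
    push_cast
    exact Complex.exp_two_pi_mul_I
  simp only [e1, Complex.ofReal_zero, zero_mul, Complex.exp_zero] at key
  have h2 := congrArg Complex.im key
  simp at h2
  linarith [Real.pi_pos]

/-- Extension of logarithms to neighbourhoods. -/
lemma HasLog.exists_open {X : Type*} [TopologicalSpace X] [NormalSpace X] {c : X → ℂ}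
    {K U : Set X} (hK : IsClosed K) (hU : IsOpen U) (hKU : K ⊆ U) (hc : ContinuousOn c U)
    (h : HasLog c K) : ∃ V, IsOpen V ∧ K ⊆ V ∧ V ⊆ U ∧ HasLog c V := by
  obtain ⟨w, h1, h2⟩ := h
  obtain ⟨W, hW⟩ := ContinuousMap.exists_extension (hK.isClosedEmbedding_subtypeVal)
    (⟨K.domRestrict w, h1.domRestrict⟩ : C(K, ℂ))
  have hW' : ∀ x ∈ K, W x = w x := fun x hx => congrArg (fun f : C(K, ℂ) => f ⟨x, hx⟩) hW
  let V := U ∩ (fun x => c x * Complex.exp (-W x)) ⁻¹' Metric.ball 1 1
  have hcont : ContinuousOn (fun x => c x * Complex.exp (-W x)) U :=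
    hc.mul (by fun_prop)
  have hVo : IsOpen V := hcont.isOpen_inter_preimage hU Metric.isOpen_ball
  refine ⟨V, hVo, ?_, inter_subset_left, ?_⟩
  · intro x hx
    refine ⟨hKU hx, ?_⟩
    change c x * Complex.exp (-W x) ∈ Metric.ball (1 : ℂ) 1
    rw [hW' x hx, ← h2 x hx, ← Complex.exp_add]
    simp
  · have h3 : HasLog (fun x => c x * Complex.exp (-W x)) V := by
      refine hasLog_of_close (hcont.mono inter_subset_left) ?_
      intro x hx
      have := hx.2
      rwa [mem_preimage, Metric.mem_ball, dist_eq_norm] at this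
    have h4 : HasLog (fun x => Complex.exp (W x)) V := HasLog.exp (by fun_prop)
    refine (h3.mul h4).congr fun x _ => ?_
    rw [mul_assoc, ← Complex.exp_add]
    simp

end Pool.Agent.Lib_MP_22bcea_gt
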