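import Mathlib

set_option autoImplicit false

/-!
# The planar Eilenberg theorem

Every continuous nonvanishing function on a compact subset `C` of the plane is the product of the
exponential of a continuous function and of a rational function without zeros or poles on `C`.
The proof cuts the plane into small squares and glues logarithms along straight lines.
-/

open Set Filter Topology Complex

namespace Pool.Agent.Lib_MP_22bcea_gt

/-- functions which have a continuous logarithm on `C` -/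
def LogOn (C : Set ℂ) (f : ℂ → ℂ) : Prop :=
  ∃ W : ℂ → ℂ, ContinuousOn W C ∧ ∀ z ∈ C, f z = Complex.exp (W z)

/-- products of exponentials and of linear factors without zeros on `C` -/
inductive RH (C : Set ℂ) : (ℂ → ℂ) → Prop
  | log (f : ℂ → ℂ) (h : LogOn C f) : RH C f
  | lin (a : ℂ) (h : a ∉ C) : RH C (fun z => z - a)
  | mul (f g : ℂ → ℂ) (hf : RH C f) (hg : RH C g) : RH C (fun z => f z * g z)
  | inv (f : ℂ → ℂ) (hf : RH C f) : RH C (fun z => (f z)⁻¹)
  | congr (f g : ℂ → ℂ) (hf : RH C f) (h : ∀ z ∈ C, g z = f z) : RH C g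

lemma LogOn.mul {C : Set ℂ} {f g : ℂ → ℂ} (hf : LogOn C f) (hg : LogOn C g) :
    LogOn C (fun z => f z * g z) := by
  obtain ⟨W, hW, hW'⟩ := hf
  obtain ⟨V, hV, hV'⟩ := hg
  exact ⟨fun z => W z + V z, hW.add hV, fun z hz => by
    beta_reduce
    rw [hW' z hz, hV' z hz, Complex.exp_add]⟩

lemma LogOn.inv {C : Set ℂ} {f : ℂ → ℂ} (hf : LogOn C f) : LogOn C (fun z => (f z)⁻¹) := by
  obtain ⟨W, hW, hW'⟩ := hf
  exact ⟨fun z => - W z, hW.neg, fun z hz => by
    beta_reduce
    rw [hW' z hz, Complex.exp_neg]⟩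

lemma LogOn.const {C : Set ℂ} {c : ℂ} (hc : c ≠ 0) : LogOn C (fun _ => c) :=
  ⟨fun _ => Complex.log c, continuousOn_const, fun _ _ => (Complex.exp_log hc).symm⟩

lemma LogOn.mono {C C' : Set ℂ} {f : ℂ → ℂ} (hf : LogOn C f) (h : C' ⊆ C) : LogOn C' f := by
  obtain ⟨W, hW, hW'⟩ := hf
  exact ⟨W, hW.mono h, fun z hz => hW' z (h hz)⟩

lemma RH.ne_zero {C : Set ℂ} {f : ℂ → ℂ} (hf : RH C f) : ∀ z ∈ C, f z ≠ 0 := by
  induction hf with
  | log f h =>
    obtain ⟨W, -, hW⟩ := h
    intro z hz
    rw [hW z hz]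
    exact Complex.exp_ne_zero _
  | lin a h =>
    intro z hz h0
    rw [sub_eq_zero] at h0
    exact h (h0 ▸ hz)
  | mul f g _ _ h1 h2 => exact fun z hz => mul_ne_zero (h1 z hz) (h2 z hz)
  | inv f _ h1 => exact fun z hz => inv_ne_zero (h1 z hz)
  | congr f g _ h h1 => exact fun z hz => by rw [h z hz]; exact h1 z hz

lemma RH.zpow_lin {C : Set ℂ} {a : ℂ} (ha : a ∉ C) (n : ℤ) : RH C (fun z => (z - a) ^ n) := by
  have hpow : ∀ m : ℕ, RH C (fun z => (z - a) ^ m) := by
    intro m
    induction m with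
    | zero =>
      refine RH.log _ ⟨fun _ => 0, continuousOn_const, fun z _ => ?_⟩
      simp
    | succ m ih =>
      have := RH.mul _ _ ih (RH.lin a ha)
      refine RH.congr _ _ this (fun z _ => ?_)
      rw [pow_succ]
  rcases n with m | m
  · refine RH.congr _ _ (hpow m) (fun z _ => ?_)
    simp
  · refine RH.congr _ _ (RH.inv _ (hpow (m + 1))) (fun z _ => ?_)
    simp [zpow_negSucc]

/-- right of the line: linear factors with zeros on the left (or on the line) have logarithms -/
lemma logOn_right {C : Set ℂ} {a : ℂ} {c : ℝ} (ha : a.re ≤ c) (haC : a ∉ C) :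
    ContinuousOn (fun z => Complex.log (z - a)) (C ∩ {z | c ≤ z.re}) ∧
      ∀ z ∈ C ∩ {z : ℂ | c ≤ z.re}, z - a = Complex.exp (Complex.log (z - a)) := by
  have hslit : ∀ z ∈ C ∩ {z : ℂ | c ≤ z.re}, z - a ∈ Complex.slitPlane ∧ z - a ≠ 0 := by
    rintro z ⟨hz1, hz2⟩
    have hz2 : c ≤ z.re := hz2
    have hne : z - a ≠ 0 := fun h => haC (by rw [sub_eq_zero] at h; exact h ▸ hz1)
    refine ⟨?_, hne⟩
    rw [Complex.mem_slitPlane_iff]
    rcases (sub_nonneg.2 (ha.trans hz2)).eq_or_lt with h | h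
    · right
      intro h'
      apply hne
      apply Complex.ext
      · rw [Complex.sub_re]; exact h.symm
      · rw [h']; rfl
    · left
      rw [Complex.sub_re]
      exact h
  constructor
  · exact ContinuousOn.clog (by fun_prop) (fun z hz => (hslit z hz).1)
  · intro z hz
    rw [Complex.exp_log (hslit z hz).2]

/-- left of the line: linear factors with zeros on the right (or on the line) have logarithms -/
lemma logOn_left {C : Set ℂ} {a : ℂ} {c : ℝ} (ha : c ≤ a.re) (haC : a ∉ C) :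
    ContinuousOn (fun z => Complex.log (a - z) + Real.pi * I) (C ∩ {z | z.re ≤ c}) ∧
      ∀ z ∈ C ∩ {z : ℂ | z.re ≤ c}, z - a = Complex.exp (Complex.log (a - z) + Real.pi * I) := by
  have hslit : ∀ z ∈ C ∩ {z : ℂ | z.re ≤ c}, a - z ∈ Complex.slitPlane ∧ a - z ≠ 0 := by
    rintro z ⟨hz1, hz2⟩
    have hz2 : z.re ≤ c := hz2
    have hne : a - z ≠ 0 := fun h => haC (by rw [sub_eq_zero] at h; exact h.symm ▸ hz1)
    refine ⟨?_, hne⟩
    rw [Complex.mem_slitPlane_iff]
    rcases (sub_nonneg.2 (hz2.trans ha)).eq_or_lt with h | h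
    · right
      intro h'
      apply hne
      apply Complex.ext
      · rw [Complex.sub_re]; exact h.symm
      · rw [h']; rfl
    · left
      rw [Complex.sub_re]
      exact h
  constructor
  · exact (ContinuousOn.clog (by fun_prop) (fun z hz => (hslit z hz).1)).add continuousOn_const
  · intro z hz
    rw [Complex.exp_add, Complex.exp_log (hslit z hz).2, Complex.exp_pi_mul_I]
    ring

/-- the jump of the two logarithms of a linear factor along the line through its zero -/
lemma log_jump {a z : ℂ} (hre : z.re = a.re) :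
    (a.im < z.im → Complex.log (a - z) + Real.pi * I = Complex.log (z - a)) ∧
    (z.im < a.im → Complex.log (a - z) + Real.pi * I = Complex.log (z - a) + 2 * Real.pi * I) := by
  have key : ∀ t : ℝ, 0 < t → Complex.log ((t : ℂ) * I) = Real.log t + Real.pi / 2 * I ∧
      Complex.log (-((t : ℂ) * I)) = Real.log t - Real.pi / 2 * I := by
    intro t ht
    constructor
    · rw [Complex.log_ofReal_mul ht I_ne_zero, Complex.log_I]
    · rw [show -((t : ℂ) * I) = (t : ℂ) * (-I) by ring, Complex.log_ofReal_mul ht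
        (neg_ne_zero.2 I_ne_zero), Complex.log_neg_I]
      ring
  constructor
  · intro h
    have e1 : z - a = ((z.im - a.im : ℝ) : ℂ) * I := by
      apply Complex.ext <;> simp [hre]
    have e2 : a - z = -(((z.im - a.im : ℝ) : ℂ) * I) := by rw [← e1]; ring
    rw [e2, e1, (key _ (sub_pos.2 h)).1, (key _ (sub_pos.2 h)).2]
    ring
  · intro h
    have e1 : a - z = ((a.im - z.im : ℝ) : ℂ) * I := by
      apply Complex.ext <;> simp [hre]
    have e2 : z - a = -(((a.im - z.im : ℝ) : ℂ) * I) := by rw [← e1]; ring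
    rw [e2, e1, (key _ (sub_pos.2 h)).1, (key _ (sub_pos.2 h)).2]
    ring

/-- splitting off the factors with zeros strictly on the left -/
lemma split_left {C : Set ℂ} {c : ℝ} {h : ℂ → ℂ} (hh : RH (C ∩ {z | z.re ≤ c}) h) :
    ∃ f e : ℂ → ℂ, RH C f ∧ LogOn (C ∩ {z | c ≤ z.re}) f ∧ LogOn (C ∩ {z | z.re ≤ c}) e ∧
      ∀ z ∈ C ∩ {z | z.re ≤ c}, h z = f z * e z := by
  have hone : ∀ D : Set ℂ, LogOn D (fun _ => 1) := fun D => LogOn.const one_ne_zero
  induction hh with
  | log f hf =>
    exact ⟨fun _ => 1, f, RH.log _ (hone _), hone _, hf, fun z _ => (one_mul _).symm⟩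
  | lin a ha =>
    rcases lt_or_ge a.re c with hac | hac
    · have haC : a ∉ C := fun h => ha ⟨h, hac.le⟩
      refine ⟨fun z => z - a, fun _ => 1, RH.lin a haC, ⟨_, logOn_right hac.le haC⟩, hone _,
        fun z _ => (mul_one _).symm⟩
    · refine ⟨fun _ => 1, fun z => z - a, RH.log _ (hone _), hone _, ?_, fun z _ => (one_mul _).symm⟩
      have := logOn_left (C := C ∩ {z | z.re ≤ c}) hac ha
      rw [inter_assoc, inter_self] at this
      exact ⟨_, this⟩
  | mul f g _ _ h1 h2 =>
    obtain ⟨f1, e1, a1, b1, c1, d1⟩ := h1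
    obtain ⟨f2, e2, a2, b2, c2, d2⟩ := h2
    refine ⟨_, _, RH.mul _ _ a1 a2, b1.mul b2, c1.mul c2, fun z hz => ?_⟩
    simp only
    rw [d1 z hz, d2 z hz]
    ring
  | inv f _ h1 =>
    obtain ⟨f1, e1, a1, b1, c1, d1⟩ := h1
    refine ⟨_, _, RH.inv _ a1, b1.inv, c1.inv, fun z hz => ?_⟩
    simp only
    rw [d1 z hz, mul_inv]
  | congr f g _ h h1 =>
    obtain ⟨f1, e1, a1, b1, c1, d1⟩ := h1
    exact ⟨f1, e1, a1, b1, c1, fun z hz => by rw [h z hz, d1 z hz]⟩

/-- splitting off the factors with zeros strictly on the right -/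
lemma split_right {C : Set ℂ} {c : ℝ} {h : ℂ → ℂ} (hh : RH (C ∩ {z | c ≤ z.re}) h) :
    ∃ f e : ℂ → ℂ, RH C f ∧ LogOn (C ∩ {z | z.re ≤ c}) f ∧ LogOn (C ∩ {z | c ≤ z.re}) e ∧
      ∀ z ∈ C ∩ {z | c ≤ z.re}, h z = f z * e z := by
  have hone : ∀ D : Set ℂ, LogOn D (fun _ => 1) := fun D => LogOn.const one_ne_zero
  induction hh with
  | log f hf =>
    exact ⟨fun _ => 1, f, RH.log _ (hone _), hone _, hf, fun z _ => (one_mul _).symm⟩
  | lin a ha =>
    rcases lt_or_ge c a.re with hac | hac
    · have haC : a ∉ C := fun h => ha ⟨h, hac.le⟩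
      refine ⟨fun z => z - a, fun _ => 1, RH.lin a haC, ⟨_, logOn_left hac.le haC⟩, hone _,
        fun z _ => (mul_one _).symm⟩
    · refine ⟨fun _ => 1, fun z => z - a, RH.log _ (hone _), hone _, ?_, fun z _ => (one_mul _).symm⟩
      have := logOn_right (C := C ∩ {z | c ≤ z.re}) hac ha
      rw [inter_assoc, inter_self] at this
      exact ⟨_, this⟩
  | mul f g _ _ h1 h2 =>
    obtain ⟨f1, e1, a1, b1, c1, d1⟩ := h1
    obtain ⟨f2, e2, a2, b2, c2, d2⟩ := h2
    refine ⟨_, _, RH.mul _ _ a1 a2, b1.mul b2, c1.mul c2, fun z hz => ?_⟩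
    simp only
    rw [d1 z hz, d2 z hz]
    ring
  | inv f _ h1 =>
    obtain ⟨f1, e1, a1, b1, c1, d1⟩ := h1
    refine ⟨_, _, RH.inv _ a1, b1.inv, c1.inv, fun z hz => ?_⟩
    simp only
    rw [d1 z hz, mul_inv]
  | congr f g _ h h1 =>
    obtain ⟨f1, e1, a1, b1, c1, d1⟩ := h1
    exact ⟨f1, e1, a1, b1, c1, fun z hz => by rw [h z hz, d1 z hz]⟩

/-- integrality of the difference of two logarithms -/
lemma exists_int_of_exp {V W : ℂ} (h : Complex.exp V = Complex.exp W) :
    ∃ n : ℤ, V - W = n * (2 * Real.pi * I) := by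
  obtain ⟨n, hn⟩ := Complex.exp_eq_exp_iff_exists_int.1 h
  exact ⟨n, by rw [hn]; ring⟩

lemma int_eq_zero_of_norm {n : ℤ} (h : ‖(n : ℂ) * (2 * Real.pi * I)‖ < 1) : n = 0 := by
  by_contra hn
  have h1 : (1 : ℝ) ≤ |(n : ℝ)| := by
    have : (1 : ℤ) ≤ |n| := Int.one_le_abs hn
    exact_mod_cast this
  rw [norm_mul, norm_mul, norm_mul, Complex.norm_I, Complex.norm_real, Complex.norm_intCast] at h
  simp at h
  have h2 := Real.pi_gt_three
  rw [abs_of_pos Real.pi_pos] at h
  nlinarith

/-- gluing logarithms along a vertical line -/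
lemma glue {C : Set ℂ} (hC : IsCompact C) {c : ℝ} {g : ℂ → ℂ}
    (h1 : LogOn (C ∩ {z | z.re ≤ c}) g) (h2 : LogOn (C ∩ {z | c ≤ z.re}) g) : RH C g := by
  obtain ⟨V₁, hV₁, hg₁⟩ := h1
  obtain ⟨V₂, hV₂, hg₂⟩ := h2
  set K := C ∩ {z : ℂ | z.re = c} with hK
  have hKc : IsCompact K := hC.inter_right (isClosed_eq Complex.continuous_re continuous_const)
  have hK1 : K ⊆ C ∩ {z | z.re ≤ c} := fun z hz => ⟨hz.1, le_of_eq hz.2⟩
  have hK2 : K ⊆ C ∩ {z | c ≤ z.re} := fun z hz => ⟨hz.1, ge_of_eq hz.2⟩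
  have hD0int : ∀ z ∈ K, ∃ n : ℤ, V₁ z - V₂ z = n * (2 * Real.pi * I) := fun z hz =>
    exists_int_of_exp (by rw [← hg₁ z (hK1 hz), ← hg₂ z (hK2 hz)])
  -- the difference is locally constant
  obtain ⟨δ, hδ, hloc⟩ : ∃ δ > 0, ∀ z ∈ K, ∀ z' ∈ K, dist z z' < δ → V₁ z - V₂ z = V₁ z' - V₂ z' := by
    have huc := hKc.uniformContinuousOn_of_continuous
      (((hV₁.mono hK1).sub (hV₂.mono hK2)) : ContinuousOn (fun z => V₁ z - V₂ z) K)
    rw [Metric.uniformContinuousOn_iff] at huc
    obtain ⟨δ, hδ, h⟩ := huc 1 one_pos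
    refine ⟨δ, hδ, fun z hz z' hz' hd => ?_⟩
    have h3 := h z hz z' hz' hd
    simp only [Pi.sub_apply] at h3
    obtain ⟨n, hn⟩ := hD0int z hz
    obtain ⟨n', hn'⟩ := hD0int z' hz'
    rw [hn, hn', dist_eq_norm, ← sub_mul] at h3
    have h4 : (n - n' : ℤ) = 0 := int_eq_zero_of_norm (by push_cast; exact h3)
    have h5 : n = n' := by omega
    rw [hn, hn', h5]
  -- the sweeping statement
  have step : ∀ (y₀ : ℝ) (_ : ∀ z ∈ K, y₀ < z.im) (i : ℕ), ∃ f U₁ U₂ : ℂ → ℂ, ∃ κ : ℂ, RH C f ∧
      ContinuousOn U₁ (C ∩ {z | z.re ≤ c}) ∧ ContinuousOn U₂ (C ∩ {z | c ≤ z.re}) ∧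
      (∀ z ∈ C ∩ {z : ℂ | z.re ≤ c}, g z = f z * Complex.exp (U₁ z)) ∧
      (∀ z ∈ C ∩ {z : ℂ | c ≤ z.re}, g z = f z * Complex.exp (U₂ z)) ∧
      (∀ z ∈ K, z.im ≤ y₀ + i * (δ / 2) → U₁ z = U₂ z) ∧
      (∀ z ∈ K, y₀ + i * (δ / 2) ≤ z.im → U₁ z - U₂ z = V₁ z - V₂ z + κ) := by
    intro y₀ hy₀ i
    induction i with
    | zero =>
      refine ⟨fun _ => 1, V₁, V₂, 0, RH.log _ (LogOn.const one_ne_zero), hV₁, hV₂, ?_, ?_, ?_, ?_⟩
      · intro z hz; rw [one_mul]; exact hg₁ z hz
      · intro z hz; rw [one_mul]; exact hg₂ z hz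
      · intro z hz h
        have := hy₀ z hz
        simp at h
        linarith
      · intro z _ _
        rw [add_zero]
    | succ i ih =>
      obtain ⟨f, U₁, U₂, κ, hf, hU₁, hU₂, e1, e2, hlow, hup⟩ := ih
      set y := y₀ + i * (δ / 2) with hy
      have hy' : y₀ + ((i + 1 : ℕ) : ℝ) * (δ / 2) = y + δ / 2 := by
        rw [hy]; push_cast; ring
      rw [hy']
      set a : ℂ := ⟨c, y⟩ with ha
      -- points of the line are at distance given by the imaginary parts
      have hdist : ∀ z : ℂ, z.re = c → ∀ w : ℂ, w.re = c → dist z w = |z.im - w.im| := by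
        intro z hz w hw
        rw [Complex.dist_of_re_eq (by rw [hz, hw]), Real.dist_eq]
      by_cases haK : a ∈ K
      · refine ⟨f, U₁, U₂, κ, hf, hU₁, hU₂, e1, e2, ?_, ?_⟩
        · intro z hz hzle
          rcases le_or_gt z.im y with h | h
          · exact hlow z hz h
          · have h3 := hup z hz h.le
            have h4 := hup a haK (le_refl y)
            have h5 := hlow a haK (le_refl y)
            have h6 : V₁ z - V₂ z = V₁ a - V₂ a := by
              apply hloc z hz a haK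
              rw [hdist z hz.2 a haK.2, abs_of_pos (sub_pos.2 h)]
              show z.im - y < δ
              linarith
            have h7 : U₁ z - U₂ z = 0 := by
              rw [h3, h6, ← h4, h5, sub_self]
            exact sub_eq_zero.1 h7
        · intro z hz hzge
          exact hup z hz (by linarith)
      · have haC : a ∉ C := fun h => haK ⟨h, rfl⟩
        by_cases hemp : ∃ z₁ ∈ K, y < z₁.im ∧ z₁.im ≤ y + δ / 2
        · obtain ⟨z₁, hz₁, hz₁l, hz₁u⟩ := hemp
          obtain ⟨m, hm⟩ : ∃ m : ℤ, U₁ z₁ - U₂ z₁ = m * (2 * Real.pi * I) := by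
            apply exists_int_of_exp
            have h3 := e1 z₁ (hK1 hz₁)
            have h4 := e2 z₁ (hK2 hz₁)
            rw [h3] at h4
            exact mul_left_cancel₀ (hf.ne_zero z₁ hz₁.1) h4
          have hlr := logOn_right (C := C) (a := a) (c := c) (le_refl c) haC
          have hll := logOn_left (C := C) (a := a) (c := c) (le_refl c) haC
          refine ⟨fun z => f z * (z - a) ^ (-m),
            fun z => U₁ z - m * (2 * Real.pi * I) + m * (Complex.log (a - z) + Real.pi * I),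
            fun z => U₂ z + m * Complex.log (z - a), κ - m * (2 * Real.pi * I),
            RH.mul _ _ hf (RH.zpow_lin haC _),
            (hU₁.sub continuousOn_const).add (continuousOn_const.mul hll.1),
            hU₂.add (continuousOn_const.mul hlr.1), ?_, ?_, ?_, ?_⟩
          · intro z hz
            have hza : z - a ≠ 0 := fun h => haC (by rw [sub_eq_zero] at h; exact h ▸ hz.1)
            have h3 : Complex.exp ((m : ℂ) * (Complex.log (a - z) + Real.pi * I)) = (z - a) ^ m := by
              rw [Complex.exp_int_mul, ← hll.2 z hz]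
            beta_reduce
            rw [Complex.exp_add, Complex.exp_sub, Complex.exp_int_mul_two_pi_mul_I, h3, e1 z hz,
              zpow_neg]
            field_simp
          · intro z hz
            have hza : z - a ≠ 0 := fun h => haC (by rw [sub_eq_zero] at h; exact h ▸ hz.1)
            have h3 : Complex.exp ((m : ℂ) * Complex.log (z - a)) = (z - a) ^ m := by
              rw [Complex.exp_int_mul, ← hlr.2 z hz]
            beta_reduce
            rw [Complex.exp_add, h3, e2 z hz, zpow_neg]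
            field_simp
          · intro z hz hzle
            have hzre : z.re = a.re := hz.2
            have hzim : z.im ≠ a.im := by
              intro h
              apply haK
              rw [← Complex.ext hzre h]
              exact hz
            rcases lt_or_gt_of_ne hzim with h | h
            · -- below
              have h3 := hlow z hz (le_of_lt h)
              simp only
              rw [(log_jump hzre).2 h, h3]
              ring
            · have h3 := hup z hz (le_of_lt h)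
              have h4 := hup z₁ hz₁ hz₁l.le
              have h5 : V₁ z - V₂ z = V₁ z₁ - V₂ z₁ := by
                apply hloc z hz z₁ hz₁
                rw [hdist z hz.2 z₁ hz₁.2, abs_lt]
                have h' : y < z.im := h
                constructor <;> linarith
              have h6 : U₁ z - U₂ z = m * (2 * Real.pi * I) := by
                rw [h3, h5, ← h4, hm]
              simp only
              rw [(log_jump hzre).1 h]
              linear_combination h6
          · intro z hz hzge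
            have hzre : z.re = a.re := hz.2
            have h : a.im < z.im := by
              show y < z.im
              linarith
            have h3 := hup z hz (le_of_lt h)
            simp only
            rw [(log_jump hzre).1 h]
            linear_combination h3
        · push Not at hemp
          refine ⟨f, U₁, U₂, κ, hf, hU₁, hU₂, e1, e2, ?_, ?_⟩
          · intro z hz hzle
            rcases le_or_gt z.im y with h | h
            · exact hlow z hz h
            · exact absurd (hemp z hz h) (not_lt.2 hzle)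
          · intro z hz hzge
            exact hup z hz (by linarith)
  -- bounds for the imaginary parts
  obtain ⟨M, hM⟩ := hKc.isBounded.exists_norm_le
  have hMim : ∀ z ∈ K, |z.im| ≤ M := fun z hz => (Complex.abs_im_le_norm z).trans (hM z hz)
  obtain ⟨i, hi⟩ := exists_nat_gt ((2 * M + 1) / (δ / 2))
  obtain ⟨f, U₁, U₂, κ, hf, hU₁, hU₂, e1, e2, hlow, -⟩ := step (-M - 1)
    (fun z hz => by linarith [(abs_le.1 (hMim z hz)).1]) i
  have hall : ∀ z ∈ K, U₁ z = U₂ z := by
    intro z hz
    apply hlow z hz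
    rw [div_lt_iff₀ (by positivity)] at hi
    linarith [(abs_le.1 (hMim z hz)).2]
  -- glue
  classical
  set U : ℂ → ℂ := fun z => if z.re ≤ c then U₁ z else U₂ z with hU
  have hUc : ContinuousOn U C := by
    have hc1 : IsClosed {z : ℂ | z.re ≤ c} := isClosed_le Complex.continuous_re continuous_const
    have hc2 : IsClosed {z : ℂ | c ≤ z.re} := isClosed_le continuous_const Complex.continuous_re
    have hu : C = (C ∩ {z | z.re ≤ c}) ∪ (C ∩ {z | c ≤ z.re}) := by
      ext z
      constructor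
      · intro hz
        rcases le_total z.re c with h | h
        · exact Or.inl ⟨hz, h⟩
        · exact Or.inr ⟨hz, h⟩
      · rintro (h | h)
        · exact h.1
        · exact h.1
    rw [hu]
    apply ContinuousOn.union_of_isClosed _ _ (hC.isClosed.inter hc1) (hC.isClosed.inter hc2)
    · exact hU₁.congr fun z hz => if_pos hz.2
    · refine hU₂.congr fun z hz => ?_
      by_cases h : z.re ≤ c
      · simp only [hU]
        rw [if_pos h]
        exact hall z ⟨hz.1, le_antisymm h hz.2⟩
      · simp only [hU]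
        rw [if_neg h]
  refine RH.congr _ _ (RH.mul _ _ hf (RH.log (fun z => Complex.exp (U z)) ⟨U, hUc, fun _ _ => rfl⟩))
    (fun z hz => ?_)
  simp only [hU]
  by_cases h : z.re ≤ c
  · rw [if_pos h]
    exact e1 z ⟨hz, h⟩
  · rw [if_neg h]
    exact e2 z ⟨hz, (not_le.1 h).le⟩

/-- merging along a vertical line -/
lemma merge_re {C : Set ℂ} (hC : IsCompact C) {c : ℝ} {g : ℂ → ℂ}
    (h1 : RH (C ∩ {z | z.re ≤ c}) g) (h2 : RH (C ∩ {z | c ≤ z.re}) g) : RH C g := by
  obtain ⟨f₁, e₁, hf₁, hf₁', he₁, hg₁⟩ := split_left h1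
  obtain ⟨f₂, e₂, hf₂, hf₂', he₂, hg₂⟩ := split_right h2
  have hq : RH C (fun z => g z * (f₁ z * f₂ z)⁻¹) := by
    apply glue hC (c := c)
    · obtain ⟨W, hW, hW'⟩ := he₁.mul hf₂'.inv
      refine ⟨W, hW, fun z hz => ?_⟩
      rw [← hW' z hz]
      have h3 := hf₁.ne_zero z hz.1
      have h4 := hf₂.ne_zero z hz.1
      simp only
      rw [hg₁ z hz]
      field_simp
    · obtain ⟨W, hW, hW'⟩ := he₂.mul hf₁'.inv
      refine ⟨W, hW, fun z hz => ?_⟩
      rw [← hW' z hz]
      have h3 := hf₁.ne_zero z hz.1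
      have h4 := hf₂.ne_zero z hz.1
      simp only
      rw [hg₂ z hz]
      field_simp
  refine RH.congr _ _ (RH.mul _ _ hq (RH.mul _ _ hf₁ hf₂)) (fun z hz => ?_)
  have h3 := hf₁.ne_zero z hz
  have h4 := hf₂.ne_zero z hz
  field_simp

/-- rotation by a quarter turn -/
lemma RH.rot {C : Set ℂ} {f : ℂ → ℂ} (hf : RH C f) :
    RH ((fun z => -I * z) ⁻¹' C) (fun z => f (-I * z)) := by
  induction hf with
  | log f h =>
    obtain ⟨W, hW, hW'⟩ := h
    exact RH.log _ ⟨fun z => W (-I * z), hW.comp (by fun_prop) (mapsTo_preimage _ _),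
      fun z hz => hW' _ hz⟩
  | lin a h =>
    refine RH.congr _ _ (RH.mul _ _ (RH.log (fun _ => -I) (LogOn.const (neg_ne_zero.2 I_ne_zero)))
      (RH.lin (I * a) ?_)) (fun z _ => ?_)
    · intro h'
      apply h
      have : -I * (I * a) = a := by
        rw [← mul_assoc, neg_mul, I_mul_I, neg_neg, one_mul]
      rw [mem_preimage, this] at h'
      exact h'
    · simp only
      linear_combination (-a) * I_mul_I
  | mul f g _ _ h1 h2 => exact RH.mul _ _ h1 h2
  | inv f _ h1 => exact RH.inv _ h1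
  | congr f g _ h h1 => exact RH.congr _ _ h1 (fun z hz => h _ hz)

/-- merging along a horizontal line -/
lemma merge_im {C : Set ℂ} (hC : IsCompact C) {c : ℝ} {g : ℂ → ℂ}
    (h1 : RH (C ∩ {z | z.im ≤ c}) g) (h2 : RH (C ∩ {z | c ≤ z.im}) g) : RH C g := by
  -- transport by w = -I z, so that Re w = Im z
  have hre : ∀ w : ℂ, (I * w).im = w.re := fun w => by simp
  have back : ∀ w : ℂ, I * (-I * w) = w := fun w => by
    rw [← mul_assoc, mul_neg, I_mul_I, neg_neg, one_mul]
  have back' : ∀ w : ℂ, -I * (I * w) = w := fun w => by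
    rw [← mul_assoc, neg_mul, I_mul_I, neg_neg, one_mul]
  -- three quarter turns
  have three : ∀ {D : Set ℂ} {f : ℂ → ℂ}, RH D f →
      RH ((fun z => I * z) ⁻¹' D) (fun z => f (I * z)) := by
    intro D f hf
    have h3 := hf.rot.rot.rot
    have e : ∀ z : ℂ, -I * (-I * (-I * z)) = I * z := by
      intro z
      linear_combination (-(I * z)) * I_mul_I
    have e2 : ((fun z => -I * z) ⁻¹' ((fun z => -I * z) ⁻¹' ((fun z => -I * z) ⁻¹' D))) =
        (fun z => I * z) ⁻¹' D := by
      ext z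
      simp only [mem_preimage]
      rw [e]
    rw [e2] at h3
    exact RH.congr _ _ h3 (fun z _ => by rw [e])
  set C' : Set ℂ := (fun z => I * z) ⁻¹' C with hC'
  have hC'c : IsCompact C' := by
    have : C' = (fun z => -I * z) '' C := by
      ext z
      constructor
      · intro hz
        exact ⟨I * z, hz, back' z⟩
      · rintro ⟨w, hw, rfl⟩
        show I * (-I * w) ∈ C
        rw [back]
        exact hw
    rw [this]
    exact hC.image (by fun_prop)
  have k1 : RH (C' ∩ {z | z.re ≤ c}) (fun z => g (I * z)) := by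
    have h3 := three h1
    have e : (fun z => I * z) ⁻¹' (C ∩ {z | z.im ≤ c}) = C' ∩ {z | z.re ≤ c} := by
      ext z
      show (I * z ∈ C ∧ (I * z).im ≤ c) ↔ (I * z ∈ C ∧ z.re ≤ c)
      rw [hre]
    rw [e] at h3
    exact h3
  have k2 : RH (C' ∩ {z | c ≤ z.re}) (fun z => g (I * z)) := by
    have h3 := three h2
    have e : (fun z => I * z) ⁻¹' (C ∩ {z | c ≤ z.im}) = C' ∩ {z | c ≤ z.re} := by
      ext z
      show (I * z ∈ C ∧ c ≤ (I * z).im) ↔ (I * z ∈ C ∧ c ≤ z.re)
      rw [hre]
    rw [e] at h3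
    exact h3
  have k3 := (merge_re hC'c k1 k2).rot
  have e : (fun z => -I * z) ⁻¹' C' = C := by
    ext z
    show I * (-I * z) ∈ C ↔ z ∈ C
    rw [back]
  rw [e] at k3
  exact RH.congr _ _ k3 (fun z _ => by rw [back])

/-- sweeping in a coordinate direction -/
lemma sweep {ℓ : ℂ → ℝ} (hℓ : Continuous ℓ) {g : ℂ → ℂ}
    (hmerge : ∀ {C : Set ℂ}, IsCompact C → ∀ {c : ℝ}, RH (C ∩ {z | ℓ z ≤ c}) g →
      RH (C ∩ {z | c ≤ ℓ z}) g → RH C g)
    {C : Set ℂ} (hC : IsCompact C) {ε : ℝ} (hε : 0 < ε)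
    (h : ∀ x : ℝ, RH (C ∩ {z | x ≤ ℓ z ∧ ℓ z ≤ x + ε}) g) : RH C g := by
  obtain ⟨M, hM⟩ := (hC.image hℓ).isBounded.exists_norm_le
  have hM' : ∀ z ∈ C, |ℓ z| ≤ M := fun z hz => hM _ ⟨z, hz, rfl⟩
  have hempty : RH (∅ : Set ℂ) g :=
    RH.log _ ⟨fun _ => 0, continuousOn_const, fun z hz => absurd hz (notMem_empty z)⟩
  have key : ∀ i : ℕ, RH (C ∩ {z | ℓ z ≤ -M - 1 + i * ε}) g := by
    intro i
    induction i with
    | zero =>
      have : C ∩ {z | ℓ z ≤ -M - 1 + ((0 : ℕ) : ℝ) * ε} = ∅ := by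
        ext z
        simp only [mem_inter_iff, mem_empty_iff_false, iff_false, not_and]
        intro hz h'
        have h' : ℓ z ≤ -M - 1 + ((0 : ℕ) : ℝ) * ε := h'
        have := (abs_le.1 (hM' z hz)).1
        simp at h'
        linarith
      rw [this]
      exact hempty
    | succ i ih =>
      set y := -M - 1 + i * ε with hy
      have hy' : -M - 1 + ((i + 1 : ℕ) : ℝ) * ε = y + ε := by rw [hy]; push_cast; ring
      rw [hy']
      have hcl : IsClosed {z : ℂ | ℓ z ≤ y + ε} := isClosed_le hℓ continuous_const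
      apply hmerge (hC.inter_right hcl) (c := y)
      · have : C ∩ {z | ℓ z ≤ y + ε} ∩ {z | ℓ z ≤ y} = C ∩ {z | ℓ z ≤ y} := by
          ext z
          constructor
          · rintro ⟨⟨h1, -⟩, h3⟩
            exact ⟨h1, h3⟩
          · rintro ⟨h1, h3⟩
            have h3 : ℓ z ≤ y := h3
            exact ⟨⟨h1, by show ℓ z ≤ y + ε; linarith⟩, h3⟩
        rw [this]
        exact ih
      · have : C ∩ {z | ℓ z ≤ y + ε} ∩ {z | y ≤ ℓ z} = C ∩ {z | y ≤ ℓ z ∧ ℓ z ≤ y + ε} := by
          ext z
          constructor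
          · rintro ⟨⟨h1, h2⟩, h3⟩
            exact ⟨h1, h3, h2⟩
          · rintro ⟨h1, h3, h2⟩
            exact ⟨⟨h1, h2⟩, h3⟩
        rw [this]
        exact h y
  obtain ⟨i, hi⟩ := exists_nat_gt ((2 * M + 1) / ε)
  have := key i
  have e : C ∩ {z | ℓ z ≤ -M - 1 + i * ε} = C := by
    apply inter_eq_left.2
    intro z hz
    show ℓ z ≤ -M - 1 + i * ε
    rw [div_lt_iff₀ hε] at hi
    linarith [(abs_le.1 (hM' z hz)).2]
  rwa [e] at this

/-- every nonvanishing continuous function is a product of the basic ones -/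
lemma rh_of_continuousOn {C : Set ℂ} (hC : IsCompact C) (g : ℂ → ℂ) (hg : ContinuousOn g C)
    (h0 : ∀ z ∈ C, g z ≠ 0) : RH C g := by
  rcases C.eq_empty_or_nonempty with rfl | hne
  · exact RH.log _ ⟨fun _ => 0, continuousOn_const, fun z hz => absurd hz (notMem_empty z)⟩
  -- a lower bound for |g|
  obtain ⟨z₀, hz₀, hmin⟩ := hC.exists_isMinOn hne hg.norm
  set μ := ‖g z₀‖ with hμ
  have hμ0 : 0 < μ := norm_pos_iff.2 (h0 z₀ hz₀)
  have hμle : ∀ z ∈ C, μ ≤ ‖g z‖ := fun z hz => hmin hz
  have huc := hC.uniformContinuousOn_of_continuous hg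
  rw [Metric.uniformContinuousOn_iff] at huc
  obtain ⟨δ, hδ, hδ'⟩ := huc μ hμ0
  -- small pieces
  have small : ∀ D : Set ℂ, D ⊆ C → (∀ z ∈ D, ∀ w ∈ D, dist z w < δ) → RH D g := by
    intro D hDC hD
    rcases D.eq_empty_or_nonempty with rfl | ⟨w, hw⟩
    · exact RH.log _ ⟨fun _ => 0, continuousOn_const, fun z hz => absurd hz (notMem_empty z)⟩
    have hw0 := h0 w (hDC hw)
    have hslit : ∀ z ∈ D, g z / g w ∈ Complex.slitPlane := by
      intro z hz
      have h1 : dist (g z) (g w) < μ := hδ' z (hDC hz) w (hDC hw) (hD z hz w hw)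
      have h2 : 1 + (g z / g w - 1) ∈ Complex.slitPlane → g z / g w ∈ Complex.slitPlane := by
        intro h; simpa using h
      apply h2
      apply Complex.mem_slitPlane_of_norm_lt_one
      rw [div_sub_one hw0, norm_div, div_lt_one (norm_pos_iff.2 hw0), ← dist_eq_norm]
      exact h1.trans_le (hμle w (hDC hw))
    refine RH.log _ ⟨fun z => Complex.log (g z / g w) + Complex.log (g w), ?_, fun z hz => ?_⟩
    · exact (((hg.mono hDC).div_const _).clog hslit).add continuousOn_const
    · rw [Complex.exp_add, Complex.exp_log hw0, Complex.exp_log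
        (div_ne_zero (h0 z (hDC hz)) hw0), div_mul_cancel₀ _ hw0]
  have hδ4 : 0 < δ / 4 := by positivity
  apply sweep Complex.continuous_re (fun hC c h1 h2 => merge_re hC h1 h2) hC hδ4
  intro x
  have hcl : IsClosed {z : ℂ | x ≤ z.re ∧ z.re ≤ x + δ / 4} :=
    (isClosed_le continuous_const Complex.continuous_re).inter
      (isClosed_le Complex.continuous_re continuous_const)
  apply sweep Complex.continuous_im (fun hC c h1 h2 => merge_im hC h1 h2) (hC.inter_right hcl) hδ4
  intro y
  apply small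
  · exact fun z hz => hz.1.1
  · rintro z ⟨⟨-, hz1, hz2⟩, hz3, hz4⟩ w ⟨⟨-, hw1, hw2⟩, hw3, hw4⟩
    rw [dist_eq_norm]
    refine (Complex.norm_le_abs_re_add_abs_im _).trans_lt ?_
    rw [Complex.sub_re, Complex.sub_im]
    have h1 : |z.re - w.re| ≤ δ / 4 := by rw [abs_le]; constructor <;> linarith
    have h2 : |z.im - w.im| ≤ δ / 4 := by rw [abs_le]; constructor <;> linarith
    linarith

/-- normal form -/
lemma RH.normal {C : Set ℂ} {g : ℂ → ℂ} (hg : RH C g) :
    ∃ (s : Finset ℂ) (n : ℂ → ℤ) (W : ℂ → ℂ), (∀ a ∈ s, a ∉ C) ∧ ContinuousOn W C ∧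
      ∀ z ∈ C, g z = Complex.exp (W z) * ∏ a ∈ s, (z - a) ^ n a := by
  classical
  induction hg with
  | log f h =>
    obtain ⟨W, hW, hW'⟩ := h
    exact ⟨∅, fun _ => 0, W, by simp, hW, fun z hz => by simp [hW' z hz]⟩
  | lin a h =>
    exact ⟨{a}, fun _ => 1, fun _ => 0, by simpa using h, continuousOn_const, fun z _ => by simp⟩
  | mul f g _ _ h1 h2 =>
    obtain ⟨s, n, W, a1, b1, c1⟩ := h1
    obtain ⟨t, m, V, a2, b2, c2⟩ := h2
    refine ⟨s ∪ t, fun a => (if a ∈ s then n a else 0) + (if a ∈ t then m a else 0),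
      fun z => W z + V z, ?_, b1.add b2, ?_⟩
    · intro a ha
      rcases Finset.mem_union.1 ha with h | h
      · exact a1 a h
      · exact a2 a h
    · intro z hz
      have hne : ∀ a ∈ s ∪ t, z - a ≠ 0 := by
        intro a ha h
        rw [sub_eq_zero] at h
        subst h
        rcases Finset.mem_union.1 ha with h | h
        · exact a1 _ h hz
        · exact a2 _ h hz
      have e1 : ∏ a ∈ s ∪ t, (z - a) ^ ((if a ∈ s then n a else 0) + (if a ∈ t then m a else 0)) =
          (∏ a ∈ s, (z - a) ^ n a) * ∏ a ∈ t, (z - a) ^ m a := by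
        have e2 : ∏ a ∈ s ∪ t, (z - a) ^ ((if a ∈ s then n a else 0) + (if a ∈ t then m a else 0))
            = (∏ a ∈ s ∪ t, (z - a) ^ (if a ∈ s then n a else 0)) *
              ∏ a ∈ s ∪ t, (z - a) ^ (if a ∈ t then m a else 0) := by
          rw [← Finset.prod_mul_distrib]
          exact Finset.prod_congr rfl fun a ha => zpow_add₀ (hne a ha) _ _
        rw [e2]
        congr 1
        · rw [← Finset.prod_subset (Finset.subset_union_left (s₁ := s) (s₂ := t))]
          · exact Finset.prod_congr rfl fun a ha => by rw [if_pos ha]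
          · intro a _ ha
            rw [if_neg ha, zpow_zero]
        · rw [← Finset.prod_subset (Finset.subset_union_right (s₁ := s) (s₂ := t))]
          · exact Finset.prod_congr rfl fun a ha => by rw [if_pos ha]
          · intro a _ ha
            rw [if_neg ha, zpow_zero]
      beta_reduce
      rw [e1, c1 z hz, c2 z hz, Complex.exp_add]
      ring
  | inv f _ h1 =>
    obtain ⟨s, n, W, a1, b1, c1⟩ := h1
    refine ⟨s, fun a => - n a, fun z => - W z, a1, b1.neg, fun z hz => ?_⟩
    beta_reduce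
    rw [c1 z hz, mul_inv, Complex.exp_neg, ← Finset.prod_inv_distrib]
    congr 1
    exact Finset.prod_congr rfl fun a _ => by rw [zpow_neg]
  | congr f g _ h h1 =>
    obtain ⟨s, n, W, a1, b1, c1⟩ := h1
    exact ⟨s, n, W, a1, b1, fun z hz => by rw [h z hz, c1 z hz]⟩

/-- **Planar Eilenberg theorem.** -/
theorem planar_eilenberg {C : Set ℂ} (hC : IsCompact C) (g : ℂ → ℂ) (hg : ContinuousOn g C)
    (h0 : ∀ z ∈ C, g z ≠ 0) :
    ∃ (s : Finset ℂ) (n : ℂ → ℤ) (W : ℂ → ℂ), (∀ a ∈ s, a ∉ C) ∧ ContinuousOn W C ∧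
      ∀ z ∈ C, g z = Complex.exp (W z) * ∏ a ∈ s, (z - a) ^ n a :=
  (rh_of_continuousOn hC g hg h0).normal

end Pool.Agent.Lib_MP_22bcea_gt
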