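import Pool.Agent.Lib_MP_22bcea_gt.Torus2
import Pool.Agent.Lib_MP_22bcea_gt.PE

/-!
# Logarithms on inessential continua of the torus
-/

open Topology Set Filter

namespace Pool.Agent.Lib_MP_22bcea_gt

lemma lat_eq_zero {m : ℤ × ℤ} (h : lat m = 0) : m = 0 := by
  have h1 := congrArg Complex.re h
  have h2 := congrArg Complex.im h
  simp only [lat_re, lat_im, Complex.zero_re, Complex.zero_im] at h1 h2
  exact Prod.ext (by exact_mod_cast h1) (by exact_mod_cast h2)

/-- Moving the zero of `z - a` a little does not change the existence of a logarithm. -/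
lemma hasLog_sub_of_close {K : Set ℂ} {a b : ℂ} {r : ℝ} (hr : ∀ z ∈ K, r ≤ ‖z - a‖)
    (hab : ‖b - a‖ < r) (h : HasLog (fun z => z - b) K) : HasLog (fun z => z - a) K := by
  have hr0 : 0 < r := (norm_nonneg _).trans_lt hab
  have hz : ∀ z ∈ K, z - a ≠ 0 := by
    intro z hz h0
    have := hr z hz
    rw [h0, norm_zero] at this
    linarith
  have h1 : HasLog (fun z => (z - b) / (z - a)) K := by
    refine hasLog_of_close ?_ ?_
    · exact ContinuousOn.div (by fun_prop) (by fun_prop) hz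
    · intro z hzK
      have e : (z - b) / (z - a) - 1 = (a - b) / (z - a) := by
        have := hz z hzK
        field_simp
        ring
      rw [e, norm_div, div_lt_one (hr0.trans_le (hr z hzK)), norm_sub_rev]
      exact hab.trans_le (hr z hzK)
  refine (h.div h1).congr fun z hzK => ?_
  have h2 := hz z hzK
  have h3 := h.ne_zero z hzK
  field_simp

lemma exists_dist_pos {K : Set ℂ} (hK : IsCompact K) {a : ℂ} (ha : a ∉ K) :
    ∃ r > 0, ∀ z ∈ K, r ≤ ‖z - a‖ := by
  obtain ⟨r, hr, hb⟩ := Metric.isOpen_iff.1 hK.isClosed.isOpen_compl a ha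
  refine ⟨r, hr, fun z hz => ?_⟩
  by_contra hcon
  push Not at hcon
  exact hb (by rwa [Metric.mem_ball, dist_eq_norm]) hz

/-- Functions on inessential continua with connected complement have logarithms. -/
theorem hasLog_of_iness {A : Set T2} (hA : IsCompact A) (pA : IsPreconnected A)
    (qA : IsPreconnected Aᶜ) (hI : Iness A) {c : T2 → ℂ} (hc : ContinuousOn c A)
    (h0 : ∀ x ∈ A, c x ≠ 0) : HasLog c A := by
  obtain ⟨Θ, hΘ, hΘ'⟩ := hI
  let K : Set ℂ := Θ '' A
  have hK : IsCompact K := hA.image_of_continuousOn hΘ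
  have hKp : IsPreconnected K := pA.image _ hΘ
  have hprojK : ∀ z ∈ K, proj z ∈ A := by
    rintro _ ⟨x, hx, rfl⟩
    rw [hΘ' x hx]; exact hx
  have hΘproj : ∀ z ∈ K, Θ (proj z) = z := by
    rintro _ ⟨x, hx, rfl⟩
    rw [hΘ' x hx]
  suffices hmain : ∀ a, a ∉ K → HasLog (fun z => z - a) K by
    obtain ⟨s, n, W, hs, hW, he⟩ := planar_eilenberg hK (fun z => c (proj z))
      (hc.comp continuous_proj.continuousOn hprojK) (fun z hz => h0 _ (hprojK z hz))
    have h1 : HasLog (fun z => c (proj z)) K := by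
      refine ((HasLog.exp hW).mul (HasLog.prod s (fun a z => (z - a) ^ n a)
        fun a ha => (hmain a (hs a ha)).zpow _)).congr fun z hz => ?_
      exact (he z hz).symm
    exact (h1.comp hΘ fun x hx => ⟨x, hx, rfl⟩).congr fun x hx => by
      rw [hΘ' x hx]
  by_contra hcon
  push Not at hcon
  obtain ⟨a0, ha0, ha0'⟩ := hcon
  let Ω : Set ℂ := {a | a ∉ K ∧ ¬ HasLog (fun z => z - a) K}
  have hΩo : IsOpen Ω := by
    rw [Metric.isOpen_iff]
    rintro a ⟨haK, ha⟩
    obtain ⟨r, hr, hrK⟩ := exists_dist_pos hK haK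
    refine ⟨r, hr, fun b hb => ?_⟩
    rw [Metric.mem_ball, dist_eq_norm] at hb
    refine ⟨fun hbK => ?_, fun hb' => ha (hasLog_sub_of_close hrK hb hb')⟩
    exact absurd hb (not_lt.2 (hrK b hbK))
  have hΩo' : IsOpen {a | a ∉ K ∧ a ∉ Ω} := by
    rw [Metric.isOpen_iff]
    rintro a ⟨haK, ha⟩
    have ha' : HasLog (fun z => z - a) K := by
      by_contra h
      exact ha ⟨haK, h⟩
    obtain ⟨r, hr, hrK⟩ := exists_dist_pos hK haK
    refine ⟨r / 2, by positivity, fun b hb => ?_⟩
    rw [Metric.mem_ball, dist_eq_norm] at hb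
    have hbK : b ∉ K := by
      intro hbK
      have := hrK b hbK
      linarith
    refine ⟨hbK, fun hbΩ => hbΩ.2 ?_⟩
    refine hasLog_sub_of_close (r := r / 2) (fun z hz => ?_) (by rwa [norm_sub_rev]) ha'
    have h1 := hrK z hz
    have h2 : ‖z - a‖ ≤ ‖z - b‖ + ‖b - a‖ := by
      have : z - a = (z - b) + (b - a) := by ring
      rw [this]; exact norm_add_le _ _
    linarith
  have hΩK : Disjoint Ω K := Set.disjoint_left.2 fun a ha => ha.1
  have hΩconv : Ω ⊆ convexHull ℝ K := by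
    rintro a ⟨_, ha⟩
    by_contra hcon
    refine ha (HasLog.mono (hasLog_of_convex (convex_convexHull ℝ K) (by fun_prop) ?_)
      (subset_convexHull ℝ K))
    intro z hz h0
    rw [sub_eq_zero] at h0
    exact hcon (h0 ▸ hz)
  have hΩne : Ω.Nonempty := ⟨a0, ha0, ha0'⟩
  have hKne : K.Nonempty := by
    rw [Set.nonempty_iff_ne_empty]
    intro h
    refine ha0' ⟨fun _ => 0, by rw [h]; simp, by rw [h]; simp⟩
  -- translates of `K` avoid `K` and `Ω`
  have htrans : ∀ m : ℤ × ℤ, m ≠ 0 → ∀ z ∈ K, z + lat m ∉ K := by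
    intro m hm z hz hz'
    have h1 := hΘproj _ hz'
    rw [proj_add_lat, hΘproj z hz] at h1
    have h2 : lat m = 0 := by
      have : z + lat m = z := h1.symm
      simpa using this
    exact hm (lat_eq_zero h2)
  have htransΩ : ∀ m : ℤ × ℤ, ∀ z ∈ K, z + lat m ∉ Ω := by
    intro m z hz hzΩ
    by_cases hm : m = 0
    · subst hm
      rw [lat_zero, add_zero] at hzΩ
      exact hzΩ.1 hz
    · have hpre : IsPreconnected ((fun z => z + lat m) '' K) :=
        hKp.image _ (by fun_prop)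
      have hsub : (fun z => z + lat m) '' K ⊆ Ω := by
        by_contra hns
        rw [Set.not_subset] at hns
        obtain ⟨_, ⟨w, hw, rfl⟩, hwΩ⟩ := hns
        obtain ⟨y, _, hy1, hy2⟩ := hpre Ω {a | a ∉ K ∧ a ∉ Ω} hΩo hΩo' (by
          rintro _ ⟨v, hv, rfl⟩
          by_cases h : v + lat m ∈ Ω
          · exact Or.inl h
          · exact Or.inr ⟨htrans m hm v hv, h⟩) ⟨_, ⟨z, hz, rfl⟩, hzΩ⟩
          ⟨_, ⟨w, hw, rfl⟩, htrans m hm w hw, hwΩ⟩
        exact hy2.2 hy1
      obtain ⟨z1, hz1, hmax⟩ := hK.exists_isMaxOn hKne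
        (f := fun z => z.re * m.1 + z.im * m.2) (by fun_prop)
      have hhalf : convexHull ℝ K ⊆ {z : ℂ | z.re * m.1 + z.im * m.2 ≤
          z1.re * m.1 + z1.im * m.2} := by
        refine convexHull_min (fun z hz => hmax hz) ?_
        have hlin : IsLinearMap ℝ fun z : ℂ => z.re * (m.1 : ℝ) + z.im * m.2 := by
          constructor
          · intro x y; simp; ring
          · intro r x; simp; ring
        exact convex_halfSpace_le hlin _
      have h1 := hhalf (hΩconv (hsub ⟨z1, hz1, rfl⟩))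
      simp only [mem_setOf_eq, Complex.add_re, Complex.add_im, lat_re, lat_im] at h1
      have h2 : (m.1 : ℝ) * m.1 + m.2 * m.2 ≤ 0 := by linarith
      apply hm
      have h3 : (m.1 : ℝ) = 0 := by nlinarith [sq_nonneg (m.1 : ℝ), sq_nonneg (m.2 : ℝ)]
      have h4 : (m.2 : ℝ) = 0 := by nlinarith [sq_nonneg (m.1 : ℝ), sq_nonneg (m.2 : ℝ)]
      exact Prod.ext (by exact_mod_cast h3) (by exact_mod_cast h4)
  have hΩA : ∀ z ∈ Ω, proj z ∉ A := by
    intro z hz hzA
    have h1 : proj (Θ (proj z)) = proj z := hΘ' _ hzA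
    obtain ⟨m, hm⟩ := proj_eq_iff.1 h1
    exact htransΩ m (Θ (proj z)) ⟨_, hzA, rfl⟩ (hm ▸ hz)
  -- the compact set `K ∪ Ω`
  let L : Set ℂ := K ∪ Ω
  have hLc : IsClosed L := by
    rw [← isOpen_compl_iff]
    have : Lᶜ = {a | a ∉ K ∧ a ∉ Ω} := by
      ext a; simp [L, not_or]
    rw [this]; exact hΩo'
  obtain ⟨R, hR⟩ := (isBounded_convexHull.2 hK.isBounded : Bornology.IsBounded
    (convexHull ℝ K)).exists_norm_le
  have hLR : ∀ z ∈ L, ‖z‖ ≤ R := by
    rintro z (hz | hz)
    · exact hR z (subset_convexHull ℝ K hz)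
    · exact hR z (hΩconv hz)
  have hLcpt : IsCompact L := Metric.isCompact_of_isClosed_isBounded hLc
    ((Metric.isBounded_closedBall (x := (0 : ℂ)) (r := R)).subset fun z hz => by
      simpa using hLR z hz)
  have hprojL : IsClosed (proj '' L) := (hLcpt.image continuous_proj).isClosed
  have hAL : A ⊆ proj '' L := fun x hx => ⟨Θ x, Or.inl ⟨x, hx, rfl⟩, hΘ' x hx⟩
  have hcover : ∀ x : T2, x ∈ proj '' L := by
    intro x
    by_contra hx
    obtain ⟨w, hw⟩ := hΩne
    obtain ⟨y, _, ⟨v, hv, rfl⟩, hy2⟩ := qA (proj '' Ω) (proj '' L)ᶜ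
      (isOpenMap_proj _ hΩo) hprojL.isOpen_compl (by
        intro y hy
        by_cases h : y ∈ proj '' L
        · obtain ⟨v, hv | hv, rfl⟩ := h
          · exact absurd (hprojK v hv) hy
          · exact Or.inl ⟨v, hv, rfl⟩
        · exact Or.inr h)
      ⟨proj w, hΩA w hw, w, hw, rfl⟩ ⟨x, fun hxA => hx (hAL hxA), hx⟩
    exact hy2 ⟨v, Or.inr hv, rfl⟩
  -- `L` is open
  have hLo : IsOpen L := by
    rw [Metric.isOpen_iff]
    intro x hxL
    rcases hxL with hxK | hxΩ
    swap
    · obtain ⟨r, hr, hb⟩ := Metric.isOpen_iff.1 hΩo x hxΩ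
      exact ⟨r, hr, fun y hy => Or.inr (hb hy)⟩
    obtain ⟨N, hN⟩ := exists_nat_gt (‖x‖ + 1 + R)
    let F : Set (ℤ × ℤ) := {m | |m.1| ≤ N ∧ |m.2| ≤ N ∧ m ≠ 0}
    have hF : F.Finite := by
      refine ((Set.finite_Icc (-(N : ℤ)) N).prod (Set.finite_Icc (-(N : ℤ)) N)).subset ?_
      rintro m ⟨h1, h2, -⟩
      exact ⟨⟨by linarith [neg_abs_le m.1], (le_abs_self _).trans h1⟩,
        ⟨by linarith [neg_abs_le m.2], (le_abs_self _).trans h2⟩⟩
    have hcl : IsClosed (⋃ m ∈ F, (fun z => z + lat m) '' L) :=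
      hF.isClosed_biUnion fun m _ => (hLcpt.image (by fun_prop)).isClosed
    have hxn : x ∉ ⋃ m ∈ F, (fun z => z + lat m) '' L := by
      intro hx
      simp only [mem_iUnion] at hx
      obtain ⟨m, hm, v, hv, hvx⟩ := hx
      simp only at hvx
      have hmn : -m ≠ 0 := neg_ne_zero.2 hm.2.2
      have hv' : v = x + lat (-m) := by rw [lat_neg, ← hvx]; ring
      rcases hv with hv | hv
      · exact htrans (-m) hmn x hxK (hv' ▸ hv)
      · exact htransΩ (-m) x hxK (hv' ▸ hv)
    obtain ⟨r, hr, hb⟩ := Metric.isOpen_iff.1 hcl.isOpen_compl x hxn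
    refine ⟨min r 1, lt_min hr one_pos, fun y hy => ?_⟩
    have hy1 : y ∈ Metric.ball x r := Metric.ball_subset_ball (min_le_left _ _) hy
    have hy2 : ‖y - x‖ < 1 := by
      rw [Metric.mem_ball, dist_eq_norm] at hy
      exact hy.trans_le (min_le_right _ _)
    obtain ⟨v, hv, hvy⟩ := hcover (proj y)
    obtain ⟨m, hm⟩ := proj_eq_iff.1 hvy
    by_cases hm0 : m = 0
    · subst hm0
      rw [lat_zero, add_zero] at hm
      rw [hm]; exact hv
    · exfalso
      have hnorm : ‖lat m‖ ≤ N := by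
        have h1 : lat m = y - v := by rw [hm]; ring
        have h2 : ‖y‖ ≤ ‖x‖ + 1 := by
          have : y = x + (y - x) := by ring
          rw [this]
          exact (norm_add_le _ _).trans (by linarith)
        rw [h1]
        have h3 := hLR v hv
        have h4 := norm_sub_le y v
        linarith
      have hmF : m ∈ F := by
        refine ⟨?_, ?_, hm0⟩
        · have := (Complex.abs_re_le_norm (lat m)).trans hnorm
          rw [lat_re] at this
          exact_mod_cast this
        · have := (Complex.abs_im_le_norm (lat m)).trans hnorm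
          rw [lat_im] at this
          exact_mod_cast this
      refine hb hy1 ?_
      simp only [mem_iUnion]
      exact ⟨m, hmF, v, hv, hm.symm⟩
  rcases isClopen_iff.1 ⟨hLc, hLo⟩ with h | h
  · obtain ⟨z, hz⟩ := hKne
    exact (h ▸ (Or.inl hz : z ∈ L) : z ∈ (∅ : Set ℂ))
  · have h1 : ((R + 1 : ℝ) : ℂ) ∈ L := h ▸ mem_univ _
    have h2 := hLR _ h1
    rw [Complex.norm_real, Real.norm_eq_abs] at h2
    linarith [le_abs_self (R + 1)]

end Pool.Agent.Lib_MP_22bcea_gt
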