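import Mathlib

/-! Selection lemma (PART SEL of the blueprint). -/

namespace Pool.Agent.Lib_MP_22bcea_gt

open Set Topology

/-- a continuous function on a preconnected set with `exp f = 1` is constant -/
lemma const_of_exp_one {Γ : Type*} [TopologicalSpace Γ] {K : Set Γ} (hK : IsPreconnected K)
    {f : Γ → ℂ} (hf : ContinuousOn f K) (h1 : ∀ ξ ∈ K, Complex.exp (f ξ) = 1) {x y : Γ}
    (hx : x ∈ K) (hy : y ∈ K) : f x = f y := by
  have hdisc : IsDiscrete (Set.range (fun n : ℤ => (n : ℝ))) := by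
    have := Int.isClosedEmbedding_coe_real.isEmbedding
    exact ⟨this.toHomeomorph.symm.isEmbedding.discreteTopology⟩
  have hpi : (2 * Real.pi) ≠ 0 := by positivity
  have hval : ∀ ξ ∈ K, ∃ n : ℤ, f ξ = n * (2 * Real.pi * Complex.I) := fun ξ hξ =>
    Complex.exp_eq_one_iff.mp (h1 ξ hξ)
  have him : ∀ ξ ∈ K, ∀ n : ℤ, f ξ = n * (2 * Real.pi * Complex.I) →
      (f ξ).im / (2 * Real.pi) = n := by
    intro ξ _ n hn
    rw [hn]
    simp
  have hc : ContinuousOn (fun ξ => (f ξ).im / (2 * Real.pi)) K :=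
    (Complex.continuous_im.comp_continuousOn hf).div_const _
  have hm : MapsTo (fun ξ => (f ξ).im / (2 * Real.pi)) K (Set.range (fun n : ℤ => (n : ℝ))) := by
    intro ξ hξ
    obtain ⟨n, hn⟩ := hval ξ hξ
    exact ⟨n, (him ξ hξ n hn).symm⟩
  have he := hK.constant_of_mapsTo hdisc hc hm hx hy
  obtain ⟨n, hn⟩ := hval x hx
  obtain ⟨m, hm'⟩ := hval y hy
  have e1 := him x hx n hn
  have e2 := him y hy m hm'
  rw [e1, e2] at he
  have : n = m := by exact_mod_cast he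
  rw [hn, hm', this]

/-- extension of a logarithm from a fibre to a saturated neighbourhood -/
lemma extend_log {S Γ : Type*} [MetricSpace S] [CompactSpace S] [MetricSpace Γ]
    [CompactSpace Γ] (p : Γ → S) (hp : Continuous p)
    (c : Γ → ℂ) (hc : Continuous c)
    (hlog : ∀ u, ∃ w : Γ → ℂ, ContinuousOn w (p ⁻¹' {u}) ∧ ∀ ξ ∈ p ⁻¹' {u}, Complex.exp (w ξ) = c ξ)
    (u : S) :
    ∃ (w : Γ → ℂ) (N : Set S), IsOpen N ∧ u ∈ N ∧ ContinuousOn w (p ⁻¹' N) ∧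
      ∀ ξ ∈ p ⁻¹' N, Complex.exp (w ξ) = c ξ := by
  obtain ⟨w0, hw0, hw1⟩ := hlog u
  have hcl : IsClosed (p ⁻¹' {u}) := isClosed_singleton.preimage hp
  obtain ⟨W, hW⟩ := ContinuousMap.exists_restrict_eq hcl
    (⟨(p ⁻¹' {u}).domRestrict w0, continuousOn_iff_continuous_domRestrict.mp hw0⟩ :
      C(p ⁻¹' {u}, ℂ))
  have hWeq : ∀ ξ ∈ p ⁻¹' {u}, W ξ = w0 ξ := by
    intro ξ hξ
    exact congrArg (fun f : C(p ⁻¹' {u}, ℂ) => f ⟨ξ, hξ⟩) hW
  let φ : Γ → ℂ := fun ξ => c ξ * Complex.exp (- W ξ)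
  have hφ : Continuous φ := hc.mul (Complex.continuous_exp.comp W.continuous.neg)
  have hφ1 : ∀ ξ ∈ p ⁻¹' {u}, φ ξ = 1 := by
    intro ξ hξ
    change c ξ * Complex.exp (- W ξ) = 1
    rw [hWeq ξ hξ, ← hw1 ξ hξ, ← Complex.exp_add]
    simp
  let V : Set Γ := φ ⁻¹' Metric.ball 1 1
  have hV : IsOpen V := Metric.isOpen_ball.preimage hφ
  have hslit : ∀ ξ ∈ V, φ ξ ∈ Complex.slitPlane := by
    intro ξ hξ
    have h1 : ‖φ ξ - 1‖ < 1 := by
      have : φ ξ ∈ Metric.ball (1 : ℂ) 1 := hξ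
      rwa [Metric.mem_ball, dist_eq_norm] at this
    have := Complex.mem_slitPlane_of_norm_lt_one h1
    simpa using this
  let w : Γ → ℂ := fun ξ => W ξ + Complex.log (φ ξ)
  have hw : ContinuousOn w V := W.continuous.continuousOn.add (hφ.continuousOn.clog hslit)
  have hexp : ∀ ξ ∈ V, Complex.exp (w ξ) = c ξ := by
    intro ξ hξ
    have h0 : φ ξ ≠ 0 := Complex.slitPlane_ne_zero (hslit ξ hξ)
    change Complex.exp (W ξ + Complex.log (φ ξ)) = c ξ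
    rw [Complex.exp_add, Complex.exp_log h0]
    change Complex.exp (W ξ) * (c ξ * Complex.exp (- W ξ)) = c ξ
    rw [mul_left_comm, ← Complex.exp_add]
    simp
  have hclosed : IsClosed (p '' Vᶜ) := hp.isClosedMap _ hV.isClosed_compl
  refine ⟨w, (p '' Vᶜ)ᶜ, hclosed.isOpen_compl, ?_, hw.mono ?_, fun ξ hξ => hexp ξ ?_⟩
  · rintro ⟨ξ, hξ, hξu⟩
    apply hξ
    change φ ξ ∈ Metric.ball 1 1
    rw [hφ1 ξ hξu]
    exact Metric.mem_ball_self one_pos
  · intro ξ hξ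
    by_contra h
    exact hξ ⟨ξ, h, rfl⟩
  · by_contra h
    exact hξ ⟨ξ, h, rfl⟩

/-- Selection lemma. -/
theorem exists_odd_of_fiberwise_log {S Γ : Type*} [MetricSpace S] [CompactSpace S] [MetricSpace Γ]
    [CompactSpace Γ] (p : Γ → S) (hp : Continuous p) (hsurj : Function.Surjective p)
    (hconn : ∀ u, IsPreconnected (p ⁻¹' {u}))
    (ν : S → S) (hν : Continuous ν) (τ : Γ → Γ) (hτ : Continuous τ) (hττ : ∀ ξ, τ (τ ξ) = ξ)
    (hpτ : ∀ ξ, p (τ ξ) = ν (p ξ))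
    (c : Γ → ℂ) (hc : Continuous c) (hc0 : ∀ ξ, c ξ ≠ 0) (hodd : ∀ ξ, c (τ ξ) = - c ξ)
    (hlog : ∀ u, ∃ w : Γ → ℂ, ContinuousOn w (p ⁻¹' {u}) ∧
      ∀ ξ ∈ p ⁻¹' {u}, Complex.exp (w ξ) = c ξ) :
    ∃ G : S → ℂ, Continuous G ∧ (∀ u, G u ≠ 0) ∧ ∀ u, G (ν u) = - G u := by
  classical
  choose w N hNo hN hw hwexp using extend_log p hp c hc hlog
  obtain ⟨t, ht⟩ := isCompact_univ.elim_finite_subcover N hNo
    (fun u _ => mem_iUnion.mpr ⟨u, hN u⟩)
  obtain ⟨ρ, hρ⟩ := PartitionOfUnity.exists_isSubordinate (s := (univ : Set S)) isClosed_univ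
    (fun j : t => N j) (fun j => hNo j) (by
      intro u hu
      obtain ⟨j, hj⟩ := mem_iUnion.mp (ht hu)
      obtain ⟨hjt, hj⟩ := mem_iUnion.mp hj
      exact mem_iUnion.mpr ⟨⟨j, hjt⟩, hj⟩)
  have hsum : ∀ u, ∑ j : t, ρ j u = 1 := by
    intro u
    rw [← finsum_eq_sum_of_fintype]
    exact ρ.sum_eq_one (mem_univ u)
  let d : Γ → ℂ := fun ξ => - ∑ j : t, (ρ j (p ξ) : ℂ) * w j ξ
  have hd : Continuous d := by
    refine (continuous_finsetSum _ fun j _ => ?_).neg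
    rw [continuous_iff_continuousAt]
    intro ξ
    by_cases hξ : p ξ ∈ N j
    · have h1 : ContinuousAt (w j) ξ :=
        (hw j).continuousAt ((hNo j).preimage hp |>.mem_nhds hξ)
      exact ContinuousAt.mul (Complex.continuous_ofReal.continuousAt.comp
        ((ρ j).continuous.comp hp).continuousAt) h1
    · have h1 : p ξ ∈ (tsupport (ρ j))ᶜ := fun h => hξ (hρ j h)
      have h2 : (p ⁻¹' (tsupport (ρ j))ᶜ) ∈ 𝓝 ξ :=
        ((isClosed_tsupport _).isOpen_compl.preimage hp).mem_nhds h1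
      have h3 : (fun ξ => (ρ j (p ξ) : ℂ) * w j ξ) =ᶠ[𝓝 ξ] fun _ => 0 := by
        filter_upwards [h2] with η hη
        rw [image_eq_zero_of_notMem_tsupport hη]
        simp
      exact (continuousAt_congr h3).mpr continuousAt_const
  -- `d` is minus a logarithm up to a constant on each fibre
  have hconst : ∀ u, ∀ w' : Γ → ℂ, ContinuousOn w' (p ⁻¹' {u}) →
      (∀ ξ ∈ p ⁻¹' {u}, Complex.exp (w' ξ) = c ξ) → ∀ ξ ∈ p ⁻¹' {u}, ∀ η ∈ p ⁻¹' {u},
      d ξ + w' ξ = d η + w' η := by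
    intro u w' hw' hw'exp ξ hξ η hη
    have hpt : ∀ ζ ∈ p ⁻¹' {u}, d ζ + w' ζ = ∑ j : t, (ρ j u : ℂ) * (w' ζ - w j ζ) := by
      intro ζ hζ
      have hζ' : p ζ = u := hζ
      have h1 : w' ζ = (∑ j : t, (ρ j u : ℂ)) * w' ζ := by
        have : (∑ j : t, (ρ j u : ℂ)) = 1 := by exact_mod_cast hsum u
        rw [this, one_mul]
      change - ∑ j : t, (ρ j (p ζ) : ℂ) * w j ζ + w' ζ = _
      rw [hζ']
      conv_lhs => rw [h1]
      rw [Finset.sum_mul, ← Finset.sum_neg_distrib, ← Finset.sum_add_distrib]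
      refine Finset.sum_congr rfl fun j _ => ?_
      ring
    rw [hpt ξ hξ, hpt η hη]
    refine Finset.sum_congr rfl fun j _ => ?_
    by_cases hj : ρ j u = 0
    · rw [hj]; simp
    · have huN : u ∈ N j := hρ j (subset_tsupport _ hj)
      have hsub : p ⁻¹' {u} ⊆ p ⁻¹' (N j) := preimage_mono (singleton_subset_iff.mpr huN)
      have h1 : w' ξ - w j ξ = w' η - w j η :=
        const_of_exp_one (hconn u) (f := fun ζ => w' ζ - w j ζ) (hw'.sub ((hw j).mono hsub))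
          (fun ζ hζ => by
            rw [Complex.exp_sub, hw'exp ζ hζ, hwexp j ζ (hsub hζ), div_self (hc0 ζ)]) hξ hη
      rw [h1]
  let Φ : Γ → ℂ := fun ξ => c ξ * Complex.exp ((d ξ + d (τ ξ)) / 2)
  have hΦ : Continuous Φ :=
    hc.mul (Complex.continuous_exp.comp ((hd.add (hd.comp hτ)).div_const 2))
  have hτfib : ∀ u, ∀ ξ ∈ p ⁻¹' {u}, τ ξ ∈ p ⁻¹' {ν u} := by
    intro u ξ hξ
    change p (τ ξ) = ν u
    rw [hpτ, show p ξ = u from hξ]
  have hΦconst : ∀ ξ η, p ξ = p η → Φ ξ = Φ η := by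
    intro ξ η hξη
    set u := p ξ with hu
    have hξ : ξ ∈ p ⁻¹' {u} := rfl
    have hη : η ∈ p ⁻¹' {u} := hξη.symm
    obtain ⟨w1, hw1, hw1e⟩ := hlog u
    obtain ⟨w2, hw2, hw2e⟩ := hlog (ν u)
    have e1 := hconst u w1 hw1 hw1e ξ hξ η hη
    have e2 := hconst (ν u) w2 hw2 hw2e (τ ξ) (hτfib u ξ hξ) (τ η) (hτfib u η hη)
    have hcomp : ContinuousOn (fun ζ => w2 (τ ζ)) (p ⁻¹' {u}) :=
      hw2.comp hτ.continuousOn (fun ζ hζ => hτfib u ζ hζ)
    have e3 : w2 (τ ξ) - w1 ξ - Real.pi * Complex.I = w2 (τ η) - w1 η - Real.pi * Complex.I :=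
      const_of_exp_one (hconn u) (f := fun ζ => w2 (τ ζ) - w1 ζ - Real.pi * Complex.I)
        ((hcomp.sub hw1).sub continuousOn_const)
        (fun ζ hζ => by
          rw [Complex.exp_sub, Complex.exp_sub, hw2e _ (hτfib u ζ hζ), hw1e ζ hζ, hodd,
            Complex.exp_pi_mul_I]
          have := hc0 ζ
          field_simp) hξ hη
    have e4 : (d ξ + d (τ ξ)) / 2 + w1 ξ = (d η + d (τ η)) / 2 + w1 η := by
      linear_combination (1/2 : ℂ) * e1 + (1/2 : ℂ) * e2 - (1/2 : ℂ) * e3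
    change c ξ * Complex.exp ((d ξ + d (τ ξ)) / 2) = c η * Complex.exp ((d η + d (τ η)) / 2)
    rw [← hw1e ξ hξ, ← hw1e η hη, ← Complex.exp_add, ← Complex.exp_add, add_comm (w1 ξ),
      add_comm (w1 η), e4]
  choose σ hσ using hsurj
  let G : S → ℂ := fun u => Φ (σ u)
  have hG : ∀ ξ, G (p ξ) = Φ ξ := fun ξ => hΦconst _ _ (hσ (p ξ))
  have hq : IsQuotientMap p := hp.isClosedMap.isQuotientMap hp (fun u => ⟨σ u, hσ u⟩)
  refine ⟨G, ?_, ?_, ?_⟩
  · rw [hq.continuous_iff]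
    have : G ∘ p = Φ := funext hG
    rw [this]
    exact hΦ
  · intro u
    exact mul_ne_zero (hc0 _) (Complex.exp_ne_zero _)
  · intro u
    have h1 : G (ν u) = Φ (τ (σ u)) := by
      rw [← hG, hpτ, hσ]
    rw [h1]
    change c (τ (σ u)) * Complex.exp ((d (τ (σ u)) + d (τ (τ (σ u)))) / 2)
      = - (c (σ u) * Complex.exp ((d (σ u) + d (τ (σ u))) / 2))
    rw [hodd, hττ, add_comm (d (τ (σ u)))]
    ring

end Pool.Agent.Lib_MP_22bcea_gt
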