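import Pool.Agent.Lib_MP_22bcea_gt.Torus2

/-!
# Tight subsets: faces and injectivity over convex images
-/

open Topology Set Filter
open scoped RealInnerProductSpace

namespace Pool.Agent.Lib_MP_22bcea_gt

/-- Decreasing intersections of compact preconnected sets are preconnected. -/
lemma isPreconnected_iInter_nat {X : Type*} [TopologicalSpace X] [T2Space X] (S : ℕ → Set X)
    (hS : Antitone S) (hc : ∀ n, IsCompact (S n)) (hp : ∀ n, IsPreconnected (S n)) :
    IsPreconnected (⋂ n, S n) := by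
  have hclosed : IsClosed (⋂ n, S n) := isClosed_iInter fun n => (hc n).isClosed
  have hcpt : IsCompact (⋂ n, S n) := (hc 0).of_isClosed_subset hclosed (iInter_subset _ 0)
  rw [isPreconnected_closed_iff]
  intro t t' ht ht' hcov hne hne'
  by_contra hcon
  rw [not_nonempty_iff_eq_empty] at hcon
  have hd : Disjoint ((⋂ n, S n) ∩ t) ((⋂ n, S n) ∩ t') := by
    rw [Set.disjoint_left]
    rintro x ⟨hx, hxt⟩ ⟨-, hxt'⟩
    have : x ∈ (⋂ n, S n) ∩ (t ∩ t') := ⟨hx, hxt, hxt'⟩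
    rw [hcon] at this
    exact this
  obtain ⟨U, V, hU, hV, htU, ht'V, hUV⟩ := SeparatedNhds.of_isCompact_isCompact
    (hcpt.inter_right ht) (hcpt.inter_right ht') hd
  have hsub : (⋂ n, S n) ⊆ U ∪ V := by
    intro x hx
    rcases hcov hx with h | h
    · exact Or.inl (htU ⟨hx, h⟩)
    · exact Or.inr (ht'V ⟨hx, h⟩)
  obtain ⟨n, hn⟩ := exists_subset_nhds_of_isCompact' (directed_of_isDirected_le
    (fun i j hij => hS hij)) hc (fun n => (hc n).isClosed)
    (fun x hx => (hU.union hV).mem_nhds (hsub hx))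
  obtain ⟨x, hx, hxt⟩ := hne
  obtain ⟨y, hy, hyt⟩ := hne'
  obtain ⟨z, -, hz1, hz2⟩ := hp n U V hU hV hn ⟨x, mem_iInter.1 hx n, htU ⟨hx, hxt⟩⟩
    ⟨y, mem_iInter.1 hy n, ht'V ⟨hy, hyt⟩⟩
  exact Set.disjoint_left.1 hUV hz1 hz2

lemma isPreconnected_iUnion_nat {X : Type*} [TopologicalSpace X] (S : ℕ → Set X)
    (hS : Monotone S) (hp : ∀ n, IsPreconnected (S n)) :
    IsPreconnected (⋃ n, S n) := by
  rw [← sUnion_range]
  refine IsPreconnected.sUnion_directed ?_ ?_
  · rintro _ ⟨i, rfl⟩ _ ⟨j, rfl⟩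
    exact ⟨S (max i j), ⟨_, rfl⟩, hS (le_max_left _ _), hS (le_max_right _ _)⟩
  · rintro _ ⟨i, rfl⟩
    exact hp i

variable {E : Type*} [NormedAddCommGroup E] [InnerProductSpace ℝ E]

/-- Compact subsets of the torus all of whose half-space sections are preconnected and have
preconnected complements. -/
structure TP (f : T2 → E) (A : Set T2) : Prop where
  cpt : IsCompact A
  pre : ∀ (v : E) (c : ℝ), IsPreconnected (A ∩ {x | c ≤ ⟪v, f x⟫})
  cop : ∀ (v : E) (c : ℝ), IsPreconnected (A ∩ {x | c ≤ ⟪v, f x⟫})ᶜ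

lemma continuous_inner_left' {f : T2 → E} (hf : Continuous f) (v : E) :
    Continuous fun x => ⟪v, f x⟫ := continuous_const.inner hf

lemma TP.univ {f : T2 → E} (hf : Continuous f)
    (h : ∀ (v : E) (c : ℝ), IsPreconnected {x | c ≤ ⟪v, f x⟫}) : TP f univ where
  cpt := isCompact_univ
  pre := by
    intro v c
    rw [univ_inter]; exact h v c
  cop := by
    intro v c
    rw [univ_inter]
    have : {x | c ≤ ⟪v, f x⟫}ᶜ = ⋃ n : ℕ, {x | -c + 1 / ((n : ℝ) + 1) ≤ ⟪-v, f x⟫} := by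
      ext x
      simp only [mem_compl_iff, Set.mem_setOf_eq, not_le, mem_iUnion, inner_neg_left]
      constructor
      · intro hx
        obtain ⟨n, hn⟩ := exists_nat_one_div_lt (sub_pos.2 hx)
        exact ⟨n, by linarith⟩
      · rintro ⟨n, hn⟩
        have : (0 : ℝ) < 1 / ((n : ℝ) + 1) := by positivity
        linarith
    rw [this]
    refine isPreconnected_iUnion_nat _ ?_ fun n => h _ _
    intro i j hij x hx
    simp only [Set.mem_setOf_eq] at hx ⊢
    have : 1 / ((j : ℝ) + 1) ≤ 1 / ((i : ℝ) + 1) := by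
      apply one_div_le_one_div_of_le (by positivity)
      have : (i : ℝ) ≤ j := by exact_mod_cast hij
      linarith
    linarith

/-- Faces of tight sets are tight. -/
lemma TP.face {f : T2 → E} (hf : Continuous f) {A : Set T2} (h : TP f A) {v : E} {m : ℝ}
    (hm : ∀ x ∈ A, ⟪v, f x⟫ ≤ m) : TP f (A ∩ {x | m ≤ ⟪v, f x⟫}) := by
  have hclosed : ∀ (w : E) (c : ℝ), IsClosed {x | c ≤ ⟪w, f x⟫} := fun w c =>
    isClosed_le continuous_const (continuous_inner_left' hf w)
  have key : ∀ (w : E) (c : ℝ), A ∩ {x | m ≤ ⟪v, f x⟫} ∩ {x | c ≤ ⟪w, f x⟫} =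
      ⋂ n : ℕ, A ∩ {x | (n : ℝ) * m + c ≤ ⟪(n : ℝ) • v + w, f x⟫} := by
    intro w c
    ext x
    simp only [mem_inter_iff, Set.mem_setOf_eq, mem_iInter, inner_add_left, inner_smul_left,
      conj_trivial]
    constructor
    · rintro ⟨⟨hA, h1⟩, h2⟩ n
      exact ⟨hA, add_le_add (mul_le_mul_of_nonneg_left h1 (Nat.cast_nonneg n)) h2⟩
    · intro hx
      have hA : x ∈ A := (hx 0).1
      have h0 := (hx 0).2
      have hle := hm x hA
      refine ⟨⟨hA, ?_⟩, by simpa using h0⟩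
      by_contra hlt
      push Not at hlt
      obtain ⟨n, hn⟩ := exists_nat_gt ((⟪w, f x⟫ - c) / (m - ⟪v, f x⟫))
      rw [div_lt_iff₀ (by linarith)] at hn
      have := (hx n).2
      nlinarith
  have hanti : ∀ (w : E) (c : ℝ), Antitone fun n : ℕ =>
      A ∩ {x | (n : ℝ) * m + c ≤ ⟪(n : ℝ) • v + w, f x⟫} := by
    intro w c i j hij x hx
    simp only [mem_inter_iff, Set.mem_setOf_eq, inner_add_left, inner_smul_left,
      conj_trivial] at hx ⊢
    refine ⟨hx.1, ?_⟩
    have h1 := hm x hx.1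
    have h2 : (i : ℝ) ≤ j := by exact_mod_cast hij
    nlinarith [hx.2]
  refine ⟨h.cpt.inter_right (hclosed _ _), fun w c => ?_, fun w c => ?_⟩
  · rw [key]
    exact isPreconnected_iInter_nat _ (hanti w c) (fun n => h.cpt.inter_right (hclosed _ _))
      fun n => h.pre _ _
  · rw [key, compl_iInter]
    exact isPreconnected_iUnion_nat _ (fun i j hij => compl_subset_compl.2 (hanti w c hij))
      fun n => h.cop _ _

lemma TP.preconnected {f : T2 → E} {A : Set T2} (h : TP f A) : IsPreconnected A := by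
  have := h.pre 0 0
  simpa using this

lemma TP.compl_preconnected {f : T2 → E} {A : Set T2} (h : TP f A) : IsPreconnected Aᶜ := by
  have := h.cop 0 0
  simpa using this

/-- The set of double points of a locally injective map is closed. -/
lemma isClosed_double {f : T2 → E} (hf : Continuous f) (hloc : ∀ x, ∃ U ∈ 𝓝 x, InjOn f U) :
    IsClosed {p : T2 × T2 | p.1 ≠ p.2 ∧ f p.1 = f p.2} := by
  rw [← isOpen_compl_iff, isOpen_iff_mem_nhds]
  rintro ⟨x, y⟩ hxy
  by_cases hfe : f x = f y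
  · have hxy' : x = y := by
      by_contra hne
      exact hxy ⟨hne, hfe⟩
    subst hxy'
    obtain ⟨U, hU, hinj⟩ := hloc x
    filter_upwards [prod_mem_nhds hU hU] with p hp
    rintro ⟨h1, h2⟩
    exact h1 (hinj hp.1 hp.2 h2)
  · have : IsOpen {p : T2 × T2 | f p.1 ≠ f p.2} :=
      isOpen_ne_fun (hf.comp continuous_fst) (hf.comp continuous_snd)
    filter_upwards [this.mem_nhds hfe] with p hp
    rintro ⟨-, h2⟩
    exact hp h2

/-- A locally injective map with preconnected half-space sections is injective over a convex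
image. -/
theorem injOn_of_convex {f : T2 → E} (hf : Continuous f)
    (hloc : ∀ x, ∃ U ∈ 𝓝 x, InjOn f U) {A : Set T2} (hA : IsCompact A)
    (hpre : ∀ (v : E) (c : ℝ), IsPreconnected (A ∩ {x | c ≤ ⟪v, f x⟫}))
    (hconv : Convex ℝ (f '' A)) : InjOn f A := by
  by_contra hinj
  have hR : IsCompact ({p : T2 × T2 | p.1 ≠ p.2 ∧ f p.1 = f p.2} ∩ A ×ˢ A) :=
    (hA.prod hA).inter_left (isClosed_double hf hloc)
  have hRne : ({p : T2 × T2 | p.1 ≠ p.2 ∧ f p.1 = f p.2} ∩ A ×ˢ A).Nonempty := by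
    simp only [InjOn, not_forall] at hinj
    obtain ⟨x, hx, y, hy, h1, h2⟩ := hinj
    exact ⟨(x, y), ⟨h2, h1⟩, hx, hy⟩
  obtain ⟨⟨x0, y0⟩, ⟨⟨hne0, hfe0⟩, hx0, hy0⟩, hmax⟩ := hR.exists_isMaxOn hRne
    (f := fun p : T2 × T2 => ‖f p.1‖) (by fun_prop)
  simp only at hne0 hfe0 hx0 hy0
  set p := f x0 with hp
  have hstar : ∀ x ∈ A, ∀ y ∈ A, x ≠ y → f x = f y → ‖p‖ ^ 2 ≤ ⟪p, f x⟫ → f x = p := by
    intro x hx y hy hne hfe hle
    have h1 : ‖f x‖ ≤ ‖p‖ := hmax (show (x, y) ∈ _ from ⟨⟨hne, hfe⟩, hx, hy⟩)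
    have h2 : ‖p - f x‖ ^ 2 ≤ 0 := by
      rw [norm_sub_sq_real]
      nlinarith [norm_nonneg (f x), norm_nonneg p]
    have h3 : ‖p - f x‖ = 0 := by
      have := sq_nonneg ‖p - f x‖
      exact pow_eq_zero_iff (two_ne_zero) |>.1 (le_antisymm h2 this)
    rw [norm_eq_zero, sub_eq_zero] at h3
    exact h3.symm
  -- the half-space section
  set Ah : Set T2 := A ∩ {x | ‖p‖ ^ 2 ≤ ⟪p, f x⟫} with hAh
  have hAhp : IsPreconnected Ah := hpre p _
  have hAhc : IsCompact Ah := hA.inter_right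
    (isClosed_le continuous_const (continuous_inner_left' hf p))
  have hx0h : x0 ∈ Ah := ⟨hx0, by
    simp only [Set.mem_setOf_eq]; rw [← hp, real_inner_self_eq_norm_sq]⟩
  have hy0h : y0 ∈ Ah := ⟨hy0, by
    simp only [Set.mem_setOf_eq]; rw [← hfe0, real_inner_self_eq_norm_sq]⟩
  -- separate x0 from the other preimages of p
  obtain ⟨U0, hU0, hU0inj⟩ := hloc x0
  have hFc : IsClosed {x | x ∈ A ∧ f x = p ∧ x ≠ x0} := by
    have : {x | x ∈ A ∧ f x = p ∧ x ≠ x0} = (A ∩ f ⁻¹' {p}) ∩ (interior U0)ᶜ := by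
      ext x
      simp only [Set.mem_setOf_eq, mem_inter_iff, mem_preimage, mem_singleton_iff, mem_compl_iff]
      constructor
      · rintro ⟨h1, h2, h3⟩
        refine ⟨⟨h1, h2⟩, fun h4 => h3 ?_⟩
        exact hU0inj (interior_subset h4) (mem_of_mem_nhds hU0) (h2.trans hp)
      · rintro ⟨⟨h1, h2⟩, h3⟩
        refine ⟨h1, h2, fun h4 => h3 ?_⟩
        rw [h4]
        exact mem_interior_iff_mem_nhds.2 hU0
    rw [this]
    exact (hA.isClosed.inter (isClosed_singleton.preimage hf)).inter isOpen_interior.isClosed_compl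
  obtain ⟨N0, N1, hN0, hN1, hx0N, hFN, hNd⟩ := SeparatedNhds.of_isCompact_isCompact
    (isCompact_singleton (x := x0)) hFc.isCompact (by
      rw [Set.disjoint_left]
      rintro x hx ⟨-, -, h3⟩
      exact h3 hx)
  let N0' := N0 ∩ interior U0
  have hN0' : IsOpen N0' := hN0.inter isOpen_interior
  have hx0N' : x0 ∈ N0' := ⟨hx0N rfl, mem_interior_iff_mem_nhds.2 hU0⟩
  have hN0inj : ∀ x ∈ N0', f x = p → x = x0 := fun x hx hfx =>
    hU0inj (interior_subset hx.2) (mem_of_mem_nhds hU0) (hfx.trans hp)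
  have hNd' : ∀ x ∈ N0', x ∉ N1 := fun x hx => Set.disjoint_left.1 hNd hx.1
  -- radius
  obtain ⟨r, hr, hball⟩ : ∃ r > 0, ∀ x ∈ A, f x ∈ Metric.ball p r → x ∈ N0' ∪ N1 := by
    have hK : IsCompact (A ∩ (N0' ∪ N1)ᶜ) := hA.inter_right (hN0'.union hN1).isClosed_compl
    have hKf : IsClosed (f '' (A ∩ (N0' ∪ N1)ᶜ)) := (hK.image hf).isClosed
    have hpn : p ∉ f '' (A ∩ (N0' ∪ N1)ᶜ) := by
      rintro ⟨x, ⟨hx, hxN⟩, hfx⟩
      by_cases hxx : x = x0
      · exact hxN (Or.inl (hxx ▸ hx0N'))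
      · exact hxN (Or.inr (hFN ⟨hx, hfx, hxx⟩))
    obtain ⟨r, hr, hb⟩ := Metric.isOpen_iff.1 hKf.isOpen_compl p hpn
    refine ⟨r, hr, fun x hx hfx => ?_⟩
    by_contra hcon
    exact hb hfx ⟨x, ⟨hx, hcon⟩, rfl⟩
  have hBo : IsOpen (f ⁻¹' Metric.ball p r) := Metric.isOpen_ball.preimage hf
  have hx0B : x0 ∈ f ⁻¹' Metric.ball p r := by
    change f x0 ∈ Metric.ball p r
    rw [← hp]; exact Metric.mem_ball_self hr
  have hy0B : y0 ∈ f ⁻¹' Metric.ball p r := by
    change f y0 ∈ Metric.ball p r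
    rw [← hfe0]; exact Metric.mem_ball_self hr
  have hy0N : y0 ∈ N1 := hFN ⟨hy0, hfe0.symm, fun h => hne0 h.symm⟩
  -- points on different sides are separated by p
  have hsep : ∀ x ∈ Ah, ∀ y ∈ Ah, x ∈ N0' → y ∈ N1 → f x ∈ Metric.ball p r →
      f y ∈ Metric.ball p r → p ∈ segment ℝ (f x) (f y) := by
    intro x hx y hy hxN hyN hxB hyB
    by_contra hps
    have hsegB : segment ℝ (f x) (f y) ⊆ Metric.ball p r :=
      (convex_ball p r).segment_subset hxB hyB
    have hsegA : segment ℝ (f x) (f y) ⊆ f '' A :=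
      hconv.segment_subset ⟨x, hx.1, rfl⟩ ⟨y, hy.1, rfl⟩
    have hsegh : segment ℝ (f x) (f y) ⊆ {q | ‖p‖ ^ 2 ≤ ⟪p, q⟫} := by
      refine Convex.segment_subset ?_ hx.2 hy.2
      exact convex_halfSpace_ge (innerₛₗ ℝ p).isLinear _
    let J : Set T2 := Ah ∩ f ⁻¹' segment ℝ (f x) (f y)
    have hsegc : IsClosed (segment ℝ (f x) (f y)) := by
      rw [← convexHull_pair]
      exact (Set.Finite.isCompact_convexHull (𝕜 := ℝ) (Set.toFinite {f x, f y})).isClosed
    have hJ : IsCompact J := hAhc.inter_right (hsegc.preimage hf)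
    have hJinj : ∀ a ∈ J, ∀ b ∈ J, f a = f b → a = b := by
      intro a ha b hb hab
      by_contra hne
      have := hstar a ha.1.1 b hb.1.1 hne hab ha.1.2
      exact hps (this ▸ ha.2)
    have hJN : ∀ a ∈ J, a ∈ N0' ∪ N1 := fun a ha => hball a ha.1.1 (hsegB ha.2)
    have hcs : Convex ℝ (segment ℝ (f x) (f y)) := convex_segment _ _
    have hpre2 := hcs.isPreconnected
    rw [isPreconnected_closed_iff] at hpre2
    obtain ⟨q, hq, ⟨a, ⟨haJ, haN⟩, haq⟩, ⟨b, ⟨hbJ, hbN⟩, hbq⟩⟩ := hpre2 (f '' (J ∩ N1ᶜ))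
      (f '' (J ∩ N0'ᶜ)) ((hJ.inter_right hN1.isClosed_compl).image hf).isClosed
      ((hJ.inter_right hN0'.isClosed_compl).image hf).isClosed (by
        intro q hq
        obtain ⟨a, ha, rfl⟩ := hsegA hq
        have haJ : a ∈ J := ⟨⟨ha, hsegh hq⟩, hq⟩
        rcases hJN a haJ with h | h
        · exact Or.inl ⟨a, ⟨haJ, hNd' a h⟩, rfl⟩
        · exact Or.inr ⟨a, ⟨haJ, fun h' => hNd' a h' h⟩, rfl⟩)
      ⟨f x, left_mem_segment ℝ _ _, x, ⟨⟨hx, left_mem_segment ℝ _ _⟩, hNd' x hxN⟩, rfl⟩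
      ⟨f y, right_mem_segment ℝ _ _, y, ⟨⟨hy, right_mem_segment ℝ _ _⟩,
        fun h' => hNd' y h' hyN⟩, rfl⟩
    have hab : a = b := hJinj a haJ b hbJ (haq.trans hbq.symm)
    rcases hJN a haJ with h | h
    · exact hbN (hab ▸ h)
    · exact haN h
  by_cases hC0 : ∃ x ∈ Ah, x ∈ N0' ∧ f x ∈ Metric.ball p r ∧ f x ≠ p
  swap
  · -- x0 is isolated
    push Not at hC0
    obtain ⟨z, hz, hz1, hz2⟩ := hAhp (N0' ∩ f ⁻¹' Metric.ball p r) {x0}ᶜ (hN0'.inter hBo)
      isOpen_compl_singleton (by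
        intro x hx
        by_cases h : x = x0
        · subst h; exact Or.inl ⟨hx0N', hx0B⟩
        · exact Or.inr h) ⟨x0, hx0h, hx0N', hx0B⟩ ⟨y0, hy0h, fun h => hne0 h.symm⟩
    exact hz2 (hN0inj z hz1.1 (hC0 z hz hz1.1 hz1.2))
  obtain ⟨a0, ha0, ha0N, ha0B, ha0p⟩ := hC0
  by_cases hC1 : ∃ y ∈ Ah, y ∈ N1 ∧ f y ∈ Metric.ball p r ∧ f y ≠ p
  swap
  · push Not at hC1
    obtain ⟨z, hz, hz1, hz2⟩ := hAhp (N1 ∩ f ⁻¹' Metric.ball p r)
      {x | x ∈ A ∧ f x = p ∧ x ≠ x0}ᶜ (hN1.inter hBo) hFc.isOpen_compl (by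
        intro x hx
        by_cases h : x ∈ {x | x ∈ A ∧ f x = p ∧ x ≠ x0}
        · refine Or.inl ⟨hFN h, ?_⟩
          change f x ∈ Metric.ball p r
          rw [h.2.1]; exact Metric.mem_ball_self hr
        · exact Or.inr h) ⟨y0, hy0h, hy0N, hy0B⟩ ⟨x0, hx0h, fun h => h.2.2 rfl⟩
    have hzp := hC1 z hz hz1.1 hz1.2
    refine hz2 ⟨hz.1, hzp, ?_⟩
    rintro rfl
    exact hNd' _ hx0N' hz1.1
  obtain ⟨b0, hb0, hb0N, hb0B, hb0p⟩ := hC1
  -- everything lies on a line
  set e := f b0 - p with he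
  have he0 : e ≠ 0 := sub_ne_zero.2 hb0p
  have hneg : ∀ x ∈ Ah, x ∈ N0' → f x ∈ Metric.ball p r → f x ≠ p → ∃ t : ℝ, t < 0 ∧
      f x - p = t • e := by
    intro x hx hxN hxB hxp
    obtain ⟨a, b, ha, hb, hab, hpe⟩ := hsep x hx b0 hb0 hxN hb0N hxB hb0B
    have h1 : a • (f x - p) = -(b • e) := by
      have : a • (f x - p) + b • e = 0 := by
        rw [he, smul_sub, smul_sub]
        have h2 : a • p + b • p = p := by rw [← add_smul, hab, one_smul]
        calc a • f x - a • p + (b • f b0 - b • p) = (a • f x + b • f b0) - (a • p + b • p) := by abel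
          _ = 0 := by rw [hpe, h2, sub_self]
      exact eq_neg_of_add_eq_zero_left this
    have ha0 : a ≠ 0 := by
      intro h0
      have hb1 : b = 1 := by linarith
      rw [h0, hb1, zero_smul, one_smul] at h1
      exact he0 (by rw [eq_comm, neg_eq_zero] at h1; exact h1)
    have hb0' : b ≠ 0 := by
      intro h0
      have ha1 : a = 1 := by linarith
      rw [h0, ha1, zero_smul, one_smul, neg_zero, sub_eq_zero] at h1
      exact hxp h1
    refine ⟨-(b / a), ?_, ?_⟩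
    · have : 0 < b / a := div_pos (lt_of_le_of_ne hb hb0'.symm) (lt_of_le_of_ne ha ha0.symm)
      linarith
    · have h3 : f x - p = a⁻¹ • (a • (f x - p)) := by rw [smul_smul, inv_mul_cancel₀ ha0, one_smul]
      rw [h3, h1, smul_neg, smul_smul, neg_smul, div_eq_inv_mul]
  obtain ⟨ta, hta, hea⟩ := hneg a0 ha0 ha0N ha0B ha0p
  have hposi : ∀ y ∈ Ah, y ∈ N1 → f y ∈ Metric.ball p r → f y ≠ p → ∃ t : ℝ, 0 < t ∧
      f y - p = t • e := by
    intro y hy hyN hyB hyp
    obtain ⟨a, b, ha, hb, hab, hpe⟩ := hsep a0 ha0 y hy ha0N hyN ha0B hyB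
    have h1 : b • (f y - p) = -(a • (f a0 - p)) := by
      have : b • (f y - p) + a • (f a0 - p) = 0 := by
        rw [smul_sub, smul_sub]
        have h2 : a • p + b • p = p := by rw [← add_smul, hab, one_smul]
        calc b • f y - b • p + (a • f a0 - a • p) = (a • f a0 + b • f y) - (a • p + b • p) := by abel
          _ = 0 := by rw [hpe, h2, sub_self]
      exact eq_neg_of_add_eq_zero_left this
    have ha0' : a ≠ 0 := by
      intro h0
      have hb1 : b = 1 := by linarith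
      rw [h0, hb1, zero_smul, one_smul, neg_zero, sub_eq_zero] at h1
      exact hyp h1
    have hb0' : b ≠ 0 := by
      intro h0
      have ha1 : a = 1 := by linarith
      rw [h0, ha1, zero_smul, one_smul] at h1
      have : f a0 - p = 0 := by rw [eq_comm, neg_eq_zero] at h1; exact h1
      exact ha0p (sub_eq_zero.1 this)
    have hpa : 0 < a := lt_of_le_of_ne ha ha0'.symm
    have hpb : 0 < b := lt_of_le_of_ne hb hb0'.symm
    refine ⟨-(a / b) * ta, ?_, ?_⟩
    · have : 0 < a / b := div_pos hpa hpb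
      nlinarith
    · have h3 : f y - p = b⁻¹ • (b • (f y - p)) := by rw [smul_smul, inv_mul_cancel₀ hb0', one_smul]
      rw [h3, h1, hea, smul_neg, smul_smul, smul_smul, ← neg_smul]
      congr 1
      field_simp
  have hline : ∀ x ∈ Ah, ∃ t : ℝ, f x - p = t • e := by
    intro x hx
    -- move towards p
    obtain ⟨ε, hε0, hε1, hεr⟩ : ∃ ε : ℝ, 0 < ε ∧ ε ≤ 1 ∧ ε * ‖f x - p‖ < r := by
      refine ⟨min 1 (r / (‖f x - p‖ + 1)), by positivity, min_le_left _ _, ?_⟩
      have h1 : min 1 (r / (‖f x - p‖ + 1)) * ‖f x - p‖ ≤ r / (‖f x - p‖ + 1) * ‖f x - p‖ :=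
        mul_le_mul_of_nonneg_right (min_le_right _ _) (norm_nonneg _)
      have h2 : r / (‖f x - p‖ + 1) * ‖f x - p‖ < r := by
        rw [div_mul_eq_mul_div, div_lt_iff₀ (by positivity)]
        nlinarith [norm_nonneg (f x - p)]
      linarith
    have hq : p + ε • (f x - p) ∈ f '' A :=
      hconv.add_smul_sub_mem ⟨x0, hx0, rfl⟩ ⟨x, hx.1, rfl⟩ ⟨hε0.le, hε1⟩
    obtain ⟨y, hy, hyq⟩ := hq
    have hyh : y ∈ Ah := by
      refine ⟨hy, ?_⟩
      simp only [Set.mem_setOf_eq]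
      rw [hyq, inner_add_right, inner_smul_right, inner_sub_right, real_inner_self_eq_norm_sq]
      have := hx.2
      simp only [Set.mem_setOf_eq] at this
      nlinarith
    have hyB : f y ∈ Metric.ball p r := by
      rw [Metric.mem_ball, dist_eq_norm, hyq, add_sub_cancel_left, norm_smul, Real.norm_eq_abs,
        abs_of_pos hε0]
      exact hεr
    by_cases hyp : f y = p
    · refine ⟨0, ?_⟩
      have : ε • (f x - p) = 0 := by
        have h1 : p + ε • (f x - p) = p := by rw [← hyq]; exact hyp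
        simpa using h1
      rw [zero_smul]
      exact (smul_eq_zero.1 this).resolve_left hε0.ne'
    · obtain ⟨t, ht⟩ : ∃ t : ℝ, f y - p = t • e := by
        rcases hball y hy hyB with h | h
        · obtain ⟨t, -, ht⟩ := hneg y hyh h hyB hyp
          exact ⟨t, ht⟩
        · obtain ⟨t, -, ht⟩ := hposi y hyh h hyB hyp
          exact ⟨t, ht⟩
      refine ⟨ε⁻¹ * t, ?_⟩
      rw [hyq, add_sub_cancel_left] at ht
      rw [mul_smul, ← ht, smul_smul, inv_mul_cancel₀ hε0.ne', one_smul]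
  have hee : 0 < ⟪e, e⟫ := by
    rw [real_inner_self_eq_norm_sq]
    have := norm_pos_iff.2 he0
    positivity
  have hcont : Continuous fun x => ⟪e, f x - p⟫ := continuous_const.inner (hf.sub continuous_const)
  obtain ⟨z, hz, hz1, hz2⟩ := hAhp
    ({x | ⟪e, f x - p⟫ < 0} ∪ (N0' ∩ f ⁻¹' Metric.ball p r))
    ({x | 0 < ⟪e, f x - p⟫} ∪ (N1 ∩ f ⁻¹' Metric.ball p r))
    ((isOpen_lt hcont continuous_const).union (hN0'.inter hBo))
    ((isOpen_lt continuous_const hcont).union (hN1.inter hBo)) (by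
      intro x hx
      obtain ⟨t, ht⟩ := hline x hx
      rcases lt_trichotomy t 0 with h | h | h
      · left; left
        simp only [Set.mem_setOf_eq]
        rw [ht, inner_smul_right]
        nlinarith
      · have hxp : f x = p := by
          rw [h, zero_smul, sub_eq_zero] at ht
          exact ht
        have hxB : f x ∈ Metric.ball p r := by rw [hxp]; exact Metric.mem_ball_self hr
        rcases hball x hx.1 hxB with h | h
        · exact Or.inl (Or.inr ⟨h, hxB⟩)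
        · exact Or.inr (Or.inr ⟨h, hxB⟩)
      · right; left
        simp only [Set.mem_setOf_eq]
        rw [ht, inner_smul_right]
        nlinarith) ⟨x0, hx0h, Or.inr ⟨hx0N', hx0B⟩⟩ ⟨y0, hy0h, Or.inr ⟨hy0N, hy0B⟩⟩
  rcases hz1 with hz1 | hz1 <;> rcases hz2 with hz2 | hz2
  · simp only [Set.mem_setOf_eq] at hz1 hz2
    linarith
  · simp only [Set.mem_setOf_eq] at hz1
    have hzp : f z ≠ p := by
      intro h; rw [h, sub_self, inner_zero_right] at hz1; exact lt_irrefl _ hz1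
    obtain ⟨t, ht, hte⟩ := hposi z hz hz2.1 hz2.2 hzp
    rw [hte, inner_smul_right] at hz1
    nlinarith
  · simp only [Set.mem_setOf_eq] at hz2
    have hzp : f z ≠ p := by
      intro h; rw [h, sub_self, inner_zero_right] at hz2; exact lt_irrefl _ hz2
    obtain ⟨t, ht, hte⟩ := hneg z hz hz1.1 hz1.2 hzp
    rw [hte, inner_smul_right] at hz2
    nlinarith
  · exact hNd' z hz1.1 hz2.1

end Pool.Agent.Lib_MP_22bcea_gt
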