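import Pool.Agent.Lib_MP_22bcea_gt.Tight
import Pool.Agent.Lib_MP_22bcea_gt.PL
import Pool.Agent.Lib_MP_22bcea_gt.Face
import Pool.Agent.Lib_MP_22bcea_gt.BU

/-!
# Inessential tight subsets have convex images
-/

open Topology Set Filter
open scoped RealInnerProductSpace

namespace Pool.Agent.Lib_MP_22bcea_gt

/-- The final contradiction: a section of the radial projection over an inessential continuum. -/
lemma false_of_section {D : Type*} [NormedAddCommGroup D] [InnerProductSpace ℝ D]
    [FiniteDimensional ℝ D] {g : T2 → D} (hg : Continuous g) {A : Set T2} (hA : IsCompact A)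
    (pA : IsPreconnected A) (qA : IsPreconnected Aᶜ) (hI : Iness A) (hne : A.Nonempty)
    (h0 : ∀ x ∈ A, g x ≠ 0) {s : D → T2} (hs : ContinuousOn s (Metric.sphere 0 1))
    (hs' : ∀ e ∈ Metric.sphere (0 : D) 1, s e ∈ A ∧ ∃ t : ℝ, 0 < t ∧ g (s e) = t • e) : False := by
  have hcases : Module.finrank ℝ D = 0 ∨ Module.finrank ℝ D = 1 ∨ Module.finrank ℝ D = 2 ∨
      2 < Module.finrank ℝ D := by omega
  rcases hcases with hd | hd | hd | hd
  · obtain ⟨x, hx⟩ := hne
    have : Subsingleton D := Module.finrank_zero_iff.1 hd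
    exact h0 x hx (Subsingleton.elim _ _)
  · have : Nontrivial D := Module.nontrivial_of_finrank_pos (R := ℝ) (by omega)
    obtain ⟨e, he⟩ := exists_norm_eq D (zero_le_one' ℝ)
    have he' : e ∈ Metric.sphere (0 : D) 1 := by simpa using he
    have he'' : -e ∈ Metric.sphere (0 : D) 1 := by simpa using he
    obtain ⟨h1, t, ht, h2⟩ := hs' e he'
    obtain ⟨h3, t', ht', h4⟩ := hs' (-e) he''
    have hee : ⟪e, e⟫ = 1 := by rw [real_inner_self_eq_norm_sq, he]; norm_num
    obtain ⟨x, hx, hx0⟩ := pA.intermediate_value h3 h1 (f := fun x => ⟪e, g x⟫)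
      (continuous_const.inner hg).continuousOn (show (0 : ℝ) ∈ _ by
        constructor
        · show _ ≤ _
          rw [h4, smul_neg, inner_neg_right, inner_smul_right, hee]; linarith
        · show _ ≤ _
          rw [h2, inner_smul_right, hee]; linarith)
    simp only at hx0
    have he0 : e ≠ 0 := by
      rintro rfl
      simp at he
    obtain ⟨c, hc⟩ := exists_smul_eq_of_finrank_eq_one hd he0 (g x)
    rw [← hc, inner_smul_right, hee, mul_one] at hx0
    rw [hx0, zero_smul] at hc
    exact h0 x hx hc.symm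
  · let b : OrthonormalBasis (Fin 2) ℝ D := (stdOrthonormalBasis ℝ D).reindex (finCongr hd)
    let J : D ≃ₗᵢ[ℝ] ℂ := b.equiv Complex.orthonormalBasisOneI (Equiv.refl _)
    have hlog : HasLog (fun x => J (g x)) A := by
      refine hasLog_of_iness hA pA qA hI (J.continuous.comp hg).continuousOn ?_
      intro x hx h
      exact h0 x hx (by simpa using h)
    have hmap : MapsTo (fun z => J.symm z) (Metric.sphere (0 : ℂ) 1) (Metric.sphere (0 : D) 1) := by
      intro z hz
      rw [mem_sphere_zero_iff_norm] at hz ⊢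
      rw [LinearIsometryEquiv.norm_map]; exact hz
    have hsJ : ContinuousOn (fun z => s (J.symm z)) (Metric.sphere (0 : ℂ) 1) :=
      hs.comp J.symm.continuous.continuousOn hmap
    have h1 : HasLog (fun z : ℂ => J (g (s (J.symm z)))) (Metric.sphere (0 : ℂ) 1) :=
      HasLog.comp hlog hsJ fun z hz => (hs' _ (hmap hz)).1
    have h2 : HasLog (fun z : ℂ => ((‖g (s (J.symm z))‖ : ℝ) : ℂ)) (Metric.sphere (0 : ℂ) 1) := by
      refine ⟨fun z => ((Real.log ‖g (s (J.symm z))‖ : ℝ) : ℂ), ?_, ?_⟩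
      · refine Complex.continuous_ofReal.comp_continuousOn ?_
        refine ContinuousOn.log ?_ ?_
        · exact (hg.comp_continuousOn hsJ).norm
        · intro z hz
          exact norm_ne_zero_iff.2 (h0 _ (hs' _ (hmap hz)).1)
      · intro z hz
        rw [← Complex.ofReal_exp, Real.exp_log]
        exact norm_pos_iff.2 (h0 _ (hs' _ (hmap hz)).1)
    refine not_hasLog_circle one_pos ((h1.div h2).congr ?_)
    intro z hz
    obtain ⟨-, t, ht, h3⟩ := hs' _ (hmap hz)
    have hz1 : ‖z‖ = 1 := mem_sphere_zero_iff_norm.1 hz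
    have hn : ‖J.symm z‖ = 1 := by rw [LinearIsometryEquiv.norm_map]; exact hz1
    rw [h3, norm_smul, hn, mul_one, Real.norm_eq_abs, abs_of_pos ht, map_smul,
      LinearIsometryEquiv.apply_symm_apply, Complex.real_smul]
    have : (t : ℂ) ≠ 0 := by exact_mod_cast ht.ne'
    field_simp
  · obtain ⟨Θ, hΘ, hΘ'⟩ := hI
    have hsn : ContinuousOn (fun e : D => s (-e)) (Metric.sphere 0 1) :=
      hs.comp continuous_neg.continuousOn fun e he => by simpa using he
    have hc1 : ContinuousOn (fun e => Θ (s e)) (Metric.sphere (0 : D) 1) :=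
      hΘ.comp hs fun e he => (hs' e he).1
    have hc2 : ContinuousOn (fun e => Θ (s (-e))) (Metric.sphere (0 : D) 1) :=
      hΘ.comp hsn fun e he => (hs' (-e) (by simpa using he)).1
    obtain ⟨e, he, he0⟩ := borsuk_ulam hd
      (fun e => ![(Θ (s e) - Θ (s (-e))).re, (Θ (s e) - Θ (s (-e))).im]) (by
        refine continuousOn_pi.2 fun i => ?_
        fin_cases i
        · exact Complex.continuous_re.comp_continuousOn (hc1.sub hc2)
        · exact Complex.continuous_im.comp_continuousOn (hc1.sub hc2)) (by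
        intro e he
        funext i
        fin_cases i
        · simp
        · simp)
    have h1 : Θ (s e) - Θ (s (-e)) = 0 := by
      apply Complex.ext
      · exact congrFun he0 0
      · exact congrFun he0 1
    have he' : -e ∈ Metric.sphere (0 : D) 1 := by simpa using he
    have h2 : s e = s (-e) := by
      rw [← hΘ' _ (hs' e he).1, ← hΘ' _ (hs' _ he').1, sub_eq_zero.1 h1]
    obtain ⟨-, t, ht, h3⟩ := hs' e he
    obtain ⟨-, t', ht', h4⟩ := hs' _ he'
    rw [← h2, h3, smul_neg, eq_neg_iff_add_eq_zero, ← add_smul] at h4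
    have he1 : e ≠ 0 := by
      rintro rfl
      simp at he
    rcases smul_eq_zero.1 h4 with h | h
    · linarith
    · exact he1 h

variable {E : Type*} [NormedAddCommGroup E] [InnerProductSpace ℝ E]

lemma TP.face' {f : T2 → E} (hf : Continuous f) {A : Set T2} (h : TP f A) (hne : A.Nonempty)
    (v : E) : TP f (Face f A v) := by
  obtain ⟨x, hx, hmax⟩ := nonempty_face hf h.cpt hne v
  have : Face f A v = A ∩ {y | ⟪v, f x⟫ ≤ ⟪v, f y⟫} := by
    ext y
    constructor
    · rintro ⟨h1, h2⟩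
      exact ⟨h1, h2 x hx⟩
    · rintro ⟨h1, h2⟩
      exact ⟨h1, fun z hz => (hmax z hz).trans h2⟩
  rw [this]
  exact h.face hf hmax

theorem convex_of_iness [FiniteDimensional ℝ E] {f : T2 → E} (hf : Continuous f)
    (hloc : ∀ x, ∃ U ∈ 𝓝 x, InjOn f U) : ∀ (n : ℕ) (A : Set T2), TP f A → Iness A →
    Module.finrank ℝ (vectorSpan ℝ (f '' A)) = n → Convex ℝ (f '' A) := by
  intro n
  induction n using Nat.strong_induction_on with
  | _ n ih =>
  intro A hTP hI hn
  by_contra hnc
  have hne : A.Nonempty := by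
    by_contra h
    rw [not_nonempty_iff_eq_empty] at h
    rw [h, image_empty] at hnc
    exact hnc convex_empty
  obtain ⟨x0, hx0⟩ := hne
  have hne : A.Nonempty := ⟨x0, hx0⟩
  let Kb : Set E := {q | ∀ v : E, ∃ x ∈ A, ⟪v, q⟫ ≤ ⟪v, f x⟫}
  have hKb : Convex ℝ Kb := by
    intro q1 h1 q2 h2 a b ha hb hab v
    obtain ⟨x, hx, hmax⟩ := nonempty_face hf hTP.cpt hne v
    obtain ⟨y1, hy1, hq1⟩ := h1 v
    obtain ⟨y2, hy2, hq2⟩ := h2 v
    refine ⟨x, hx, ?_⟩
    have e1 := hmax y1 hy1
    have e2 := hmax y2 hy2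
    rw [inner_add_right, inner_smul_right, inner_smul_right]
    have e3 : a * ⟪v, q1⟫ ≤ a * ⟪v, f x⟫ := mul_le_mul_of_nonneg_left (hq1.trans e1) ha
    have e4 : b * ⟪v, q2⟫ ≤ b * ⟪v, f x⟫ := mul_le_mul_of_nonneg_left (hq2.trans e2) hb
    calc a * ⟪v, q1⟫ + b * ⟪v, q2⟫ ≤ a * ⟪v, f x⟫ + b * ⟪v, f x⟫ := add_le_add e3 e4
      _ = ⟪v, f x⟫ := by rw [← add_mul, hab, one_mul]
  obtain ⟨p, hpK, hpA⟩ : ∃ p ∈ Kb, p ∉ f '' A := by
    by_contra h
    push Not at h
    have : f '' A = Kb := by
      apply Subset.antisymm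
      · rintro _ ⟨x, hx, rfl⟩ v
        exact ⟨x, hx, le_rfl⟩
      · exact h
    exact hnc (this ▸ hKb)
  set D : Submodule ℝ E := vectorSpan ℝ (f '' A) with hD
  have hdiff : ∀ x ∈ A, ∀ y ∈ A, f x - f y ∈ D := by
    intro x hx y hy
    exact vsub_mem_vectorSpan ℝ ⟨x, hx, rfl⟩ ⟨y, hy, rfl⟩
  have hperp : ∀ v ∈ Dᗮ, ∀ x ∈ A, ⟪v, f x⟫ = ⟪v, f x0⟫ := by
    intro v hv x hx
    have := (Submodule.mem_orthogonal' D v).1 hv _ (hdiff x hx x0 hx0)
    rw [inner_sub_right] at this
    linarith
  have hp0 : f x0 - p ∈ D := by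
    rw [← Submodule.orthogonal_orthogonal D]
    rw [Submodule.mem_orthogonal]
    intro v hv
    rw [inner_sub_right]
    obtain ⟨x, hx, h1⟩ := hpK v
    obtain ⟨y, hy, h2⟩ := hpK (-v)
    rw [inner_neg_left, inner_neg_left] at h2
    rw [hperp v hv x hx] at h1
    rw [hperp v hv y hy] at h2
    linarith
  have hpD : ∀ x ∈ A, f x - p ∈ D := by
    intro x hx
    have := D.add_mem (hdiff x hx x0 hx0) hp0
    simpa using this
  let g : T2 → D := fun x => D.orthogonalProjectionOnto (f x - p)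
  have hg : Continuous g := D.orthogonalProjectionOnto.continuous.comp (hf.sub continuous_const)
  have hgA : ∀ x ∈ A, (g x : E) = f x - p := by
    intro x hx
    have := D.orthogonalProjectionOnto_mem_subspace_eq_self ⟨f x - p, hpD x hx⟩
    exact congrArg Subtype.val this
  have hgi : ∀ (v : D) (x : T2), ⟪v, g x⟫ = ⟪(v : E), f x⟫ - ⟪(v : E), p⟫ := by
    intro v x
    rw [← inner_sub_right]
    exact D.inner_orthogonalProjectionOnto_eq_of_mem_left v (f x - p)
  have hfaceeq : ∀ v : D, Face g A v = Face f A (v : E) := by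
    intro v
    ext x
    constructor
    · rintro ⟨h1, h2⟩
      refine ⟨h1, fun y hy => ?_⟩
      have := h2 y hy
      rw [hgi, hgi] at this
      linarith
    · rintro ⟨h1, h2⟩
      refine ⟨h1, fun y hy => ?_⟩
      have := h2 y hy
      rw [hgi, hgi]
      linarith
  have hfaceconv : ∀ v : D, v ≠ 0 → Convex ℝ (f '' Face f A (v : E)) := by
    intro v hv
    have hTPv := hTP.face' hf hne (v : E)
    have hIv : Iness (Face f A (v : E)) := hI.mono (face_subset _ _ _)
    refine ih _ ?_ _ hTPv hIv rfl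
    rw [← hn]
    apply Submodule.finrank_lt_finrank_of_lt
    refine lt_of_le_of_ne (vectorSpan_mono ℝ (image_mono (face_subset _ _ _))) ?_
    intro heq
    have hle : vectorSpan ℝ (f '' Face f A (v : E)) ≤ (ℝ ∙ (v : E))ᗮ := by
      rw [vectorSpan_def, Submodule.span_le]
      rintro _ ⟨_, ⟨x, hx, rfl⟩, _, ⟨y, hy, rfl⟩, rfl⟩
      rw [SetLike.mem_coe, Submodule.mem_orthogonal_singleton_iff_inner_right]
      simp only [vsub_eq_sub]
      rw [inner_sub_right]
      have h1 := hx.2 y hy.1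
      have h2 := hy.2 x hx.1
      linarith
    have hvD : (v : E) ∈ vectorSpan ℝ (f '' Face f A (v : E)) := by rw [heq]; exact v.2
    have := hle hvD
    rw [Submodule.mem_orthogonal_singleton_iff_inner_right, inner_self_eq_zero] at this
    exact hv (by simpa using this)
  have hpos : ∀ v : D, v ≠ 0 → ∃ x ∈ A, 0 < ⟪v, g x⟫ := by
    intro v hv
    by_contra h
    push Not at h
    have h1 : ∀ x ∈ A, ⟪(v : E), f x⟫ ≤ ⟪(v : E), p⟫ := by
      intro x hx
      have := h x hx
      rw [hgi] at this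
      linarith
    exact hpA (image_mono (face_subset _ _ _) (mem_image_face hf hTP.cpt hpK h1 (hfaceconv v hv)))
  have hg0 : ∀ x ∈ A, g x ≠ 0 := by
    intro x hx h
    have := hgA x hx
    rw [h] at this
    simp only [ZeroMemClass.coe_zero] at this
    exact hpA ⟨x, hx, by rw [eq_comm, sub_eq_zero] at this; exact this⟩
  obtain ⟨s, hs, hs'⟩ := exists_section hg hTP.cpt hpos (by
    intro v hv
    rw [hfaceeq]
    rintro _ ⟨x, hx, rfl⟩ _ ⟨y, hy, rfl⟩ a b ha hb hab
    obtain ⟨z, hz, hzf⟩ := hfaceconv v hv ⟨x, hx, rfl⟩ ⟨y, hy, rfl⟩ ha hb hab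
    refine ⟨z, hz, ?_⟩
    apply Subtype.ext
    have h1 : ((a • g x + b • g y : D) : E) = a • (g x : E) + b • (g y : E) := rfl
    rw [h1, hgA z hz.1, hgA x hx.1, hgA y hy.1, hzf]
    rw [smul_sub, smul_sub]
    have h2 : a • p + b • p = p := by rw [← add_smul, hab, one_smul]
    calc a • f x + b • f y - p = a • f x + b • f y - (a • p + b • p) := by rw [h2]
      _ = a • f x - a • p + (b • f y - b • p) := by abel) (by
    intro v hv
    rw [hfaceeq]
    have hTPv := hTP.face' hf hne (v : E)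
    have hinj := injOn_of_convex hf hloc hTPv.cpt hTPv.pre (hfaceconv v hv)
    intro x hx y hy hxy
    apply hinj hx hy
    have := congrArg Subtype.val hxy
    rw [hgA x hx.1, hgA y hy.1] at this
    simpa using this)
  exact false_of_section hg hTP.cpt hTP.preconnected hTP.compl_preconnected hI hne hg0 hs hs'

end Pool.Agent.Lib_MP_22bcea_gt
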