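import Pool.Agent.Lib_MP_22bcea_gt.Torus4

/-!
# Local constancy of the pair function
-/

open Topology Set Filter

namespace Pool.Agent.Lib_MP_22bcea_gt

/-- Compact subsets of connected open sets of the torus are engulfed by connected compact sets. -/
lemma exists_compact_preconnected {W K : Set T2} (hW : IsOpen W) (hc : IsPreconnected W)
    (hK : IsCompact K) (hKW : K ⊆ W) :
    ∃ C, IsCompact C ∧ IsPreconnected C ∧ C ⊆ W ∧ K ⊆ interior C := by
  rcases K.eq_empty_or_nonempty with rfl | ⟨x0, hx0⟩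
  · exact ⟨∅, isCompact_empty, isPreconnected_empty, empty_subset _, empty_subset _⟩
  obtain ⟨z0, rfl⟩ := surjective_proj x0
  have hloc : ∀ x ∈ K, ∃ C, IsCompact C ∧ IsPreconnected C ∧ proj z0 ∈ C ∧ C ⊆ W ∧
      x ∈ interior C := by
    intro x hx
    obtain ⟨z, rfl⟩ := surjective_proj x
    obtain ⟨k, γ, hγ⟩ := joined_of_preconnected hW hc (hKW hx0) (hKW hx)
    obtain ⟨r, hr, hb⟩ := exists_ball hW (z := z) (hKW hx)
    have hsub : proj '' Metric.closedBall z (r / 2) ⊆ W := by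
      rintro _ ⟨w, hw, rfl⟩
      exact hb (Metric.closedBall_subset_ball (by linarith) hw)
    have hxm : proj z ∈ range fun t => proj (γ t) := ⟨1, by
      simp only [Path.target]
      exact proj_add_lat _ _⟩
    refine ⟨(range fun t => proj (γ t)) ∪ proj '' Metric.closedBall z (r / 2), ?_, ?_, ?_, ?_, ?_⟩
    · exact (isCompact_range (continuous_proj.comp γ.continuous)).union
        ((isCompact_closedBall _ _).image continuous_proj)
    · refine IsPreconnected.union (proj z) hxm ⟨z, Metric.mem_closedBall_self (by linarith), rfl⟩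
        (isPreconnected_range (continuous_proj.comp γ.continuous)) ?_
      exact (convex_closedBall z (r / 2)).isPreconnected.image _ continuous_proj.continuousOn
    · exact Or.inl ⟨0, by simp⟩
    · rintro y (⟨t, rfl⟩ | hy)
      · exact hγ t
      · exact hsub hy
    · rw [mem_interior]
      refine ⟨proj '' Metric.ball z (r / 2), ?_, isOpenMap_proj _ Metric.isOpen_ball,
        ⟨z, Metric.mem_ball_self (by linarith), rfl⟩⟩
      exact (image_mono Metric.ball_subset_closedBall).trans subset_union_right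
  obtain ⟨C, h1, h2, -, h4, h5⟩ := hK.induction_on
    (p := fun s => ∃ C, IsCompact C ∧ IsPreconnected C ∧ proj z0 ∈ C ∧ C ⊆ W ∧ s ⊆ interior C)
    ⟨{proj z0}, isCompact_singleton, isPreconnected_singleton, rfl,
      singleton_subset_iff.2 (hKW hx0), empty_subset _⟩
    (fun s t hst ⟨C, h1, h2, h3, h4, h5⟩ => ⟨C, h1, h2, h3, h4, hst.trans h5⟩)
    (fun s t ⟨C, h1, h2, h3, h4, h5⟩ ⟨C', h1', h2', h3', h4', h5'⟩ =>
      ⟨C ∪ C', h1.union h1', h2.union _ h3 h3' h2', Or.inl h3, union_subset h4 h4',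
        union_subset (h5.trans (interior_mono subset_union_left))
          (h5'.trans (interior_mono subset_union_right))⟩)
    (fun x hx => by
      obtain ⟨C, h1, h2, h3, h4, h5⟩ := hloc x hx
      exact ⟨interior C, mem_nhdsWithin_of_mem_nhds (isOpen_interior.mem_nhds h5), C, h1, h2, h3,
        h4, Subset.rfl⟩)
  exact ⟨C, h1, h2, h4, h5⟩

/-- The pair function does not depend on the choice of the normalised lift, also after a small
perturbation of the pair. -/
lemma pair_local {A0 B0 : Set T2} (hG : GoodPair A0 B0) {l : ℤ × ℤ} {ωA ωB : T2 → ℝ}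
    (h : NormLift A0 B0 l ωA ωB) :
    ∃ UA UB, IsOpen UA ∧ IsOpen UB ∧ A0 ⊆ UA ∧ B0 ⊆ UB ∧ UA ⊆ B0ᶜ ∧ UB ⊆ A0ᶜ ∧
      ∀ (A B : Set T2) (l' : ℤ × ℤ) (ωA' ωB' : T2 → ℝ), A ⊆ UA → B ⊆ UB →
        NormLift A B l' ωA' ωB' → ∀ x ∈ A, ∀ y ∈ B,
          pairFun ωA' ωB' x y = pairFun ωA ωB x y := by
  obtain ⟨x0, hx0, h0⟩ := h.zero
  obtain ⟨x1, hx1, h1⟩ := h.one
  have hAB : A0 ⊆ B0ᶜ := fun x hx hx' => Set.disjoint_left.1 hG.dj hx hx'
  have hBA : B0 ⊆ A0ᶜ := fun x hx hx' => Set.disjoint_left.1 hG.dj hx' hx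
  have hfin : IsCompact ({x0, x1} : Set T2) := (Set.toFinite _).isCompact
  obtain ⟨KB, cKB, pKB, hKB, hKB'⟩ := exists_compact_preconnected hG.cB.isClosed.isOpen_compl
    hG.qB (hG.cA.union hfin) (union_subset hAB (by
      rintro x (rfl | rfl)
      · exact hx0.2
      · exact hx1.2))
  obtain ⟨KA, cKA, pKA, hKA, hKA'⟩ := exists_compact_preconnected hG.cA.isClosed.isOpen_compl
    hG.qA (hG.cB.union hfin) (union_subset hBA (by
      rintro x (rfl | rfl)
      · exact hx0.1
      · exact hx1.1))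
  have hB0 : B0 ⊆ interior KA := subset_union_left.trans hKA'
  have hA0 : A0 ⊆ interior KB := subset_union_left.trans hKB'
  have hxA : ∀ x ∈ ({x0, x1} : Set T2), x ∈ KA ∩ KB := fun x hx =>
    ⟨interior_subset (hKA' (Or.inr hx)), interior_subset (hKB' (Or.inr hx))⟩
  refine ⟨interior KB ∩ KAᶜ, interior KA ∩ KBᶜ, isOpen_interior.inter cKA.isClosed.isOpen_compl,
    isOpen_interior.inter cKB.isClosed.isOpen_compl, ?_, ?_, ?_, ?_, ?_⟩
  · exact fun x hx => ⟨hA0 hx, fun hx' => hKA hx' hx⟩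
  · exact fun x hx => ⟨hB0 hx, fun hx' => hKB hx' hx⟩
  · exact fun x hx => hKB (interior_subset hx.1)
  · exact fun x hx => hKA (interior_subset hx.1)
  · intro A B l' ωA' ωB' hA hB h' x hx y hy
    have hKAA : KA ⊆ Aᶜ := fun z hz hzA => (hA hzA).2 hz
    have hKBB : KB ⊆ Bᶜ := fun z hz hzB => (hB hzB).2 hz
    obtain ⟨m, hm, hR⟩ := exists_rel_of_not_iness hG.pB isOpen_interior hB0 hG.eB
    have hl : l = l' := NormLift.eq_of_rel h h' (interior_subset.trans hKA)
      (interior_subset.trans hKAA) hm hR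
    subst hl
    obtain ⟨j, hj1, hj2⟩ := NormLift.compare h h' pKA pKB hKA hKAA hKB hKBB
      ⟨x0, hxA x0 (by simp), h0⟩ ⟨x1, hxA x1 (by simp), h1⟩
    exact pairFun_shift (hj2 x (interior_subset (hA hx).1)) (hj1 y (interior_subset (hB hy).1))

end Pool.Agent.Lib_MP_22bcea_gt
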