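import Pool.Agent.Lib_MP_22bcea_gt.Tight2
import Pool.Agent.Lib_MP_22bcea_gt.Torus5
import Pool.Agent.Lib_MP_22bcea_gt.Sel

/-!
# Top sets of a centrally symmetric tight torus
-/

open Topology Set Filter
open scoped RealInnerProductSpace

namespace Pool.Agent.Lib_MP_22bcea_gt

section inverse

variable {X Y : Type*} [TopologicalSpace X] [Nonempty X] [TopologicalSpace Y] [T2Space Y]

/-- A continuous map injective on a compact set has a continuous inverse on the image. -/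
lemma exists_continuousOn_inverse {f : X → Y} (hf : Continuous f) {A : Set X} (hA : IsCompact A)
    (hinj : InjOn f A) : ∃ h : Y → X, ContinuousOn h (f '' A) ∧ ∀ x ∈ A, h (f x) = x := by
  classical
  have hinv : ∀ x ∈ A, Function.invFunOn f A (f x) = x := fun x hx =>
    hinj.leftInvOn_invFunOn hx
  refine ⟨Function.invFunOn f A, ?_, hinv⟩
  rw [continuousOn_iff_isClosed]
  intro t ht
  refine ⟨f '' (A ∩ t), ((hA.inter_right ht).image hf).isClosed, ?_⟩
  ext z
  constructor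
  · rintro ⟨h1, x, hx, rfl⟩
    rw [mem_preimage, hinv x hx] at h1
    exact ⟨⟨x, ⟨hx, h1⟩, rfl⟩, ⟨x, hx, rfl⟩⟩
  · rintro ⟨⟨x, ⟨hx, hxt⟩, rfl⟩, h2⟩
    refine ⟨?_, h2⟩
    rw [mem_preimage, hinv x hx]
    exact hxt

end inverse

variable {V : Type*} [NormedAddCommGroup V] [InnerProductSpace ℝ V]

lemma hasLog_of_injOn_convex {f : T2 → V} (hf : Continuous f) {A : Set T2} (hA : IsCompact A)
    (hinj : InjOn f A) (hconv : Convex ℝ (f '' A)) {c : T2 → ℂ} (hc : ContinuousOn c A)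
    (h0 : ∀ x ∈ A, c x ≠ 0) : HasLog c A := by
  obtain ⟨h, h1, h2⟩ := exists_continuousOn_inverse hf hA hinj
  have hm : MapsTo h (f '' A) A := by
    rintro _ ⟨x, hx, rfl⟩
    rw [h2 x hx]; exact hx
  have h3 : HasLog (fun z => c (h z)) (f '' A) :=
    hasLog_of_convex hconv (hc.comp h1 hm) fun z hz => h0 _ (hm hz)
  refine (h3.comp (f := f) (L := A) hf.continuousOn fun x hx => ⟨x, hx, rfl⟩).congr ?_
  intro x hx
  simp only [h2 x hx]

lemma exists_lift_of_hasLog {A : Set T2} {q : T2 → AddCircle (1 : ℝ)}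
    (h : HasLog (fun x => (AddCircle.toCircle (q x) : ℂ)) A) :
    ∃ ω : T2 → ℝ, ContinuousOn ω A ∧ ∀ x ∈ A, (ω x : AddCircle (1 : ℝ)) = q x := by
  obtain ⟨w, h1, h2⟩ := h
  refine ⟨fun x => (w x).im / (2 * Real.pi),
    (Complex.continuous_im.comp_continuousOn h1).div_const _, fun x hx => ?_⟩
  apply AddCircle.injective_toCircle one_ne_zero
  rw [AddCircle.toCircle_apply_mk]
  have hπ : (2 * Real.pi) ≠ 0 := by positivity
  have e1 : 2 * Real.pi / 1 * ((w x).im / (2 * Real.pi)) = (w x).im := by field_simp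
  rw [e1]
  have h3 := h2 x hx
  have h4 : (w x).re = 0 := by
    have h5 : ‖Complex.exp (w x)‖ = 1 := by rw [h3]; exact Circle.norm_coe _
    rw [Complex.norm_exp] at h5
    exact Real.exp_eq_one_iff _ |>.1 h5
  apply Circle.ext
  rw [Circle.coe_exp]
  refine Eq.trans ?_ h3
  congr 1
  apply Complex.ext <;> simp [h4]

lemma iness_of_injOn_convex {f : T2 → V} (hf : Continuous f) {A : Set T2} (hA : IsCompact A)
    (hinj : InjOn f A) (hconv : Convex ℝ (f '' A)) : Iness A := by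
  have key : ∀ q : T2 → AddCircle (1 : ℝ), Continuous q →
      ∃ ω : T2 → ℝ, ContinuousOn ω A ∧ ∀ x ∈ A, (ω x : AddCircle (1 : ℝ)) = q x := by
    intro q hq
    apply exists_lift_of_hasLog
    refine hasLog_of_injOn_convex hf hA hinj hconv ?_ fun x _ => Circle.coe_ne_zero _
    exact (continuous_subtype_val.comp (AddCircle.continuous_toCircle.comp hq)).continuousOn
  apply iness_of_hasLift
  · obtain ⟨ω, h1, h2⟩ := key (ev (1, 0)) (continuous_ev _)
    exact ⟨ω, h1, h2⟩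
  · obtain ⟨ω, h1, h2⟩ := key (ev (0, 1)) (continuous_ev _)
    exact ⟨ω, h1, h2⟩

/-- The set where the height function in direction `u` is maximal. -/
def top (f : T2 → V) (u : V) : Set T2 := Face f univ u

lemma mem_top {f : T2 → V} {u : V} {x : T2} : x ∈ top f u ↔ ∀ y, ⟪u, f y⟫ ≤ ⟪u, f x⟫ :=
  ⟨fun h y => h.2 y (mem_univ y), fun h => ⟨mem_univ x, fun y _ => h y⟩⟩

/-- The standing assumptions. -/
structure Setup (f : T2 → V) : Prop where
  cont : Continuous f
  loc : ∀ x, ∃ U ∈ 𝓝 x, InjOn f U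
  tight : ∀ (v : V) (c : ℝ), IsPreconnected {x | c ≤ ⟪v, f x⟫}
  sym : ∀ x, ∃ y, f y = - f x
  span : Submodule.span ℝ (range f) = ⊤

namespace Setup

variable {f : T2 → V}

lemma tp (h : Setup f) (u : V) : TP f (top f u) :=
  (TP.univ h.cont h.tight).face' h.cont univ_nonempty u

lemma nonempty (h : Setup f) (u : V) : (top f u).Nonempty :=
  nonempty_face h.cont isCompact_univ univ_nonempty u

lemma pos (h : Setup f) {u : V} (hu : u ≠ 0) {x : T2} (hx : x ∈ top f u) : 0 < ⟪u, f x⟫ := by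
  rw [mem_top] at hx
  obtain ⟨y, hy⟩ := h.sym x
  have h1 := hx y
  rw [hy, inner_neg_right] at h1
  refine lt_of_le_of_ne (by linarith) fun h0 => hu ?_
  have h2 : ∀ z, ⟪u, f z⟫ = 0 := by
    intro z
    obtain ⟨z', hz'⟩ := h.sym z
    have e1 := hx z
    have e2 := hx z'
    rw [hz', inner_neg_right] at e2
    linarith
  have h3 : (⊤ : Submodule ℝ V) ≤ (ℝ ∙ u)ᗮ := by
    rw [← h.span, Submodule.span_le]
    rintro _ ⟨z, rfl⟩
    rw [SetLike.mem_coe, Submodule.mem_orthogonal_singleton_iff_inner_right]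
    exact h2 z
  have h4 := h3 (show u ∈ ⊤ from Submodule.mem_top)
  rw [Submodule.mem_orthogonal_singleton_iff_inner_right, inner_self_eq_zero] at h4
  exact h4

lemma neg_mem (h : Setup f) {u : V} {x y : T2} (hx : x ∈ top f u) (hy : f y = - f x) :
    y ∈ top f (-u) := by
  rw [mem_top] at hx ⊢
  intro z
  obtain ⟨z', hz'⟩ := h.sym z
  have := hx z'
  rw [hz', inner_neg_right] at this
  rw [hy, inner_neg_left, inner_neg_neg]
  exact this

lemma convex_neg (h : Setup f) {u : V} (hc : Convex ℝ (f '' top f u)) :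
    Convex ℝ (f '' top f (-u)) := by
  have : f '' top f (-u) = (fun z => -z) '' (f '' top f u) := by
    ext z
    constructor
    · rintro ⟨x, hx, rfl⟩
      obtain ⟨y, hy⟩ := h.sym x
      have h1 := h.neg_mem hx hy
      rw [neg_neg] at h1
      exact ⟨f y, ⟨y, h1, rfl⟩, by simp [hy]⟩
    · rintro ⟨_, ⟨x, hx, rfl⟩, rfl⟩
      obtain ⟨y, hy⟩ := h.sym x
      exact ⟨y, h.neg_mem hx hy, hy⟩
  rw [this]
  have h1 := hc.neg
  rwa [← Set.image_neg_eq_neg] at h1

lemma disj (h : Setup f) {u : V} (hu : u ≠ 0) : Disjoint (top f u) (top f (-u)) := by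
  rw [Set.disjoint_left]
  intro x hx hx'
  have h1 := h.pos hu hx
  have h2 := h.pos (neg_ne_zero.2 hu) hx'
  rw [inner_neg_left] at h2
  linarith

variable [FiniteDimensional ℝ V]

lemma convex (h : Setup f) {u : V} (hI : Iness (top f u)) : Convex ℝ (f '' top f u) :=
  convex_of_iness h.cont h.loc _ _ (h.tp u) hI rfl

lemma injOn (h : Setup f) {u : V} (hI : Iness (top f u)) : InjOn f (top f u) :=
  injOn_of_convex h.cont h.loc (h.tp u).cpt (h.tp u).pre (h.convex hI)

lemma iness_neg (h : Setup f) {u : V} (hI : Iness (top f u)) : Iness (top f (-u)) := by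
  have h1 := h.convex_neg (h.convex hI)
  exact iness_of_injOn_convex h.cont (h.tp (-u)).cpt
    (injOn_of_convex h.cont h.loc (h.tp (-u)).cpt (h.tp (-u)).pre h1) h1

lemma goodPair (h : Setup f) {u : V} (hu : u ≠ 0) (hI : ¬ Iness (top f u)) :
    GoodPair (top f u) (top f (-u)) where
  cA := (h.tp u).cpt
  cB := (h.tp (-u)).cpt
  pA := (h.tp u).preconnected
  pB := (h.tp (-u)).preconnected
  dj := h.disj hu
  eA := hI
  eB := fun h' => hI (by simpa using h.iness_neg h')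
  qA := (h.tp u).compl_preconnected
  qB := (h.tp (-u)).compl_preconnected

omit [FiniteDimensional ℝ V] in
lemma usc (h : Setup f) {u0 : V} {U : Set T2} (hU : IsOpen U) (h0 : top f u0 ⊆ U) :
    ∀ᶠ u in 𝓝 u0, top f u ⊆ U := by
  have hcl : IsClosed {z : V × T2 | (∀ y ∈ (univ : Set T2), ⟪z.1, f y⟫ ≤ ⟪z.1, f z.2⟫) ∧
      z.2 ∈ Uᶜ} :=
    (isClosed_faceGraph h.cont univ).inter (hU.isClosed_compl.preimage continuous_snd)
  have h1 := isClosedMap_fst_of_compactSpace (X := V) (Y := T2) _ hcl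
  have h2 : u0 ∈ (Prod.fst '' {z : V × T2 | (∀ y ∈ (univ : Set T2),
      ⟪z.1, f y⟫ ≤ ⟪z.1, f z.2⟫) ∧ z.2 ∈ Uᶜ})ᶜ := by
    rintro ⟨⟨u, x⟩, ⟨h3, h4⟩, rfl⟩
    exact h4 (h0 ⟨mem_univ x, h3⟩)
  filter_upwards [h1.isOpen_compl.mem_nhds h2] with u hu x hx
  by_contra hxU
  exact hu ⟨(u, x), ⟨hx.2, hxU⟩, rfl⟩

omit [FiniteDimensional ℝ V] in
lemma isClosed_ess (h : Setup f) : IsClosed {u : V | ¬ Iness (top f u)} := by
  rw [← isOpen_compl_iff, isOpen_iff_mem_nhds]
  intro u0 hu0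
  have hI : Iness (top f u0) := by simpa using hu0
  obtain ⟨U, hU, h1, h2⟩ := hI.exists_open (h.tp u0).cpt.isClosed
  filter_upwards [h.usc hU h1] with u hu
  simp only [mem_compl_iff, mem_setOf_eq, not_not]
  exact h2.mono hu

end Setup

/-- Odd extension. -/
lemma extend_odd {K : Set V} (hK : IsClosed K) (hsym : ∀ u ∈ K, -u ∈ K) (G1 : K → ℂ)
    (hG1 : Continuous G1) (hodd : ∀ u : K, G1 ⟨-u, hsym u u.2⟩ = - G1 u) :
    ∃ G : V → ℂ, Continuous G ∧ (∀ u, G (-u) = - G u) ∧ ∀ u : K, G u = G1 u := by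
  obtain ⟨W, hW⟩ := ContinuousMap.exists_extension (hK.isClosedEmbedding_subtypeVal)
    (⟨G1, hG1⟩ : C(K, ℂ))
  have hW' : ∀ u : K, W u = G1 u := fun u => congrArg (fun f : C(K, ℂ) => f u) hW
  refine ⟨fun u => (W u - W (-u)) / 2, by fun_prop, fun u => ?_, fun u => ?_⟩
  · simp only [neg_neg]; ring
  · have h1 := hW' ⟨-u, hsym u u.2⟩
    simp only at h1
    rw [hodd] at h1
    simp only
    rw [h1, hW' u]; ring

end Pool.Agent.Lib_MP_22bcea_gt
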