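import Mathlib

/-!
# The torus: projection from the plane, lifts, periods
-/

open Topology Set Filter

namespace Pool.Agent.Lib_MP_22bcea_gt

/-- The torus. -/
abbrev T2 : Type := AddCircle (1 : ℝ) × AddCircle (1 : ℝ)

/-- The projection from the plane to the torus. -/
def proj (z : ℂ) : T2 := ((z.re : AddCircle (1 : ℝ)), (z.im : AddCircle (1 : ℝ)))

/-- Lattice points. -/
def lat (m : ℤ × ℤ) : ℂ := ⟨m.1, m.2⟩

lemma lat_add (m n : ℤ × ℤ) : lat (m + n) = lat m + lat n := by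
  apply Complex.ext <;> simp [lat]

lemma lat_neg (m : ℤ × ℤ) : lat (-m) = -lat m := by
  apply Complex.ext <;> simp [lat]

@[simp] lemma lat_zero : lat 0 = 0 := by
  apply Complex.ext <;> simp [lat]

@[simp] lemma lat_re (m : ℤ × ℤ) : (lat m).re = m.1 := rfl
@[simp] lemma lat_im (m : ℤ × ℤ) : (lat m).im = m.2 := rfl

lemma coe_eq_coe_iff {a b : ℝ} : (a : AddCircle (1 : ℝ)) = b ↔ ∃ n : ℤ, b = a + n := by
  rw [eq_comm, ← sub_eq_zero, ← AddCircle.coe_sub, AddCircle.coe_eq_zero_iff]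
  constructor
  · rintro ⟨n, hn⟩
    exact ⟨n, by simp at hn; linarith⟩
  · rintro ⟨n, hn⟩
    exact ⟨n, by simp; linarith⟩

lemma continuous_coeC : Continuous fun a : ℝ => (a : AddCircle (1 : ℝ)) :=
  AddCircle.continuous_mk' 1

lemma continuous_proj : Continuous proj :=
  (continuous_coeC.comp Complex.continuous_re).prodMk (continuous_coeC.comp Complex.continuous_im)

lemma surjective_proj : Function.Surjective proj := by
  rintro ⟨x, y⟩
  obtain ⟨a, rfl⟩ := QuotientAddGroup.mk_surjective x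
  obtain ⟨b, rfl⟩ := QuotientAddGroup.mk_surjective y
  exact ⟨⟨a, b⟩, rfl⟩

lemma isOpenMap_proj : IsOpenMap proj := by
  have h1 : IsOpenMap (fun a : ℝ => (a : AddCircle (1 : ℝ))) := QuotientAddGroup.isOpenMap_coe
  have h2 : IsOpenMap (Prod.map (fun a : ℝ => (a : AddCircle (1 : ℝ)))
      (fun a : ℝ => (a : AddCircle (1 : ℝ)))) := h1.prodMap h1
  have h3 : IsOpenMap (Complex.equivRealProdCLM : ℂ → ℝ × ℝ) :=
    Complex.equivRealProdCLM.toHomeomorph.isOpenMap
  exact h2.comp h3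

lemma isQuotientMap_proj : IsQuotientMap proj :=
  isOpenMap_proj.isQuotientMap continuous_proj surjective_proj

lemma proj_add (z w : ℂ) : proj (z + w) = proj z + proj w := by
  simp [proj]

lemma proj_eq_iff {z w : ℂ} : proj z = proj w ↔ ∃ m, w = z + lat m := by
  constructor
  · intro h
    obtain ⟨h1, h2⟩ := Prod.ext_iff.1 h
    obtain ⟨n1, h1⟩ := coe_eq_coe_iff.1 h1
    obtain ⟨n2, h2⟩ := coe_eq_coe_iff.1 h2
    exact ⟨(n1, n2), Complex.ext h1 h2⟩
  · rintro ⟨m, rfl⟩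
    exact Prod.ext (coe_eq_coe_iff.2 ⟨m.1, rfl⟩) (coe_eq_coe_iff.2 ⟨m.2, rfl⟩)

@[simp] lemma proj_add_lat (z : ℂ) (m : ℤ × ℤ) : proj (z + lat m) = proj z :=
  (proj_eq_iff.2 ⟨m, rfl⟩).symm

/-- The character of the torus attached to an integer vector. -/
def ev (l : ℤ × ℤ) (x : T2) : AddCircle (1 : ℝ) := l.1 • x.1 + l.2 • x.2

/-- The corresponding linear form on the plane. -/
def evR (l : ℤ × ℤ) (z : ℂ) : ℝ := l.1 * z.re + l.2 * z.im

lemma ev_proj (l : ℤ × ℤ) (z : ℂ) : ev l (proj z) = (evR l z : AddCircle (1 : ℝ)) := by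
  simp only [ev, proj, evR, AddCircle.coe_add]
  congr 1 <;> rw [← zsmul_eq_mul] <;> rfl

lemma continuous_ev (l : ℤ × ℤ) : Continuous (ev l) := by
  unfold ev; fun_prop

lemma continuous_evR (l : ℤ × ℤ) : Continuous (evR l) := by
  unfold evR; fun_prop

lemma evR_add (l : ℤ × ℤ) (z w : ℂ) : evR l (z + w) = evR l z + evR l w := by
  simp [evR]; ring

/-- The integer pairing. -/
def dot (l m : ℤ × ℤ) : ℤ := l.1 * m.1 + l.2 * m.2

lemma evR_lat (l m : ℤ × ℤ) : evR l (lat m) = dot l m := by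
  simp [evR, dot]

/-- Continuous integer-valued functions on preconnected sets are constant. -/
lemma const_of_int {X : Type*} [TopologicalSpace X] {S : Set X} (hS : IsPreconnected S)
    {h : X → ℝ} (hc : ContinuousOn h S) (hi : ∀ x ∈ S, ∃ n : ℤ, h x = n) :
    ∃ n : ℤ, ∀ x ∈ S, h x = n := by
  have hd : DiscreteTopology (range ((↑) : ℤ → ℝ)) := by
    have : IsEmbedding ((↑) : ℤ → ℝ) := Int.isClosedEmbedding_coe_real.isEmbedding
    exact (this.toHomeomorph.symm.isEmbedding).discreteTopology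
  obtain ⟨y, ⟨n, rfl⟩, hy⟩ := hS.eqOn_const_of_mapsTo
    (T := range ((↑) : ℤ → ℝ)) ⟨hd⟩ hc (fun x hx => by
      obtain ⟨n, hn⟩ := hi x hx
      exact ⟨n, hn.symm⟩) ⟨0, ⟨0, by simp⟩⟩
  exact ⟨n, fun x hx => hy hx⟩

/-- The character `ev l` has a continuous real lift on `W`. -/
def HasLift (l : ℤ × ℤ) (W : Set T2) : Prop :=
  ∃ ω : T2 → ℝ, ContinuousOn ω W ∧ ∀ x ∈ W, (ω x : AddCircle (1 : ℝ)) = ev l x

/-- `K` is inessential: the inclusion of `K` into the torus lifts to the plane. -/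
def Iness (K : Set T2) : Prop := ∃ Θ : T2 → ℂ, ContinuousOn Θ K ∧ ∀ x ∈ K, proj (Θ x) = x

lemma HasLift.mono {l : ℤ × ℤ} {W W' : Set T2} (h : HasLift l W) (hs : W' ⊆ W) : HasLift l W' := by
  obtain ⟨ω, h1, h2⟩ := h
  exact ⟨ω, h1.mono hs, fun x hx => h2 x (hs hx)⟩

lemma Iness.mono {W W' : Set T2} (h : Iness W) (hs : W' ⊆ W) : Iness W' := by
  obtain ⟨ω, h1, h2⟩ := h
  exact ⟨ω, h1.mono hs, fun x hx => h2 x (hs hx)⟩

lemma iness_of_hasLift {W : Set T2} (h1 : HasLift (1, 0) W) (h2 : HasLift (0, 1) W) :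
    Iness W := by
  obtain ⟨a, ha, ha'⟩ := h1
  obtain ⟨b, hb, hb'⟩ := h2
  refine ⟨fun x => ⟨a x, b x⟩, ?_, ?_⟩
  · have : (fun x => (⟨a x, b x⟩ : ℂ)) = fun x => (a x : ℂ) + b x * Complex.I := by
      funext x; apply Complex.ext <;> simp
    rw [this]
    exact (Complex.continuous_ofReal.comp_continuousOn ha).add
      ((Complex.continuous_ofReal.comp_continuousOn hb).mul continuousOn_const)
  · intro x hx
    have e1 := ha' x hx
    have e2 := hb' x hx
    simp only [ev, one_smul, zero_smul, add_zero, zero_add] at e1 e2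
    exact Prod.ext e1 e2

/-- `W` has the period `m`. -/
def Rel (W : Set T2) (m : ℤ × ℤ) : Prop := ∃ z, JoinedIn (proj ⁻¹' W) z (z + lat m)

lemma Rel.mono {W W' : Set T2} {m : ℤ × ℤ} (h : Rel W m) (hs : W ⊆ W') : Rel W' m := by
  obtain ⟨z, hz⟩ := h
  exact ⟨z, hz.mono (preimage_mono hs)⟩

/-- Translation of paths by lattice vectors. -/
lemma joinedIn_add_lat {W : Set T2} {z w : ℂ} (h : JoinedIn (proj ⁻¹' W) z w) (k : ℤ × ℤ) :
    JoinedIn (proj ⁻¹' W) (z + lat k) (w + lat k) := by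
  obtain ⟨γ, hγ⟩ := h
  refine ⟨γ.map (f := fun u => u + lat k) (by fun_prop), fun t => ?_⟩
  simpa using hγ t

lemma joinedIn_ball {W : Set T2} {z w : ℂ} {r : ℝ} (h : Metric.ball z r ⊆ proj ⁻¹' W)
    (hw : w ∈ Metric.ball z r) : JoinedIn (proj ⁻¹' W) z w := by
  have hr : 0 < r := Metric.pos_of_mem_ball hw
  have := (Metric.isPathConnected_ball (x := z) hr).joinedIn z (Metric.mem_ball_self hr) w hw
  exact this.mono h

lemma exists_ball {W : Set T2} (hW : IsOpen W) {z : ℂ} (hz : proj z ∈ W) :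
    ∃ r > 0, Metric.ball z r ⊆ proj ⁻¹' W :=
  Metric.isOpen_iff.1 (hW.preimage continuous_proj) z hz

lemma ball_add_lat {W : Set T2} {z : ℂ} {r : ℝ} (h : Metric.ball z r ⊆ proj ⁻¹' W)
    (k : ℤ × ℤ) : Metric.ball (z + lat k) r ⊆ proj ⁻¹' W := by
  intro w hw
  have : w - lat k ∈ Metric.ball z r := by
    rw [Metric.mem_ball, dist_eq_norm] at hw ⊢
    rwa [show w - lat k - z = w - (z + lat k) by ring]
  have h2 := h this
  have h3 : proj w = proj (w - lat k) := by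
    rw [← proj_add_lat (w - lat k) k]; congr 1; ring
  change proj w ∈ W
  rw [h3]; exact h2

/-- In a connected open set all points are joined modulo the lattice. -/
lemma joined_of_preconnected {W : Set T2} (hW : IsOpen W) (hc : IsPreconnected W) {z z' : ℂ}
    (hz : proj z ∈ W) (hz' : proj z' ∈ W) : ∃ k, JoinedIn (proj ⁻¹' W) z (z' + lat k) := by
  by_contra hcon
  let R : Set T2 := {x | ∃ w, proj w = x ∧ JoinedIn (proj ⁻¹' W) z w}
  let R' : Set T2 := {x | ∃ w, proj w = x ∧ proj w ∈ W ∧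
    ¬ ∃ k, JoinedIn (proj ⁻¹' W) z (w + lat k)}
  have hR : IsOpen R := by
    rw [isOpen_iff_mem_nhds]
    rintro x ⟨w, rfl, hw⟩
    obtain ⟨r, hr, hb⟩ := exists_ball hW (z := w) hw.target_mem
    refine Filter.mem_of_superset ((isOpenMap_proj _ Metric.isOpen_ball).mem_nhds
      ⟨w, Metric.mem_ball_self hr, rfl⟩) ?_
    rintro _ ⟨v, hv, rfl⟩
    exact ⟨v, rfl, hw.trans (joinedIn_ball hb hv)⟩
  have hR' : IsOpen R' := by
    rw [isOpen_iff_mem_nhds]
    rintro x ⟨w, rfl, hwW, hw⟩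
    obtain ⟨r, hr, hb⟩ := exists_ball hW (z := w) hwW
    refine Filter.mem_of_superset ((isOpenMap_proj _ Metric.isOpen_ball).mem_nhds
      ⟨w, Metric.mem_ball_self hr, rfl⟩) ?_
    rintro _ ⟨v, hv, rfl⟩
    refine ⟨v, rfl, hb hv, ?_⟩
    rintro ⟨k, hk⟩
    refine hw ⟨k, hk.trans ?_⟩
    exact (joinedIn_add_lat (joinedIn_ball hb hv) k).symm
  obtain ⟨x, hxW, ⟨w, hwx, hw⟩, w', hw'x, _, hw'⟩ := hc R R' hR hR' (by
    intro x hx
    obtain ⟨w, rfl⟩ := surjective_proj x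
    by_cases h : ∃ k, JoinedIn (proj ⁻¹' W) z (w + lat k)
    · obtain ⟨k, hk⟩ := h
      exact Or.inl ⟨w + lat k, proj_add_lat _ _, hk⟩
    · exact Or.inr ⟨w, rfl, hx, h⟩) ⟨proj z, hz, z, rfl, JoinedIn.refl hz⟩
    ⟨proj z', hz', z', rfl, hz', hcon⟩
  obtain ⟨k, hk⟩ := proj_eq_iff.1 (hw'x.trans hwx.symm)
  exact hw' ⟨k, hk ▸ hw⟩

/-- If `l` kills all periods of the connected open set `W` then `ev l` lifts on `W`. -/
lemma hasLift_of_rel {W : Set T2} (hW : IsOpen W) (hc : IsPreconnected W) (l : ℤ × ℤ)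
    (h : ∀ m, Rel W m → dot l m = 0) : HasLift l W := by
  classical
  rcases W.eq_empty_or_nonempty with rfl | ⟨x0, hx0⟩
  · exact ⟨fun _ => 0, by simp, by simp⟩
  obtain ⟨z0, rfl⟩ := surjective_proj x0
  have hex : ∀ x : T2, ∃ w, x ∈ W → proj w = x ∧ JoinedIn (proj ⁻¹' W) z0 w := by
    intro x
    by_cases hx : x ∈ W
    · obtain ⟨w, rfl⟩ := surjective_proj x
      obtain ⟨k, hk⟩ := joined_of_preconnected hW hc hx0 hx
      exact ⟨w + lat k, fun _ => ⟨proj_add_lat _ _, hk⟩⟩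
    · exact ⟨0, fun h => absurd h hx⟩
  choose g hg using hex
  have key : ∀ w, JoinedIn (proj ⁻¹' W) z0 w → evR l (g (proj w)) = evR l w := by
    intro w hw
    obtain ⟨h1, h2⟩ := hg (proj w) hw.target_mem
    obtain ⟨m, hm⟩ := proj_eq_iff.1 h1
    have h3 : Rel W m := ⟨g (proj w), hm ▸ h2.symm.trans hw⟩
    have h4 := h m h3
    conv_rhs => rw [hm]
    rw [evR_add, evR_lat, h4]; simp
  refine ⟨fun x => evR l (g x), ?_, ?_⟩
  · intro x hx
    obtain ⟨h1, h2⟩ := hg x hx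
    obtain ⟨r, hr, hb⟩ := exists_ball hW (z := g x) h2.target_mem
    apply ContinuousAt.continuousWithinAt
    rw [Metric.continuousAt_iff']
    intro ε hε
    obtain ⟨δ, hδ, hδ'⟩ := Metric.continuousAt_iff.1 ((continuous_evR l).continuousAt (x := g x)) ε hε
    have hopen := isOpenMap_proj _ (Metric.isOpen_ball (x := g x) (ε := min r δ))
    refine Filter.mem_of_superset (hopen.mem_nhds
      ⟨g x, Metric.mem_ball_self (lt_min hr hδ), h1⟩) ?_
    rintro _ ⟨v, hv, rfl⟩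
    have hv' : JoinedIn (proj ⁻¹' W) z0 v :=
      h2.trans (joinedIn_ball hb (Metric.ball_subset_ball (min_le_left _ _) hv))
    change dist (evR l (g (proj v))) (evR l (g x)) < ε
    rw [key v hv']
    exact hδ' (Metric.ball_subset_ball (min_le_right _ _) hv)
  · intro x hx
    obtain ⟨h1, h2⟩ := hg x hx
    rw [← ev_proj, h1]

/-- A lift of `ev l` on `W` forces `l` to kill the periods of `W`. -/
lemma dot_eq_zero_of_hasLift {W : Set T2} {l m : ℤ × ℤ} (hl : HasLift l W) (hm : Rel W m) :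
    dot l m = 0 := by
  obtain ⟨ω, h1, h2⟩ := hl
  obtain ⟨z, γ, hγ⟩ := hm
  obtain ⟨n, hn⟩ := const_of_int (S := (univ : Set unitInterval)) isPreconnected_univ
    (h := fun t => ω (proj (γ t)) - evR l (γ t)) (by
      rw [continuousOn_univ]
      refine Continuous.sub ?_ ((continuous_evR l).comp γ.continuous)
      exact h1.comp_continuous (continuous_proj.comp γ.continuous) hγ) (by
      intro t _
      have := h2 _ (hγ t)
      rw [ev_proj, eq_comm, coe_eq_coe_iff] at this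
      obtain ⟨n, hn⟩ := this
      exact ⟨n, by rw [hn]; ring⟩)
  have e0 := hn 0 (mem_univ _)
  have e1 := hn 1 (mem_univ _)
  simp only [γ.source, γ.target, proj_add_lat, evR_add, evR_lat] at e0 e1
  have : (dot l m : ℝ) = 0 := by linarith
  exact_mod_cast this

end Pool.Agent.Lib_MP_22bcea_gt
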