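import Pool.Agent.Lib_MP_22bcea_gt.Log

/-!
# The torus: periods of disjoint sets, pairs of essential continua
-/

open Topology Set Filter

namespace Pool.Agent.Lib_MP_22bcea_gt

/-- Periodic extension of a path joining lattice translates. -/
lemma exists_periodic_extension {z : ℂ} {m : ℤ × ℤ} (γ : Path z (z + lat m)) :
    ∃ δ : ℝ → ℂ, Continuous δ ∧ (∃ B, ∀ s, ‖δ s‖ ≤ B) ∧
      ∀ s : ℝ, ∃ t : unitInterval, proj (δ s + s • lat m) = proj (γ t) := by
  let f : ℝ → ℂ := fun u => γ.extend u - u • lat m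
  have hf : Continuous f := γ.continuous_extend.sub (by fun_prop)
  have hf01 : f 0 = f (0 + 1) := by simp [f]
  let F : AddCircle (1 : ℝ) → ℂ := AddCircle.liftIco 1 0 f
  have hF : Continuous F := AddCircle.liftIco_continuous hf01 hf.continuousOn
  obtain ⟨B, hB⟩ := (isCompact_range hF).isBounded.exists_norm_le
  refine ⟨fun s => F (s : AddCircle (1 : ℝ)), hF.comp continuous_coeC,
    ⟨B, fun s => hB _ (mem_range_self _)⟩, fun s => ?_⟩
  have h1 : F (s : AddCircle (1 : ℝ)) = f (Int.fract s) := by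
    have : (s : AddCircle (1 : ℝ)) = (Int.fract s : ℝ) :=
      coe_eq_coe_iff.2 ⟨-⌊s⌋, by push_cast; rw [Int.fract]; ring⟩
    rw [this]
    exact AddCircle.liftIco_zero_coe_apply ⟨Int.fract_nonneg s, Int.fract_lt_one s⟩
  let t : unitInterval := ⟨Int.fract s, Int.fract_nonneg s, (Int.fract_lt_one s).le⟩
  refine ⟨t, ?_⟩
  change proj (F (s : AddCircle (1 : ℝ)) + s • lat m) = proj (γ t)
  rw [h1]
  symm
  refine proj_eq_iff.2 ⟨(⌊s⌋ * m.1, ⌊s⌋ * m.2), ?_⟩
  have h2 : γ.extend (Int.fract s) = γ t :=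
    γ.extend_apply ⟨Int.fract_nonneg s, (Int.fract_lt_one s).le⟩
  simp only [f]
  rw [h2]
  have h3 : lat (⌊s⌋ * m.1, ⌊s⌋ * m.2) = (⌊s⌋ : ℝ) • lat m := by
    apply Complex.ext <;> simp
  rw [h3]
  have h4 : (⌊s⌋ : ℝ) = s - Int.fract s := by rw [Int.fract]; ring
  rw [h4, sub_smul]
  ring

/-- The determinant of two integer vectors. -/
def cross (m n : ℤ × ℤ) : ℤ := m.1 * n.2 - m.2 * n.1

/-- A bounded perturbation of the identity of the plane has a zero. -/
lemma exists_zero_of_bounded {G : ℂ → ℂ} (hG : Continuous G) {B : ℝ}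
    (hB : ∀ w, ‖G w - w‖ ≤ B) : ∃ w, G w = 0 := by
  by_contra hcon
  push Not at hcon
  have hB0 : 0 ≤ B := (norm_nonneg _).trans (hB 0)
  have h1 : HasLog G (Metric.sphere 0 (B + 1)) :=
    (hasLog_of_convex (convex_univ) hG.continuousOn fun w _ => hcon w).mono (subset_univ _)
  have h2 : HasLog (fun w => G w / w) (Metric.sphere 0 (B + 1)) := by
    refine hasLog_of_close ?_ ?_
    · refine hG.continuousOn.div continuousOn_id ?_
      intro w hw h0
      rw [h0] at hw
      simp at hw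
      linarith
    · intro w hw
      rw [mem_sphere_zero_iff_norm] at hw
      have hw0 : w ≠ 0 := by
        intro h; rw [h, norm_zero] at hw; linarith
      have : G w / w - 1 = (G w - w) / w := by field_simp
      rw [this, norm_div, hw, div_lt_one (by linarith)]
      linarith [hB w]
  refine not_hasLog_circle (R := B + 1) (by linarith) ((h1.div h2).congr ?_)
  intro w hw
  have h0 : w ≠ 0 := by
    intro h; rw [mem_sphere_zero_iff_norm, h, norm_zero] at hw; linarith
  have := hcon w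
  field_simp

/-- Disjoint open sets have proportional periods. -/
lemma cross_eq_zero_of_disjoint {U U' : Set T2} (hd : Disjoint U U') {m m' : ℤ × ℤ}
    (hm : Rel U m) (hm' : Rel U' m') : cross m m' = 0 := by
  by_contra hdet
  obtain ⟨z, γ, hγ⟩ := hm
  obtain ⟨z', γ', hγ'⟩ := hm'
  obtain ⟨δ, hδ, ⟨B, hB⟩, hδ'⟩ := exists_periodic_extension γ
  obtain ⟨ε, hε, ⟨B', hB'⟩, hε'⟩ := exists_periodic_extension γ'
  let D : ℝ := cross m m'
  have hD : D ≠ 0 := by
    simp only [D]; exact_mod_cast hdet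
  -- inverse of the linear map (s, t) ↦ s m - t m'
  let S : ℂ → ℝ := fun w => (w.re * m'.2 - w.im * m'.1) / D
  let T : ℂ → ℝ := fun w => (w.re * m.2 - w.im * m.1) / D
  have hS : Continuous S := by simp only [S]; fun_prop
  have hT : Continuous T := by simp only [T]; fun_prop
  have hL : ∀ w, S w • lat m - T w • lat m' = w := by
    intro w
    have hD' : D = m.1 * m'.2 - m.2 * m'.1 := by simp [D, cross]
    apply Complex.ext
    · simp only [S, T, Complex.sub_re, Complex.smul_re, lat_re, smul_eq_mul]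
      field_simp
      rw [hD']; ring
    · simp only [S, T, Complex.sub_im, Complex.smul_im, lat_im, smul_eq_mul]
      field_simp
      rw [hD']; ring
  obtain ⟨w, hw⟩ := exists_zero_of_bounded (B := B + B')
    (G := fun w => (δ (S w) + S w • lat m) - (ε (T w) + T w • lat m')) (by fun_prop) (by
      intro w
      have : (δ (S w) + S w • lat m) - (ε (T w) + T w • lat m') - w = δ (S w) - ε (T w) := by
        linear_combination hL w
      rw [this]
      exact (norm_sub_le _ _).trans (add_le_add (hB _) (hB' _)))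
  obtain ⟨t, ht⟩ := hδ' (S w)
  obtain ⟨t', ht'⟩ := hε' (T w)
  have h1 : proj (γ t) ∈ U := hγ t
  have h2 : proj (γ' t') ∈ U' := hγ' t'
  rw [← ht, sub_eq_zero.1 hw, ht'] at h1
  exact Set.disjoint_left.1 hd h1 h2

/-- Every continuous map from the torus to the circle is a character times a function with a
real lift. -/
lemma exists_char (q : T2 → AddCircle (1 : ℝ)) (hq : Continuous q) :
    ∃ (r : ℤ × ℤ) (h : T2 → ℝ), Continuous h ∧ ∀ x, q x = ev r x + (h x : AddCircle (1 : ℝ)) := by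
  obtain ⟨Q0, hQ0⟩ := QuotientAddGroup.mk_surjective (q (proj 0))
  obtain ⟨Q, ⟨-, hQ⟩, -⟩ := (AddCircle.isCoveringMap_coe (1 : ℝ)).existsUnique_continuousMap_lifts
    (⟨fun z => q (proj z), hq.comp continuous_proj⟩ : C(ℂ, AddCircle (1 : ℝ))) 0 Q0 hQ0
  have hQ' : ∀ z, (Q z : AddCircle (1 : ℝ)) = q (proj z) := fun z => congr_fun hQ z
  have hper : ∀ m : ℤ × ℤ, ∃ n : ℤ, ∀ z, Q (z + lat m) - Q z = n := by
    intro m
    obtain ⟨n, hn⟩ := const_of_int (S := (univ : Set ℂ)) isPreconnected_univ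
      (h := fun z => Q (z + lat m) - Q z) (by fun_prop) (by
        intro z _
        have : (Q z : AddCircle (1 : ℝ)) = Q (z + lat m) := by
          rw [hQ', hQ', proj_add_lat]
        obtain ⟨n, hn⟩ := coe_eq_coe_iff.1 this
        exact ⟨n, by rw [hn]; ring⟩)
    exact ⟨n, fun z => hn z (mem_univ _)⟩
  choose r hr using hper
  have hadd : ∀ m m', r (m + m') = r m + r m' := by
    intro m m'
    have h1 := hr (m + m') 0
    have h2 := hr m (0 + lat m')
    have h3 := hr m' 0
    rw [lat_add] at h1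
    have e : (0 : ℂ) + (lat m + lat m') = 0 + lat m' + lat m := by ring
    rw [e] at h1
    have : (r (m + m') : ℝ) = r m + r m' := by rw [← h1, ← h2, ← h3]; ring
    exact_mod_cast this
  let R : ℤ × ℤ →+ ℤ := AddMonoidHom.mk' r hadd
  have hlin : ∀ m, r m = dot (r (1, 0), r (0, 1)) m := by
    intro m
    have e : m = m.1 • ((1, 0) : ℤ × ℤ) + m.2 • ((0, 1) : ℤ × ℤ) := by
      ext <;> simp
    have h1 : R m = m.1 • R (1, 0) + m.2 • R (0, 1) := by
      conv_lhs => rw [e]
      rw [map_add, map_zsmul, map_zsmul]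
    have h2 : R m = r m := rfl
    have h3 : R (1, 0) = r (1, 0) := rfl
    have h4 : R (0, 1) = r (0, 1) := rfl
    rw [← h2, h1, h3, h4]
    simp [dot]; ring
  let k : ℤ × ℤ := (r (1, 0), r (0, 1))
  have hdesc : ∀ z w, proj z = proj w → Q z - evR k z = Q w - evR k w := by
    intro z w h
    obtain ⟨m, rfl⟩ := proj_eq_iff.1 h
    have h1 := hr m z
    rw [hlin] at h1
    rw [evR_add, evR_lat]
    linarith
  let h : C(T2, ℝ) := isQuotientMap_proj.lift (f := (⟨proj, continuous_proj⟩ : C(ℂ, T2)))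
    ⟨fun z => Q z - evR k z, by have := continuous_evR k; fun_prop⟩ (by
      intro z w h; exact hdesc z w h)
  refine ⟨k, h, h.continuous, fun x => ?_⟩
  obtain ⟨z, rfl⟩ := surjective_proj x
  have hh : h (proj z) = Q z - evR k z := by
    have := isQuotientMap_proj.lift_comp (f := (⟨proj, continuous_proj⟩ : C(ℂ, T2)))
      ⟨fun z => Q z - evR k z, by have := continuous_evR k; fun_prop⟩ (by
      intro z w h; exact hdesc z w h)
    exact congrArg (fun g : C(ℂ, ℝ) => g z) this
  rw [hh, ← hQ', ev_proj, ← AddCircle.coe_add]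
  congr 1; ring

/-- A section of the projection, continuous near `0`. -/
noncomputable def sec (x : T2) : ℂ :=
  ⟨(AddCircle.equivIco (1 : ℝ) (-1 / 2) x.1 : ℝ), (AddCircle.equivIco (1 : ℝ) (-1 / 2) x.2 : ℝ)⟩

lemma proj_sec (x : T2) : proj (sec x) = x := by
  refine Prod.ext ?_ ?_
  · exact (AddCircle.equivIco (1 : ℝ) (-1 / 2)).symm_apply_apply x.1
  · exact (AddCircle.equivIco (1 : ℝ) (-1 / 2)).symm_apply_apply x.2

/-- The set where `sec` is continuous. -/
def secDom : Set T2 := {x | x.1 ≠ ((-1 / 2 : ℝ) : AddCircle (1 : ℝ)) ∧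
  x.2 ≠ ((-1 / 2 : ℝ) : AddCircle (1 : ℝ))}

lemma isOpen_secDom : IsOpen secDom :=
  (isOpen_ne_fun (by fun_prop) continuous_const).inter
    (isOpen_ne_fun (by fun_prop) continuous_const)

lemma continuousOn_sec : ContinuousOn sec secDom := by
  have h := (AddCircle.openPartialHomeomorphCoe (1 : ℝ) (-1 / 2 : ℝ)).continuousOn_invFun
  have h' : ContinuousOn (fun x : AddCircle (1 : ℝ) =>
      ((AddCircle.equivIco (1 : ℝ) (-1 / 2) x : ℝ)))
      {((-1 / 2 : ℝ) : AddCircle (1 : ℝ))}ᶜ := h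
  have : sec = fun x => ((AddCircle.equivIco (1 : ℝ) (-1 / 2) x.1 : ℝ) : ℂ) +
      ((AddCircle.equivIco (1 : ℝ) (-1 / 2) x.2 : ℝ) : ℂ) * Complex.I := by
    funext x; apply Complex.ext <;> simp [sec]
  rw [this]
  refine ContinuousOn.add ?_ (ContinuousOn.mul ?_ continuousOn_const)
  · exact Complex.continuous_ofReal.comp_continuousOn
      (h'.comp (by fun_prop) fun x hx => hx.1)
  · exact Complex.continuous_ofReal.comp_continuousOn
      (h'.comp (by fun_prop) fun x hx => hx.2)

lemma zero_mem_secDom : (0 : T2) ∈ secDom := by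
  have : (0 : AddCircle (1 : ℝ)) ≠ ((-1 / 2 : ℝ) : AddCircle (1 : ℝ)) := by
    intro h
    have h' : ((0 : ℝ) : AddCircle (1 : ℝ)) = ((-1 / 2 : ℝ) : AddCircle (1 : ℝ)) := by
      simpa using h
    obtain ⟨n, hn⟩ := coe_eq_coe_iff.1 h'
    have h2 : (n : ℝ) * 2 = -1 := by linarith
    have h3 : n * 2 = -1 := by exact_mod_cast h2
    omega
  exact ⟨this, this⟩

/-- Inessential closed sets have inessential neighbourhoods. -/
lemma Iness.exists_open {A : Set T2} (hA : IsClosed A) (h : Iness A) :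
    ∃ U, IsOpen U ∧ A ⊆ U ∧ Iness U := by
  obtain ⟨Θ, h1, h2⟩ := h
  obtain ⟨W, hW⟩ := ContinuousMap.exists_extension (hA.isClosedEmbedding_subtypeVal)
    (⟨A.domRestrict Θ, h1.domRestrict⟩ : C(A, ℂ))
  have hW' : ∀ x ∈ A, W x = Θ x := fun x hx => congrArg (fun f : C(A, ℂ) => f ⟨x, hx⟩) hW
  have hc : Continuous fun x => x - proj (W x) :=
    continuous_id.sub (continuous_proj.comp W.continuous)
  refine ⟨(fun x => x - proj (W x)) ⁻¹' secDom, isOpen_secDom.preimage hc, ?_,
    fun x => W x + sec (x - proj (W x)), ?_, ?_⟩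
  · intro x hx
    change x - proj (W x) ∈ secDom
    rw [hW' x hx, h2 x hx, sub_self]
    exact zero_mem_secDom
  · exact W.continuous.continuousOn.add (continuousOn_sec.comp hc.continuousOn fun x hx => hx)
  · intro x _
    rw [proj_add, proj_sec]
    abel

/-- Essential continua have nonzero periods in every neighbourhood. -/
lemma exists_rel_of_not_iness {A U : Set T2} (hA : IsPreconnected A) (hU : IsOpen U)
    (hAU : A ⊆ U) (he : ¬ Iness A) : ∃ m, m ≠ 0 ∧ Rel U m := by
  by_contra hcon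
  push Not at hcon
  rcases A.eq_empty_or_nonempty with rfl | ⟨x0, hx0⟩
  · exact he ⟨fun _ => 0, by simp, by simp⟩
  obtain ⟨z0, rfl⟩ := surjective_proj x0
  let C : Set ℂ := pathComponentIn (proj ⁻¹' U) z0
  let U' : Set T2 := proj '' C
  have hU'U : U' ⊆ U := by
    rintro _ ⟨w, hw, rfl⟩
    exact hw.target_mem
  have hU'o : IsOpen U' := by
    rw [isOpen_iff_mem_nhds]
    rintro x ⟨w, hw, rfl⟩
    obtain ⟨r, hr, hb⟩ := exists_ball hU (z := w) hw.target_mem
    refine Filter.mem_of_superset ((isOpenMap_proj _ Metric.isOpen_ball).mem_nhds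
      ⟨w, Metric.mem_ball_self hr, rfl⟩) ?_
    rintro _ ⟨v, hv, rfl⟩
    exact ⟨v, JoinedIn.trans hw (joinedIn_ball hb hv), rfl⟩
  have hC : IsPathConnected C := isPathConnected_pathComponentIn (hAU hx0)
  have hU'c : IsPreconnected U' :=
    (hC.isConnected.isPreconnected).image _ continuous_proj.continuousOn
  have hN : IsOpen {x | x ∈ U ∧ x ∉ U'} := by
    rw [isOpen_iff_mem_nhds]
    rintro x ⟨hxU, hx⟩
    obtain ⟨w, rfl⟩ := surjective_proj x
    obtain ⟨r, hr, hb⟩ := exists_ball hU (z := w) hxU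
    refine Filter.mem_of_superset ((isOpenMap_proj _ Metric.isOpen_ball).mem_nhds
      ⟨w, Metric.mem_ball_self hr, rfl⟩) ?_
    rintro _ ⟨v, hv, rfl⟩
    refine ⟨hb hv, ?_⟩
    rintro ⟨v', hv', hvv⟩
    apply hx
    obtain ⟨k, hk⟩ := proj_eq_iff.1 hvv.symm
    refine ⟨w + lat k, ?_, proj_add_lat _ _⟩
    have h1 := joinedIn_add_lat (joinedIn_ball hb hv) k
    rw [← hk] at h1
    exact JoinedIn.trans hv' h1.symm
  have hAU' : A ⊆ U' := by
    intro x hx
    by_contra hxU'
    obtain ⟨y, _, hy1, hy2⟩ := hA _ _ hU'o hN (fun y hy => by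
      by_cases h : y ∈ U'
      · exact Or.inl h
      · exact Or.inr ⟨hAU hy, h⟩) ⟨_, hx0, z0, JoinedIn.refl (hAU hx0), rfl⟩
      ⟨x, hx, hAU hx, hxU'⟩
    exact hy2.2 hy1
  have hl : ∀ l, HasLift l U' := by
    intro l
    refine hasLift_of_rel hU'o hU'c l fun m hm => ?_
    by_cases h : m = 0
    · subst h; simp [dot]
    · exact absurd (hm.mono hU'U) (hcon m h)
  exact he ((iness_of_hasLift (hl _) (hl _)).mono hAU')

/-- Periods of the complement of a closed set are periods of a set away from it. -/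
lemma Rel.exists_separated {A : Set T2} (hA : IsClosed A) {m : ℤ × ℤ} (h : Rel Aᶜ m) :
    ∃ U V, IsOpen U ∧ A ⊆ U ∧ Disjoint U V ∧ Rel V m := by
  obtain ⟨z, γ, hγ⟩ := h
  have hP : IsCompact (range fun t => proj (γ t)) :=
    isCompact_range (continuous_proj.comp γ.continuous)
  have hd : Disjoint A (range fun t => proj (γ t)) := by
    rw [Set.disjoint_left]
    rintro x hx ⟨t, rfl⟩
    exact hγ t hx
  obtain ⟨U, V, hU, _, hAU, hV, hUV⟩ := SeparatedNhds.of_isCompact_isCompact hA.isCompact hP hd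
  exact ⟨U, V, hU, hAU, hUV, z, γ, fun t => hV ⟨t, rfl⟩⟩

lemma cross_trans {a b c : ℤ × ℤ} (h1 : cross a c = 0) (h2 : cross b c = 0) (hc : c ≠ 0) :
    cross a b = 0 := by
  unfold cross at *
  have h3 : c.1 ≠ 0 ∨ c.2 ≠ 0 := by
    by_contra h
    push Not at h
    exact hc (Prod.ext h.1 h.2)
  rcases h3 with h3 | h3
  · have : (a.1 * b.2 - a.2 * b.1) * c.1 = 0 := by
      linear_combination b.1 * h1 - a.1 * h2
    exact (mul_eq_zero.1 this).resolve_right h3
  · have : (a.1 * b.2 - a.2 * b.1) * c.2 = 0 := by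
      linear_combination b.2 * h1 - a.2 * h2
    exact (mul_eq_zero.1 this).resolve_right h3

lemma cross_swap {a b : ℤ × ℤ} (h : cross a b = 0) : cross b a = 0 := by
  unfold cross at *; linarith

/-- A pair of disjoint essential continua with connected complements. -/
structure GoodPair (A B : Set T2) : Prop where
  cA : IsCompact A
  cB : IsCompact B
  pA : IsPreconnected A
  pB : IsPreconnected B
  dj : Disjoint A B
  eA : ¬ Iness A
  eB : ¬ Iness B
  qA : IsPreconnected Aᶜ
  qB : IsPreconnected Bᶜ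

lemma GoodPair.symm {A B : Set T2} (h : GoodPair A B) : GoodPair B A :=
  ⟨h.cB, h.cA, h.pB, h.pA, h.dj.symm, h.eB, h.eA, h.qB, h.qA⟩

lemma GoodPair.exists_direction {A B : Set T2} (h : GoodPair A B) :
    ∃ m0, m0 ≠ 0 ∧ Rel Aᶜ m0 ∧ ∀ m, Rel Aᶜ m ∨ Rel Bᶜ m → cross m m0 = 0 := by
  obtain ⟨UA, UB, hUA, hUB, hA, hB, hd⟩ := SeparatedNhds.of_isCompact_isCompact h.cA h.cB h.dj
  obtain ⟨mA, hmA, hRA⟩ := exists_rel_of_not_iness h.pA hUA hA h.eA
  obtain ⟨mB, hmB, hRB⟩ := exists_rel_of_not_iness h.pB hUB hB h.eB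
  have hUBA : UB ⊆ Aᶜ := fun x hx hxA => Set.disjoint_left.1 hd (hA hxA) hx
  refine ⟨mB, hmB, hRB.mono hUBA, ?_⟩
  rintro m (hm | hm)
  · obtain ⟨U, V, hU, hAU, hUV, hV⟩ := hm.exists_separated h.cA.isClosed
    obtain ⟨m1, hm1, hR1⟩ := exists_rel_of_not_iness h.pA (hU.inter hUA)
      (subset_inter hAU hA) h.eA
    have e1 : cross m1 m = 0 :=
      cross_eq_zero_of_disjoint (hUV.mono_left inter_subset_left) hR1 hV
    have e2 : cross m1 mB = 0 :=
      cross_eq_zero_of_disjoint (hd.mono_left inter_subset_right) hR1 hRB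
    exact cross_trans (cross_swap e1) (cross_swap e2) hm1
  · obtain ⟨U, V, hU, hBU, hUV, hV⟩ := hm.exists_separated h.cB.isClosed
    obtain ⟨m1, hm1, hR1⟩ := exists_rel_of_not_iness h.pB (hU.inter hUB)
      (subset_inter hBU hB) h.eB
    have e1 : cross m1 m = 0 :=
      cross_eq_zero_of_disjoint (hUV.mono_left inter_subset_left) hR1 hV
    have e2 : cross mA m1 = 0 :=
      cross_eq_zero_of_disjoint (hd.mono_right inter_subset_right) hRA hR1
    have e3 : cross mA mB = 0 := cross_eq_zero_of_disjoint hd hRA hRB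
    have e4 : cross m mA = 0 := cross_trans (cross_swap e1) e2 hm1
    exact cross_trans e4 (cross_swap e3) hmA

end Pool.Agent.Lib_MP_22bcea_gt
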