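import Pool.Agent.Lib_MP_22bcea_gt.Torus2

/-!
# Normalised lifts for pairs of essential continua
-/

open Topology Set Filter

namespace Pool.Agent.Lib_MP_22bcea_gt

/-- Primitive integer vectors with a normalised sign. -/
def Nrm (l : ℤ × ℤ) : Prop := IsCoprime l.1 l.2 ∧ (0 < l.1 ∨ (l.1 = 0 ∧ 0 < l.2))

lemma ne_zero_iff {m : ℤ × ℤ} : m ≠ 0 ↔ m.1 ≠ 0 ∨ m.2 ≠ 0 := by
  rw [Ne, Prod.ext_iff, not_and_or]; rfl

lemma exists_nrm {m : ℤ × ℤ} (hm : m ≠ 0) : ∃ l, Nrm l ∧ dot l m = 0 := by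
  have hg : (Int.gcd m.1 m.2 : ℤ) ≠ 0 := by
    intro h
    have h' : Int.gcd m.1 m.2 = 0 := by exact_mod_cast h
    rw [Int.gcd_eq_zero_iff] at h'
    exact hm (Prod.ext h'.1 h'.2)
  obtain ⟨a, ha⟩ := Int.gcd_dvd_left m.1 m.2
  obtain ⟨b, hb⟩ := Int.gcd_dvd_right m.1 m.2
  have hab : IsCoprime a b := by
    obtain ⟨u, v, huv⟩ : ∃ u v, u * m.1 + v * m.2 = Int.gcd m.1 m.2 := by
      refine ⟨Int.gcdA m.1 m.2, Int.gcdB m.1 m.2, ?_⟩
      rw [Int.gcd_eq_gcd_ab]; ring
    refine ⟨u, v, ?_⟩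
    have : (Int.gcd m.1 m.2 : ℤ) * (u * a + v * b) = Int.gcd m.1 m.2 * 1 := by
      linear_combination huv - u * ha - v * hb
    exact mul_left_cancel₀ hg this
  have hdot : b * m.1 - a * m.2 = 0 := by
    linear_combination b * ha - a * hb
  by_cases hb0 : 0 < b
  · exact ⟨(b, -a), ⟨by simpa using hab.symm.neg_right, Or.inl hb0⟩, by
      simp only [dot]; linarith⟩
  · rcases (not_lt.1 hb0).lt_or_eq with hb1 | hb1
    · exact ⟨(-b, a), ⟨by simpa using hab.symm.neg_left, Or.inl (by simpa using hb1)⟩, by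
        simp only [dot]; linarith⟩
    · subst hb1
      have ha1 : IsUnit a := by
        have := hab
        rwa [isCoprime_zero_right] at this
      refine ⟨(0, 1), ⟨isCoprime_one_right, Or.inr ⟨rfl, by norm_num⟩⟩, ?_⟩
      simp only [dot]
      rw [hb]; simp

lemma Nrm.ne_zero {l : ℤ × ℤ} (h : Nrm l) : l ≠ 0 := by
  rw [ne_zero_iff]
  rcases h.2 with h1 | ⟨_, h1⟩
  · exact Or.inl h1.ne'
  · exact Or.inr h1.ne'

/-- Vectors killing the same nonzero vector are multiples of the primitive one. -/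
lemma Nrm.exists_mul {l r m : ℤ × ℤ} (hl : Nrm l) (hm : m ≠ 0) (h1 : dot l m = 0)
    (h2 : dot r m = 0) : ∃ k : ℤ, r.1 = k * l.1 ∧ r.2 = k * l.2 := by
  have hc : r.1 * l.2 - r.2 * l.1 = 0 := by
    unfold dot at h1 h2
    rcases ne_zero_iff.1 hm with h | h
    · have : (r.1 * l.2 - r.2 * l.1) * m.1 = 0 := by linear_combination l.2 * h2 - r.2 * h1
      exact (mul_eq_zero.1 this).resolve_right h
    · have : (r.1 * l.2 - r.2 * l.1) * m.2 = 0 := by linear_combination r.1 * h1 - l.1 * h2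
      exact (mul_eq_zero.1 this).resolve_right h
  obtain ⟨u, v, huv⟩ := hl.1
  refine ⟨u * r.1 + v * r.2, ?_, ?_⟩
  · linear_combination (-r.1) * huv + v * hc
  · linear_combination (-r.2) * huv - u * hc

lemma Nrm.unique {l l' m : ℤ × ℤ} (hl : Nrm l) (hl' : Nrm l') (hm : m ≠ 0) (h1 : dot l m = 0)
    (h2 : dot l' m = 0) : l = l' := by
  obtain ⟨k, h3, h4⟩ := hl.exists_mul hm h1 h2
  obtain ⟨j, h5, h6⟩ := hl'.exists_mul hm h2 h1
  have hjk : j * k = 1 := by
    obtain ⟨u, v, huv⟩ := hl.1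
    have e1 : l.1 = j * k * l.1 := by rw [mul_assoc, ← h3, ← h5]
    have e2 : l.2 = j * k * l.2 := by rw [mul_assoc, ← h4, ← h6]
    linear_combination (j * k - 1) * huv * (-1) + (-u) * e1 + (-v) * e2
  rcases Int.eq_one_or_neg_one_of_mul_eq_one' hjk with ⟨h7, h8⟩ | ⟨h7, h8⟩
  · subst h8
    exact Prod.ext (by rw [h3]; ring) (by rw [h4]; ring)
  · exfalso
    subst h8
    rcases hl.2 with h9 | ⟨h9, h9'⟩ <;> rcases hl'.2 with h10 | ⟨h10, h10'⟩ <;> nlinarith

/-- Normalised lifts for the pair `A, B`. -/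
structure NormLift (A B : Set T2) (l : ℤ × ℤ) (ωA ωB : T2 → ℝ) : Prop where
  nrm : Nrm l
  cA : ContinuousOn ωA Aᶜ
  lA : ∀ x ∈ Aᶜ, (ωA x : AddCircle (1 : ℝ)) = ev l x
  cB : ContinuousOn ωB Bᶜ
  lB : ∀ x ∈ Bᶜ, (ωB x : AddCircle (1 : ℝ)) = ev l x
  two : ∀ x ∈ Aᶜ ∩ Bᶜ, ωA x - ωB x = 0 ∨ ωA x - ωB x = 1
  zero : ∃ x ∈ Aᶜ ∩ Bᶜ, ωA x - ωB x = 0
  one : ∃ x ∈ Aᶜ ∩ Bᶜ, ωA x - ωB x = 1

lemma NormLift.symm {A B : Set T2} {l : ℤ × ℤ} {ωA ωB : T2 → ℝ} (h : NormLift A B l ωA ωB) :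
    NormLift B A l ωB (fun x => ωA x - 1) where
  nrm := h.nrm
  cA := h.cB
  lA := h.lB
  cB := h.cA.sub continuousOn_const
  lB := by
    intro x hx
    rw [← h.lA x hx]
    exact coe_eq_coe_iff.2 ⟨1, by simp⟩
  two := by
    intro x hx
    rcases h.two x ⟨hx.2, hx.1⟩ with h1 | h1
    · right; linarith
    · left; linarith
  zero := by
    obtain ⟨x, hx, h1⟩ := h.one
    exact ⟨x, ⟨hx.2, hx.1⟩, by linarith⟩
  one := by
    obtain ⟨x, hx, h1⟩ := h.zero
    exact ⟨x, ⟨hx.2, hx.1⟩, by linarith⟩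

lemma exists_int_of_coe {a b : ℝ} (h : (a : AddCircle (1 : ℝ)) = b) : ∃ n : ℤ, a - b = n := by
  obtain ⟨n, hn⟩ := coe_eq_coe_iff.1 h
  exact ⟨-n, by rw [hn]; push_cast; ring⟩

lemma ev_smul {r l : ℤ × ℤ} {k : ℤ} (h1 : r.1 = k * l.1) (h2 : r.2 = k * l.2) (x : T2) :
    ev r x = k • ev l x := by
  simp only [ev, h1, h2, mul_smul, smul_add]

/-- The key separation statement: an integer-valued continuous function on the complement of
`A ∪ B` is an affine function of the difference of the two lifts. -/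
lemma key_affine {A B : Set T2} (hA : IsCompact A) (hB : IsCompact B) (hd : Disjoint A B)
    (qA : IsPreconnected Aᶜ) (qB : IsPreconnected Bᶜ) {l : ℤ × ℤ} (hl : Nrm l) {m : ℤ × ℤ}
    (hm : m ≠ 0) (hRB : Rel Bᶜ m) (hlm : dot l m = 0) {ωA ωB : T2 → ℝ} (cA : ContinuousOn ωA Aᶜ)
    (lA : ∀ x ∈ Aᶜ, (ωA x : AddCircle (1 : ℝ)) = ev l x) (cB : ContinuousOn ωB Bᶜ)
    (lB : ∀ x ∈ Bᶜ, (ωB x : AddCircle (1 : ℝ)) = ev l x) (κ : T2 → ℝ)
    (hκ : ContinuousOn κ (Aᶜ ∩ Bᶜ)) (hκi : ∀ x ∈ Aᶜ ∩ Bᶜ, ∃ n : ℤ, κ x = n) :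
    ∃ r n : ℤ, ∀ x ∈ Aᶜ ∩ Bᶜ, κ x = -r * (ωA x - ωB x) + n := by
  obtain ⟨UA, UB, hUA, hUB, hAU, hBU, hdU⟩ := SeparatedNhds.of_isCompact_isCompact hA hB hd
  -- cutoff function
  obtain ⟨VA, hVA, hAVA, hVAU⟩ := exists_open_between_and_isCompact_closure hA hUA hAU
  obtain ⟨VB, hVB, hBVB, hVBU⟩ := exists_open_between_and_isCompact_closure hB hUB hBU
  have hdV : Disjoint (closure VA) (closure VB) := hdU.mono hVAU.1 hVBU.1
  obtain ⟨χ, hχA, hχB, -⟩ := exists_continuous_zero_one_of_isClosed (isClosed_closure (s := VA))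
    (isClosed_closure (s := VB)) hdV
  -- the two local representatives
  let gB : T2 → ℝ := fun x => χ x * κ x
  let gA : T2 → ℝ := fun x => (χ x - 1) * κ x
  have hUc : ∀ x : T2, x ∈ VA ∨ x ∈ VB ∨ x ∈ Aᶜ ∩ Bᶜ := by
    intro x
    by_cases h1 : x ∈ A
    · exact Or.inl (hAVA h1)
    · by_cases h2 : x ∈ B
      · exact Or.inr (Or.inl (hBVB h2))
      · exact Or.inr (Or.inr ⟨h1, h2⟩)
  have hopen : IsOpen (Aᶜ ∩ Bᶜ) := hA.isClosed.isOpen_compl.inter hB.isClosed.isOpen_compl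
  have hAB : ∀ x ∈ A, x ∈ Bᶜ := fun x hx hxB => Set.disjoint_left.1 hd hx hxB
  have hBA : ∀ x ∈ B, x ∈ Aᶜ := fun x hx hxA => Set.disjoint_left.1 hd hxA hx
  have cgB : ContinuousOn gB Bᶜ := by
    intro x hx
    by_cases hxA : x ∈ A
    · have h1 : gB =ᶠ[𝓝 x] fun _ => 0 := by
        filter_upwards [hVA.mem_nhds (hAVA hxA)] with y hy
        simp only [gB]
        rw [hχA (subset_closure hy)]; simp
      exact (continuousAt_const.congr h1.symm).continuousWithinAt
    · have h1 : ContinuousAt κ x := (hκ x ⟨hxA, hx⟩).continuousAt (hopen.mem_nhds ⟨hxA, hx⟩)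
      exact (χ.continuous.continuousAt.mul h1).continuousWithinAt
  have cgA : ContinuousOn gA Aᶜ := by
    intro x hx
    by_cases hxB : x ∈ B
    · have h1 : gA =ᶠ[𝓝 x] fun _ => 0 := by
        filter_upwards [hVB.mem_nhds (hBVB hxB)] with y hy
        simp only [gA]
        rw [hχB (subset_closure hy)]; simp
      exact (continuousAt_const.congr h1.symm).continuousWithinAt
    · have h1 : ContinuousAt κ x := (hκ x ⟨hx, hxB⟩).continuousAt (hopen.mem_nhds ⟨hx, hxB⟩)
      exact ((χ.continuous.continuousAt.sub continuousAt_const).mul h1).continuousWithinAt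
  have hcoe : ∀ x ∈ Aᶜ ∩ Bᶜ, (gA x : AddCircle (1 : ℝ)) = gB x := by
    intro x hx
    obtain ⟨n, hn⟩ := hκi x hx
    refine coe_eq_coe_iff.2 ⟨n, ?_⟩
    simp only [gA, gB]
    rw [hn]; ring
  -- the global circle-valued function
  let q : T2 → AddCircle (1 : ℝ) := fun x =>
    (by classical exact if x ∈ B then (gA x : AddCircle (1 : ℝ)) else gB x)
  have hqB : ∀ x ∈ Bᶜ, q x = gB x := fun x hx => by
    simp only [q]; exact if_neg hx
  have hqA : ∀ x ∈ Aᶜ, q x = gA x := fun x hx => by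
    by_cases hxB : x ∈ B
    · simp only [q]; exact if_pos hxB
    · rw [hqB x hxB, hcoe x ⟨hx, hxB⟩]
  have hq : Continuous q := by
    rw [continuous_iff_continuousAt]
    intro x
    by_cases hxA : x ∈ A
    · have h1 : q =ᶠ[𝓝 x] fun y => (gB y : AddCircle (1 : ℝ)) := by
        filter_upwards [hB.isClosed.isOpen_compl.mem_nhds (hAB x hxA)] with y hy
        exact hqB y hy
      refine ContinuousAt.congr ?_ h1.symm
      exact continuous_coeC.continuousAt.comp
        ((cgB x (hAB x hxA)).continuousAt (hB.isClosed.isOpen_compl.mem_nhds (hAB x hxA)))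
    · have h1 : q =ᶠ[𝓝 x] fun y => (gA y : AddCircle (1 : ℝ)) := by
        filter_upwards [hA.isClosed.isOpen_compl.mem_nhds hxA] with y hy
        exact hqA y hy
      refine ContinuousAt.congr ?_ h1.symm
      exact continuous_coeC.continuousAt.comp
        ((cgA x hxA).continuousAt (hA.isClosed.isOpen_compl.mem_nhds hxA))
  obtain ⟨r, h, hh, hr⟩ := exists_char q hq
  have hrB : HasLift r Bᶜ := by
    refine ⟨fun x => gB x - h x, cgB.sub hh.continuousOn, fun x hx => ?_⟩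
    rw [AddCircle.coe_sub, ← hqB x hx, hr x]; simp
  obtain ⟨k, hk1, hk2⟩ := hl.exists_mul hm hlm (dot_eq_zero_of_hasLift hrB hRB)
  have hkev : ∀ x, ev r x = k • ev l x := ev_smul hk1 hk2
  obtain ⟨nB, hnB⟩ := const_of_int qB (h := fun x => k * ωB x - (gB x - h x))
    ((continuousOn_const.mul cB).sub (cgB.sub hh.continuousOn)) (by
      intro x hx
      apply exists_int_of_coe
      have e1 : ((k * ωB x : ℝ) : AddCircle (1 : ℝ)) = k • (ωB x : AddCircle (1 : ℝ)) := by
        rw [← zsmul_eq_mul]; rfl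
      rw [e1, lB x hx, ← hkev, AddCircle.coe_sub, ← hqB x hx, hr x]; simp)
  obtain ⟨nA, hnA⟩ := const_of_int qA (h := fun x => k * ωA x - (gA x - h x))
    ((continuousOn_const.mul cA).sub (cgA.sub hh.continuousOn)) (by
      intro x hx
      apply exists_int_of_coe
      have e1 : ((k * ωA x : ℝ) : AddCircle (1 : ℝ)) = k • (ωA x : AddCircle (1 : ℝ)) := by
        rw [← zsmul_eq_mul]; rfl
      rw [e1, lA x hx, ← hkev, AddCircle.coe_sub, ← hqA x hx, hr x]; simp)
  refine ⟨k, nA - nB, fun x hx => ?_⟩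
  have e1 := hnA x hx.1
  have e2 := hnB x hx.2
  simp only [gA, gB] at e1 e2
  push_cast
  linear_combination e1 - e2

/-- Existence of normalised lifts. -/
theorem GoodPair.exists_normLift {A B : Set T2} (h : GoodPair A B) :
    ∃ l ωA ωB, NormLift A B l ωA ωB := by
  classical
  obtain ⟨m0, hm0, hRA0, hall⟩ := h.exists_direction
  obtain ⟨m0', hm0', hRB0, hall'⟩ := h.symm.exists_direction
  obtain ⟨l, hl, hlm⟩ := exists_nrm hm0
  have hdot : ∀ m, cross m m0 = 0 → dot l m = 0 := by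
    intro m hm
    unfold dot cross at *
    rcases ne_zero_iff.1 hm0 with h0 | h0
    · have : (l.1 * m.1 + l.2 * m.2) * m0.1 = 0 := by linear_combination m.1 * hlm - l.2 * hm
      exact (mul_eq_zero.1 this).resolve_right h0
    · have : (l.1 * m.1 + l.2 * m.2) * m0.2 = 0 := by linear_combination m.2 * hlm + l.1 * hm
      exact (mul_eq_zero.1 this).resolve_right h0
  obtain ⟨ωA, cA, lA⟩ := hasLift_of_rel h.cA.isClosed.isOpen_compl h.qA l
    fun m hm => hdot m (hall m (Or.inl hm))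
  obtain ⟨ωB, cB, lB⟩ := hasLift_of_rel h.cB.isClosed.isOpen_compl h.qB l
    fun m hm => hdot m (hall m (Or.inr hm))
  have hRBm : Rel Bᶜ m0' := hRB0
  have hlm' : dot l m0' = 0 := hdot m0' (hall m0' (Or.inr hRB0))
  have hκint : ∀ x ∈ Aᶜ ∩ Bᶜ, ∃ n : ℤ, ωA x - ωB x = n := by
    intro x hx
    apply exists_int_of_coe
    rw [lA x hx.1, lB x hx.2]
  have hcont : ContinuousOn (fun x => ωA x - ωB x) (Aᶜ ∩ Bᶜ) :=
    (cA.mono inter_subset_left).sub (cB.mono inter_subset_right)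
  have hopen : IsOpen (Aᶜ ∩ Bᶜ) := h.cA.isClosed.isOpen_compl.inter h.cB.isClosed.isOpen_compl
  have hAB : ∀ x ∈ A, x ∈ Bᶜ := fun x hx hxB => Set.disjoint_left.1 h.dj hx hxB
  -- the difference is not constant
  have hnc : ∀ c : ℝ, ∃ x ∈ Aᶜ ∩ Bᶜ, ωA x - ωB x ≠ c := by
    intro c
    by_contra hcon
    push Not at hcon
    -- glue to a global lift
    obtain hne | hne := (Aᶜ ∩ Bᶜ).eq_empty_or_nonempty
    · -- then the torus is the disjoint union of two closed sets
      have hcover : A ∪ B = univ := by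
        rw [← compl_empty_iff, compl_union]; exact hne
      have hAne : A.Nonempty := by
        by_contra hA
        rw [not_nonempty_iff_eq_empty] at hA
        subst hA
        exact h.eA ⟨fun _ => 0, by simp, by simp⟩
      have hBne : B.Nonempty := by
        by_contra hB
        rw [not_nonempty_iff_eq_empty] at hB
        subst hB
        exact h.eB ⟨fun _ => 0, by simp, by simp⟩
      have hBc : Bᶜ = A := by
        ext x
        constructor
        · intro hx
          rcases (hcover ▸ mem_univ x : x ∈ A ∪ B) with h1 | h1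
          · exact h1
          · exact absurd h1 hx
        · exact hAB x
      have hclopen : IsClopen A := ⟨h.cA.isClosed, hBc ▸ h.cB.isClosed.isOpen_compl⟩
      rcases isClopen_iff.1 hclopen with h1 | h1
      · exact hAne.ne_empty h1
      · obtain ⟨y, hy⟩ := hBne
        exact hAB y (h1 ▸ mem_univ y) hy
    · obtain ⟨x1, hx1⟩ := hne
      obtain ⟨n, hn⟩ := hκint x1 hx1
      have hcn : c = n := by rw [← hn, hcon x1 hx1]
      let ω : T2 → ℝ := fun x => if x ∈ A then ωB x + c else ωA x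
      have hωA : ∀ x ∈ Aᶜ, ω x = ωA x := fun x hx => if_neg hx
      have hωB : ∀ x ∈ Bᶜ, ω x = ωB x + c := by
        intro x hx
        by_cases hxA : x ∈ A
        · exact if_pos hxA
        · rw [hωA x hxA]
          linarith [hcon x ⟨hxA, hx⟩]
      have hω : Continuous ω := by
        rw [continuous_iff_continuousAt]
        intro x
        by_cases hxA : x ∈ A
        · have h1 : ω =ᶠ[𝓝 x] fun y => ωB y + c := by
            filter_upwards [h.cB.isClosed.isOpen_compl.mem_nhds (hAB x hxA)] with y hy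
            exact hωB y hy
          refine ContinuousAt.congr ?_ h1.symm
          exact ((cB x (hAB x hxA)).continuousAt
            (h.cB.isClosed.isOpen_compl.mem_nhds (hAB x hxA))).add continuousAt_const
        · have h1 : ω =ᶠ[𝓝 x] ωA := by
            filter_upwards [h.cA.isClosed.isOpen_compl.mem_nhds hxA] with y hy
            exact hωA y hy
          exact ((cA x hxA).continuousAt (h.cA.isClosed.isOpen_compl.mem_nhds hxA)).congr h1.symm
      have hlift : HasLift l univ := by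
        refine ⟨ω, hω.continuousOn, fun x _ => ?_⟩
        by_cases hxA : x ∈ A
        · rw [hωB x (hAB x hxA), ← lB x (hAB x hxA), hcn]
          exact coe_eq_coe_iff.2 ⟨-n, by push_cast; ring⟩
        · rw [hωA x hxA, lA x hxA]
      have hRel : ∀ m, Rel univ m := fun m => ⟨0, by
        rw [preimage_univ]
        exact (isPathConnected_univ (X := ℂ)).joinedIn 0 trivial (0 + lat m) trivial⟩
      have e1 := dot_eq_zero_of_hasLift hlift (hRel (1, 0))
      have e2 := dot_eq_zero_of_hasLift hlift (hRel (0, 1))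
      simp only [dot, mul_one, mul_zero, add_zero, zero_add] at e1 e2
      exact hl.ne_zero (Prod.ext e1 e2)
  -- choose a value `a`
  obtain ⟨xa, hxa, -⟩ := hnc 0
  obtain ⟨a0, ha0⟩ := hκint xa hxa
  obtain ⟨xb, hxb, hab⟩ := hnc a0
  obtain ⟨b0, hb0⟩ := hκint xb hxb
  -- for two distinct values the indicator argument
  have hind : ∀ a b : ℤ, a ≠ b → (∃ x ∈ Aᶜ ∩ Bᶜ, ωA x - ωB x = a) →
      (∃ x ∈ Aᶜ ∩ Bᶜ, ωA x - ωB x = b) →
      (b - a = 1 ∨ b - a = -1) ∧ ∀ x ∈ Aᶜ ∩ Bᶜ, ωA x - ωB x = a ∨ ωA x - ωB x = b := by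
    rintro a b hne ⟨x, hx, hxa⟩ ⟨y, hy, hyb⟩
    let κ : T2 → ℝ := fun x => if ωA x - ωB x = a then 1 else 0
    have hκc : ContinuousOn κ (Aᶜ ∩ Bᶜ) := by
      intro x hx
      have h1 : ContinuousAt (fun x => ωA x - ωB x) x :=
        (hcont x hx).continuousAt (hopen.mem_nhds hx)
      have h2 : ∀ᶠ y in 𝓝 x, |ωA y - ωB y - (ωA x - ωB x)| < 1 := by
        have := (Metric.continuousAt_iff'.1 h1) 1 one_pos
        filter_upwards [this] with y hy
        rwa [Real.dist_eq] at hy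
      have h3 : κ =ᶠ[𝓝 x] fun _ => κ x := by
        filter_upwards [h2, hopen.mem_nhds hx] with y hy hyo
        obtain ⟨n, hn⟩ := hκint x hx
        obtain ⟨n', hn'⟩ := hκint y hyo
        rw [hn, hn'] at hy
        have h4 : |((n' - n : ℤ) : ℝ)| < 1 := by push_cast; exact hy
        have h5 : n' - n = 0 := by
          rw [← Int.cast_abs] at h4
          have : |n' - n| < 1 := by exact_mod_cast h4
          rwa [Int.abs_lt_one_iff] at this
        have h6 : n' = n := by omega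
        simp only [κ]
        rw [hn, hn', h6]
      exact (continuousAt_const.congr h3.symm).continuousWithinAt
    obtain ⟨r, n, hrn⟩ := key_affine h.cA h.cB h.dj h.qA h.qB hl hm0' hRBm hlm' cA lA cB lB κ hκc
      (by
        intro x _
        by_cases hh : ωA x - ωB x = a
        · exact ⟨1, by simp [κ, hh]⟩
        · exact ⟨0, by simp [κ, hh]⟩)
    have e1 := hrn x hx
    have e2 := hrn y hy
    have hyb' : ¬ (ωA y - ωB y = a) := by
      rw [hyb]; intro hh; exact hne (by exact_mod_cast hh.symm)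
    simp only [κ, hxa, if_true] at e1
    simp only [κ, if_neg hyb'] at e2
    rw [hyb] at e2
    have e3 : (r : ℝ) * (b - a) = 1 := by linear_combination e2 - e1
    have e4 : r * (b - a) = 1 := by exact_mod_cast e3
    have hr0 : (r : ℝ) ≠ 0 := by
      intro h0; rw [h0] at e3; simp at e3
    refine ⟨?_, ?_⟩
    · rcases Int.eq_one_or_neg_one_of_mul_eq_one' e4 with ⟨_, h⟩ | ⟨_, h⟩
      · exact Or.inl h
      · exact Or.inr h
    · intro z hz
      by_cases hza : ωA z - ωB z = a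
      · exact Or.inl hza
      · right
        have e5 := hrn z hz
        simp only [κ, if_neg hza] at e5
        have : (r : ℝ) * (ωA z - ωB z - b) = 0 := by linear_combination e5 - e2
        rcases mul_eq_zero.1 this with h | h
        · exact absurd h hr0
        · linarith
  have hne : a0 ≠ b0 := by
    intro hh
    apply hab
    rw [hb0, ← hh]
  obtain ⟨hdiff, htwo⟩ := hind a0 b0 hne ⟨xa, hxa, ha0⟩ ⟨xb, hxb, hb0⟩
  -- the smaller value
  obtain ⟨c, hc1, hc0, hc2⟩ : ∃ c : ℤ, (∀ x ∈ Aᶜ ∩ Bᶜ, ωA x - ωB x = c ∨ ωA x - ωB x = c + 1) ∧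
      (∃ x ∈ Aᶜ ∩ Bᶜ, ωA x - ωB x = c) ∧ (∃ x ∈ Aᶜ ∩ Bᶜ, ωA x - ωB x = c + 1) := by
    rcases hdiff with hd | hd
    · have : (b0 : ℝ) = a0 + 1 := by
        have : b0 = a0 + 1 := by omega
        rw [this]; push_cast; ring
      refine ⟨a0, fun x hx => ?_, ⟨xa, hxa, ha0⟩, ⟨xb, hxb, by rw [hb0, this]⟩⟩
      rw [← this]; exact htwo x hx
    · have : (a0 : ℝ) = b0 + 1 := by
        have : a0 = b0 + 1 := by omega
        rw [this]; push_cast; ring
      refine ⟨b0, fun x hx => ?_, ⟨xb, hxb, hb0⟩, ⟨xa, hxa, by rw [ha0, this]⟩⟩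
      rw [← this]; exact (htwo x hx).symm
  refine ⟨l, ωA, fun x => ωB x + c, hl, cA, lA, cB.add continuousOn_const, ?_, ?_, ?_, ?_⟩
  · intro x hx
    rw [← lB x hx]
    exact coe_eq_coe_iff.2 ⟨-c, by push_cast; ring⟩
  · intro x hx
    rcases hc1 x hx with h1 | h1
    · left; linarith
    · right; linarith
  · obtain ⟨x, hx, h1⟩ := hc0
    exact ⟨x, hx, by linarith⟩
  · obtain ⟨x, hx, h1⟩ := hc2
    exact ⟨x, hx, by linarith⟩

end Pool.Agent.Lib_MP_22bcea_gt
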