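import Pool.Agent.Lib_MP_22bcea_gt.Torus3

/-!
# Comparison of normalised lifts
-/

open Topology Set Filter

namespace Pool.Agent.Lib_MP_22bcea_gt

lemma NormLift.hasLiftA {A B : Set T2} {l : ℤ × ℤ} {ωA ωB : T2 → ℝ} (h : NormLift A B l ωA ωB) :
    HasLift l Aᶜ := ⟨ωA, h.cA, h.lA⟩

lemma NormLift.eq_of_rel {A B A' B' : Set T2} {l l' : ℤ × ℤ} {ωA ωB ωA' ωB' : T2 → ℝ}
    (h : NormLift A B l ωA ωB) (h' : NormLift A' B' l' ωA' ωB') {U : Set T2} (hU : U ⊆ Aᶜ)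
    (hU' : U ⊆ A'ᶜ) {m : ℤ × ℤ} (hm : m ≠ 0) (hR : Rel U m) : l = l' :=
  h.nrm.unique h'.nrm hm (dot_eq_zero_of_hasLift (h.hasLiftA.mono hU) hR)
    (dot_eq_zero_of_hasLift (h'.hasLiftA.mono hU') hR)

lemma NormLift.compare {A B A' B' : Set T2} {l : ℤ × ℤ} {ωA ωB ωA' ωB' : T2 → ℝ}
    (h : NormLift A B l ωA ωB) (h' : NormLift A' B' l ωA' ωB') {KA KB : Set T2}
    (hKA : IsPreconnected KA) (hKB : IsPreconnected KB) (hA : KA ⊆ Aᶜ) (hA' : KA ⊆ A'ᶜ)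
    (hB : KB ⊆ Bᶜ) (hB' : KB ⊆ B'ᶜ) (h0 : ∃ x ∈ KA ∩ KB, ωA x - ωB x = 0)
    (h1 : ∃ x ∈ KA ∩ KB, ωA x - ωB x = 1) :
    ∃ j : ℤ, (∀ x ∈ KA, ωA' x = ωA x + j) ∧ (∀ x ∈ KB, ωB' x = ωB x + j) := by
  obtain ⟨a, ha⟩ := const_of_int hKA (h := fun x => ωA' x - ωA x)
    ((h'.cA.mono hA').sub (h.cA.mono hA)) (fun x hx => by
      apply exists_int_of_coe
      rw [h'.lA x (hA' hx), h.lA x (hA hx)])
  obtain ⟨b, hb⟩ := const_of_int hKB (h := fun x => ωB' x - ωB x)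
    ((h'.cB.mono hB').sub (h.cB.mono hB)) (fun x hx => by
      apply exists_int_of_coe
      rw [h'.lB x (hB' hx), h.lB x (hB hx)])
  obtain ⟨x, hx, hx0⟩ := h0
  obtain ⟨y, hy, hy1⟩ := h1
  have ex1 := ha x hx.1
  have ex2 := hb x hx.2
  have ey1 := ha y hy.1
  have ey2 := hb y hy.2
  have tx := h'.two x ⟨hA' hx.1, hB' hx.2⟩
  have ty := h'.two y ⟨hA' hy.1, hB' hy.2⟩
  have hx' : ωA' x - ωB' x = ((a - b : ℤ) : ℝ) := by push_cast; linarith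
  have hy' : ωA' y - ωB' y = ((a - b + 1 : ℤ) : ℝ) := by push_cast; linarith
  rw [hx'] at tx
  rw [hy'] at ty
  have hab : a = b := by
    have t1 : a - b = 0 ∨ a - b = 1 := by
      rcases tx with t | t
      · left; exact_mod_cast t
      · right; exact_mod_cast t
    have t2 : a - b + 1 = 0 ∨ a - b + 1 = 1 := by
      rcases ty with t | t
      · left; exact_mod_cast t
      · right; exact_mod_cast t
    omega
  subst hab
  exact ⟨a, fun x hx => by linarith [ha x hx], fun x hx => by linarith [hb x hx]⟩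

/-- The odd function attached to a normalised lift. -/
noncomputable def pairFun (ωA ωB : T2 → ℝ) (x y : T2) : ℂ :=
  Complex.exp (((ωB x + ωA y : ℝ) : ℂ) * (Real.pi * Complex.I))

lemma pairFun_ne_zero (ωA ωB : T2 → ℝ) (x y : T2) : pairFun ωA ωB x y ≠ 0 :=
  Complex.exp_ne_zero _

lemma pairFun_shift {ωA ωB ωA' ωB' : T2 → ℝ} {x y : T2} {j : ℤ} (h1 : ωB' x = ωB x + j)
    (h2 : ωA' y = ωA y + j) : pairFun ωA' ωB' x y = pairFun ωA ωB x y := by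
  unfold pairFun
  rw [h1, h2, Complex.exp_eq_exp_iff_exists_int]
  exact ⟨j, by push_cast; ring⟩

lemma pairFun_swap (ωA ωB : T2 → ℝ) (x y : T2) :
    pairFun ωB (fun z => ωA z - 1) y x = - pairFun ωA ωB x y := by
  unfold pairFun
  have : (((ωA y - 1 + ωB x : ℝ) : ℂ) * (Real.pi * Complex.I)) =
      ((ωB x + ωA y : ℝ) : ℂ) * (Real.pi * Complex.I) - Real.pi * Complex.I := by
    push_cast; ring
  rw [this, Complex.exp_sub, Complex.exp_pi_mul_I, div_neg, div_one]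

end Pool.Agent.Lib_MP_22bcea_gt
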